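import Pool.Agent.Work.MP_8f87b2_end.End

/-!
# MP_8f87b2_co: the words of the mirrored bead free absorbers are disjoint

`aw R Q B S i`, `i < 20`, are the words of the mirrored absorber `((Q))R`, `S((Q))B` (the order of
`w20M`). `A0D d R B S`: smallest soliton `c = d + 3`, `Q = [c - 2] = pc (d + 1)`, `R` heavy, `c` in the
content of `R`, the top of `R` is larger than `c`, `cont B + cont S = cont R`, `ht S = ht R`.
Main result `A0_inj`: equal words have the same index, the same `d`, and the same `R` resp. `B, S`,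
or they are word 0 of one and word 10 of the other.
-/

set_option autoImplicit false

namespace Pool.OddHC

open Finset BinaryTree Multiset

/-! ### Components -/

/-- number of components -/
def nc : BinaryTree Unit → ℕ
  | .nil => 0
  | .node _ _ B => nc B + 1

/-- inside of the first component -/
def fs : BinaryTree Unit → BinaryTree Unit
  | .nil => .nil
  | .node _ A _ => A

/-- without the first component -/
def tl : BinaryTree Unit → BinaryTree Unit
  | .nil => .nil
  | .node _ _ B => B

/-- inside of the last component -/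
def ls : BinaryTree Unit → BinaryTree Unit
  | .nil => .nil
  | .node _ A B => if nc B = 0 then A else ls B

theorem nc_node (A B : BinaryTree Unit) : nc (A △ B) = nc B + 1 := rfl

theorem nc_nil : nc .nil = 0 := rfl

theorem fs_node (A B : BinaryTree Unit) : fs (A △ B) = A := rfl

theorem tl_node (A B : BinaryTree Unit) : tl (A △ B) = B := rfl

theorem nc_eq_zero {t : BinaryTree Unit} : nc t = 0 ↔ t = .nil := by
  cases t with
  | nil => simp [nc]
  | node _ A B => simp [nc]

theorem nc_pos {t : BinaryTree Unit} (h : t ≠ .nil) : 1 ≤ nc t :=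
  Nat.one_le_iff_ne_zero.2 fun h1 => h (nc_eq_zero.1 h1)

theorem nc_app (P Q : BinaryTree Unit) : nc (app P Q) = nc P + nc Q := by
  induction P with
  | nil => rw [app, nc, zero_add]
  | node _ A B _ ih =>
    change nc (app B Q) + 1 = nc B + 1 + nc Q
    rw [ih]
    ring

theorem ls_single (A : BinaryTree Unit) : ls (A △ .nil) = A := rfl

theorem ls_node (A : BinaryTree Unit) {B : BinaryTree Unit} (h : B ≠ .nil) : ls (A △ B) = ls B := by
  have h1 := nc_pos h
  change (if nc B = 0 then A else ls B) = ls B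
  rw [if_neg (by omega)]

theorem ls_app (P : BinaryTree Unit) {Q : BinaryTree Unit} (h : Q ≠ .nil) :
    ls (app P Q) = ls Q := by
  induction P with
  | nil => rfl
  | node _ A B _ ih =>
    change ls (A △ app B Q) = ls Q
    rw [ls_node, ih]
    intro h1
    have h2 := congrArg nc h1
    rw [nc_app, nc_nil] at h2
    have h3 := nc_pos h
    omega

theorem fs_app {P : BinaryTree Unit} (h : P ≠ .nil) (Q : BinaryTree Unit) :
    fs (app P Q) = fs P := by
  cases P with
  | nil => exact absurd rfl h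
  | node _ A B => rfl

theorem app_cancel_left (P : BinaryTree Unit) {X Y : BinaryTree Unit} (h : app P X = app P Y) :
    X = Y := by
  apply wd_ext
  have h1 := congrArg wd h
  rw [wd_app, wd_app] at h1
  exact List.append_cancel_left h1

theorem app_cancel_right {X Y : BinaryTree Unit} (P : BinaryTree Unit) (h : app X P = app Y P) :
    X = Y := by
  apply wd_ext
  have h1 := congrArg wd h
  rw [wd_app, wd_app] at h1
  exact List.append_cancel_right h1

theorem app_snoc {X Y A A' : BinaryTree Unit} (h : app X (A △ .nil) = app Y (A' △ .nil)) :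
    X = Y ∧ A = A' := by
  have h1 := congrArg ls h
  rw [ls_app _ (by simp), ls_app _ (by simp), ls_single, ls_single] at h1
  subst h1
  exact ⟨app_cancel_right _ h, rfl⟩

/-! ### Light and heavy parts -/

theorem raise_add {L H : Multiset ℕ} {c : ℕ} (hL : ∀ x ∈ L, x < c) (hH : ∀ x ∈ H, c ≤ x)
    (h0 : H ≠ 0) : raise (L + H) = L + raise H := by
  have hm := sup_mem h0
  have hs : (L + H).sup = H.sup := by
    rw [sup_add']
    apply max_eq_right
    apply Multiset.sup_le.2
    intro x hx
    exact (hL x hx).le.trans (hH _ hm)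
  unfold raise
  rw [hs, Multiset.erase_add_right_pos L hm, Multiset.add_cons]

theorem raise_hv {H : Multiset ℕ} {c : ℕ} (hH : ∀ x ∈ H, c ≤ x) (h0 : H ≠ 0) :
    ∀ x ∈ raise H, c ≤ x := by
  intro x hx
  unfold raise at hx
  rw [Multiset.mem_cons] at hx
  rcases hx with rfl | hx
  · exact (hH _ (sup_mem h0)).trans (Nat.le_succ _)
  · exact hH x (Multiset.mem_of_mem_erase hx)

/-- the number of light solitons of the component `(X)` -/
def lo (d : ℕ) (X : BinaryTree Unit) : ℕ := Multiset.card ((raise (cont X)).filter (· < d + 3))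

theorem filter_lo {d : ℕ} {L H : Multiset ℕ} (hL : ∀ x ∈ L, x < d + 3) (hH : ∀ x ∈ H, d + 3 ≤ x) :
    (L + H).filter (· < d + 3) = L := by
  rw [Multiset.filter_add, Multiset.filter_eq_self.2 hL, Multiset.filter_eq_nil.2, add_zero]
  intro x hx h
  have := hH x hx
  omega

theorem lo_of {d : ℕ} {X : BinaryTree Unit} {L H : Multiset ℕ} (hc : cont X = L + H)
    (hL : ∀ x ∈ L, x < d + 3) (hH : ∀ x ∈ H, d + 3 ≤ x) (h0 : H ≠ 0) :
    lo d X = Multiset.card L := by
  unfold lo
  rw [hc, raise_add hL hH h0, filter_lo hL (raise_hv hH h0)]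

theorem lo_nil (d : ℕ) : lo d .nil = 1 := by
  unfold lo
  rw [cont_nil, raise_zero, Multiset.filter_singleton, if_pos (by omega)]
  rfl

theorem raise_pc (e : ℕ) : raise (cont (pc e)) = {e + 1} := by
  have h := cont_pc e
  rw [pc, cont_node, cont_nil, add_zero] at h
  exact h

theorem lo_pc {d e : ℕ} (h : e < d + 2) : lo d (pc e) = 1 := by
  unfold lo
  rw [raise_pc, Multiset.filter_singleton, if_pos (by omega)]
  rfl

/-- all solitons of size at least `d + 3` -/
def Hv (d : ℕ) (X : BinaryTree Unit) : Prop := ∀ x ∈ cont X, d + 3 ≤ x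

theorem lo_zero {d : ℕ} {X : BinaryTree Unit} (h : ∀ x ∈ raise (cont X), d + 3 ≤ x) :
    lo d X = 0 := by
  unfold lo
  rw [Multiset.filter_eq_nil.2, Multiset.card_zero]
  intro x hx h1
  have := h x hx
  omega

theorem lo_hv {d : ℕ} {X : BinaryTree Unit} (h : Hv d X) (h0 : X ≠ .nil) : lo d X = 0 :=
  lo_zero (raise_hv h fun h1 => h0 (cont_eq_zero.1 h1))

theorem Hv.fs {d : ℕ} {X : BinaryTree Unit} (h : Hv d X) (h0 : X ≠ .nil) : lo d (fs X) = 0 := by
  cases X with
  | nil => exact absurd rfl h0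
  | node _ A B =>
    apply lo_zero
    intro x hx
    exact h x (by rw [cont]; exact Multiset.mem_add.2 (Or.inl hx))

theorem Hv.tl {d : ℕ} {X : BinaryTree Unit} (h : Hv d X) : Hv d (tl X) := by
  cases X with
  | nil => exact h
  | node _ A B =>
    intro x hx
    exact h x (by rw [cont]; exact Multiset.mem_add.2 (Or.inr hx))

theorem Hv.ls {d : ℕ} {X : BinaryTree Unit} (h : Hv d X) (h0 : X ≠ .nil) : lo d (ls X) = 0 := by
  induction X with
  | nil => exact absurd rfl h0
  | node _ A B _ ih =>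
    by_cases hB : B = .nil
    · subst hB
      exact h.fs (by simp)
    · change lo d (OddHC.ls (A △ B)) = 0
      rw [ls_node A hB]
      exact ih h.tl hB

theorem Hv.fs_ne {d : ℕ} {X : BinaryTree Unit} (h : Hv d X) (h0 : X ≠ .nil) : OddHC.fs X ≠ .nil := by
  intro h1
  have h2 := h.fs h0
  rw [h1, lo_nil] at h2
  omega

theorem Hv.ls_ne {d : ℕ} {X : BinaryTree Unit} (h : Hv d X) (h0 : X ≠ .nil) : OddHC.ls X ≠ .nil := by
  intro h1
  have h2 := h.ls h0
  rw [h1, lo_nil] at h2
  omega

/-- the first light component -/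
theorem hv_split {d : ℕ} {x x' B B' : BinaryTree Unit} (hx : lo d x ≠ 0) (hx' : lo d x' ≠ 0) :
    ∀ {S S' : BinaryTree Unit}, Hv d S → Hv d S' → app S (x △ B) = app S' (x' △ B') →
      S = S' ∧ x = x' ∧ B = B' := by
  intro S
  induction S with
  | nil =>
    intro S' _ h' h
    cases S' with
    | nil =>
      have h1 := congrArg OddHC.fs h
      have h2 := congrArg OddHC.tl h
      exact ⟨rfl, h1, h2⟩
    | node _ A C =>
      have h1 := congrArg OddHC.fs h
      have h2 : x = A := h1
      have h3 := h'.fs (by simp)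
      rw [h2] at hx
      exact absurd h3 hx
  | node _ A C _ ih =>
    intro S' hS h' h
    cases S' with
    | nil =>
      have h1 := congrArg OddHC.fs h
      have h2 : A = x' := h1
      have h3 := hS.fs (by simp)
      rw [← h2] at hx'
      exact absurd h3 hx'
    | node _ A' C' =>
      have h1 : A = A' := congrArg OddHC.fs h
      have h2 : app C (x △ B) = app C' (x' △ B') := congrArg OddHC.tl h
      have hC' : Hv d C' := h'.tl
      obtain ⟨h3, h4, h5⟩ := ih hS.tl hC' h2
      exact ⟨by rw [h1, h3], h4, h5⟩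

/-! ### The words -/

/-- the words of the mirrored absorber -/
def aw (R Q B S : BinaryTree Unit) : ℕ → BinaryTree Unit
  | 0 => (Q △ .nil) △ R
  | 1 => .nil △ app Q (.nil △ R)
  | 2 => app Q (.nil △ app R (.nil △ .nil))
  | 3 => (app Q (.nil △ R)) △ .nil
  | 4 => app R ((.nil △ Q) △ .nil)
  | 5 => app R (.nil △ (Q △ .nil))
  | 6 => Q △ (R △ .nil)
  | 7 => (app R (.nil △ .nil)) △ Q
  | 8 => R △ (.nil △ Q)
  | 9 => app Q ((R △ .nil) △ .nil)
  | 10 => app S ((Q △ .nil) △ B)
  | 11 => app S (.nil △ app Q (.nil △ B))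
  | 12 => app Q (.nil △ app B (S △ .nil))
  | 13 => (app Q (.nil △ B)) △ S
  | 14 => app B ((app S (.nil △ Q)) △ .nil)
  | 15 => app B (S △ (Q △ .nil))
  | 16 => Q △ (B △ S)
  | 17 => (app B (S △ .nil)) △ Q
  | 18 => B △ app S (.nil △ Q)
  | _ => app Q ((B △ S) △ .nil)

/-- the data of a bead free node with at least two smallest solitons `d + 3`, not all equal -/
structure A0D (d : ℕ) (R B S : BinaryTree Unit) : Prop where
  hv : Hv d R
  memw : d + 3 ∈ cont R ∨ (1 ≤ d ∧ 2 ≤ Multiset.card (cont R) ∧ ∀ x ∈ cont R, d + 3 < x)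
  top : d + 3 < ht R
  eq : cont B + cont S = cont R
  hS : ht S = ht R

variable {d : ℕ} {R B S : BinaryTree Unit}

/-- for `d = 0` the part `3` is a part of `R` -/
theorem A0D.mem (h : A0D 0 R B S) : 0 + 3 ∈ cont R :=
  h.memw.resolve_right fun g => absurd g.1 (by omega)

theorem card_two {M : Multiset ℕ} {x : ℕ} (h : x ∈ M) (h1 : x < M.sup) : 2 ≤ Multiset.card M := by
  have h0 : M ≠ 0 := by
    rintro rfl
    exact absurd h (Multiset.notMem_zero _)
  have h2 := sup_mem h0
  obtain ⟨N, hN⟩ := Multiset.exists_cons_of_mem h2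
  rw [hN, Multiset.mem_cons] at h
  have h3 : x ∈ N := by
    rcases h with g | g
    · omega
    · exact g
  have h4 := Multiset.card_pos_iff_exists_mem.2 ⟨x, h3⟩
  rw [hN, Multiset.card_cons]
  omega

/-- at least two solitons -/
theorem A0D.cardR (h : A0D d R B S) : 2 ≤ Multiset.card (cont R) := by
  rcases h.memw with g | ⟨_, g, _⟩
  · exact card_two g (by rw [← ht_eq]; exact h.top)
  · exact g

theorem A0D.R_ne (h : A0D d R B S) : R ≠ .nil := by
  rintro rfl
  have := h.top
  rw [ht] at this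
  omega

theorem A0D.S_ne (h : A0D d R B S) : S ≠ .nil := by
  rintro rfl
  have := h.top
  have h1 := h.hS
  rw [ht] at h1
  omega

theorem A0D.hvB (h : A0D d R B S) : Hv d B := by
  intro x hx
  exact h.hv x (by rw [← h.eq]; exact Multiset.mem_add.2 (Or.inl hx))

theorem A0D.hvS (h : A0D d R B S) : Hv d S := by
  intro x hx
  exact h.hv x (by rw [← h.eq]; exact Multiset.mem_add.2 (Or.inr hx))

theorem cont_ne {X : BinaryTree Unit} (h : X ≠ .nil) : cont X ≠ 0 := fun h1 => h (cont_eq_zero.1 h1)

theorem light_of {M : Multiset ℕ} (h : M ⊆ {d + 1, 1, d + 2}) : ∀ x ∈ M, x < d + 3 := by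
  intro x hx
  have := h hx
  simp only [Multiset.insert_eq_cons, Multiset.mem_cons, Multiset.mem_singleton] at this
  omega

/-- small content of the class `κ` -/
def smc (d : ℕ) : ℕ → Multiset ℕ
  | 0 => 0
  | 1 => {d + 1} + {1} + {1}
  | 2 => {d + 1} + {1}
  | 3 => {d + 2} + {1}
  | 4 => {d + 2}
  | _ => {d + 1}

/-- the class of a word -/
def kap (e : Bool) : ℕ → ℕ
  | 0 => 0
  | 1 => 1
  | 2 => 1
  | 3 => 2
  | 4 => 3
  | 5 => 3
  | 6 => 4
  | 7 => 2
  | 8 => 2
  | 9 => 5
  | 10 => 0
  | 11 => 1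
  | 12 => 2
  | 13 => if e then 3 else 2
  | 14 => 2
  | 15 => 4
  | 16 => if e then 3 else 4
  | 17 => 5
  | 18 => if e then 1 else 2
  | _ => if e then 2 else 5

/-- the code of a profile (class, number of components, light solitons in the first and in the
last component) -/
def dc (κ n a b : ℕ) : ℕ :=
  if κ = 0 then 0
  else if κ = 1 then (if a = 0 then 11 else if b = 0 then 1 else 2)
  else if κ = 2 then (if b = 2 then (if n = 1 then 3 else 14) else if a = 2 then 13
    else if b = 0 then 12 else if n = 2 then 7 else if n = 3 then 8 else 18)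
  else if κ = 3 then (if b = 2 then 4 else if b = 1 then 5 else if a = 2 then 13 else 16)
  else if κ = 4 then (if b = 1 then 15 else if n = 2 then 6 else 16)
  else (if b = 1 then 17 else 9)

/-- the code of a word -/
def cd (e : Bool) : ℕ → ℕ
  | 10 => 0
  | 14 => if e then 3 else 14
  | 18 => if e then 2 else 18
  | 19 => if e then 7 else 9
  | i => i

/-- the pairs which are not separated by the profile -/
def spc (i j : ℕ) : Prop :=
  (i = 0 ∧ j = 10) ∨ (i = 2 ∧ j = 18) ∨ (i = 7 ∧ j = 19) ∨ (i = 3 ∧ j = 14) ∨ (i = 9 ∧ j = 19)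

instance (i j : ℕ) : Decidable (spc i j) := by unfold spc; infer_instance

theorem cd_pair : ∀ i < 20, ∀ j < 20, ∀ e e' : Bool, cd e i = cd e' j →
    i = j ∨ spc i j ∨ spc j i := by
  decide


theorem raise_single (a : ℕ) : raise {a} = {a + 1} := by
  unfold raise
  rw [Multiset.sup_singleton, Multiset.erase_singleton]
  rfl

theorem mem_raise {M : Multiset ℕ} {x : ℕ} (h : x ∈ M) (h1 : x ≠ M.sup) : x ∈ raise M := by
  unfold raise
  exact Multiset.mem_cons_of_mem ((Multiset.mem_erase_of_ne h1).2 h)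

theorem sup_mem_raise (M : Multiset ℕ) : M.sup + 1 ∈ raise M := by
  unfold raise
  exact Multiset.mem_cons_self _ _

theorem raise_two (d : ℕ) : raise ({d + 1} + {1}) = {d + 2} + {1} := by
  have hs : ({d + 1} + {1} : Multiset ℕ).sup = d + 1 := by
    rw [sup_add', Multiset.sup_singleton, Multiset.sup_singleton]
    omega
  unfold raise
  rw [hs, Multiset.erase_add_left_pos _ (Multiset.mem_singleton_self _), Multiset.erase_singleton,
    zero_add]
  rfl

/-- the content of a word: small class and heavy part -/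
theorem cont_aw (h : A0D d R B S) {e : Bool} (he : e = true ↔ B = .nil) {i : ℕ} (hi : i < 20) :
    ∃ H, cont (aw R (pc (d + 1)) B S i) = smc d (kap e i) + H ∧ (∀ x ∈ H, d + 3 ≤ x) ∧
      (d + 3 ∈ cont R →
        (d + 3 ∈ H ∨ (d + 3 ∉ H ∧ d + 4 ∈ H ∧ e = false ∧ (i = 13 ∨ i = 16 ∨ i = 18 ∨ i = 19)))) ∧
      (d + 3 ∈ cont R → kap e i = 0 → 2 ≤ H.count (d + 3)) := by
  obtain ⟨M, hM⟩ : ∃ M, M = cont R := ⟨_, rfl⟩
  obtain ⟨b, hb⟩ : ∃ b, b = cont B := ⟨_, rfl⟩
  obtain ⟨s, hs⟩ : ∃ s, s = cont S := ⟨_, rfl⟩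
  have hbs : b + s = M := by rw [hb, hs, hM, h.eq]
  have M0 : M ≠ 0 := by rw [hM]; exact cont_ne h.R_ne
  have s0 : s ≠ 0 := by rw [hs]; exact cont_ne h.S_ne
  have Mh : ∀ x ∈ M, d + 3 ≤ x := by rw [hM]; exact h.hv
  have bh : ∀ x ∈ b, d + 3 ≤ x := by rw [hb]; exact h.hvB
  have sh : ∀ x ∈ s, d + 3 ≤ x := by rw [hs]; exact h.hvS
  have Mt : d + 3 < M.sup := by rw [hM, ← ht_eq]; exact h.top
  have st : d + 3 < s.sup := by rw [hs, ← ht_eq, h.hS]; exact h.top
  have b0 : e = true ↔ b = 0 := by rw [he, hb, cont_eq_zero]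
  have l1 : ∀ x ∈ ({1} : Multiset ℕ), x < d + 3 := by
    intro x hx
    rw [Multiset.mem_singleton] at hx
    omega
  have lq : ∀ x ∈ ({d + 1} : Multiset ℕ), x < d + 3 := by
    intro x hx
    rw [Multiset.mem_singleton] at hx
    omega
  have lq1 : ∀ x ∈ ({d + 1} + {1} : Multiset ℕ), x < d + 3 := by
    intro x hx
    rw [Multiset.mem_add, Multiset.mem_singleton, Multiset.mem_singleton] at hx
    omega
  have Rh := raise_hv Mh M0
  have Rsh := raise_hv sh s0
  -- the heavy parts
  have h1 : d + 3 ∈ M → d + 3 ∈ raise M := fun Mm => mem_raise Mm (by omega)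
  have h2 : d + 3 ∈ M → d + 3 ∈ raise (raise M) := fun Mm =>
    mem_raise (h1 Mm) (by rw [sup_raise]; omega)
  have h3 : d + 3 ∈ M → d + 3 ∈ b + raise s := by
    intro Mm
    rw [← hbs, Multiset.mem_add] at Mm
    rw [Multiset.mem_add]
    exact Mm.imp_right fun g => mem_raise g (by omega)
  have h4 : ∀ x ∈ b + raise s, d + 3 ≤ x := by
    intro x hx
    rw [Multiset.mem_add] at hx
    exact hx.elim (bh x) (Rsh x)
  have h40 : b + raise s ≠ 0 := by
    intro g
    exact raise_ne_zero _ (add_eq_zero.1 g).2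
  have h5 : d + 3 ∈ M → d + 3 ∈ raise (b + raise s) := fun Mm => mem_raise (h3 Mm) (by
    rw [sup_add', sup_raise]
    omega)
  have h6 : b ≠ 0 → ∀ x ∈ raise b + s, d + 3 ≤ x := by
    intro g x hx
    rw [Multiset.mem_add] at hx
    exact hx.elim (raise_hv bh g x) (sh x)
  have h60 : raise b + s ≠ 0 := by
    intro g
    exact s0 (add_eq_zero.1 g).2
  have h7 : d + 3 ∈ M → d + 3 ∈ raise b + s ∨ (d + 3 ∉ raise b + s ∧ d + 4 ∈ raise b + s) := by
    intro Mm
    by_cases g : d + 3 ∈ raise b + s
    · exact Or.inl g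
    · refine Or.inr ⟨g, ?_⟩
      rw [← hbs, Multiset.mem_add] at Mm
      rw [Multiset.mem_add, not_or] at g
      rcases Mm with g1 | g1
      · have g2 : d + 3 = b.sup := by
          by_contra g3
          exact g.1 (mem_raise g1 g3)
        have g4 := sup_mem_raise b
        rw [← g2] at g4
        exact Multiset.mem_add.2 (Or.inl g4)
      · exact absurd g1 g.2
  have h8 : d + 3 ∈ M → d + 3 ∈ raise (raise b + s) ∨
      (d + 3 ∉ raise (raise b + s) ∧ d + 4 ∈ raise (raise b + s)) := by
    intro Mm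
    by_cases g : d + 3 ∈ raise (raise b + s)
    · exact Or.inl g
    · refine Or.inr ⟨g, ?_⟩
      have hsup : (raise b + s).sup = max (b.sup + 1) s.sup := by rw [sup_add', sup_raise]
      have g0 : d + 3 ∉ raise b + s := fun g1 => g (mem_raise g1 (by omega))
      rw [← hbs, Multiset.mem_add] at Mm
      rw [Multiset.mem_add, not_or] at g0
      rcases Mm with g1 | g1
      · have g2 : d + 3 = b.sup := by
          by_contra g3
          exact g0.1 (mem_raise g1 g3)
        have g4 := sup_mem_raise b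
        rw [← g2] at g4
        by_cases g5 : s.sup = d + 4
        · have g6 := sup_mem s0
          rw [g5] at g6
          unfold raise
          apply Multiset.mem_cons_of_mem
          change d + 4 ∈ (raise b + s).erase (raise b + s).sup
          rw [hsup, ← g2, g5, show max (d + 3 + 1) (d + 4) = d + 4 by omega,
            Multiset.erase_add_left_pos _ g4]
          exact Multiset.mem_add.2 (Or.inr g6)
        · exact mem_raise (Multiset.mem_add.2 (Or.inl g4)) (by omega)
      · exact absurd g1 g0.2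
  have h9 : b ≠ 0 → ∀ x ∈ raise (raise b + s), d + 3 ≤ x := fun g => raise_hv (h6 g) h60
  have hc : d + 3 ∈ M → 2 ≤ ({d + 3} + M).count (d + 3) := by
    intro Mm
    rw [Multiset.count_add, Multiset.count_singleton_self]
    have := Multiset.count_pos.2 Mm
    omega
  have hcm : ∀ x ∈ ({d + 3} + M : Multiset ℕ), d + 3 ≤ x := by
    intro x hx
    rw [Multiset.mem_add, Multiset.mem_singleton] at hx
    exact hx.elim (fun g => g.ge) (Mh x)
  have sM : e = true → s = M := by
    intro g
    rw [← hbs, b0.1 g, zero_add]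
  have bne : e = false → b ≠ 0 := by
    intro g g1
    rw [b0.2 g1] at g
    exact absurd g (by simp)
  have eq0 : cont ((pc (d + 1)) △ .nil) = {d + 2} := by
    have := cont_pc (d + 1)
    exact this
  have hq := cont_pc d
  have eq1 : raise {d + 1} = {d + 2} := raise_single _
  have eq2 : raise {d + 2} = {d + 3} := raise_single _
  have hz := raise_zero
  interval_cases i <;> simp only [kap, smc, aw, cont_node, cont_app, cont_nil, hq, eq1, eq2, hz,
    ← hM, ← hb, ← hs, add_zero]
  · refine ⟨{d + 3} + M, by abel, hcm, fun m => Or.inl ?_, fun m _ => hc m⟩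
    exact Multiset.mem_add.2 (Or.inr m)
  · exact ⟨M, by abel, Mh, fun m => Or.inl m, by simp⟩
  · exact ⟨M, by abel, Mh, fun m => Or.inl m, by simp⟩
  · refine ⟨raise M, ?_, Rh, fun m => Or.inl (h1 m), by simp⟩
    rw [← add_assoc, raise_add lq1 Mh M0]
  · refine ⟨M, ?_, Mh, fun m => Or.inl m, by simp⟩
    rw [add_comm {1}, raise_two]
    abel
  · exact ⟨M, by abel, Mh, fun m => Or.inl m, by simp⟩
  · exact ⟨raise M, by abel, Rh, fun m => Or.inl (h1 m), by simp⟩
  · refine ⟨raise M, ?_, Rh, fun m => Or.inl (h1 m), by simp⟩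
    rw [add_comm M, raise_add l1 Mh M0]
    abel
  · exact ⟨raise M, by abel, Rh, fun m => Or.inl (h1 m), by simp⟩
  · exact ⟨raise (raise M), rfl, raise_hv Rh (raise_ne_zero _), fun m => Or.inl (h2 m), by simp⟩
  · refine ⟨{d + 3} + M, by rw [← hbs]; abel, hcm, fun m => Or.inl ?_, fun m _ => hc m⟩
    exact Multiset.mem_add.2 (Or.inr m)
  · exact ⟨M, by rw [← hbs]; abel, Mh, fun m => Or.inl m, by simp⟩
  · exact ⟨b + raise s, by abel, h4, fun m => Or.inl (h3 m), by simp⟩
  · cases e with
    | true =>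
      refine ⟨M, ?_, Mh, fun m => Or.inl m, by simp⟩
      rw [b0.1 rfl, sM rfl, add_zero, raise_two]
      rfl
    | false =>
      refine ⟨raise b + s, ?_, h6 (bne rfl), ?_, by simp⟩
      · rw [← add_assoc, raise_add lq1 bh (bne rfl)]
        simp only [Bool.false_eq_true, if_false]
        abel
      · intro m
        rcases h7 m with g | g
        · exact Or.inl g
        · exact Or.inr ⟨g.1, g.2, rfl, by simp⟩
  · refine ⟨b + raise s, ?_, h4, fun m => Or.inl (h3 m), by simp⟩
    rw [add_comm s, raise_add (by rw [add_comm]; exact lq1) sh s0]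
    abel
  · exact ⟨b + raise s, by abel, h4, fun m => Or.inl (h3 m), by simp⟩
  · cases e with
    | true =>
      refine ⟨M, ?_, Mh, fun m => Or.inl m, by simp⟩
      rw [b0.1 rfl, sM rfl, raise_zero]
      simp only [if_true]
      abel
    | false =>
      refine ⟨raise b + s, ?_, h6 (bne rfl), ?_, by simp⟩
      · simp only [Bool.false_eq_true, if_false]
      · intro m
        rcases h7 m with g | g
        · exact Or.inl g
        · exact Or.inr ⟨g.1, g.2, rfl, by simp⟩
  · exact ⟨raise (b + raise s), by abel, raise_hv h4 h40, fun m => Or.inl (h5 m), by simp⟩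
  · cases e with
    | true =>
      refine ⟨M, ?_, Mh, fun m => Or.inl m, by simp⟩
      rw [b0.1 rfl, sM rfl, raise_zero]
      simp only [if_true]
      abel
    | false =>
      refine ⟨raise b + s, ?_, h6 (bne rfl), ?_, by simp⟩
      · simp only [Bool.false_eq_true, if_false]
        abel
      · intro m
        rcases h7 m with g | g
        · exact Or.inl g
        · exact Or.inr ⟨g.1, g.2, rfl, by simp⟩
  · cases e with
    | true =>
      refine ⟨raise M, ?_, Rh, fun m => Or.inl (h1 m), by simp⟩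
      rw [b0.1 rfl, sM rfl, raise_zero, raise_add l1 Mh M0]
      simp only [if_true]
      abel
    | false =>
      refine ⟨raise (raise b + s), ?_, h9 (bne rfl), ?_, by simp⟩
      · simp only [Bool.false_eq_true, if_false]
      · intro m
        rcases h8 m with g | g
        · exact Or.inl g
        · exact Or.inr ⟨g.1, g.2, rfl, by simp⟩


theorem app_pc (d : ℕ) (X : BinaryTree Unit) : app (pc (d + 1)) X = pc d △ X := rfl

theorem pc_succ (d : ℕ) : pc (d + 1) = pc d △ .nil := rfl

theorem lt_single {a c : ℕ} (h : a < c) : ∀ x ∈ ({a} : Multiset ℕ), x < c := by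
  intro x hx
  rw [Multiset.mem_singleton] at hx
  omega

theorem lt_pair {a b c : ℕ} (h : a < c) (h' : b < c) : ∀ x ∈ ({a} + {b} : Multiset ℕ), x < c := by
  intro x hx
  rw [Multiset.mem_add, Multiset.mem_singleton, Multiset.mem_singleton] at hx
  omega

theorem lo_two {d : ℕ} {X : BinaryTree Unit} (h : cont X = {d + 1} + {1}) : lo d X = 2 := by
  unfold lo
  rw [h, raise_two, Multiset.filter_eq_self.2 (lt_pair (by omega) (by omega))]
  rfl

theorem lo_qn {d : ℕ} {X : BinaryTree Unit} (h : Hv d X) : lo d (pc d △ (.nil △ X)) = 2 := by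
  have hc : cont (pc d △ (.nil △ X)) = ({d + 1} + {1}) + cont X := by
    rw [cont_node, cont_node, raise_pc, cont_nil, raise_zero, add_assoc]
  by_cases h0 : X = .nil
  · apply lo_two
    rw [hc, h0, cont_nil, add_zero]
  · rw [lo_of hc (lt_pair (by omega) (by omega)) h (cont_ne h0)]
    rfl

theorem lo_nq (d : ℕ) : lo d (.nil △ pc (d + 1)) = 2 := by
  apply lo_two
  rw [cont_node, cont_nil, raise_zero, cont_pc, add_comm]

theorem lo_rn {d : ℕ} {X : BinaryTree Unit} (h : Hv d X) (h0 : X ≠ .nil) :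
    lo d (app X (.nil △ .nil)) = 1 := by
  have hc : cont (app X (.nil △ .nil)) = {1} + cont X := by
    rw [cont_app, cont_node, cont_nil, raise_zero, add_zero, add_comm]
  rw [lo_of hc (lt_single (by omega)) h (cont_ne h0)]
  rfl

theorem lo_snq {d : ℕ} {X : BinaryTree Unit} (h : Hv d X) (h0 : X ≠ .nil) :
    lo d (app X (.nil △ pc (d + 1))) = 2 := by
  have hc : cont (app X (.nil △ pc (d + 1))) = ({1} + {d + 1}) + cont X := by
    rw [cont_app, cont_node, cont_nil, raise_zero, cont_pc, add_comm]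
  rw [lo_of hc (lt_pair (by omega) (by omega)) h (cont_ne h0)]
  rfl

theorem lo_ns {d : ℕ} {X : BinaryTree Unit} (h : Hv d X) (h0 : X ≠ .nil) :
    lo d (.nil △ X) = 1 := by
  have hc : cont (.nil △ X) = {1} + cont X := by
    rw [cont_node, cont_nil, raise_zero]
  rw [lo_of hc (lt_single (by omega)) h (cont_ne h0)]
  rfl

theorem Hv.node {d : ℕ} {X Y : BinaryTree Unit} (h : Hv d X) (h0 : X ≠ .nil) (h' : Hv d Y) :
    Hv d (X △ Y) := by
  intro x hx
  rw [cont_node, Multiset.mem_add] at hx
  exact hx.elim (raise_hv h (cont_ne h0) x) (h' x)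

theorem Hv.app {d : ℕ} {X Y : BinaryTree Unit} (h : Hv d X) (h' : Hv d Y) :
    Hv d (OddHC.app X Y) := by
  intro x hx
  rw [cont_app, Multiset.mem_add] at hx
  exact hx.elim (h x) (h' x)

theorem Hv.nil (d : ℕ) : Hv d .nil := by
  intro x hx
  rw [cont_nil] at hx
  exact absurd hx (Multiset.notMem_zero _)

/-- the profile of a word -/
theorem prof (h : A0D d R B S) {e : Bool} (he : e = true ↔ B = .nil) {i : ℕ} (hi : i < 20) :
    dc (kap e i) (nc (aw R (pc (d + 1)) B S i)) (lo d (fs (aw R (pc (d + 1)) B S i)))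
      (lo d (ls (aw R (pc (d + 1)) B S i))) = cd e i := by
  have R0 := h.R_ne
  have S0 := h.S_ne
  have nR := nc_pos R0
  have nS := nc_pos S0
  have ld := lo_pc (d := d) (e := d) (by omega)
  have ld1 := lo_pc (d := d) (e := d + 1) (by omega)
  have hB : e = false → B ≠ .nil := by
    intro g g1
    rw [he.2 g1] at g
    exact absurd g (by simp)
  have nn : ∀ A C : BinaryTree Unit, A △ C ≠ .nil := by simp
  interval_cases i
  · rfl
  · simp only [aw, app_pc, nc_node, fs_node, ls_node _ (nn _ _), ls_node _ R0, lo_nil,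
      h.hv.ls R0, kap, cd]
    rfl
  · simp only [aw, app_pc, nc_node, fs_node, ls_node _ (nn _ _), ld, kap, cd]
    rw [ls_node, ls_app _ (nn _ _), ls_single, lo_nil]
    · rfl
    · intro g
      have := congrArg nc g
      rw [nc_app, nc_node, nc_nil] at this
      omega
  · simp only [aw, app_pc, nc_node, nc_nil, fs_node, ls_single, lo_qn h.hv, kap, cd]
    rfl
  · simp only [aw, fs_app R0, ls_app _ (nn _ _), ls_single, h.hv.fs R0, lo_nq, kap, cd]
    rfl
  · simp only [aw, fs_app R0, ls_app _ (nn _ _), ls_node _ (nn _ _), ls_single, h.hv.fs R0, ld1,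
      kap, cd]
    rfl
  · simp only [aw, fs_node, ls_node _ (nn _ _), ls_single, nc_node, nc_nil, lo_hv h.hv R0, ld1,
      kap, cd]
    rfl
  · simp only [aw, fs_node, pc_succ, ls_node _ (nn _ _), ls_single, nc_node, nc_nil,
      lo_rn h.hv R0, ld, kap, cd]
    rfl
  · simp only [aw, fs_node, pc_succ, ls_node _ (nn _ _), ls_single, nc_node, nc_nil,
      lo_hv h.hv R0, ld, kap, cd]
    rfl
  · simp only [aw, app_pc, fs_node, ls_node _ (nn _ _), ls_single, nc_node, nc_nil,
      lo_hv (h.hv.node R0 (Hv.nil d)) (nn _ _), kap]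
    rfl
  · rfl
  · simp only [aw, fs_app S0, h.hvS.fs S0, kap, cd]
    rfl
  · simp only [aw, app_pc, fs_node, nc_node, ls_node _ (nn _ _), ld, kap, cd]
    rw [ls_node, ls_app _ (nn _ _), ls_single, lo_hv h.hvS S0]
    · rfl
    · intro g
      have := congrArg nc g
      rw [nc_app, nc_node, nc_nil] at this
      omega
  · simp only [aw, app_pc, fs_node, ls_node _ S0, lo_qn h.hvB, h.hvS.ls S0, kap, cd]
    cases e <;> rfl
  · simp only [aw, ls_app _ (nn _ _), ls_single, lo_snq h.hvS S0, kap, nc_app, nc_node, nc_nil]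
    cases e with
    | true =>
      rw [he.1 rfl, app, nc, fs_node, lo_snq h.hvS S0]
      rfl
    | false =>
      have g := nc_pos (hB rfl)
      simp only [dc, cd, Bool.false_eq_true, if_false]
      simp
      omega
  · simp only [aw, ls_app _ (nn _ _), ls_node _ (nn _ _), ls_single, ld1, kap, cd]
    rfl
  · simp only [aw, fs_node, ls_node _ (nn _ _), ls_node _ S0, h.hvS.ls S0, ld1, nc_node, kap, cd]
    cases e with
    | true => rfl
    | false =>
      simp only [dc, Bool.false_eq_true, if_false]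
      simp
      omega
  · simp only [aw, fs_node, pc_succ, ls_node _ (nn _ _), ls_single, ld, kap, cd]
    rfl
  · have g1 : ls (B △ app S (.nil △ pc (d + 1))) = pc d := by
      rw [ls_node, ls_app _ (nn _ _), ls_node _ (by rw [pc_succ]; exact nn _ _), pc_succ, ls_single]
      intro g
      have := congrArg nc g
      rw [nc_app, nc_node, nc_nil] at this
      omega
    simp only [aw, g1, ld, fs_node, kap, nc_node, nc_app]
    cases e with
    | true =>
      rw [he.1 rfl, lo_nil]
      rfl
    | false =>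
      rw [lo_hv h.hvB (hB rfl)]
      simp only [dc, cd, Bool.false_eq_true, if_false, pc_succ, nc_node, nc_nil]
      simp
      omega
  · simp only [aw, app_pc, fs_node, ls_node _ (nn _ _), ls_single, ld, nc_node, nc_nil, kap]
    cases e with
    | true =>
      rw [he.1 rfl, lo_ns h.hvS S0]
      rfl
    | false =>
      rw [lo_hv (h.hvB.node (hB rfl) h.hvS) (nn _ _)]
      rfl


/-! ### The same smallest soliton -/

theorem kap_le (e : Bool) (i : ℕ) : kap e i ≤ 5 := by
  unfold kap
  split <;> (try split) <;> omega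

theorem smc_lt (d : ℕ) {κ : ℕ} (hκ : κ ≤ 5) : ∀ x ∈ smc d κ, x < d + 3 := by
  intro x hx
  interval_cases κ <;>
    simp only [smc, Multiset.mem_add, Multiset.mem_singleton, Multiset.notMem_zero] at hx <;> omega

theorem smc_inj {d κ κ' : ℕ} (hκ : κ ≤ 5) (hκ' : κ' ≤ 5) (h : smc d κ = smc d κ') : κ = κ' := by
  have h1 := congrArg Multiset.card h
  have h2 := congrArg Multiset.sum h
  interval_cases κ <;> interval_cases κ' <;>
    simp only [smc, Multiset.card_add, Multiset.card_singleton, Multiset.card_zero,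
      Multiset.sum_add, Multiset.sum_singleton, Multiset.sum_zero] at h1 h2 <;> omega

variable {R' B' S' : BinaryTree Unit}

theorem A0_spc (h : A0D d R B S) (h' : A0D d R' B' S') {i j : ℕ} (hs : spc i j)
    (heq : aw R (pc (d + 1)) B S i = aw R' (pc (d + 1)) B' S' j) : i = 0 ∧ j = 10 := by
  rcases hs with ⟨rfl, rfl⟩ | ⟨rfl, rfl⟩ | ⟨rfl, rfl⟩ | ⟨rfl, rfl⟩ | ⟨rfl, rfl⟩
  · exact ⟨rfl, rfl⟩
  · exfalso
    simp only [aw, app_pc] at heq
    have h1 := congrArg fs (congrArg tl heq)
    rw [tl_node, tl_node, fs_node, fs_app h'.S_ne] at h1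
    exact h'.hvS.fs_ne h'.S_ne h1.symm
  · exfalso
    simp only [aw, app_pc] at heq
    have h1 := congrArg ht (congrArg fs heq)
    rw [fs_node, fs_node, ht_app, ht_pc] at h1
    have := h.top
    omega
  · exfalso
    simp only [aw, app_pc] at heq
    have h1 := (app_snoc (X := .nil) heq).2
    have h2 := congrArg fs h1
    rw [fs_node, fs_app h'.S_ne] at h2
    have h3 := h'.hvS.fs h'.S_ne
    rw [← h2, lo_pc (by omega)] at h3
    omega
  · exfalso
    simp only [aw, app_pc] at heq
    have h1 := congrArg tl (congrArg fs (congrArg tl heq))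
    simp only [tl_node, fs_node] at h1
    exact h'.S_ne h1.symm

theorem A0_same (h : A0D d R B S) (h' : A0D d R' B' S') {i j : ℕ} (hi : i < 20) (hj : j < 20)
    (heq : aw R (pc (d + 1)) B S i = aw R' (pc (d + 1)) B' S' j) :
    i = j ∨ (i = 0 ∧ j = 10) ∨ (i = 10 ∧ j = 0) := by
  obtain ⟨e, he⟩ : ∃ e : Bool, e = true ↔ B = .nil := by
    by_cases g : B = .nil
    · exact ⟨true, by simp [g]⟩
    · exact ⟨false, by simp [g]⟩
  obtain ⟨e', he'⟩ : ∃ e : Bool, e = true ↔ B' = .nil := by
    by_cases g : B' = .nil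
    · exact ⟨true, by simp [g]⟩
    · exact ⟨false, by simp [g]⟩
  obtain ⟨H, c1, c2, _, _⟩ := cont_aw h he hi
  obtain ⟨H', c1', c2', _, _⟩ := cont_aw h' he' hj
  have k1 : kap e i = kap e' j := by
    apply smc_inj (kap_le _ _) (kap_le _ _)
    rw [← filter_lo (smc_lt d (kap_le e i)) c2, ← c1, heq, c1',
      filter_lo (smc_lt d (kap_le e' j)) c2']
  have p1 := prof h he hi
  have p2 := prof h' he' hj
  rw [heq, k1, p2] at p1
  rcases cd_pair j hj i hi e' e p1 with g | g | g
  · exact Or.inl g.symm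
  · obtain ⟨g1, g2⟩ := A0_spc h' h g heq.symm
    exact Or.inr (Or.inr ⟨g2, g1⟩)
  · obtain ⟨g1, g2⟩ := A0_spc h h' g heq
    exact Or.inr (Or.inl ⟨g1, g2⟩)

/-- the same index: the same data -/
theorem A0_idx (h : A0D d R B S) (h' : A0D d R' B' S') {i : ℕ} (hi : i < 20) (h10 : i ≠ 10)
    (heq : aw R (pc (d + 1)) B S i = aw R' (pc (d + 1)) B' S' i) :
    (i < 10 → R = R') ∧ (10 ≤ i → B = B' ∧ S = S') := by
  have g1 : lo d .nil ≠ 0 := by
    rw [lo_nil]
    omega
  have nd : ∀ {A C A' C' : BinaryTree Unit}, A △ C = A' △ C' → A = A' ∧ C = C' :=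
    fun h => ⟨congrArg fs h, congrArg tl h⟩
  have fin1 : ∀ {i : ℕ}, i < 10 → R = R' → (i < 10 → R = R') ∧ (10 ≤ i → B = B' ∧ S = S') :=
    fun hi h => ⟨fun _ => h, fun h1 => absurd h1 (by omega)⟩
  have fin2 : ∀ {i : ℕ}, 10 ≤ i → B = B' ∧ S = S' →
      (i < 10 → R = R') ∧ (10 ≤ i → B = B' ∧ S = S') :=
    fun hi h => ⟨fun h1 => absurd h1 (by omega), fun _ => h⟩
  interval_cases i <;> simp only [aw, app_pc] at heq
  · exact fin1 (by omega) (nd heq).2
  · exact fin1 (by omega) (nd (nd (nd heq).2).2).2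
  · exact fin1 (by omega) (app_cancel_right _ (nd (nd heq).2).2)
  · exact fin1 (by omega) (nd (nd (nd heq).1).2).2
  · exact fin1 (by omega) (app_cancel_right _ heq)
  · exact fin1 (by omega) (app_cancel_right _ heq)
  · exact fin1 (by omega) (nd (nd heq).2).1
  · exact fin1 (by omega) (app_cancel_right _ (nd heq).1)
  · exact fin1 (by omega) (nd heq).1
  · exact fin1 (by omega) (nd (nd (nd heq).2).1).1
  · exact absurd rfl h10
  · obtain ⟨a1, _, a2⟩ := hv_split g1 g1 h.hvS h'.hvS heq
    exact fin2 (by omega) ⟨(nd (nd a2).2).2, a1⟩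
  · exact fin2 (by omega) (app_snoc (nd (nd heq).2).2)
  · exact fin2 (by omega) ⟨(nd (nd (nd heq).1).2).2, (nd heq).2⟩
  · obtain ⟨a1, a2⟩ := app_snoc heq
    exact fin2 (by omega) ⟨a1, app_cancel_right _ a2⟩
  · have a0 : app (app B (S △ .nil)) (pc (d + 1) △ .nil) =
        app (app B' (S' △ .nil)) (pc (d + 1) △ .nil) := by
      rw [app_assoc', app_assoc']
      exact heq
    exact fin2 (by omega) (app_snoc (app_cancel_right _ a0))
  · exact fin2 (by omega) (nd (nd heq).2)
  · exact fin2 (by omega) (app_snoc (nd heq).1)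
  · exact fin2 (by omega) ⟨(nd heq).1, app_cancel_right _ (nd heq).2⟩
  · exact fin2 (by omega) (nd (nd (nd heq).2).1)

/-! ### Different smallest solitons -/

/-- number and sum of the small parts below a bound -/
def fl (d κ' b : ℕ) : ℕ × ℕ :=
  (Multiset.card ((smc d κ').filter (· < b)), ((smc d κ').filter (· < b)).sum)

theorem fs1 {a b : ℕ} (h : a < b) : ({a} : Multiset ℕ).filter (· < b) = {a} := by
  rw [Multiset.filter_singleton, if_pos h]

theorem fs0 {a b : ℕ} (h : b ≤ a) : ({a} : Multiset ℕ).filter (· < b) = 0 := by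
  rw [Multiset.filter_singleton, if_neg (by omega)]
  rfl

/-- card and sum of a class -/
theorem smc_cs (d κ : ℕ) (hκ : κ ≤ 5) :
    (κ = 0 ∧ Multiset.card (smc d κ) = 0 ∧ (smc d κ).sum = 0) ∨
    (κ = 1 ∧ Multiset.card (smc d κ) = 3 ∧ (smc d κ).sum = d + 3) ∨
    (κ = 2 ∧ Multiset.card (smc d κ) = 2 ∧ (smc d κ).sum = d + 2) ∨
    (κ = 3 ∧ Multiset.card (smc d κ) = 2 ∧ (smc d κ).sum = d + 3) ∨
    (κ = 4 ∧ Multiset.card (smc d κ) = 1 ∧ (smc d κ).sum = d + 2) ∨
    (κ = 5 ∧ Multiset.card (smc d κ) = 1 ∧ (smc d κ).sum = d + 1) := by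
  interval_cases κ <;> simp [smc]

theorem sep {d d' κ κ' : ℕ} (hd : d < d') (hκ : κ ≤ 5) (hκ' : κ' ≤ 5) {H H' : Multiset ℕ}
    (hH : ∀ x ∈ H, d + 3 ≤ x) (hH' : ∀ x ∈ H', d' + 3 ≤ x)
    (hE : smc d κ + H = smc d' κ' + H') (h0 : κ = 0 → 2 ≤ H.count (d + 3))
    (hm : d + 3 ∈ H ∨ (d + 3 ∉ H ∧ d + 4 ∈ H ∧ (κ = 2 ∨ κ = 4 ∨ κ = 5))) :
    (d = 0 ∧ ((κ = 5 ∧ (κ' = 2 ∨ κ' = 3)) ∨ (κ = 2 ∧ κ' = 1))) ∨
      (d + 3 ∉ H ∧ κ = 4 ∧ κ' = 5) := by
  have f1 : smc d κ = (smc d' κ').filter (· < d + 3) := by
    have h1 := congrArg (Multiset.filter (· < d + 3)) hE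
    rw [filter_lo (smc_lt d hκ) hH, Multiset.filter_add] at h1
    rw [h1]
    have h2 : H'.filter (· < d + 3) = 0 := by
      rw [Multiset.filter_eq_nil]
      intro x hx h3
      have := hH' x hx
      omega
    rw [h2, add_zero]
  have hc : ∀ x, (smc d κ).count x + H.count x = (smc d' κ').count x + H'.count x := by
    intro x
    have h1 := congrArg (Multiset.count x) hE
    rwa [Multiset.count_add, Multiset.count_add] at h1
  have z1 : ∀ x, x < d' + 3 → H'.count x = 0 := by
    intro x hx
    rw [Multiset.count_eq_zero]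
    intro h
    have := hH' x h
    omega
  have z2 : ∀ x, d + 3 ≤ x → (smc d κ).count x = 0 := by
    intro x hx
    rw [Multiset.count_eq_zero]
    intro h
    have := smc_lt d hκ x h
    omega
  have g1 := congrArg Multiset.card f1
  have g2 := congrArg Multiset.sum f1
  have c3 := hc (d + 3)
  rw [z1 _ (by omega), z2 _ (by omega), add_zero, zero_add] at c3
  have cs := smc_cs d κ hκ
  rcases hm with hm | ⟨hm, hm4, hκ4⟩
  · have m1 : d + 3 ∈ smc d' κ' := by
      rw [← Multiset.count_pos, ← c3]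
      exact Multiset.count_pos.2 hm
    have e1 : ∀ x : ℕ, smc x 1 = {x + 1} + {1} + {1} := fun _ => rfl
    have e2 : ∀ x : ℕ, smc x 2 = {x + 1} + {1} := fun _ => rfl
    have e3 : ∀ x : ℕ, smc x 3 = {x + 2} + {1} := fun _ => rfl
    have e4 : ∀ x : ℕ, smc x 4 = {x + 2} := fun _ => rfl
    have e5 : ∀ x : ℕ, smc x 5 = {x + 1} := fun _ => rfl
    interval_cases κ' <;>
      simp only [smc, Multiset.mem_add, Multiset.mem_singleton, Multiset.notMem_zero] at m1
    · obtain rfl : d' = d + 2 := by omega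
      rw [e1, Multiset.filter_add, Multiset.filter_add, fs0 (by omega), fs1 (by omega)] at g1 g2
      simp only [Multiset.card_add, Multiset.card_singleton, Multiset.card_zero,
        Multiset.sum_add, Multiset.sum_singleton, Multiset.sum_zero] at g1 g2
      omega
    · obtain rfl : d' = d + 2 := by omega
      rw [e2, Multiset.filter_add, fs0 (by omega), fs1 (by omega)] at g1 g2
      simp only [Multiset.card_add, Multiset.card_singleton, Multiset.card_zero,
        Multiset.sum_add, Multiset.sum_singleton, Multiset.sum_zero] at g1 g2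
      omega
    · obtain rfl : d' = d + 1 := by omega
      rw [e3, Multiset.filter_add, fs0 (by omega), fs1 (by omega)] at g1 g2
      simp only [Multiset.card_add, Multiset.card_singleton, Multiset.card_zero,
        Multiset.sum_add, Multiset.sum_singleton, Multiset.sum_zero] at g1 g2
      omega
    · obtain rfl : d' = d + 1 := by omega
      rw [e4, fs0 (by omega)] at g1 g2
      simp only [Multiset.card_zero, Multiset.sum_zero] at g1 g2
      have h01 : κ = 0 := by omega
      have h02 := h0 h01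
      rw [c3, e4, Multiset.count_singleton] at h02
      split_ifs at h02 <;> omega
    · obtain rfl : d' = d + 2 := by omega
      rw [e5, fs0 (by omega)] at g1 g2
      simp only [Multiset.card_zero, Multiset.sum_zero] at g1 g2
      have h01 : κ = 0 := by omega
      have h02 := h0 h01
      rw [c3, e5, Multiset.count_singleton] at h02
      split_ifs at h02 <;> omega
  · have e0 : ∀ x : ℕ, smc x 0 = 0 := fun _ => rfl
    have e1 : ∀ x : ℕ, smc x 1 = {x + 1} + {1} + {1} := fun _ => rfl
    have e2 : ∀ x : ℕ, smc x 2 = {x + 1} + {1} := fun _ => rfl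
    have e3 : ∀ x : ℕ, smc x 3 = {x + 2} + {1} := fun _ => rfl
    have e4 : ∀ x : ℕ, smc x 4 = {x + 2} := fun _ => rfl
    have e5 : ∀ x : ℕ, smc x 5 = {x + 1} := fun _ => rfl
    rcases Nat.lt_or_ge (d + 1) d' with hd2 | hd2
    · have c4 := hc (d + 4)
      rw [z1 _ (by omega), z2 _ (by omega), add_zero, zero_add] at c4
      have m1 : d + 4 ∈ smc d' κ' := by
        rw [← Multiset.count_pos, ← c4]
        exact Multiset.count_pos.2 hm4
      interval_cases κ' <;>
        simp only [smc, Multiset.mem_add, Multiset.mem_singleton, Multiset.notMem_zero] at m1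
      · obtain rfl : d' = d + 3 := by omega
        rw [e1, Multiset.filter_add, Multiset.filter_add, fs0 (by omega), fs1 (by omega)] at g1 g2
        simp only [Multiset.card_add, Multiset.card_singleton, Multiset.card_zero,
          Multiset.sum_add, Multiset.sum_singleton, Multiset.sum_zero] at g1 g2
        omega
      · obtain rfl : d' = d + 3 := by omega
        rw [e2, Multiset.filter_add, fs0 (by omega), fs1 (by omega)] at g1 g2
        simp only [Multiset.card_add, Multiset.card_singleton, Multiset.card_zero,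
          Multiset.sum_add, Multiset.sum_singleton, Multiset.sum_zero] at g1 g2
        omega
      · obtain rfl : d' = d + 2 := by omega
        rw [e3, Multiset.filter_add, fs0 (by omega), fs1 (by omega)] at g1 g2
        simp only [Multiset.card_add, Multiset.card_singleton, Multiset.card_zero,
          Multiset.sum_add, Multiset.sum_singleton, Multiset.sum_zero] at g1 g2
        omega
      · obtain rfl : d' = d + 2 := by omega
        rw [e4, fs0 (by omega)] at g1 g2
        simp only [Multiset.card_zero, Multiset.sum_zero] at g1 g2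
        omega
      · obtain rfl : d' = d + 3 := by omega
        rw [e5, fs0 (by omega)] at g1 g2
        simp only [Multiset.card_zero, Multiset.sum_zero] at g1 g2
        omega
    · obtain rfl : d' = d + 1 := by omega
      have m0 : d + 3 ∉ smc (d + 1) κ' := by
        rw [← Multiset.count_eq_zero, ← c3]
        exact Multiset.count_eq_zero.2 hm
      interval_cases κ'
      · rw [e0, Multiset.filter_zero] at g1 g2
        simp only [Multiset.card_zero, Multiset.sum_zero] at g1 g2
        omega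
      · rw [e1, Multiset.filter_add, Multiset.filter_add, fs1 (by omega), fs1 (by omega)] at g1 g2
        simp only [Multiset.card_add, Multiset.card_singleton, Multiset.card_zero,
          Multiset.sum_add, Multiset.sum_singleton, Multiset.sum_zero] at g1 g2
        omega
      · rw [e2, Multiset.filter_add, fs1 (by omega), fs1 (by omega)] at g1 g2
        simp only [Multiset.card_add, Multiset.card_singleton, Multiset.card_zero,
          Multiset.sum_add, Multiset.sum_singleton, Multiset.sum_zero] at g1 g2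
        omega
      · exact absurd (Multiset.mem_add.2 (Or.inl (Multiset.mem_singleton.2 rfl))) m0
      · exact absurd (Multiset.mem_singleton.2 rfl) m0
      · rw [e5, fs1 (by omega)] at g1 g2
        simp only [Multiset.card_singleton, Multiset.sum_singleton] at g1 g2
        have hκκ : κ = 4 := by omega
        exact Or.inr ⟨hm, hκκ, rfl⟩


/-- words of class 2, 3, `d ≥ 1`: no `()` in front or at the end -/
theorem ends23 (h : A0D d R B S) (hd : 1 ≤ d) {e : Bool} (he : e = true ↔ B = .nil) {i : ℕ}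
    (hi : i < 20) (hk : kap e i = 2 ∨ kap e i = 3) :
    fs (aw R (pc (d + 1)) B S i) ≠ .nil ∧ ls (aw R (pc (d + 1)) B S i) ≠ .nil := by
  have R0 := h.R_ne
  have S0 := h.S_ne
  have nn : ∀ A C : BinaryTree Unit, A △ C ≠ .nil := by simp
  have nP : ∀ n : ℕ, 1 ≤ n → pc n ≠ .nil := by
    intro n hn g
    have := congrArg ht g
    rw [ht_pc, ht] at this
    omega
  have na : ∀ {P C : BinaryTree Unit}, C ≠ .nil → app P C ≠ .nil := by
    intro P C hC g
    have h1 := congrArg nc g
    have h2 := nc_pos hC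
    rw [nc_app, nc_nil] at h1
    omega
  have na' : ∀ {P C : BinaryTree Unit}, P ≠ .nil → app P C ≠ .nil := by
    intro P C hC g
    have h1 := congrArg nc g
    have h2 := nc_pos hC
    rw [nc_app, nc_nil] at h1
    omega
  have hB : e = false → B ≠ .nil := by
    intro g g1
    rw [he.2 g1] at g
    exact absurd g (by simp)
  interval_cases i <;> simp only [kap] at hk
  all_goals first | (exfalso; omega) | skip
  · simp only [aw, app_pc, fs_node, ls_single]
    exact ⟨nn _ _, nn _ _⟩
  · simp only [aw, fs_app R0, ls_app _ (nn _ _), ls_single]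
    exact ⟨h.hv.fs_ne R0, nn _ _⟩
  · simp only [aw, fs_app R0, ls_app _ (nn _ _), ls_node _ (nn _ _), ls_single]
    exact ⟨h.hv.fs_ne R0, nP _ (by omega)⟩
  · simp only [aw, fs_node, pc_succ, ls_node _ (nn _ _), ls_single]
    exact ⟨na' R0, nP _ hd⟩
  · simp only [aw, fs_node, pc_succ, ls_node _ (nn _ _), ls_single]
    exact ⟨R0, nP _ hd⟩
  · simp only [aw, app_pc, fs_node, ls_node _ (nn _ _)]
    rw [ls_node _ (na (nn _ _)), ls_app _ (nn _ _), ls_single]
    exact ⟨nP _ hd, S0⟩
  · simp only [aw, app_pc, fs_node, ls_node _ S0]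
    exact ⟨nn _ _, h.hvS.ls_ne S0⟩
  · simp only [aw, ls_app _ (nn _ _), ls_single]
    refine ⟨?_, na' S0⟩
    by_cases hB0 : B = .nil
    · rw [hB0, app, fs_node]
      exact na' S0
    · rw [fs_app hB0]
      exact h.hvB.fs_ne hB0
  · simp only [aw, fs_node, ls_node _ (nn _ _), ls_node _ S0]
    exact ⟨nP _ (by omega), h.hvS.ls_ne S0⟩
  · have g1 : ls (B △ app S (.nil △ pc (d + 1))) = pc d := by
      rw [ls_node _ (na (nn _ _)), ls_app _ (nn _ _), ls_node _ (by rw [pc_succ]; exact nn _ _),
        pc_succ, ls_single]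
    simp only [aw, g1, fs_node]
    refine ⟨?_, nP _ hd⟩
    cases e with
    | true => simp at hk
    | false => exact hB rfl
  · simp only [aw, app_pc, fs_node, ls_node _ (nn _ _), ls_single]
    exact ⟨nP _ hd, nn _ _⟩


/-- `1`-solitons of the component `(X)` -/
def c1 (X : BinaryTree Unit) : ℕ := (raise (cont X)).count 1

theorem c1_nil : c1 .nil = 1 := by
  unfold c1
  rw [cont_nil, raise_zero, Multiset.count_singleton_self]

theorem c1_pc {d : ℕ} (h : 1 ≤ d) : c1 (pc d) = 0 := by
  unfold c1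
  rw [raise_pc, Multiset.count_singleton, if_neg (by omega)]

theorem c1_lo {d : ℕ} {X : BinaryTree Unit} (h : lo d X = 0) : c1 X = 0 := by
  unfold c1
  rw [Multiset.count_eq_zero]
  intro h1
  unfold lo at h
  rw [Multiset.card_eq_zero, Multiset.filter_eq_nil] at h
  exact h 1 h1 (by omega)

theorem nn' (A C : BinaryTree Unit) : A △ C ≠ .nil := by simp

theorem app_ne' {P C : BinaryTree Unit} (hC : C ≠ .nil) : app P C ≠ .nil := by
  intro g
  have h1 := congrArg nc g
  have h2 := nc_pos hC
  rw [nc_app, nc_nil] at h1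
  omega

theorem pc_ne {n : ℕ} (hn : 1 ≤ n) : pc n ≠ .nil := by
  intro g
  have := congrArg ht g
  rw [ht_pc, ht] at this
  omega

/-- the words of class 1, `d ≥ 1` -/
theorem cls1 (h : A0D d R B S) (hd : 1 ≤ d) {e : Bool} (he : e = true ↔ B = .nil) {i : ℕ}
    (hi : i < 20) (hk : kap e i = 1) :
    4 ≤ nc (aw R (pc (d + 1)) B S i) ∧
    (fs (aw R (pc (d + 1)) B S i) ≠ .nil ∨ fs (tl (aw R (pc (d + 1)) B S i)) ≠ .nil) ∧
    c1 (fs (aw R (pc (d + 1)) B S i)) ≤ 1 ∧ c1 (ls (aw R (pc (d + 1)) B S i)) ≤ 1 ∧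
    ∀ B2 S2 : BinaryTree Unit, B2 ≠ .nil → S2 ≠ .nil → fs S2 ≠ .nil →
      aw R (pc (d + 1)) B S i ≠ B2 △ app S2 (.nil △ (.nil △ .nil)) := by
  have R0 := h.R_ne
  have S0 := h.S_ne
  have nR := nc_pos R0
  have nS := nc_pos S0
  have hi' : i = 1 ∨ i = 2 ∨ i = 11 ∨ (i = 18 ∧ e = true) := by
    cases e <;> interval_cases i <;> simp [kap] at hk ⊢
  rcases hi' with rfl | rfl | rfl | ⟨rfl, rfl⟩
  · simp only [aw, app_pc, nc_node, fs_node, tl_node, ls_node _ (nn' _ _), ls_node _ R0, c1_nil,
      c1_lo (h.hv.ls R0)]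
    refine ⟨by omega, Or.inr (pc_ne hd), le_refl _, by omega, ?_⟩
    intro B2 S2 h1 h2 h3 h4
    exact h1 (congrArg fs h4).symm
  · have e1 : ls (pc d △ (.nil △ app R (.nil △ .nil))) = .nil := by
      rw [ls_node _ (nn' _ _), ls_node _ (app_ne' (nn' _ _)), ls_app _ (nn' _ _), ls_single]
    simp only [aw, app_pc, nc_node, nc_app, nc_nil, fs_node, tl_node, c1_pc hd, e1, c1_nil]
    refine ⟨by omega, Or.inl (pc_ne hd), by omega, le_refl _, ?_⟩
    intro B2 S2 h1 h2 h3 h4
    have h5 := congrArg fs (congrArg tl h4)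
    rw [tl_node, tl_node, fs_node, fs_app h2] at h5
    exact h3 h5.symm
  · have e1 : c1 (ls (app S (.nil △ (pc d △ (.nil △ B))))) ≤ 1 := by
      rw [ls_app _ (nn' _ _), ls_node _ (nn' _ _), ls_node _ (nn' _ _)]
      by_cases hB0 : B = .nil
      · rw [hB0, ls_single, c1_nil]
      · rw [ls_node _ hB0, c1_lo (h.hvB.ls hB0)]
        omega
    simp only [aw, app_pc, nc_node, nc_app, fs_app S0, c1_lo (h.hvS.fs S0)]
    refine ⟨by omega, Or.inl (h.hvS.fs_ne S0), by omega, e1, ?_⟩
    intro B2 S2 h1 h2 h3 h4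
    by_cases hB0 : B = .nil
    · rw [hB0] at h4
      have h5 : app (app S (.nil △ (pc d △ .nil))) (.nil △ .nil) =
          app (app (B2 △ S2) (.nil △ .nil)) (.nil △ .nil) := by
        rw [app_assoc', app_assoc']
        exact h4
      have h6 := congrArg ls (app_cancel_right _ h5)
      rw [ls_app _ (nn' _ _), ls_app _ (nn' _ _), ls_node _ (nn' _ _), ls_single, ls_single] at h6
      exact pc_ne hd h6
    · have h5 := congrArg ls h4
      rw [ls_app _ (nn' _ _), ls_node _ (nn' _ _), ls_node _ (nn' _ _), ls_node _ hB0,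
        ls_node _ (app_ne' (nn' _ _)), ls_app _ (nn' _ _), ls_node _ (nn' _ _), ls_single] at h5
      exact h.hvB.ls_ne hB0 h5
  · have g1 : ls (B △ app S (.nil △ pc (d + 1))) = pc d := by
      rw [ls_node _ (app_ne' (nn' _ _)), ls_app _ (nn' _ _),
        ls_node _ (by rw [pc_succ]; exact nn' _ _), pc_succ, ls_single]
    have hB0 := he.1 rfl
    have g2 : c1 (ls (B △ app S (.nil △ pc (d + 1)))) ≤ 1 := by
      rw [g1, c1_pc hd]
      omega
    have g3 : 4 ≤ nc (B △ app S (.nil △ pc (d + 1))) := by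
      rw [nc_node, nc_app, nc_node, pc_succ, nc_node, nc_nil]
      omega
    refine ⟨g3, Or.inr ?_, ?_, g2, ?_⟩
    · change fs (app S (.nil △ pc (d + 1))) ≠ .nil
      rw [fs_app S0]
      exact h.hvS.fs_ne S0
    · change c1 B ≤ 1
      rw [hB0, c1_nil]
    · intro B2 S2 h1 h2 h3 h4
      exact h1 ((congrArg fs h4).symm.trans hB0)

/-- the words of class 2, `d = 0` -/
theorem cls2 (h : A0D 0 R B S) {e : Bool} (he : e = true ↔ B = .nil) {i : ℕ}
    (hi : i < 20) (hk : kap e i = 2) :
    nc (aw R (pc 1) B S i) ≤ 3 ∨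
    (fs (aw R (pc 1) B S i) = .nil ∧ fs (tl (aw R (pc 1) B S i)) = .nil) ∨
    c1 (fs (aw R (pc 1) B S i)) = 2 ∨ c1 (ls (aw R (pc 1) B S i)) = 2 ∨
    ∃ B2 S2 : BinaryTree Unit, B2 ≠ .nil ∧ S2 ≠ .nil ∧ fs S2 ≠ .nil ∧
      aw R (pc 1) B S i = B2 △ app S2 (.nil △ (.nil △ .nil)) := by
  have R0 := h.R_ne
  have S0 := h.S_ne
  have hB : e = false → B ≠ .nil := by
    intro g g1
    rw [he.2 g1] at g
    exact absurd g (by simp)
  have hi' : i = 3 ∨ i = 7 ∨ i = 8 ∨ i = 12 ∨ (i = 13 ∧ e = false) ∨ i = 14 ∨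
      (i = 18 ∧ e = false) ∨ i = 19 := by
    cases e <;> interval_cases i <;> simp [kap] at hk ⊢
  rcases hi' with rfl | rfl | rfl | rfl | ⟨rfl, rfl⟩ | rfl | ⟨rfl, rfl⟩ | rfl
  · left
    simp only [aw, nc_node, nc_nil]
    omega
  · left
    simp only [aw, nc_node, nc_nil, pc]
    omega
  · left
    simp only [aw, nc_node, nc_nil, pc]
    omega
  · right; left
    exact ⟨rfl, rfl⟩
  · right; right; left
    have e1 : cont (pc 0 △ (.nil △ B)) = ({1} + {1}) + cont B := by
      rw [pc, cont_node, cont_node, cont_nil, raise_zero, add_assoc]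
    change c1 (pc 0 △ (.nil △ B)) = 2
    unfold c1
    have e2 : (raise (cont B)).count 1 = 0 := Multiset.count_eq_zero.2 fun h1 => by
      have := raise_hv h.hvB (cont_ne (hB rfl)) 1 h1
      omega
    rw [e1, raise_add (c := 3) (lt_pair (by omega) (by omega)) h.hvB (cont_ne (hB rfl)),
      Multiset.count_add, e2]
    rfl
  · right; right; right; left
    have e1 : cont (app S (.nil △ pc 1)) = ({1} + {1}) + cont S := by
      rw [cont_app, cont_node, cont_nil, raise_zero, pc, pc, cont_node, cont_nil, raise_zero]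
      abel
    simp only [aw, ls_app _ (nn' _ _), ls_single]
    unfold c1
    have e2 : (raise (cont S)).count 1 = 0 := Multiset.count_eq_zero.2 fun h1 => by
      have := raise_hv h.hvS (cont_ne S0) 1 h1
      omega
    rw [e1, raise_add (c := 3) (lt_pair (by omega) (by omega)) h.hvS (cont_ne S0),
      Multiset.count_add, e2]
    rfl
  · right; right; right; right
    exact ⟨B, S, hB rfl, S0, h.hvS.fs_ne S0, rfl⟩
  · left
    simp only [aw, nc_node, nc_nil, nc_app, pc]
    omega

/-- the words of class 5 -/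
theorem cls5 {e : Bool} {i : ℕ} (hi : i < 20) (hk : kap e i = 5) :
    nc (aw R (pc (d + 1)) B S i) = 2 ∧
      (d = 0 → fs (aw R (pc (d + 1)) B S i) = .nil ∨ ls (aw R (pc (d + 1)) B S i) = .nil) := by
  have hi' : i = 9 ∨ i = 17 ∨ i = 19 := by
    cases e <;> interval_cases i <;> simp [kap] at hk ⊢
  rcases hi' with rfl | rfl | rfl
  · refine ⟨rfl, ?_⟩
    rintro rfl
    exact Or.inl rfl
  · refine ⟨rfl, ?_⟩
    rintro rfl
    right
    simp only [aw, pc]
    rw [ls_node _ (nn' _ _), ls_single]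
  · refine ⟨rfl, ?_⟩
    rintro rfl
    exact Or.inl rfl

/-- **different smallest solitons: no common word** -/
theorem A0_lt {d' : ℕ} (hd : d < d') (hm : d + 3 ∈ cont R) (h : A0D d R B S)
    (h' : A0D d' R' B' S') {i j : ℕ} (hi : i < 20) (hj : j < 20) : aw R (pc (d + 1)) B S i ≠ aw R' (pc (d' + 1)) B' S' j := by
  intro heq
  obtain ⟨e, he⟩ : ∃ e : Bool, e = true ↔ B = .nil := by
    by_cases g : B = .nil
    · exact ⟨true, by simp [g]⟩
    · exact ⟨false, by simp [g]⟩
  obtain ⟨e', he'⟩ : ∃ e : Bool, e = true ↔ B' = .nil := by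
    by_cases g : B' = .nil
    · exact ⟨true, by simp [g]⟩
    · exact ⟨false, by simp [g]⟩
  obtain ⟨H, a1, a2, a3, a4⟩ := cont_aw h he hi
  have a3 := a3 hm
  have a4 := a4 hm
  obtain ⟨H', a1', a2', _, _⟩ := cont_aw h' he' hj
  have hE : smc d (kap e i) + H = smc d' (kap e' j) + H' := by rw [← a1, heq, a1']
  have hκ : e = false → (i = 13 ∨ i = 16 ∨ i = 18 ∨ i = 19) →
      (kap e i = 2 ∨ kap e i = 4 ∨ kap e i = 5) := by
    rintro rfl (rfl | rfl | rfl | rfl) <;> simp [kap]
  rcases sep hd (kap_le e i) (kap_le e' j) a2 a2' hE a4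
    (a3.imp_right fun g => ⟨g.1, g.2.1, hκ g.2.2.1 g.2.2.2⟩) with ⟨rfl, g⟩ | ⟨g1, g2, g3⟩
  · rcases g with ⟨g1, g2⟩ | ⟨g1, g2⟩
    · obtain ⟨b1, b2⟩ := ends23 h' (by omega) he' hj g2
      rcases (cls5 (R := R) (B := B) (S := S) (d := 0) hi g1).2 rfl with b3 | b3
      · rw [← heq] at b1
        exact b1 b3
      · rw [← heq] at b2
        exact b2 b3
    · obtain ⟨b1, b2, b3, b4, b5⟩ := cls1 h' (by omega) he' hj g2
      rw [← heq] at b1 b2 b3 b4
      rcases cls2 h he hi g1 with b | b | b | b | ⟨B2, S2, q1, q2, q3, q4⟩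
      · exact absurd (b1.trans b) (by omega)
      · rcases b2 with b2 | b2
        · exact b2 b.1
        · exact b2 b.2
      · change c1 (fs (aw R (pc (0 + 1)) B S i)) = 2 at b
        omega
      · change c1 (ls (aw R (pc (0 + 1)) B S i)) = 2 at b
        omega
      · exact b5 B2 S2 q1 q2 q3 (heq.symm.trans q4)
  · rcases a3 with a3 | ⟨_, _, a3, a5⟩
    · exact g1 a3
    · subst a3
      have hi16 : i = 16 := by
        rcases a5 with rfl | rfl | rfl | rfl <;> simp [kap] at g2 ⊢
      subst hi16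
      have b1 := (cls5 (R := R') (B := B') (S := S') (d := d') hj g3).1
      rw [← heq] at b1
      simp only [aw, nc_node] at b1
      have := nc_pos h.S_ne
      omega

/-- **the words of the mirrored bead free absorbers** -/
theorem A0_inj {d' : ℕ} (h : A0D d R B S) (h' : A0D d' R' B' S') {i j : ℕ}
    (hm : d < d' → d + 3 ∈ cont R) (hm' : d' < d → d' + 3 ∈ cont R')
    (hi : i < 20) (hj : j < 20) (heq : aw R (pc (d + 1)) B S i = aw R' (pc (d' + 1)) B' S' j) :
    d = d' ∧ ((i = j ∧ (i ≠ 10 → (i < 10 → R = R') ∧ (10 ≤ i → B = B' ∧ S = S'))) ∨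
      (i = 0 ∧ j = 10) ∨ (i = 10 ∧ j = 0)) := by
  rcases Nat.lt_trichotomy d d' with hd | rfl | hd
  · exact absurd heq (A0_lt hd (hm hd) h h' hi hj)
  · refine ⟨rfl, ?_⟩
    rcases A0_same h h' hi hj heq with rfl | g | g
    · exact Or.inl ⟨rfl, fun h10 => A0_idx h h' hi h10 heq⟩
    · exact Or.inr (Or.inl g)
    · exact Or.inr (Or.inr g)
  · exact absurd heq.symm (A0_lt hd (hm' hd) h' h hj hi)

end Pool.OddHC
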