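import Pool.Agent.Work.MP_8f87b2_h71.H1Gad
import Pool.Agent.Work.MP_8f87b2_base.Gad20M
import Pool.Agent.Work.MP_8f87b2_h60.A0

/-!
# MP_8f87b2_co: the mirrored bead free absorber (type A0) with its real words

`z = [c] R'`, `R' = mir R`, `c = q + 3`, all parts at least `c`, `c` at least twice, top larger than `c`.
The words are the mirror images of the twenty words of `R[c]`: `mX i`, `(mX i).1 = w20M (mir R) (pc (q+1)) (mir B) (mir S) i`.
`NodeM`: data, `ex_NodeM`: every such `T`-cycle has them; `word`, `link`, `rank`, `hold`, `disj`, `abs`.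
-/

set_option autoImplicit false

namespace Pool.OddHC

namespace HM

open Finset BinaryTree Multiset Equiv H1

variable {k : ℕ}

theorem mir_pc (n : ℕ) : Tsq.mir (pc n) = pc n := by
  induction n with
  | zero => rfl
  | succ n ih =>
    rw [pc, Tsq.mir_node, ih]
    rfl

theorem cont_mir (t : BinaryTree Unit) : cont (Tsq.mir t) = cont t := by
  induction t with
  | nil => rfl
  | node _ A B ihA ihB =>
    change cont (Tsq.mir (A △ B)) = cont (A △ B)
    rw [Tsq.mir_node, cont_app, cont_node, cont_nil, ihA, ihB, cont_node, add_zero, add_comm]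

theorem ht_mir (t : BinaryTree Unit) : ht (Tsq.mir t) = ht t := by
  rw [ht_eq, ht_eq, cont_mir]

/-- the mirror of the twenty words -/
theorem mir_W (R Q B S : BinaryTree Unit) {i : ℕ} (hi : i < 20) :
    Tsq.mir (W R Q B S i) = w20M (Tsq.mir R) (Tsq.mir Q) (Tsq.mir B) (Tsq.mir S) i := by
  have h0 : Tsq.mir BinaryTree.nil = BinaryTree.nil := rfl
  interval_cases i <;>
    simp only [W, w20M, bw, ix20, w1, Tsq.mir_node, Tsq.mir_app, h0, app, app_nil', app_assoc',
      Nat.reduceLT, Nat.reduceSub, if_true, if_false]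

theorem w20M_aw (R Q B S : BinaryTree Unit) {i : ℕ} (hi : i < 20) :
    w20M R Q B S i = aw R Q B S i := by
  interval_cases i <;> rfl

/-- the data of a bead free node; `c = q + 3` at least twice (`q + 3 ∈ cont R`) or exactly once (then `c ≥ 4`) -/
structure NodeM (k q : ℕ) (R B S : BinaryTree Unit) : Prop where
  sq : Tsq.sq R = (S, B)
  part : ∀ x ∈ cont R, q + 3 ≤ x
  memw : q + 3 ∈ cont R ∨ (1 ≤ q ∧ 2 ≤ Multiset.card (cont R) ∧ ∀ x ∈ cont R, q + 3 < x)
  top : q + 3 < ht R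
  size : R.numNodes + q + 3 = k

variable {q : ℕ} {R B S : BinaryTree Unit}

/-- for `q = 0` the part `3` is a part of `R` -/
theorem NodeM.mem (h : NodeM k 0 R B S) : 0 + 3 ∈ cont R :=
  h.memw.resolve_right fun g => absurd g.1 (by omega)

/-- at least two solitons -/
theorem NodeM.cardR (h : NodeM k q R B S) : 2 ≤ Multiset.card (cont R) := by
  rcases h.memw with g | ⟨_, g, _⟩
  · exact card_two g (by rw [← ht_eq]; exact h.top)
  · exact g

theorem NodeM.ne (h : NodeM k q R B S) : R ≠ .nil := by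
  rintro rfl
  have := h.top
  rw [ht] at this
  omega

theorem NodeM.eq (h : NodeM k q R B S) : cont B + cont S = cont R := by
  let x : X R.numNodes := ⟨R, mem_treesOfNumNodesEq.2 rfl⟩
  have e1 : (TT (TT x)).1 = app (Tsq.sq R).2 (Tsq.sq R).1 := Tsq.TT_sq x h.ne
  have e2 : cont (TT (TT x)).1 = cont R := by
    rw [TT_apply, cont_TF, TT_apply, cont_TF]
  rw [e1, cont_app, h.sq] at e2
  exact e2

theorem NodeM.dat (h : NodeM k q R B S) : Dat q R B S := by
  refine ⟨h.sq, h.top.le, ?_⟩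
  intro x hx
  apply h.part
  rw [← h.eq]
  exact Multiset.mem_add.2 (Or.inl hx)

/-- the hypotheses of `A0_inj` -/
theorem NodeM.a0d (h : NodeM k q R B S) : A0D q (Tsq.mir R) (Tsq.mir B) (Tsq.mir S) where
  hv := by
    intro x hx
    rw [cont_mir] at hx
    exact h.part x hx
  memw := by rw [cont_mir]; exact h.memw
  top := by rw [ht_mir]; exact h.top
  eq := by rw [cont_mir, cont_mir, cont_mir]; exact h.eq
  hS := by rw [ht_mir, ht_mir]; exact h.dat.htS

/-- the words -/
noncomputable def mX (R B S : BinaryTree Unit) (q : ℕ) (w0 : X k) (i : ℕ) : X k :=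
  Tsq.mirX (wX R B S q w0 i)

theorem NodeM.word (h : NodeM k q R B S) (w0 : X k) {i : ℕ} (hi : i < 20) :
    (mX R B S q w0 i).1 = w20M (Tsq.mir R) (pc (q + 1)) (Tsq.mir B) (Tsq.mir S) i := by
  change Tsq.mir (wX R B S q w0 i).1 = _
  rw [wX_eq h.dat h.size w0 hi, mir_W _ _ _ _ hi, ch_eq, mir_pc]

theorem NodeM.word' (h : NodeM k q R B S) (w0 : X k) {i : ℕ} (hi : i < 20) :
    (mX R B S q w0 i).1 = aw (Tsq.mir R) (pc (q + 1)) (Tsq.mir B) (Tsq.mir S) i := by
  rw [h.word w0 hi, w20M_aw _ _ _ _ hi]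

/-- the links: `T² (mX j) = mX i` -/
theorem NodeM.link (h : NodeM k q R B S) (w0 : X k) {i j : ℕ}
    (hij : (i, j) ∈ [(0, 10), (1, 11), (3, 12), (6, 15), (8, 14), (9, 17)]) :
    TT (TT (mX R B S q w0 j)) = mX R B S q w0 i :=
  Tsq.TT_mir2 (wX_link h.dat h.size w0 hij)

theorem NodeM.same10 (h : NodeM k q R B S) (w0 : X k) :
    TT.SameCycle (mX R B S q w0 0) (mX R B S q w0 10) := by
  have h1 := h.link w0 (i := 0) (j := 10) (by simp)
  refine Perm.SameCycle.symm ⟨2, ?_⟩
  rw [show (2 : ℤ) = ((2 : ℕ) : ℤ) from rfl, zpow_natCast, pow_two, Perm.mul_apply, h1]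

theorem NodeM.cont0 (h : NodeM k q R B S) (w0 : X k) :
    cont (mX R B S q w0 0).1 = cont R + {q + 3} := by
  change cont (Tsq.mir (wX R B S q w0 0).1) = _
  rw [cont_mir, wX_cont0 h.dat h.size w0]

/-- the old words are older -/
theorem NodeM.rank (h : NodeM k q R B S) (w0 : X k) : ∀ i < 20, i ≠ 0 → i ≠ 10 →
    Lower (cont (mX R B S q w0 i).1) (cont (mX R B S q w0 0).1) := by
  intro i hi h0 h10
  rw [h.cont0]
  change Lower (cont (Tsq.mir (wX R B S q w0 i).1)) _
  rw [cont_mir, wX_eq h.dat h.size w0 hi]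
  exact rank_W h.dat i hi h0 h10

theorem NodeM.hold (h : NodeM k q R B S) (w0 : X k) : ∀ i < 20, i ≠ 0 → i ≠ 10 →
    ¬ TT.SameCycle (mX R B S q w0 0) (mX R B S q w0 i) := by
  intro i hi h0 h10 hs
  exact (h.rank w0 i hi h0 h10).ne (cont_same hs).symm

/-- **words of different `T`-cycles are different** -/
theorem NodeM.disj (h : NodeM k q R B S) {q' : ℕ} {R' B' S' : BinaryTree Unit}
    (h' : NodeM k q' R' B' S') (hm : q < q' → q + 3 ∈ cont R) (hm' : q' < q → q' + 3 ∈ cont R')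
    (w0 : X k) {i j : ℕ} (hi : i < 20) (hj : j < 20)
    (e : mX R B S q w0 i = mX R' B' S' q' w0 j) :
    q = q' ∧ ((i = j ∧ R = R') ∨ (i = 0 ∧ j = 10) ∨ (i = 10 ∧ j = 0)) := by
  have mi : ∀ {a b : BinaryTree Unit}, Tsq.mir a = Tsq.mir b → a = b := by
    intro a b g
    rw [← Tsq.mir_mir a, g, Tsq.mir_mir]
  have e1 := congrArg Subtype.val e
  rw [h.word' w0 hi, h'.word' w0 hj] at e1
  obtain ⟨rfl, g⟩ := A0_inj h.a0d h'.a0d (by rw [cont_mir]; exact hm) (by rw [cont_mir]; exact hm')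
    hi hj e1
  refine ⟨rfl, ?_⟩
  rcases g with ⟨rfl, g⟩ | g | g
  · left
    refine ⟨rfl, ?_⟩
    by_cases h10 : i = 10
    · subst h10
      have g1 : mX R B S q w0 0 = mX R' B' S' q w0 0 := by
        rw [← h.link w0 (i := 0) (j := 10) (by simp), ← h'.link w0 (i := 0) (j := 10) (by simp), e]
      have g2 := congrArg Subtype.val g1
      rw [h.word' w0 (by norm_num), h'.word' w0 (by norm_num)] at g2
      exact mi (congrArg tl g2)
    · obtain ⟨g1, g2⟩ := g h10
      rcases lt_or_ge i 10 with h1 | h1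
      · exact mi (g1 h1)
      · obtain ⟨g3, g4⟩ := g2 h1
        apply sq_inj h.ne h'.ne
        rw [h.sq, h'.sq, mi g3, mi g4]
  · exact Or.inr (Or.inl g)
  · exact Or.inr (Or.inr g)

/-- a common word: the same `T`-cycle -/
theorem NodeM.disj' (h : NodeM k q R B S) {q' : ℕ} {R' B' S' : BinaryTree Unit}
    (h' : NodeM k q' R' B' S') (hm : q < q' → q + 3 ∈ cont R) (hm' : q' < q → q' + 3 ∈ cont R')
    (w0 : X k) {i j : ℕ} (hi : i < 20) (hj : j < 20)
    (e : mX R B S q w0 i = mX R' B' S' q' w0 j) :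
    TT.SameCycle (mX R B S q w0 0) (mX R' B' S' q' w0 0) := by
  obtain ⟨rfl, g⟩ := h.disj h' hm hm' w0 hi hj e
  rcases g with ⟨_, rfl⟩ | ⟨rfl, rfl⟩ | ⟨rfl, rfl⟩
  · have : (S, B) = (S', B') := by rw [← h.sq, ← h'.sq]
    obtain ⟨rfl, rfl⟩ := Prod.mk.inj this
    exact Perm.SameCycle.refl _ _
  · rw [e]
    exact (h'.same10 w0).symm
  · rw [← e]
    exact h.same10 w0

theorem NodeM.inj (h : NodeM k q R B S) (w0 : X k) (hne : mX R B S q w0 0 ≠ mX R B S q w0 10) :
    ∀ i < 20, ∀ j < 20, mX R B S q w0 i = mX R B S q w0 j → i = j := by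
  intro i hi j hj e
  obtain ⟨_, g⟩ := h.disj h (fun g => absurd g (lt_irrefl _)) (fun g => absurd g (lt_irrefl _)) w0
    hi hj e
  rcases g with ⟨g, _⟩ | ⟨rfl, rfl⟩ | ⟨rfl, rfl⟩
  · exact g
  · exact absurd e hne
  · exact absurd e.symm hne

/-- **the absorber** -/
theorem NodeM.abs (h : NodeM k q R B S) (w0 : X k) (hne : mX R B S q w0 0 ≠ mX R B S q w0 10) :
    (gad20M (mX R B S q w0)).Abs := by
  have e := h.dat.num
  have es := h.size
  apply gad20M_abs (R := Tsq.mir R) (Q := pc (q + 1)) (B := Tsq.mir B) (S := Tsq.mir S)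
    (by rw [pc_num, Tsq.mir_num]; omega) (by rw [pc_num, Tsq.mir_num, Tsq.mir_num]; omega)
    (fun i hi => h.word w0 hi) (h.inj w0 hne) (h.same10 w0) (h.hold w0)

/-! ### Existence -/

theorem mirX_mirX (x : X k) : Tsq.mirX (Tsq.mirX x) = x := Subtype.ext (Tsq.mir_mir x.1)

/-- the mirror of a `T`-cycle is a `T`-cycle -/
theorem same_mir {x y : X k} (h : (TT : Perm (X k)).SameCycle x y) :
    (TT : Perm (X k)).SameCycle (Tsq.mirX x) (Tsq.mirX y) := by
  obtain ⟨n, rfl⟩ := sameCycle_nat h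
  clear h
  induction n with
  | zero => exact Perm.SameCycle.refl _ _
  | succ n ih =>
    refine ih.trans ?_
    rw [pow_succ', Perm.mul_apply]
    refine Perm.SameCycle.symm ⟨1, ?_⟩
    rw [zpow_one]
    exact Tsq.TT_mir _

/-- **every `T`-cycle with smallest part `c = q + 3` at least twice and a larger part** has the data -/
theorem ex_NodeM {q : ℕ} (z : X k) (hc : q + 3 ∈ (cont z.1).erase (q + 3))
    (hmin : ∀ x ∈ cont z.1, q + 3 ≤ x) (htop : q + 3 < ht z.1) :
    ∃ R B S : BinaryTree Unit, NodeM k q R B S ∧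
      ∀ w0 : X k, (TT : Perm (X k)).SameCycle z (mX R B S q w0 0) := by
  have hc' : q + 3 ∈ cont (Tsq.mirX z).1 := by
    change q + 3 ∈ cont (Tsq.mir z.1)
    rw [cont_mir]
    exact Multiset.mem_of_mem_erase hc
  obtain ⟨w, R, hs, hw⟩ := exists_end (q + 2) (Tsq.mirX z) hc' (by
    intro x hx
    change x ∈ cont (Tsq.mir z.1) at hx
    rw [cont_mir] at hx
    exact hmin x hx)
  have hcw : cont z.1 = cont R + {q + 3} := by
    have h1 := cont_same hs
    change cont (Tsq.mir z.1) = _ at h1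
    rw [cont_mir, hw, cont_app, cont_pc] at h1
    exact h1
  have hR : NodeM k q R (Tsq.sq R).2 (Tsq.sq R).1 := by
    refine ⟨rfl, ?_, ?_, ?_, ?_⟩
    · intro x hx
      apply hmin
      rw [hcw]
      exact Multiset.mem_add.2 (Or.inl hx)
    · rw [hcw, add_comm, Multiset.singleton_add, Multiset.erase_cons_head] at hc
      exact Or.inl hc
    · rw [ht_eq, hcw, sup_add', Multiset.sup_singleton, ← ht_eq] at htop
      rcases lt_max_iff.1 htop with h1 | h1
      · exact h1
      · omega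
    · have h1 := X_num w
      rw [hw, num_app, pc_num] at h1
      omega
  refine ⟨R, _, _, hR, fun w0 => ?_⟩
  have h1 := same_mir hs
  rw [mirX_mirX] at h1
  have h2 : mX R (Tsq.sq R).2 (Tsq.sq R).1 q w0 0 = Tsq.mirX w := by
    apply Subtype.ext
    change Tsq.mir (wX R _ _ q w0 0).1 = Tsq.mir w.1
    rw [wX_eq hR.dat hR.size w0 (by norm_num), hw, W, ch_eq]
    rfl
  rw [h2]
  exact h1

end HM

end Pool.OddHC
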