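import Pool.Agent.Work.MP_8f87b2_h71.H1Gen
import Pool.Agent.Work.MP_8f87b2_h60.A0Gad

/-!
# MP_8f87b2_co: words of the mirrored bead free absorbers (A0) against the words of the H1 windows (A)

`W_aw`: no common word, if no marker `P` of the window is `Q'()X`, `X` heavy, `Q' = ()` or `(())`.
`NodeM.disjG`: for nodes `NodeM` and `NodeG` with `app H s ≠ Q'()X`.
-/

set_option autoImplicit false

namespace Pool.OddHC

namespace HM

open BinaryTree Equiv H1

variable {k q q' : ℕ} {R B S R' B' S' : BinaryTree Unit}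

theorem split_none {w : BinaryTree Unit} (h : am w = false) : (split w).2.1 = .nil := by
  induction w with
  | nil => rfl
  | node _ A X _ ih =>
    rw [am_node, Bool.or_eq_false_iff] at h
    rw [split, if_neg (by rw [h.1]; simp)]
    exact ih h.2

/-- the heavy data of the bead free words -/
structure Bare (R B S : BinaryTree Unit) : Prop where
  hR : hv R
  R0 : R ≠ .nil
  hB : hv B
  hS : hv S
  S0 : S ≠ .nil

theorem lastB_ch (n : ℕ) (h : 1 ≤ n) : lastB (ch (n + 1)) = false := by
  obtain ⟨n, rfl⟩ : ∃ n', n = n' + 1 := ⟨n - 1, by omega⟩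
  rfl

theorem light_ch (n : ℕ) (h : 2 ≤ n) : light (ch n) = false := by
  obtain ⟨n, rfl⟩ : ∃ n', n = n' + 1 + 1 := ⟨n - 2, by omega⟩
  rfl

theorem hv_light {A : BinaryTree Unit} (h : hv A) (h0 : A ≠ .nil) : light A = false :=
  gd_light (Or.inr ⟨h0, h⟩)

theorem PB_nil : PB .nil = false := rfl

theorem am_nil : am .nil = false := rfl

/-- the words without a marker -/
theorem am_aw (h : Bare R B S) {j : ℕ} (hj : j < 20)
    (hx : ¬ ((j = 3 ∧ q ≤ 1) ∨ (j = 4 ∧ 1 ≤ q) ∨ (j = 13 ∧ q ≤ 1 ∧ B ≠ .nil) ∨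
      (j = 19 ∧ B = .nil))) : am (aw R (ch (q + 1)) B S j) = false := by
  have aR := hv_am h.hR
  have aB := hv_am h.hB
  have aS := hv_am h.hS
  have pR := hv_PB h.hR
  have pB := hv_PB h.hB
  have pS := hv_PB h.hS
  have aQ := am_ch (q + 1)
  have pQ := PB_ch (q + 1)
  have aQ2 : am (ch (q + 1) △ .nil) = false := am_ch (q + 2)
  have pQ2 : PB (ch (q + 1) △ .nil) = false := PB_ch (q + 2)
  have lR := hv_light h.hR h.R0
  have lS := hv_light h.hS h.S0
  have laR := hv_last h.hR
  have laS := hv_last h.hS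
  have laB := hv_last h.hB
  interval_cases j
  · simp [aw, am_node, mk_eq, aQ2, pQ2, aR]
  · simp [aw, am_node, am_app, mk_eq, aQ, aR, PB_nil, am_nil]
  · simp [aw, am_node, am_app, mk_eq, aQ, aR, PB_nil, am_nil]
  · have hq : 2 ≤ q := by
      by_contra hq
      exact hx (Or.inl ⟨rfl, by omega⟩)
    have e1 : PB (app (ch (q + 1)) (.nil △ R)) = false := by
      change (light (ch q) && _) = false
      rw [light_ch q hq]
      rfl
    simp [aw, am_node, am_app, mk_eq, aQ, aR, e1, PB_nil, am_nil]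
  · have hq : q = 0 := by
      by_contra hq
      exact hx (Or.inr (Or.inl ⟨rfl, by omega⟩))
    subst hq
    simp [aw, am_node, am_app, mk_eq, aR, PB, am, ch, lastB, light, isNil]
  · simp [aw, am_node, am_app, mk_eq, aR, PB_nil, am_nil, aQ, pQ]
  · simp [aw, am_node, am_app, mk_eq, aR, pR, am_nil, aQ, pQ]
  · have e1 : PB (app R (.nil △ .nil)) = false := by
      cases R with
      | nil => exact absurd rfl h.R0
      | node _ A X =>
        change (light A && (!isNil (app X (.nil △ .nil)) && !lastB (app X (.nil △ .nil)))) = false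
        rw [lastB_app (by simp), lastB_one]
        simp [isNil]
    simp [aw, am_node, am_app, mk_eq, aR, e1, am_nil, aQ, PB_nil]
  · simp [aw, am_node, am_app, mk_eq, aR, pR, am_nil, aQ, PB_nil]
  · have e1 : PB (R △ .nil) = false := by
      rw [PB, lR]
      rfl
    simp [aw, am_node, am_app, mk_eq, aR, pR, e1, am_nil, aQ]
  · simp [aw, am_node, am_app, mk_eq, aB, aS, aQ2, pQ2]
  · simp [aw, am_node, am_app, mk_eq, aB, aS, aQ, PB_nil, am_nil]
  · simp [aw, am_node, am_app, mk_eq, aB, aS, pS, aQ, PB_nil, am_nil]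
  · have e1 : PB (app (ch (q + 1)) (.nil △ B)) = false := by
      change (light (ch q) && (!isNil (.nil △ B) && !lastB (.nil △ B))) = false
      by_cases hB0 : B = .nil
      · subst hB0
        simp [lastB, isNil]
      · have hq : 2 ≤ q := by
          by_contra hq
          exact hx (Or.inr (Or.inr (Or.inl ⟨rfl, by omega, hB0⟩)))
        rw [light_ch q hq]
        rfl
    simp [aw, am_node, am_app, mk_eq, aB, aS, aQ, e1, PB_nil, am_nil]
  · have e1 : PB (app S (.nil △ ch (q + 1))) = false := by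
      cases S with
      | nil => exact absurd rfl h.S0
      | node _ A X =>
        change (light A && _) = false
        rw [gd_light h.hS.1]
        rfl
    simp [aw, am_node, am_app, mk_eq, aB, aS, aQ, e1, PB_nil, am_nil]
  · simp [aw, am_node, am_app, mk_eq, aB, aS, pS, aQ, pQ, am_nil]
  · simp [aw, am_node, am_app, mk_eq, aB, aS, pB, aQ, pQ]
  · have e1 : PB (app B (S △ .nil)) = false := by
      cases B with
      | nil =>
        change (light S && _) = false
        rw [lS]
        rfl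
      | node _ A X =>
        change (light A && _) = false
        rw [gd_light h.hB.1]
        rfl
    simp [aw, am_node, am_app, mk_eq, aB, aS, pS, aQ, e1, am_nil]
  · simp [aw, am_node, am_app, mk_eq, aB, aS, pB, aQ, PB_nil, am_nil]
  · have hB0 : B ≠ .nil := by
      intro hB0
      exact hx (Or.inr (Or.inr (Or.inr ⟨rfl, hB0⟩)))
    have e1 : PB (B △ S) = false := by
      rw [PB, hv_light h.hB hB0]
      rfl
    simp [aw, am_node, am_app, mk_eq, aB, aS, pB, aQ, e1, am_nil]

/-- the decomposition of the bead free words at the first marked component -/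
theorem split_aw (h : Bare R B S) {j : ℕ} (hj : j < 20) :
    am (split (aw R (ch (q + 1)) B S j)).2.1 = false ∧
    ((split (aw R (ch (q + 1)) B S j)).2.1 = .nil ∨
    (split (aw R (ch (q + 1)) B S j)).1 = .nil ∧ (split (aw R (ch (q + 1)) B S j)).2.2 = .nil ∨
    (split (aw R (ch (q + 1)) B S j)).1 = R ∧ (split (aw R (ch (q + 1)) B S j)).2.2 = .nil ∨
    (q ≤ 1 ∧ B ≠ .nil ∧ split (aw R (ch (q + 1)) B S j) = (.nil, app (ch (q + 1)) (.nil △ B), S)) ∨
    (split (aw R (ch (q + 1)) B S j)).1 = ch (q + 1) ∧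
      (split (aw R (ch (q + 1)) B S j)).2.2 = .nil) := by
  by_cases hx : ¬ ((j = 3 ∧ q ≤ 1) ∨ (j = 4 ∧ 1 ≤ q) ∨ (j = 13 ∧ q ≤ 1 ∧ B ≠ .nil) ∨
      (j = 19 ∧ B = .nil))
  · have h1 := split_none (am_aw h hj hx)
    rw [h1]
    exact ⟨rfl, Or.inl rfl⟩
  · rw [not_not] at hx
    have aR := hv_am h.hR
    have aB := hv_am h.hB
    have aS := hv_am h.hS
    have aQ := am_ch (q + 1)
    rcases hx with ⟨rfl, hq⟩ | ⟨rfl, hq⟩ | ⟨rfl, hq, hB⟩ | ⟨rfl, hB⟩
    · have e1 : PB (app (ch (q + 1)) (.nil △ R)) = true := by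
        have h1 : light (ch q) = true := by interval_cases q <;> rfl
        change (light (ch q) && (!isNil (.nil △ R) && !lastB (.nil △ R))) = true
        rw [h1, lastB_cons h.R0, hv_last h.hR]
        rfl
      have e2 : am (app (ch (q + 1)) (.nil △ R)) = false := by
        simp [am_node, am_app, mk_eq, aR, aQ, PB_nil, am_nil]
      have e3 : split (aw R (ch (q + 1)) B S 3) = (.nil, app (ch (q + 1)) (.nil △ R), .nil) :=
        split_node_t (mk_of_PB e1)
      rw [e3]
      exact ⟨e2, Or.inr (Or.inl ⟨rfl, rfl⟩)⟩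
    · have e1 : PB (.nil △ ch (q + 1)) = true := by
        change (light .nil && (!isNil (ch (q + 1)) && !lastB (ch (q + 1)))) = true
        rw [lastB_ch q hq]
        rfl
      have e2 : am (.nil △ ch (q + 1)) = false := by
        simp [am_node, mk_eq, aQ, PB_nil, am_nil]
      have e3 : split (aw R (ch (q + 1)) B S 4) = (R, .nil △ ch (q + 1), .nil) :=
        split_app aR (mk_of_PB e1)
      rw [e3]
      exact ⟨e2, Or.inr (Or.inr (Or.inl ⟨rfl, rfl⟩))⟩
    · have e1 : PB (app (ch (q + 1)) (.nil △ B)) = true := by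
        have h1 : light (ch q) = true := by interval_cases q <;> rfl
        change (light (ch q) && (!isNil (.nil △ B) && !lastB (.nil △ B))) = true
        rw [h1, lastB_cons hB, hv_last h.hB]
        rfl
      have e2 : am (app (ch (q + 1)) (.nil △ B)) = false := by
        simp [am_node, am_app, mk_eq, aB, aQ, PB_nil, am_nil]
      have e3 : split (aw R (ch (q + 1)) B S 13) = (.nil, app (ch (q + 1)) (.nil △ B), S) :=
        split_node_t (mk_of_PB e1)
      rw [e3]
      exact ⟨e2, Or.inr (Or.inr (Or.inr (Or.inl ⟨hq, hB, rfl⟩)))⟩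
    · subst hB
      have e1 : PB (.nil △ S) = true := by
        change (light .nil && (!isNil S && !lastB S)) = true
        rw [hv_last h.hS, isNil_f.2 h.S0]
        rfl
      have e2 : am (.nil △ S) = false := by
        simp [am_node, mk_eq, aS, PB_nil, am_nil]
      have e3 : split (aw R (ch (q + 1)) .nil S 19) = (ch (q + 1), .nil △ S, .nil) :=
        split_app aQ (mk_of_PB e1)
      rw [e3]
      exact ⟨e2, Or.inr (Or.inr (Or.inr (Or.inr ⟨rfl, rfl⟩)))⟩

/-- the decomposition of the words of a window, if the inside of the first marked component has no marker -/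
theorem split_W (h : Adm (q + 1) R B S) {i : ℕ} (hi : i < 20)
    (h0 : am (split (W R (ch (q + 1)) B S i)).2.1 = false) :
    ∃ B1 P p s, hv B1 ∧ PB P = true ∧ R = app B1 (P △ B) ∧
      split (W R (ch (q + 1)) B S i) = (p, P, s) ∧
      ((p = B1 ∧ s ≠ .nil) ∨ (p = B1 ∧ s ≠ .nil ∧ lastB s = true) ∨ (p ≠ .nil ∧ s ≠ .nil) ∨
      p = (app (ch (q + 1)) (.nil △ .nil)) △ B1 ∨ p = ch (q + 1) △ (.nil △ B1)) := by
  have hidx : idx (W R (ch (q + 1)) B S i) = i := by
    rcases lt_or_ge i 10 with h1 | h1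
    · exact idx_lo h i h1
    · exact idx_hi h i h1 hi
  rw [idx, if_neg (by rw [h0]; simp)] at hidx
  obtain ⟨B1, P, h1, h2, h3, rfl⟩ := h.hR
  have mP := mk_of_PB h2
  have aB1 := hv_am h1
  have hi5 : i = 0 ∨ i = 1 ∨ i = 2 ∨ i = 4 ∨ i = 5 := by
    unfold idx0 at hidx
    split_ifs at hidx <;> omega
  rcases hi5 with rfl | rfl | rfl | rfl | rfl
  · have e : W (app B1 (P △ B)) (ch (q + 1)) B S 0 = app B1 (P △ app B ((ch (q + 1) △ .nil) △ .nil)) := by
      change app (app B1 (P △ B)) _ = _
      rw [H1.app_assoc]; rfl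
    refine ⟨B1, P, _, _, h1, h2, rfl, by rw [e, split_app aB1 mP], Or.inl ⟨rfl, app_ne (by simp)⟩⟩
  · have e : W (app B1 (P △ B)) (ch (q + 1)) B S 1 =
        app B1 (P △ app B (.nil △ app (ch (q + 1)) (.nil △ .nil))) := by
      change app (app B1 (P △ B)) _ = _
      rw [H1.app_assoc]; rfl
    refine ⟨B1, P, _, _, h1, h2, rfl, by rw [e, split_app aB1 mP],
      Or.inr (Or.inl ⟨rfl, app_ne (by simp), ?_⟩)⟩
    rw [lastB_app (by simp), lastB_cons (app_ne (by simp)), lastB_app (by simp), lastB_one]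
    rfl
  · have e : W (app B1 (P △ B)) (ch (q + 1)) B S 2 =
        app (.nil △ B1) (P △ app B (.nil △ ch (q + 1))) := by
      change .nil △ app (app B1 (P △ B)) _ = _
      rw [H1.app_assoc]; rfl
    exact ⟨B1, P, _, _, h1, h2, rfl, by rw [e, split_app (by rw [am_node, aB1]; rfl) mP],
      Or.inr (Or.inr (Or.inl ⟨by simp, app_ne (by simp)⟩))⟩
  · have e : W (app B1 (P △ B)) (ch (q + 1)) B S 4 =
        app ((ch q △ (.nil △ .nil)) △ B1) (P △ B) := rfl
    exact ⟨B1, P, _, _, h1, h2, rfl, by rw [e, split_app (by rw [am_node, aB1, mk_chb]; rfl) mP],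
      Or.inr (Or.inr (Or.inr (Or.inl (by rfl))))⟩
  · have e : W (app B1 (P △ B)) (ch (q + 1)) B S 5 = app (ch (q + 1) △ (.nil △ B1)) (P △ B) := rfl
    exact ⟨B1, P, _, _, h1, h2, rfl,
      by rw [e, split_app (by rw [am_node, am_node, aB1, mk_ch]; rfl) mP],
      Or.inr (Or.inr (Or.inr (Or.inr rfl)))⟩

/-- **no common word** of a window and a bead free absorber -/
theorem W_aw (h : Adm (q + 1) R B S) (h' : Bare R' B' S')
    (hx : ∀ X Y : BinaryTree Unit, hv X → X ≠ .nil → q' ≤ 1 →
      R ≠ (app (ch (q' + 1)) (.nil △ X)) △ Y)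
    {i j : ℕ} (hi : i < 20) (hj : j < 20) :
    W R (ch (q + 1)) B S i ≠ aw R' (ch (q' + 1)) B' S' j := by
  intro e
  obtain ⟨a0, a1⟩ := split_aw (q := q') h' hj
  rw [← e] at a0
  obtain ⟨B1, P, p, s, b1, b2, b3, b4, b5⟩ := split_W h hi a0
  rw [← e, b4] at a1
  have x1 : x4 (ch (q' + 1)) = false := by
    cases q' <;> simp [ch, x4, lastB, len]
  have x2 : x4 ((app (ch (q + 1)) (.nil △ .nil)) △ B1) = true := by
    simp [ch, x4, lastB, len, app, isNil]
  rcases a1 with a1 | ⟨a1, a2⟩ | ⟨a1, a2⟩ | ⟨a1, a2, a3⟩ | ⟨a1, a2⟩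
  · change P = .nil at a1
    rw [a1] at b2
    exact absurd b2 (by simp [PB_nil])
  · change p = .nil at a1
    change s = .nil at a2
    subst a1 a2
    rcases b5 with b5 | b5 | b5 | b5 | b5
    · exact b5.2 rfl
    · exact b5.2.1 rfl
    · exact b5.2 rfl
    · simp at b5
    · simp at b5
  · change p = R' at a1
    change s = .nil at a2
    subst a1 a2
    rcases b5 with b5 | b5 | b5 | b5 | b5
    · exact b5.2 rfl
    · exact b5.2.1 rfl
    · exact b5.2 rfl
    · have := hv_x4 h'.hR
      rw [b5, x2] at this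
      exact absurd this (by simp)
    · have := hv_sb h'.hR
      rw [b5] at this
      exact absurd this (by simp [sb, fb, isNil])
  · simp only [Prod.mk.injEq] at a3
    obtain ⟨c1, c2, c3⟩ := a3
    subst c1 c3
    rcases b5 with ⟨c5, _⟩ | ⟨_, _, c5⟩ | b5 | b5 | b5
    · rw [← c5, c2] at b3
      exact hx B' B h'.hB a2 a1 b3
    · rw [hv_last h'.hS] at c5
      exact absurd c5 (by simp)
    · exact b5.1 rfl
    · simp at b5
    · simp at b5
  · change p = ch (q' + 1) at a1
    change s = .nil at a2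
    subst a1 a2
    rcases b5 with b5 | b5 | b5 | b5 | b5
    · exact b5.2 rfl
    · exact b5.2.1 rfl
    · exact b5.2 rfl
    · rw [b5, x2] at x1
      exact absurd x1 (by simp)
    · rw [ch_succ] at b5
      simp at b5

/-- no `Q'()X` in front -/
def Hok (q' : ℕ) (H s : BinaryTree Unit) : Prop :=
  q' ≤ 1 → ∀ X : BinaryTree Unit, hv X → X ≠ .nil → app H s ≠ app (ch (q' + 1)) (.nil △ X)

theorem mir_ne {t : BinaryTree Unit} (h : t ≠ .nil) : Tsq.mir t ≠ .nil := by
  intro h1
  apply h
  rw [← Tsq.mir_mir t, h1]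
  rfl

theorem hv_Hv {X : BinaryTree Unit} (h : Hv q X) : hv X :=
  hv_of_cont fun x hx => by
    have := h x hx
    omega

theorem NodeM.bareM (h : NodeM k q R B S) : Bare (Tsq.mir R) (Tsq.mir B) (Tsq.mir S) where
  hR := hv_Hv h.a0d.hv
  R0 := mir_ne h.ne
  hB := hv_Hv h.a0d.hvB
  hS := hv_Hv h.a0d.hvS
  S0 := h.a0d.S_ne

/-- **A0 against A** -/
theorem NodeM.disjG {B1 H s : BinaryTree Unit} (h' : NodeM k q' R' B' S')
    (h : NodeG k q B1 H s B) (hH : Hok q' H s) (w0 : X k) {i j : ℕ} (hi : i < 20) (hj : j < 20) :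
    gX q B1 H s B w0 i ≠ mX R' B' S' q' w0 j := by
  intro e
  have e1 := congrArg Subtype.val e
  rw [h.word w0 hi, h'.word' w0 hj, ← ch_eq] at e1
  refine W_aw h.adm h'.bareM ?_ hi hj e1
  intro X Y hX X0 hq e2
  unfold gR at e2
  have hB1 := h.h1
  cases B1 with
  | nil =>
    exact hH hq X hX X0 (node_inj e2).1
  | node _ A C =>
    have e3 : A = app (ch (q' + 1)) (.nil △ X) := (node_inj e2).1
    rcases hB1.1 with e4 | ⟨_, e4⟩
    · rw [e4] at e3
      have := congrArg len e3
      rw [ch_succ] at this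
      simp [len, app] at this
    · rw [e3] at e4
      have := hv_sb e4
      rw [ch_succ] at this
      simp [sb, fb, isNil, app] at this

theorem not_hv_nil (X : BinaryTree Unit) : ¬ hv (.nil △ X) := by
  intro h
  exact gd_ne h.1 rfl

theorem not_hv_two (X : BinaryTree Unit) : ¬ hv ((.nil △ .nil) △ X) := by
  intro h
  rcases h.1 with h1 | ⟨_, h1⟩
  · simp at h1
  · exact not_hv_nil _ h1

/-- windows with a `2`-soliton in the marker -/
theorem Hok_two {a m : ℕ} {s : BinaryTree Unit} (ha : 0 < a) (hs : hv s) :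
    Hok q' (lv m (lv2 a .nil)) s := by
  intro hq X hX X0 e
  obtain ⟨a, rfl⟩ : ∃ a', a = a' + 1 := ⟨a - 1, by omega⟩
  interval_cases q'
  · change _ = .nil △ (.nil △ X) at e
    cases m with
    | zero => simp [lv, lv2, app] at e
    | succ m =>
      cases m with
      | zero => simp [lv, lv2, app] at e
      | succ m =>
        cases m with
        | zero =>
          simp only [lv, lv2, app, BinaryTree.node.injEq, true_and] at e
          rw [← e] at hX
          exact not_hv_two _ hX
        | succ m =>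
          simp only [lv, app, BinaryTree.node.injEq, true_and] at e
          rw [← e] at hX
          exact not_hv_nil _ hX
  · change _ = (.nil △ .nil) △ (.nil △ X) at e
    cases m with
    | zero =>
      cases a with
      | zero =>
        simp only [lv, lv2, app, BinaryTree.node.injEq, true_and] at e
        rw [e] at hs
        exact not_hv_nil _ hs
      | succ a => simp [lv, lv2, app] at e
    | succ m => simp [lv, app] at e

/-- windows with beads only: one bead, or `q' = 1` -/
theorem Hok_one {m : ℕ} {s : BinaryTree Unit} (hm : 0 < m) (hs : hv s) (h : m = 1 ∨ 1 ≤ q') :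
    Hok q' (lv m .nil) s := by
  intro hq X hX X0 e
  interval_cases q'
  · obtain rfl : m = 1 := by omega
    change .nil △ s = .nil △ (.nil △ X) at e
    simp only [BinaryTree.node.injEq, true_and] at e
    rw [e] at hs
    exact not_hv_nil _ hs
  · obtain ⟨m, rfl⟩ : ∃ m', m = m' + 1 := ⟨m - 1, by omega⟩
    change _ = (.nil △ .nil) △ (.nil △ X) at e
    simp [lv, app] at e

end HM

end Pool.OddHC
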