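import Pool.Agent.Work.MP_8f87b2_mid.Types
import Pool.Agent.Work.MP_8f87b2_h6.OddP
import Pool.Agent.Work.MP_8f87b2_h60.A0A

/-!
# MP_8f87b2_co: type A0 = the mirrored window of a bead free T-cycle

`TyA0 F g` with hF, new, old, abs, rank, path; `TyA0.ex`: existence for every bead free `z` whose smallest part
`q + 3` occurs at least twice, with a larger part, `T z ≠ z`; `TyA0.dis`: two of them have no common word.
-/

set_option autoImplicit false

namespace Pool.OddHC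

open Finset Equiv BinaryTree Pool.Agent.Work.MP_8f87b2_co HM

variable {k : ℕ} {F F' : Set (Cyc k)} {g g' : DG k}

/-- TYPE A0: the mirrored window of a bead free T-cycle -/
def TyA0 (F : Set (Cyc k)) (g : DG k) : Prop :=
  ∃ (q : ℕ) (R B S : BinaryTree Unit) (w0 : X k), NodeM k q R B S ∧
    mX R B S q w0 0 ≠ mX R B S q w0 10 ∧
    F = {cyc (mX R B S q w0 0)} ∧ g = gad20M (mX R B S q w0)

theorem mem_gad20M {w : ℕ → X k} {x : X k} : x ∈ (gad20M w).B ↔ ∃ i < 20, w i = x := by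
  classical
  change x ∈ (range 20).image w ↔ _
  rw [Finset.mem_image]
  constructor
  · rintro ⟨i, hi, rfl⟩; exact ⟨i, Finset.mem_range.1 hi, rfl⟩
  · rintro ⟨i, hi, rfl⟩; exact ⟨i, Finset.mem_range.2 hi, rfl⟩

theorem TyA0.hF (h : TyA0 F g) : ∀ w, w ∈ g.F ↔ cyc w ∈ F := by
  obtain ⟨q, R, B, S, w0, h1, hne, rfl, rfl⟩ := h
  intro w
  change TT.SameCycle _ _ ↔ cyc w = _
  rw [← cyc_eq]
  exact ⟨fun e => e.symm, fun e => e.symm⟩

theorem TyA0.new (h : TyA0 F g) : ∀ c ∈ F, ∃ u ∈ g.B, cyc u = c := by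
  obtain ⟨q, R, B, S, w0, h1, hne, rfl, rfl⟩ := h
  rintro c rfl
  exact ⟨_, mem_gad20M.2 ⟨0, by norm_num, rfl⟩, rfl⟩

theorem TyA0.old (h : TyA0 F g) : ∃ u ∈ g.B, cyc u ∉ F := by
  obtain ⟨q, R, B, S, w0, h1, hne, rfl, rfl⟩ := h
  refine ⟨_, mem_gad20M.2 ⟨1, by norm_num, rfl⟩, ?_⟩
  intro e
  have h2 := h1.rank w0 1 (by norm_num) (by norm_num) (by norm_num)
  have h3 : cyc (mX R B S q w0 1) = cyc (mX R B S q w0 0) := e
  exact h2.ne (congrArg contc h3)

theorem TyA0.abs (h : TyA0 F g) : g.Abs := by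
  obtain ⟨q, R, B, S, w0, h1, hne, rfl, rfl⟩ := h
  exact h1.abs w0 hne

/-- rank: every old word is `Lower` than the new T-cycle -/
theorem TyA0.rank (h : TyA0 F g) : ∀ w ∈ g.B, cyc w ∈ F ∨ ∀ c ∈ F, H1.Lower (contc (cyc w)) (contc c) := by
  obtain ⟨q, R, B, S, w0, h1, hne, rfl, rfl⟩ := h
  intro w hw
  obtain ⟨i, hi, rfl⟩ := mem_gad20M.1 hw
  by_cases h0 : i = 0
  · left; rw [h0]; rfl
  · by_cases h10 : i = 10
    · left
      rw [h10]
      change cyc _ = cyc _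
      exact cyc_eq.2 (h1.same10 w0).symm
    · right
      rintro c rfl
      exact h1.rank w0 i hi h0 h10

theorem TyA0.path (h : TyA0 F g) : ∀ a ∈ g.arcs, ∃ n : ℕ, (TT ^ (n + 1)) a.1 = a.2 ∧ a.1 ∈ g.B ∧
    ∀ i < n, (TT ^ (i + 1)) a.1 ∈ innA a := by
  obtain ⟨q, R, B, S, w0, h1, hne, rfl, rfl⟩ := h
  intro p hp
  have key : ∀ i j, (i, j) ∈ [(0, 10), (1, 11), (3, 12), (6, 15), (8, 14), (9, 17)] → j < 20 →
      p = (mX R B S q w0 j, mX R B S q w0 i) →
      ∃ n : ℕ, (TT ^ (n + 1)) p.1 = p.2 ∧ p.1 ∈ (gad20M (mX R B S q w0)).B ∧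
        ∀ i < n, (TT ^ (i + 1)) p.1 ∈ innA p := by
    rintro i j hij hj rfl
    refine ⟨1, ?_, mem_gad20M.2 ⟨j, hj, rfl⟩, ?_⟩
    · rw [pow_succ, pow_one, Perm.mul_apply]
      exact h1.link w0 hij
    · intro n hn
      obtain rfl : n = 0 := by omega
      rw [pow_one]
      rfl
  have hp' : p = (mX R B S q w0 10, mX R B S q w0 0) ∨
      p = (mX R B S q w0 11, mX R B S q w0 1) ∨
      p = (mX R B S q w0 12, mX R B S q w0 3) ∨
      p = (mX R B S q w0 15, mX R B S q w0 6) ∨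
      p = (mX R B S q w0 14, mX R B S q w0 8) ∨
      p = (mX R B S q w0 17, mX R B S q w0 9) := hp
  rcases hp' with e | e | e | e | e | e
  · exact key 0 10 (by simp) (by norm_num) e
  · exact key 1 11 (by simp) (by norm_num) e
  · exact key 3 12 (by simp) (by norm_num) e
  · exact key 6 15 (by simp) (by norm_num) e
  · exact key 8 14 (by simp) (by norm_num) e
  · exact key 9 17 (by simp) (by norm_num) e

/-- the inner words of the arcs: mirror images of `T` of the words 0, 1, 3, 6, 8, 9 of the right window -/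
theorem inner_mir {q : ℕ} {R B S : BinaryTree Unit} (h : NodeM k q R B S) (w0 : X k) {i j : ℕ}
    (hij : (i, j) ∈ [(0, 10), (1, 11), (3, 12), (6, 15), (8, 14), (9, 17)]) :
    TT (mX R B S q w0 j) = Tsq.mirX (TT (H1.wX R B S q w0 i)) := by
  have h1 := H1.wX_link h.dat h.size w0 hij
  change TT (Tsq.mirX (H1.wX R B S q w0 j)) = _
  rw [← h1]
  exact Tsq.TT_mir _

/-- words 0 and 10 are different if `z` is not a fixed point -/
theorem ne_of_not_fixed {q : ℕ} {R B S : BinaryTree Unit} (h : NodeM k q R B S) (w0 : X k)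
    (hz : TT (mX R B S q w0 0) ≠ mX R B S q w0 0) : mX R B S q w0 0 ≠ mX R B S q w0 10 := by
  intro e
  have h1 := h.link w0 (i := 0) (j := 10) (by simp)
  rw [← e] at h1
  obtain ⟨P, hP, h2⟩ := OddP.odd_period k (mX R B S q w0 0)
  apply hz
  obtain ⟨n, rfl⟩ := hP
  have h3 : ∀ n : ℕ, (TT ^ (2 * n)) (mX R B S q w0 0) = mX R B S q w0 0 := by
    intro n
    induction n with
    | zero => rfl
    | succ n ih =>
      rw [show 2 * (n + 1) = 2 + 2 * n by ring, pow_add, Perm.mul_apply, ih, pow_two,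
        Perm.mul_apply, h1]
  have h4 : (TT ^ (2 * n + 1)) (mX R B S q w0 0) = mX R B S q w0 0 := by
    conv_rhs => rw [← h2]
    rw [Perm.coe_pow]
    rfl
  rw [pow_succ', Perm.mul_apply, h3 n] at h4
  exact h4

/-- **existence** -/
theorem TyA0.ex {q : ℕ} (z : X k) (hc : q + 3 ∈ (cont z.1).erase (q + 3))
    (hmin : ∀ x ∈ cont z.1, q + 3 ≤ x) (htop : q + 3 < ht z.1) (hz : TT z ≠ z) :
    ∃ g : DG k, TyA0 {cyc z} g := by
  obtain ⟨R, B, S, h1, h2⟩ := ex_NodeM z hc hmin htop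
  have hs := h2 z
  have hne : TT (mX R B S q z 0) ≠ mX R B S q z 0 := by
    intro e
    apply hz
    obtain ⟨n, hn⟩ := sameCycle_nat hs.symm
    have h3 : ∀ n : ℕ, (TT ^ n) (mX R B S q z 0) = mX R B S q z 0 := by
      intro n
      induction n with
      | zero => rfl
      | succ n ih => rw [pow_succ', Perm.mul_apply, ih, e]
    rw [h3] at hn
    rw [← hn, e]
  refine ⟨gad20M (mX R B S q z), q, R, B, S, z, h1, ne_of_not_fixed h1 z hne, ?_, rfl⟩
  rw [cyc_eq.2 hs]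

/-- the smallest part of every T-cycle of the set occurs at least twice -/
def M2 (F : Set (Cyc k)) : Prop :=
  ∀ c ∈ F, ∀ x ∈ contc c, (∀ y ∈ contc c, x ≤ y) → 2 ≤ (contc c).count x

theorem M2.one (h : M2 F) {c : Cyc k} (hc : c ∈ F) : M2 {c} := by
  rintro _ rfl
  exact h _ hc

theorem M2.mem (h2 : M2 F) {q : ℕ} {R B S : BinaryTree Unit} (h : NodeM k q R B S) {w0 : X k}
    (hc : cyc (mX R B S q w0 0) ∈ F) : q + 3 ∈ cont R := by
  have e : contc (cyc (mX R B S q w0 0)) = cont R + {q + 3} := h.cont0 w0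
  have h3 := h2 _ hc (q + 3) (by
    rw [e]
    exact Multiset.mem_add.2 (Or.inr (Multiset.mem_singleton_self _))) (by
    intro y hy
    rw [e, Multiset.mem_add, Multiset.mem_singleton] at hy
    exact hy.elim (h.part y) (fun g => g.ge))
  rw [e, Multiset.count_add, Multiset.count_singleton_self] at h3
  exact Multiset.count_pos.1 (by omega)

/-- **disjointness A0 - A0** (smallest parts at least twice) -/
theorem TyA0.dis (h : TyA0 F g) (h' : TyA0 F' g') (hm : M2 F) (hm' : M2 F')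
    (hd : ∀ c ∈ F, c ∉ F') : ∀ w ∈ g.B, w ∉ g'.B := by
  obtain ⟨q, R, B, S, w0, h1, hne, rfl, rfl⟩ := h
  obtain ⟨q', R', B', S', w0', h1', hne', rfl, rfl⟩ := h'
  intro w hw hw'
  obtain ⟨i, hi, rfl⟩ := mem_gad20M.1 hw
  obtain ⟨j, hj, e⟩ := mem_gad20M.1 hw'
  have e0 : mX R' B' S' q' w0' j = mX R' B' S' q' w0 j := by
    apply Subtype.ext
    rw [h1'.word w0' hj, h1'.word w0 hj]
  have e00 : mX R' B' S' q' w0' 0 = mX R' B' S' q' w0 0 := by
    apply Subtype.ext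
    rw [h1'.word w0' (by norm_num), h1'.word w0 (by norm_num)]
  rw [e0] at e
  apply hd _ rfl
  change cyc _ = cyc _
  rw [e00]
  exact cyc_eq.2 (h1.disj' h1' (fun _ => hm.mem h1 rfl) (fun _ => hm'.mem h1' rfl) w0 hi hj e.symm)

/-- TYPE A with a marker which is not `Q'()X` (`Hok_two`: every `a ≥ 1`; `Hok_one`: one bead) -/
def TyAo (F : Set (Cyc k)) (g : DG k) : Prop :=
  ∃ (q : ℕ) (B1 H s B : BinaryTree Unit) (w0 : X k), H1.NodeG k q B1 H s B ∧
    (∀ q', Hok q' H s) ∧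
    F = {cyc (H1.gX q B1 H s B w0 0)} ∧ g = gad20 (H1.gX q B1 H s B w0)

theorem TyAo.toA (h : TyAo F g) : TyA F g := by
  obtain ⟨q, B1, H, s, B, w0, h1, _, h2, h3⟩ := h
  exact ⟨q, B1, H, s, B, w0, h1, h2, h3⟩

/-- **disjointness A0 - A** -/
theorem TyA0.disA (h : TyA0 F g) (h' : TyAo F' g') : ∀ w ∈ g.B, w ∉ g'.B := by
  obtain ⟨q, R, B, S, w0, h1, hne, rfl, rfl⟩ := h
  obtain ⟨q', B1', H', s', B', w0', h1', hH, rfl, rfl⟩ := h'
  intro w hw hw'
  obtain ⟨i, hi, rfl⟩ := mem_gad20M.1 hw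
  obtain ⟨j, hj, e⟩ := mem_gad20.1 hw'
  have e0 : mX R B S q w0 i = mX R B S q w0' i := by
    apply Subtype.ext
    rw [h1.word w0' hi, h1.word w0 hi]
  rw [e0] at e
  exact h1.disjG h1' (hH q) w0' hj hi e

end Pool.OddHC
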