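import Pool.Agent.Work.MP_8f87b2_h71.H1Low
import Pool.Agent.Work.MP_8f87b2_h60.A0Gad

/-!
# MP_8f87b2_co: run lengths of words whose parts are at least `c`

`ex b l` = the list with runs `l`, the first of them of `b`. `hv_runs`, `aa_runs`, `cc_runs`: the runs of a word with parts
`≥ c`, of the part before its first maximum and of the part after it. `NodeM.ZY`: `Z = co (cc R) 1 co B`, `Y = 0 co (aa R)`.
-/

set_option autoImplicit false

namespace Pool.OddHC

namespace HM

open BinaryTree H1 List

/-- the list with given run lengths -/
def ex : Bool → List ℕ → List Bool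
  | _, [] => []
  | b, x :: l => List.replicate x b ++ ex (!b) l

theorem ex_nil (b : Bool) : ex b [] = [] := rfl

theorem ex_cons (b : Bool) (x : ℕ) (l : List ℕ) : ex b (x :: l) = List.replicate x b ++ ex (!b) l :=
  rfl

theorem ex_app (l : List ℕ) : ∀ (b : Bool) (l' : List ℕ),
    (Even l.length → ex b (l ++ l') = ex b l ++ ex b l') ∧
    (Odd l.length → ex b (l ++ l') = ex b l ++ ex (!b) l') := by
  induction l with
  | nil =>
    intro b l'
    refine ⟨fun _ => rfl, fun h => ?_⟩
    simp at h
  | cons x l ih =>
    intro b l'
    constructor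
    · intro h
      have h1 : Odd l.length := by
        rw [List.length_cons] at h
        exact Nat.not_even_iff_odd.1 (fun h2 => by
          have := (Nat.even_add_one.1 h); exact this h2)
      rw [List.cons_append, ex_cons, ex_cons, (ih (!b) l').2 h1, Bool.not_not, List.append_assoc]
    · intro h
      have h1 : Even l.length := by
        rw [List.length_cons] at h
        by_contra h2
        rw [Nat.not_even_iff_odd] at h2
        exact (Nat.not_odd_iff_even.2 (h2.add_one)) h
      rw [List.cons_append, ex_cons, ex_cons, (ih (!b) l').1 h1, List.append_assoc]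

theorem ex_even {l : List ℕ} (h : Even l.length) (b : Bool) (l' : List ℕ) :
    ex b (l ++ l') = ex b l ++ ex b l' := (ex_app l b l').1 h

theorem ex_odd {l : List ℕ} (h : Odd l.length) (b : Bool) (l' : List ℕ) :
    ex b (l ++ l') = ex b l ++ ex (!b) l' := (ex_app l b l').2 h

theorem ex_co (l : List ℕ) : ∀ b : Bool, co (ex b l) = ex (!b) l := by
  induction l with
  | nil => intro b; rfl
  | cons x l ih =>
    intro b
    rw [ex_cons, ex_cons, co_app, ih]
    congr 1
    unfold co
    rw [List.map_replicate]

theorem ex_succ (b : Bool) (x : ℕ) (l : List ℕ) : b :: ex b (x :: l) = ex b ((x + 1) :: l) := by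
  rw [ex_cons, ex_cons, List.replicate_succ, List.cons_append]

/-- add one to the last run -/
theorem ex_last {l : List ℕ} (h : Even l.length) (b : Bool) (x : ℕ) (w : List Bool) :
    ex b (l ++ [x]) ++ b :: w = ex b (l ++ [x + 1]) ++ w := by
  rw [ex_even h, ex_even h, List.append_assoc, List.append_assoc]
  congr 1
  rw [ex_cons, ex_cons, ex_nil, List.append_nil, List.append_nil, List.replicate_succ', List.append_assoc]
  rfl

theorem ex_last' {l : List ℕ} (h : Odd l.length) (b : Bool) (x : ℕ) (w : List Bool) :
    ex b (l ++ [x]) ++ (!b) :: w = ex b (l ++ [x + 1]) ++ w := by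
  rw [ex_odd h, ex_odd h, List.append_assoc, List.append_assoc]
  congr 1
  rw [ex_cons, ex_cons, ex_nil, List.append_nil, List.append_nil, List.replicate_succ', List.append_assoc]
  rfl

/-- the run lengths are determined -/
theorem ex_inj : ∀ (l l' : List ℕ) (b : Bool), (∀ x ∈ l, 1 ≤ x) → (∀ x ∈ l', 1 ≤ x) →
    ex b l = ex b l' → l = l' := by
  intro l
  induction l with
  | nil =>
    intro l' b _ h' e
    cases l' with
    | nil => rfl
    | cons y l' =>
      have h1 := h' y (by simp)
      obtain ⟨y', rfl⟩ : ∃ y', y = y' + 1 := ⟨y - 1, by omega⟩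
      rw [ex_nil, ex_cons, List.replicate_succ, List.cons_append] at e
      cases e
  | cons x l ih =>
    intro l' b h h' e
    have h0 := h x (by simp)
    cases l' with
    | nil =>
      obtain ⟨x', rfl⟩ : ∃ x', x = x' + 1 := ⟨x - 1, by omega⟩
      rw [ex_nil, ex_cons, List.replicate_succ, List.cons_append] at e
      cases e
    | cons y l' =>
      have h1 := h' y (by simp)
      have key : ∀ (m x y : ℕ) (l l' : List ℕ), x ≤ m → (∀ z ∈ l, 1 ≤ z) → (∀ z ∈ l', 1 ≤ z) →
          List.replicate x b ++ ex (!b) l = List.replicate y b ++ ex (!b) l' →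
          x = y ∧ ex (!b) l = ex (!b) l' := by
        intro m
        induction m with
        | zero =>
          intro x y l l' hx hl hl' e
          obtain rfl : x = 0 := by omega
          cases y with
          | zero => exact ⟨rfl, by simpa using e⟩
          | succ y =>
            exfalso
            rw [List.replicate_zero, List.nil_append, List.replicate_succ, List.cons_append] at e
            cases l with
            | nil => cases e
            | cons z l =>
              have := hl z (by simp)
              obtain ⟨z', rfl⟩ : ∃ z', z = z' + 1 := ⟨z - 1, by omega⟩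
              rw [ex_cons, List.replicate_succ, List.cons_append, List.cons.injEq] at e
              cases b <;> simp at e
        | succ m ihm =>
          intro x y l l' hx hl hl' e
          cases x with
          | zero => exact ihm 0 y l l' (by omega) hl hl' e
          | succ x =>
            cases y with
            | zero =>
              exfalso
              rw [List.replicate_zero, List.nil_append, List.replicate_succ, List.cons_append] at e
              cases l' with
              | nil => cases e
              | cons z l =>
                have := hl' z (by simp)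
                obtain ⟨z', rfl⟩ : ∃ z', z = z' + 1 := ⟨z - 1, by omega⟩
                rw [ex_cons, List.replicate_succ, List.cons_append, List.cons.injEq] at e
                cases b <;> simp at e
            | succ y =>
              rw [List.replicate_succ, List.replicate_succ, List.cons_append, List.cons_append,
                List.cons.injEq] at e
              obtain ⟨h5, h6⟩ := ihm x y l l' (by omega) hl hl' e.2
              exact ⟨by omega, h6⟩
      rw [ex_cons, ex_cons] at e
      obtain ⟨rfl, h6⟩ := key x x y l l' le_rfl (fun z hz => h z (by simp [hz]))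
        (fun z hz => h' z (by simp [hz])) e
      rw [ih l' (!b) (fun z hz => h z (by simp [hz])) (fun z hz => h' z (by simp [hz])) h6]

/-- all entries at least `c` -/
abbrev Ge (c : ℕ) (l : List ℕ) : Prop := ∀ x ∈ l, c ≤ x

/-- a word with parts at least `c` in run form -/
theorem exists_snoc {l : List ℕ} (h : l ≠ []) : ∃ (l' : List ℕ) (x : ℕ), l = l' ++ [x] :=
  ⟨l.dropLast, l.getLast h, (List.dropLast_append_getLast h).symm⟩

/-- parentheses around runs -/
theorem ex_par {c : ℕ} {r : List ℕ} (h : Even r.length) (h0 : r ≠ []) (hg : Ge c r) :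
    ∃ r' : List ℕ, Even r'.length ∧ r' ≠ [] ∧ Ge c r' ∧
      ∀ w : List Bool, true :: (ex true r ++ false :: w) = ex true r' ++ w := by
  obtain ⟨l, y, rfl⟩ := exists_snoc h0
  have hl : Odd l.length := by
    rw [List.length_append, List.length_singleton] at h
    by_contra h2
    rw [Nat.not_odd_iff_even] at h2
    exact (Nat.not_even_iff_odd.2 h2.add_one) h
  cases l with
  | nil => simp at hl
  | cons x l =>
    refine ⟨(x + 1) :: l ++ [y + 1], ?_, by simp, ?_, ?_⟩
    · simpa using h
    · intro z hz
      rw [List.cons_append, List.mem_cons, List.mem_append, List.mem_singleton] at hz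
      have h1 := hg x (by simp)
      have h2 := hg y (by simp)
      rcases hz with rfl | hz | rfl
      · omega
      · exact hg z (by simp [hz])
      · omega
    · intro w
      have e1 := ex_last' (l := x :: l) hl true y w
      have e2 : (false :: w : List Bool) = (!true) :: w := rfl
      rw [e2, e1]
      change (true :: ex true (x :: (l ++ [y + 1]))) ++ w = _
      rw [ex_succ]
      rfl

/-- one soliton -/
theorem pile_of : ∀ (A : BinaryTree Unit) (x : ℕ), cont A = {x} → A = pc x := by
  intro A
  induction A with
  | nil =>
    intro x h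
    rw [cont_nil] at h
    exact absurd h.symm (Multiset.singleton_ne_zero x)
  | node u A1 A2 ih1 ih2 =>
    intro x h
    change raise (cont A1) + cont A2 = {x} at h
    have h1 := congrArg Multiset.card h
    rw [Multiset.card_add, Multiset.card_singleton] at h1
    have h2 : Multiset.card (raise (cont A1)) = max 1 (Multiset.card (cont A1)) := by
      by_cases h0 : cont A1 = 0
      · rw [h0]; rfl
      · have h3 : 0 < Multiset.card (cont A1) := Multiset.card_pos.2 h0
        have h4 := Multiset.card_erase_add_one (sup_mem h0)
        unfold raise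
        rw [Multiset.card_cons]
        omega
    have h3 : cont A2 = 0 := Multiset.card_eq_zero.1 (by omega)
    have h4 : A2 = .nil := cont_eq_zero.1 h3
    rw [h3, add_zero] at h
    subst h4
    by_cases h0 : A1 = .nil
    · subst h0
      rw [cont_nil, raise_zero, Multiset.singleton_inj] at h
      subst h
      rfl
    · have h5 : Multiset.card (cont A1) = 1 := by
        have : 0 < Multiset.card (cont A1) := Multiset.card_pos.2 (fun e => h0 (cont_eq_zero.1 e))
        omega
      obtain ⟨y, hy⟩ := Multiset.card_eq_one.1 h5
      rw [hy, raise_single, Multiset.singleton_inj] at h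
      rw [ih1 y hy, ← h]
      rfl

/-- the inside of a component -/
theorem comp_cases {c : ℕ} (hc : 2 ≤ c) {A : BinaryTree Unit} (h : ∀ x ∈ raise (cont A), c ≤ x) :
    (∃ x, A = pc x ∧ c ≤ x + 1) ∨ (A ≠ .nil ∧ ∀ x ∈ cont A, c ≤ x) := by
  by_cases h0 : A = .nil
  · exfalso
    subst h0
    have := h 1 (by rw [cont_nil, raise_zero, Multiset.mem_singleton])
    omega
  have hne : cont A ≠ 0 := fun e => h0 (cont_eq_zero.1 e)
  have hs := h _ (sup_mem_raise (cont A))
  by_cases h1 : c ≤ (cont A).sup
  · right
    refine ⟨h0, fun x hx => ?_⟩
    by_cases h2 : x = (cont A).sup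
    · omega
    · exact h x (mem_raise hx h2)
  · left
    have h3 : ∀ x ∈ cont A, x = (cont A).sup := by
      intro x hx
      by_contra h2
      have h4 := h x (mem_raise hx h2)
      have h5 := Multiset.le_sup hx
      omega
    have h4 : Multiset.card (cont A) = 1 := by
      have h5 : (cont A).erase (cont A).sup = 0 := by
        rw [Multiset.eq_zero_iff_forall_notMem]
        intro x hx
        have h6 : x ∈ raise (cont A) := by
          unfold raise
          exact Multiset.mem_cons_of_mem hx
        have h7 := h x h6
        have h8 := h3 x (Multiset.mem_of_mem_erase hx)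
        omega
      have h6 := Multiset.card_erase_add_one (sup_mem hne)
      rw [h5] at h6
      simpa using h6.symm
    obtain ⟨y, hy⟩ := Multiset.card_eq_one.1 h4
    refine ⟨y, pile_of A y hy, ?_⟩
    rw [hy, Multiset.sup_singleton] at hs
    exact hs

theorem wd_pc (x : ℕ) : wd (pc x) = List.replicate x true ++ List.replicate x false := by
  induction x with
  | zero => rfl
  | succ x ih =>
    rw [pc, wd_node, ih, List.replicate_succ, wd, List.append_assoc, List.cons_append]
    congr 2
    rw [List.replicate_succ']

/-- the runs of a word with parts at least `c` -/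
theorem hv_runs {c : ℕ} (hc : 2 ≤ c) : ∀ t : BinaryTree Unit, (∀ x ∈ cont t, c ≤ x) →
    ∃ r : List ℕ, wd t = ex true r ∧ Even r.length ∧ Ge c r ∧ (t ≠ .nil → r ≠ []) := by
  intro t
  induction t with
  | nil =>
    intro _
    exact ⟨[], rfl, by simp, fun _ h => absurd h List.not_mem_nil, fun h => absurd rfl h⟩
  | node u A C ihA ihC =>
    intro h
    change ∀ x ∈ raise (cont A) + cont C, c ≤ x at h
    obtain ⟨rC, e1, e2, e3, _⟩ := ihC fun x hx => h x (Multiset.mem_add.2 (Or.inr hx))
    rcases comp_cases hc (fun x hx => h x (Multiset.mem_add.2 (Or.inl hx))) with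
      ⟨x, rfl, hx⟩ | ⟨hA, hA2⟩
    · refine ⟨(x + 1) :: (x + 1) :: rC, ?_, ?_, ?_, by simp⟩
      · change wd (pc x △ C) = _
        rw [wd_node, wd_pc, e1, ex_cons, ex_cons, List.append_assoc, List.replicate_succ,
          List.cons_append]
        congr 2
        rw [List.replicate_succ', List.append_assoc]
        rfl
      · rw [List.length_cons, List.length_cons]
        exact (e2.add_one).add_one
      · intro z hz
        rw [List.mem_cons, List.mem_cons] at hz
        rcases hz with rfl | rfl | hz
        · exact hx
        · exact hx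
        · exact e3 z hz
    · obtain ⟨rA, f1, f2, f3, f4⟩ := ihA hA2
      obtain ⟨r', g1, g2, g3, g4⟩ := ex_par f2 (f4 hA) f3
      refine ⟨r' ++ rC, ?_, ?_, ?_, ?_⟩
      · change wd (A △ C) = _
        rw [wd_node, f1, g4, e1, ex_even g1]
      · rw [List.length_append]
        exact g1.add e2
      · intro z hz
        rcases List.mem_append.1 hz with hz | hz
        · exact g3 z hz
        · exact e3 z hz
      · intro _ h1
        exact g2 (List.append_eq_nil_iff.1 h1).1

/-! ### The part before the first maximum, the part after it -/

theorem sq_cont {t : BinaryTree Unit} (h : t ≠ .nil) : cont (Tsq.sq t).2 + cont (Tsq.sq t).1 = cont t := by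
  let x : X t.numNodes := ⟨t, mem_treesOfNumNodesEq.2 rfl⟩
  have e1 : (TT (TT x)).1 = app (Tsq.sq t).2 (Tsq.sq t).1 := Tsq.TT_sq x h
  have e2 : cont (TT (TT x)).1 = cont t := by
    rw [TT_apply, cont_TF, TT_apply, cont_TF]
  rw [e1, cont_app] at e2
  exact e2

theorem pile_ac (x : ℕ) : aa (pc (x + 1)) = List.replicate x true ∧
    cc (pc (x + 1)) = List.replicate x false ∧ (Tsq.sq (pc (x + 1))).2 = .nil := by
  induction x with
  | zero =>
    have h0 : Tsq.ht (BinaryTree.nil : BinaryTree Unit) = 0 := rfl
    refine ⟨aa_nil (by omega), cc_nil (by omega), ?_⟩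
    change (Tsq.sq (.nil △ .nil)).2 = _
    rw [Tsq.sq_nil (by omega)]
  | succ x ih =>
    have h0 : Tsq.ht (BinaryTree.nil : BinaryTree Unit) = 0 := rfl
    have h1 : pc (x + 1) ≠ .nil := by
      rw [pc]; simp
    obtain ⟨h2, h3, h4⟩ := ih
    refine ⟨?_, ?_, ?_⟩
    · rw [pc, aa_ge h1 (by omega), h2, List.replicate_succ]
    · rw [pc, cc_ge h1 (by omega), h3, h4, List.replicate_succ']
      rfl
    · rw [pc, Tsq.sq_ge h1 (by omega)]

/-- runs before the first maximum -/
theorem aa_runs {c : ℕ} (hc : 2 ≤ c) : ∀ t : BinaryTree Unit, t ≠ .nil → (∀ x ∈ cont t, c ≤ x) →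
    ∃ (y : ℕ) (l : List ℕ), aa t = ex true (y :: l) ∧ Even l.length ∧ Ge c l ∧
      (l = [] → y + 1 = Tsq.ht t) ∧ (l ≠ [] → c ≤ y) := by
  intro t
  induction t with
  | nil => intro h; exact absurd rfl h
  | node u A C ihA ihC =>
    intro _ h
    change ∀ x ∈ raise (cont A) + cont C, c ≤ x at h
    have hCv : ∀ x ∈ cont C, c ≤ x := fun x hx => h x (Multiset.mem_add.2 (Or.inr hx))
    by_cases hh : Tsq.ht A + 1 < Tsq.ht C
    · have hC : C ≠ .nil := by
        rintro rfl
        simp [Tsq.ht] at hh
      obtain ⟨y, l, f1, f2, f3, f4, f5⟩ := ihC hC hCv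
      have hAc : ∃ r' : List ℕ, Even r'.length ∧ r' ≠ [] ∧ Ge c r' ∧
          (∀ w : List Bool, true :: (wd A ++ false :: w) = ex true r' ++ w) ∧ c ≤ Tsq.ht A + 1 := by
        rcases comp_cases hc (fun x hx => h x (Multiset.mem_add.2 (Or.inl hx))) with
          ⟨x, rfl, hx⟩ | ⟨hA, hA2⟩
        · refine ⟨[x + 1, x + 1], by simp, by simp, ?_, ?_, ?_⟩
          · intro z hz
            simp at hz
            omega
          · intro w
            rw [wd_pc, ex_cons, ex_cons, ex_nil, List.append_nil, List.append_assoc,
              List.append_assoc, List.replicate_succ, List.cons_append]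
            congr 2
            rw [List.replicate_succ', List.append_assoc]
            rfl
          · rw [H1.ht_eq, ht_pc]
            exact hx
        · obtain ⟨rA, g1, g2, g3, g4⟩ := hv_runs hc A hA2
          obtain ⟨r', k1, k2, k3, k4⟩ := ex_par g2 (g4 hA) g3
          refine ⟨r', k1, k2, k3, ?_, ?_⟩
          · intro w
            rw [g1, k4]
          · have h5 := hA2 _ (sup_mem (fun e => hA (cont_eq_zero.1 e)))
            rw [← OddHC.ht_eq, ← H1.ht_eq] at h5
            omega
      obtain ⟨r', k1, k2, k3, k4, k5⟩ := hAc
      have hy : c ≤ y := by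
        by_cases hl : l = []
        · have := f4 hl
          omega
        · exact f5 hl
      cases r' with
      | nil => exact absurd rfl k2
      | cons z r' =>
        refine ⟨z, r' ++ y :: l, ?_, ?_, ?_, ?_, ?_⟩
        · change aa (A △ C) = _
          rw [aa_lt hh, k4, f1, ← ex_even k1]
          rfl
        · rw [List.length_cons] at k1
          rw [List.length_append, List.length_cons]
          have e1 : Odd r'.length := by
            by_contra h2
            rw [Nat.not_odd_iff_even] at h2
            exact (Nat.not_even_iff_odd.2 h2.add_one) k1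
          exact e1.add_odd f2.add_one
        · intro w hw
          rw [List.mem_append, List.mem_cons] at hw
          rcases hw with hw | rfl | hw
          · exact k3 w (by simp [hw])
          · exact hy
          · exact f3 w hw
        · intro e; simp at e
        · intro _; exact k3 z (by simp)
    · have hh' : Tsq.ht C ≤ Tsq.ht A + 1 := by omega
      have ht' : Tsq.ht (BinaryTree.node u A C) = Tsq.ht A + 1 := by
        change max (Tsq.ht A + 1) (Tsq.ht C) = _
        omega
      rcases comp_cases hc (fun x hx => h x (Multiset.mem_add.2 (Or.inl hx))) with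
        ⟨x, rfl, hx⟩ | ⟨hA, hA2⟩
      · obtain ⟨x, rfl⟩ : ∃ x', x = x' + 1 := ⟨x - 1, by omega⟩
        have h1 : pc (x + 1) ≠ .nil := by rw [pc]; simp
        refine ⟨x + 1, [], ?_, by simp, fun _ h => absurd h List.not_mem_nil, ?_, fun h => absurd rfl h⟩
        · change aa (pc (x + 1) △ C) = _
          rw [aa_ge h1 hh', (pile_ac x).1, ex_cons, ex_nil, List.append_nil, List.replicate_succ]
        · intro _
          rw [ht', H1.ht_eq, ht_pc]
      · obtain ⟨y, l, f1, f2, f3, f4, f5⟩ := ihA hA hA2
        refine ⟨y + 1, l, ?_, f2, f3, ?_, ?_⟩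
        · change aa (A △ C) = _
          rw [aa_ge hA hh', f1, ex_succ]
        · intro hl
          rw [ht', f4 hl]
        · intro hl
          have := f5 hl
          omega

/-- runs after the first maximum -/
theorem cc_runs {c : ℕ} (hc : 2 ≤ c) : ∀ t : BinaryTree Unit, t ≠ .nil → (∀ x ∈ cont t, c ≤ x) →
    ∃ (z : ℕ) (l : List ℕ), cc t = ex false (l ++ [z]) ∧ Even l.length ∧ Ge c l ∧
      (l = [] → z + 1 = Tsq.ht t) ∧ (l ≠ [] → c ≤ z) := by
  intro t
  induction t with
  | nil => intro h; exact absurd rfl h
  | node u A C ihA ihC =>
    intro _ h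
    change ∀ x ∈ raise (cont A) + cont C, c ≤ x at h
    have hCv : ∀ x ∈ cont C, c ≤ x := fun x hx => h x (Multiset.mem_add.2 (Or.inr hx))
    by_cases hh : Tsq.ht A + 1 < Tsq.ht C
    · have hC : C ≠ .nil := by
        rintro rfl
        simp [Tsq.ht] at hh
      obtain ⟨z, l, f1, f2, f3, f4, f5⟩ := ihC hC hCv
      have ht' : Tsq.ht (BinaryTree.node u A C) = Tsq.ht C := by
        change max (Tsq.ht A + 1) (Tsq.ht C) = _
        omega
      refine ⟨z, l, ?_, f2, f3, fun e => by rw [ht']; exact f4 e, f5⟩
      change cc (A △ C) = _
      rw [cc_lt hh, f1]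
    · have hh' : Tsq.ht C ≤ Tsq.ht A + 1 := by omega
      have ht' : Tsq.ht (BinaryTree.node u A C) = Tsq.ht A + 1 := by
        change max (Tsq.ht A + 1) (Tsq.ht C) = _
        omega
      rcases comp_cases hc (fun x hx => h x (Multiset.mem_add.2 (Or.inl hx))) with
        ⟨x, rfl, hx⟩ | ⟨hA, hA2⟩
      · obtain ⟨x, rfl⟩ : ∃ x', x = x' + 1 := ⟨x - 1, by omega⟩
        have h1 : pc (x + 1) ≠ .nil := by rw [pc]; simp
        refine ⟨x + 1, [], ?_, by simp, fun _ h => absurd h List.not_mem_nil, ?_, fun h => absurd rfl h⟩
        · change cc (pc (x + 1) △ C) = _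
          rw [cc_ge h1 hh', (pile_ac x).2.1, (pile_ac x).2.2, List.nil_append, ex_cons, ex_nil,
            List.append_nil, List.replicate_succ']
          rfl
        · intro _
          rw [ht', H1.ht_eq, ht_pc]
      · obtain ⟨z, l, f1, f2, f3, f4, f5⟩ := ihA hA hA2
        have hAh : c ≤ Tsq.ht A := by
          have h5 := hA2 _ (sup_mem (fun e => hA (cont_eq_zero.1 e)))
          rwa [← OddHC.ht_eq, ← H1.ht_eq] at h5
        have hz : c ≤ z + 1 := by
          by_cases hl : l = []
          · have := f4 hl
            omega
          · have := f5 hl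
            omega
        have hB : ∀ x ∈ cont (Tsq.sq A).2, c ≤ x := by
          intro x hx
          apply hA2
          rw [← sq_cont hA]
          exact Multiset.mem_add.2 (Or.inl hx)
        obtain ⟨rB, g1, g2, g3, g4⟩ := hv_runs hc _ hB
        have e1 : cc (A △ C) = ex false (l ++ [z + 1]) ++ wd (Tsq.sq A).2 := by
          rw [cc_ge hA hh', f1, ex_last f2]
        by_cases hn : (Tsq.sq A).2 = .nil
        · refine ⟨z + 1, l, ?_, f2, f3, ?_, ?_⟩
          · change cc (A △ C) = _
            rw [e1, hn]
            change _ ++ [] = _
            rw [List.append_nil]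
          · intro hl
            rw [ht', f4 hl]
          · intro _; exact hz
        · obtain ⟨r', y, rfl⟩ := exists_snoc (g4 hn)
          have hodd : Odd (l ++ [z + 1]).length := by
            rw [List.length_append, List.length_singleton]
            exact f2.add_one
          have hr' : Odd r'.length := by
            rw [List.length_append, List.length_singleton] at g2
            by_contra h2
            rw [Nat.not_odd_iff_even] at h2
            exact (Nat.not_even_iff_odd.2 h2.add_one) g2
          refine ⟨y, (l ++ [z + 1]) ++ r', ?_, ?_, ?_, ?_, ?_⟩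
          · change cc (A △ C) = _
            rw [e1, g1, List.append_assoc, ex_odd hodd]
            rfl
          · rw [List.length_append]
            exact hodd.add_odd hr'
          · intro w hw
            rw [List.mem_append, List.mem_append, List.mem_singleton] at hw
            rcases hw with (hw | rfl) | hw
            · exact f3 w hw
            · exact hz
            · exact g3 w (by simp [hw])
          · intro e; simp at e
          · intro _; exact g3 y (by simp)

end HM

end Pool.OddHC
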