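import Pool.Agent.Work.MP_8f87b2_h60.NodeB
import Pool.Agent.Work.MP_8f87b2_h6.GadSM

/-!
# MP_8f87b2_co: type B0 = the mirrored window of a bead free T-cycle merged with the E pair of its words 1, 11 and 2

`TyB0 F g`: `F = {cyc w0, cyc w1, cyc w2}`, `w1 = ()X`, `w2 = X()`, `X = Q()R'`; `g` has the 19 words `≠ 9` and the arcs
`12>3, 15>6, 14>8`. `TyB0.hF, new, old, abs, path, rank, up, htg, dis, disA`.
-/

set_option autoImplicit false

namespace Pool.OddHC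

open Finset Equiv BinaryTree Pool.Agent.Work.MP_8f87b2_co HM

variable {k : ℕ} {F F' : Set (Cyc k)} {g g' : DG k}

/-- TYPE B0: the mirrored window of a bead free T-cycle merged with an E pair -/
def TyB0 (F : Set (Cyc k)) (g : DG k) : Prop :=
  ∃ (q : ℕ) (R B S : BinaryTree Unit) (w0 : X k), NodeM k q R B S ∧
    mX R B S q w0 0 ≠ mX R B S q w0 10 ∧
    ¬ TT.SameCycle (mX R B S q w0 1) (mX R B S q w0 2) ∧
    (B = .nil → ¬ TT.SameCycle (mX R B S q w0 1) (mX R B S q w0 18) ∧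
      ¬ TT.SameCycle (mX R B S q w0 2) (mX R B S q w0 18)) ∧
    F = {cyc (mX R B S q w0 0), cyc (mX R B S q w0 1), cyc (mX R B S q w0 2)} ∧
    g = gadSM (mX R B S q w0)

theorem mem_gadSM {w : ℕ → X k} {x : X k} : x ∈ (gadSM w).B ↔ ∃ i < 20, i ≠ 9 ∧ w i = x := by
  classical
  change x ∈ ((range 20).erase 9).image w ↔ _
  rw [Finset.mem_image]
  constructor
  · rintro ⟨i, hi, rfl⟩
    rw [Finset.mem_erase, Finset.mem_range] at hi
    exact ⟨i, hi.2, hi.1, rfl⟩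
  · rintro ⟨i, hi, h9, rfl⟩
    exact ⟨i, Finset.mem_erase.2 ⟨h9, Finset.mem_range.2 hi⟩, rfl⟩

theorem TyB0.hF (h : TyB0 F g) : ∀ w, w ∈ g.F ↔ cyc w ∈ F := by
  obtain ⟨q, R, B, S, w0, h1, hne, h12, h18, rfl, rfl⟩ := h
  intro w
  change (TT.SameCycle _ _ ∨ TT.SameCycle _ _ ∨ TT.SameCycle _ _) ↔
    (cyc w = _ ∨ cyc w = _ ∨ cyc w = _)
  rw [← cyc_eq, ← cyc_eq, ← cyc_eq]
  constructor
  · rintro (e | e | e)
    · exact Or.inl e.symm
    · exact Or.inr (Or.inl e.symm)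
    · exact Or.inr (Or.inr e.symm)
  · rintro (e | e | e)
    · exact Or.inl e.symm
    · exact Or.inr (Or.inl e.symm)
    · exact Or.inr (Or.inr e.symm)

theorem TyB0.new (h : TyB0 F g) : ∀ c ∈ F, ∃ u ∈ g.B, cyc u = c := by
  obtain ⟨q, R, B, S, w0, h1, hne, h12, h18, rfl, rfl⟩ := h
  rintro c (rfl | rfl | rfl)
  · exact ⟨_, mem_gadSM.2 ⟨0, by norm_num, by norm_num, rfl⟩, rfl⟩
  · exact ⟨_, mem_gadSM.2 ⟨1, by norm_num, by norm_num, rfl⟩, rfl⟩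
  · exact ⟨_, mem_gadSM.2 ⟨2, by norm_num, by norm_num, rfl⟩, rfl⟩

/-- the T-cycles of the other words are old -/
theorem holdB {q : ℕ} {R B S : BinaryTree Unit} (h1 : NodeM k q R B S) (w0 : X k)
    (h18 : B = .nil → ¬ TT.SameCycle (mX R B S q w0 1) (mX R B S q w0 18) ∧
      ¬ TT.SameCycle (mX R B S q w0 2) (mX R B S q w0 18)) :
    ∀ i < 20, i ≠ 0 → i ≠ 1 → i ≠ 2 → i ≠ 10 → i ≠ 11 →
      ¬ TT.SameCycle (mX R B S q w0 0) (mX R B S q w0 i) ∧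
      ¬ TT.SameCycle (mX R B S q w0 1) (mX R B S q w0 i) ∧
      ¬ TT.SameCycle (mX R B S q w0 2) (mX R B S q w0 i) := by
  intro i hi i0 i1 i2 i10 i11
  refine ⟨h1.hold w0 i hi i0 i10, ?_, ?_⟩
  · by_cases hb : i = 18 ∧ B = .nil
    · obtain ⟨rfl, hb⟩ := hb
      exact (h18 hb).1
    · exact h1.holdY w0 (Or.inl rfl) i hi i1 i2 i11 (fun e hb' => hb ⟨e, hb'⟩)
  · by_cases hb : i = 18 ∧ B = .nil
    · obtain ⟨rfl, hb⟩ := hb
      exact (h18 hb).2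
    · exact h1.holdY w0 (Or.inr rfl) i hi i1 i2 i11 (fun e hb' => hb ⟨e, hb'⟩)

theorem TyB0.old (h : TyB0 F g) : ∃ u ∈ g.B, cyc u ∉ F := by
  obtain ⟨q, R, B, S, w0, h1, hne, h12, h18, rfl, rfl⟩ := h
  refine ⟨_, mem_gadSM.2 ⟨3, by norm_num, by norm_num, rfl⟩, ?_⟩
  have h3 := holdB h1 w0 h18 3 (by norm_num) (by norm_num) (by norm_num) (by norm_num)
    (by norm_num) (by norm_num)
  rintro (e | e | e)
  · exact h3.1 (cyc_eq.1 e).symm
  · exact h3.2.1 (cyc_eq.1 e).symm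
  · exact h3.2.2 (cyc_eq.1 e).symm

theorem TyB0.abs (h : TyB0 F g) : g.Abs := by
  obtain ⟨q, R, B, S, w0, h1, hne, h12, h18, rfl, rfl⟩ := h
  have e := h1.dat.num
  have es := h1.size
  apply gadSM_abs (R := Tsq.mir R) (Q := pc (q + 1)) (B := Tsq.mir B) (S := Tsq.mir S)
    (by rw [pc_num, Tsq.mir_num]; omega) (by rw [pc_num, Tsq.mir_num, Tsq.mir_num]; omega)
    (fun i hi _ => h1.word w0 hi) (fun i hi _ j hj _ e => h1.inj w0 hne i hi j hj e)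
    (h1.same10 w0) (h1.same11 w0) (h1.h01 w0) (h1.h02 w0) h12
  intro i hi i0 i1 i2 i9 i10 i11
  exact holdB h1 w0 h18 i hi i0 i1 i2 i10 i11

/-- all T-cycles of the group have the same height -/
theorem TyB0.htg (h : TyB0 F g) : ∀ c ∈ F, ∀ d ∈ F, htc c = htc d := by
  obtain ⟨q, R, B, S, w0, h1, hne, h12, h18, rfl, rfl⟩ := h
  have key : ∀ c ∈ ({cyc (mX R B S q w0 0), cyc (mX R B S q w0 1), cyc (mX R B S q w0 2)} :
      Set (Cyc k)), htc c = ht R := by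
    rintro c (rfl | rfl | rfl)
    · rw [htc_cyc, h1.ht012 w0 (Or.inl rfl)]
    · rw [htc_cyc, h1.ht012 w0 (Or.inr (Or.inl rfl))]
    · rw [htc_cyc, h1.ht012 w0 (Or.inr (Or.inr rfl))]
  intro c hc d hd
  rw [key c hc, key d hd]

/-- rank: every old word is strictly higher, or one of the words 4, 5, 13, 16, 18 and `Lower` than the bare T-cycle -/
theorem TyB0.rank (h : TyB0 F g) : ∀ w ∈ g.B, cyc w ∈ F ∨ (∀ c ∈ F, htc c < htc (cyc w)) ∨
    ∃ (q : ℕ) (R B S : BinaryTree Unit) (w0 : X k) (i : ℕ), NodeM k q R B S ∧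
      cyc (mX R B S q w0 0) ∈ F ∧ (i = 4 ∨ i = 5 ∨ i = 13 ∨ i = 16 ∨ i = 18) ∧
      w = mX R B S q w0 i ∧ H1.Lower (contc (cyc w)) (contc (cyc (mX R B S q w0 0))) := by
  have hg := h.htg
  obtain ⟨q, R, B, S, w0, h1, hne, h12, h18, rfl, rfl⟩ := h
  intro w hw
  obtain ⟨i, hi, i9, rfl⟩ := mem_gadSM.1 hw
  by_cases i0 : i = 0
  · left; rw [i0]; exact Or.inl rfl
  by_cases i1 : i = 1
  · left; rw [i1]; exact Or.inr (Or.inl rfl)
  by_cases i2 : i = 2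
  · left; rw [i2]; exact Or.inr (Or.inr rfl)
  by_cases i10 : i = 10
  · left; rw [i10]; exact Or.inl (cyc_eq.2 (h1.same10 w0).symm)
  by_cases i11 : i = 11
  · left; rw [i11]; exact Or.inr (Or.inl (cyc_eq.2 (h1.same11 w0).symm))
  by_cases hi2 : i = 4 ∨ i = 5 ∨ i = 13 ∨ i = 16 ∨ i = 18
  · right; right
    exact ⟨q, R, B, S, w0, i, h1, Or.inl rfl, hi2, rfl, h1.rank w0 i hi i0 i10⟩
  · right; left
    intro c hc
    have h2 := h1.htB w0 i hi (by omega)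
    have h3 := hg c hc (cyc (mX R B S q w0 0)) (Or.inl rfl)
    rw [h3, htc_cyc, htc_cyc, h1.ht012 w0 (Or.inl rfl)]
    exact h2

theorem TyB0.path (h : TyB0 F g) : ∀ a ∈ g.arcs, ∃ n : ℕ, (TT ^ (n + 1)) a.1 = a.2 ∧ a.1 ∈ g.B ∧
    ∀ i < n, (TT ^ (i + 1)) a.1 ∈ innA a := by
  obtain ⟨q, R, B, S, w0, h1, hne, h12, h18, rfl, rfl⟩ := h
  intro p hp
  have key : ∀ i j, (i, j) ∈ [(0, 10), (1, 11), (3, 12), (6, 15), (8, 14), (9, 17)] → j < 20 →
      j ≠ 9 → p = (mX R B S q w0 j, mX R B S q w0 i) →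
      ∃ n : ℕ, (TT ^ (n + 1)) p.1 = p.2 ∧ p.1 ∈ (gadSM (mX R B S q w0)).B ∧
        ∀ i < n, (TT ^ (i + 1)) p.1 ∈ innA p := by
    rintro i j hij hj h9 rfl
    refine ⟨1, ?_, mem_gadSM.2 ⟨j, hj, h9, rfl⟩, ?_⟩
    · rw [pow_succ, pow_one, Perm.mul_apply]
      exact h1.link w0 hij
    · intro n hn
      obtain rfl : n = 0 := by omega
      rw [pow_one]
      rfl
  have hp' : p = (mX R B S q w0 12, mX R B S q w0 3) ∨
      p = (mX R B S q w0 15, mX R B S q w0 6) ∨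
      p = (mX R B S q w0 14, mX R B S q w0 8) := hp
  rcases hp' with e | e | e
  · exact key 3 12 (by simp) (by norm_num) (by norm_num) e
  · exact key 6 15 (by simp) (by norm_num) (by norm_num) e
  · exact key 8 14 (by simp) (by norm_num) (by norm_num) e

/-- **disjointness B0 - B0** -/
theorem TyB0.dis (h : TyB0 F g) (h' : TyB0 F' g') (hm : M2 F) (hm' : M2 F')
    (hd : ∀ c ∈ F, c ∉ F') : ∀ w ∈ g.B, w ∉ g'.B := by
  obtain ⟨q, R, B, S, w0, h1, hne, h12, h18, rfl, rfl⟩ := h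
  obtain ⟨q', R', B', S', w0', h1', hne', h12', h18', rfl, rfl⟩ := h'
  intro w hw hw'
  obtain ⟨i, hi, _, rfl⟩ := mem_gadSM.1 hw
  obtain ⟨j, hj, _, e⟩ := mem_gadSM.1 hw'
  have e0 : mX R' B' S' q' w0' j = mX R' B' S' q' w0 j := by
    apply Subtype.ext
    rw [h1'.word w0' hj, h1'.word w0 hj]
  have e00 : mX R' B' S' q' w0' 0 = mX R' B' S' q' w0 0 := by
    apply Subtype.ext
    rw [h1'.word w0' (by norm_num), h1'.word w0 (by norm_num)]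
  rw [e0] at e
  apply hd (cyc (mX R B S q w0 0)) (Or.inl rfl)
  left
  rw [e00]
  exact cyc_eq.2 (h1.disj' h1' (fun _ => hm.mem h1 (w0 := w0) (Or.inl rfl))
    (fun _ => hm'.mem h1' (w0 := w0') (Or.inl rfl)) w0 hi hj e.symm)

/-- **disjointness A0 - B0** -/
theorem TyB0.disA0 (h : TyB0 F g) (h' : TyA0 F' g') (hm : M2 F) (hm' : M2 F')
    (hd : ∀ c ∈ F, c ∉ F') : ∀ w ∈ g.B, w ∉ g'.B := by
  obtain ⟨q, R, B, S, w0, h1, hne, h12, h18, rfl, rfl⟩ := h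
  obtain ⟨q', R', B', S', w0', h1', hne', rfl, rfl⟩ := h'
  intro w hw hw'
  obtain ⟨i, hi, _, rfl⟩ := mem_gadSM.1 hw
  obtain ⟨j, hj, e⟩ := mem_gad20M.1 hw'
  have e0 : mX R' B' S' q' w0' j = mX R' B' S' q' w0 j := by
    apply Subtype.ext
    rw [h1'.word w0' hj, h1'.word w0 hj]
  have e00 : mX R' B' S' q' w0' 0 = mX R' B' S' q' w0 0 := by
    apply Subtype.ext
    rw [h1'.word w0' (by norm_num), h1'.word w0 (by norm_num)]
  rw [e0] at e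
  apply hd (cyc (mX R B S q w0 0)) (Or.inl rfl)
  change cyc _ = cyc _
  rw [e00]
  exact cyc_eq.2 (h1.disj' h1' (fun _ => hm.mem h1 (w0 := w0) (Or.inl rfl)) (fun _ => hm'.mem h1' rfl)
    w0 hi hj e.symm)

/-- **disjointness B0 - A** -/
theorem TyB0.disA (h : TyB0 F g) (h' : TyAo F' g') : ∀ w ∈ g.B, w ∉ g'.B := by
  obtain ⟨q, R, B, S, w0, h1, hne, h12, h18, rfl, rfl⟩ := h
  obtain ⟨q', B1', H', s', B', w0', h1', hH, rfl, rfl⟩ := h'
  intro w hw hw'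
  obtain ⟨i, hi, _, rfl⟩ := mem_gadSM.1 hw
  obtain ⟨j, hj, e⟩ := mem_gad20.1 hw'
  have e0 : mX R B S q w0 i = mX R B S q w0' i := by
    apply Subtype.ext
    rw [h1.word w0' hi, h1.word w0 hi]
  rw [e0] at e
  exact h1.disjG h1' (hH q) w0' hj hi e

/-- every word of a B0 gadget is a word of an A0 gadget or of the same form -/
theorem TyB0.words (h : TyB0 F g) : ∀ w ∈ g.B, ∃ (q : ℕ) (R B S : BinaryTree Unit) (w0 : X k) (i : ℕ),
    NodeM k q R B S ∧ i < 20 ∧ i ≠ 9 ∧ w = mX R B S q w0 i ∧ cyc (mX R B S q w0 0) ∈ F := by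
  obtain ⟨q, R, B, S, w0, h1, hne, h12, h18, rfl, rfl⟩ := h
  intro w hw
  obtain ⟨i, hi, h9, rfl⟩ := mem_gadSM.1 hw
  exact ⟨q, R, B, S, w0, i, h1, hi, h9, rfl, Or.inl rfl⟩

end Pool.OddHC
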