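import Pool.Agent.Work.MP_8f87b2_h60.InR
import Pool.Agent.Work.MP_8f87b2_h13.TyR3

/-!
# MP_8f87b2_co: inner rows of the right bare windows `R3`, `S3` against `Ap`, `A0`, `B0`, `R3`, `S3`, both directions
-/

set_option autoImplicit false

namespace Pool.OddHC

open HM Equiv BinaryTree Pool.Agent.Work.MP_8f87b2_co

variable {k : ℕ} {F F' : Set (Cyc k)} {g g' : DG k}

/-! ### The words and the arcs -/

theorem TyA0.words60 (h : TyA0 F g) : ∀ w ∈ g.B, ∃ (q : ℕ) (R B S : BinaryTree Unit) (w0 : X k) (j : ℕ),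
    NodeM k q R B S ∧ j < 20 ∧ w = mX R B S q w0 j ∧ cyc (mX R B S q w0 0) ∈ F := by
  obtain ⟨q, R, B, S, w0, h1, hne, rfl, rfl⟩ := h
  intro w hw
  obtain ⟨j, hj, e⟩ := mem_gad20M.1 hw
  exact ⟨q, R, B, S, w0, j, h1, hj, e.symm, rfl⟩

theorem TyB0.words60 (h : TyB0 F g) : ∀ w ∈ g.B, ∃ (q : ℕ) (R B S : BinaryTree Unit) (w0 : X k) (j : ℕ),
    NodeM k q R B S ∧ j < 20 ∧ w = mX R B S q w0 j ∧ cyc (mX R B S q w0 0) ∈ F := by
  obtain ⟨q, R, B, S, w0, h1, hne, h12, h18, rfl, rfl⟩ := h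
  intro w hw
  obtain ⟨j, hj, _, e⟩ := mem_gadSM.1 hw
  exact ⟨q, R, B, S, w0, j, h1, hj, e.symm, Or.inl rfl⟩

theorem TyA0.inn60 (h : TyA0 F g) : ∀ p ∈ g.arcs, ∃ (q : ℕ) (R B S : BinaryTree Unit) (w0 : X k) (i i' : ℕ),
    NodeM k q R B S ∧ (i, i') ∈ [(0, 10), (1, 11), (3, 12), (6, 15), (8, 14), (9, 17)] ∧
      p.1 = mX R B S q w0 i' ∧ cyc (mX R B S q w0 0) ∈ F := by
  obtain ⟨q, R, B, S, w0, h1, hne, rfl, rfl⟩ := h
  intro p hp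
  have hp' : p = (mX R B S q w0 10, mX R B S q w0 0) ∨ p = (mX R B S q w0 11, mX R B S q w0 1) ∨
      p = (mX R B S q w0 12, mX R B S q w0 3) ∨ p = (mX R B S q w0 15, mX R B S q w0 6) ∨
      p = (mX R B S q w0 14, mX R B S q w0 8) ∨ p = (mX R B S q w0 17, mX R B S q w0 9) := hp
  rcases hp' with rfl | rfl | rfl | rfl | rfl | rfl
  · exact ⟨q, R, B, S, w0, 0, 10, h1, by simp, rfl, rfl⟩
  · exact ⟨q, R, B, S, w0, 1, 11, h1, by simp, rfl, rfl⟩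
  · exact ⟨q, R, B, S, w0, 3, 12, h1, by simp, rfl, rfl⟩
  · exact ⟨q, R, B, S, w0, 6, 15, h1, by simp, rfl, rfl⟩
  · exact ⟨q, R, B, S, w0, 8, 14, h1, by simp, rfl, rfl⟩
  · exact ⟨q, R, B, S, w0, 9, 17, h1, by simp, rfl, rfl⟩

theorem TyB0.inn60 (h : TyB0 F g) : ∀ p ∈ g.arcs, ∃ (q : ℕ) (R B S : BinaryTree Unit) (w0 : X k) (i i' : ℕ),
    NodeM k q R B S ∧ (i, i') ∈ [(3, 12), (6, 15), (8, 14)] ∧
      p.1 = mX R B S q w0 i' ∧ cyc (mX R B S q w0 0) ∈ F := by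
  obtain ⟨q, R, B, S, w0, h1, hne, h12, h18, rfl, rfl⟩ := h
  intro p hp
  have hp' : p = (mX R B S q w0 12, mX R B S q w0 3) ∨ p = (mX R B S q w0 15, mX R B S q w0 6) ∨
      p = (mX R B S q w0 14, mX R B S q w0 8) := hp
  rcases hp' with rfl | rfl | rfl
  · exact ⟨q, R, B, S, w0, 3, 12, h1, by simp, rfl, Or.inl rfl⟩
  · exact ⟨q, R, B, S, w0, 6, 15, h1, by simp, rfl, Or.inl rfl⟩
  · exact ⟨q, R, B, S, w0, 8, 14, h1, by simp, rfl, Or.inl rfl⟩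

theorem TyAp.words60 (h : TyAp F g) : ∀ w ∈ g.B, ∃ (q n a : ℕ) (B1 s B : BinaryTree Unit) (w0 : X k) (j : ℕ),
    H1.NodeG k q B1 (lv (n + 1) (lv2 a .nil)) s B ∧ (n = 0 ∨ 1 ≤ a) ∧ j < 20 ∧
      w = H1.gX q B1 (lv (n + 1) (lv2 a .nil)) s B w0 j := by
  obtain ⟨q, n, a, B1, s, B, w0, h1, hn, rfl, rfl⟩ := h
  intro w hw
  obtain ⟨j, hj, e⟩ := mem_gad20.1 hw
  exact ⟨q, n, a, B1, s, B, w0, j, h1, hn, hj, e.symm⟩

theorem TyAp.inn60 (h : TyAp F g) : ∀ p ∈ g.arcs, ∃ (q n a : ℕ) (B1 s B : BinaryTree Unit) (w0 : X k) (i : ℕ),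
    H1.NodeG k q B1 (lv (n + 1) (lv2 a .nil)) s B ∧ (n = 0 ∨ 1 ≤ a) ∧ i ∈ [0, 1, 3, 6, 8, 9] ∧
      p.1 = H1.gX q B1 (lv (n + 1) (lv2 a .nil)) s B w0 i := by
  obtain ⟨q, n, a, B1, s, B, w0, h1, hn, rfl, rfl⟩ := h
  intro p hp
  have hp' : p = (H1.gX q B1 (lv (n + 1) (lv2 a .nil)) s B w0 0, _) ∨
      p = (H1.gX q B1 (lv (n + 1) (lv2 a .nil)) s B w0 1, _) ∨
      p = (H1.gX q B1 (lv (n + 1) (lv2 a .nil)) s B w0 3, _) ∨
      p = (H1.gX q B1 (lv (n + 1) (lv2 a .nil)) s B w0 6, _) ∨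
      p = (H1.gX q B1 (lv (n + 1) (lv2 a .nil)) s B w0 8, _) ∨
      p = (H1.gX q B1 (lv (n + 1) (lv2 a .nil)) s B w0 9, _) := hp
  rcases hp' with rfl | rfl | rfl | rfl | rfl | rfl
  · exact ⟨q, n, a, B1, s, B, w0, 0, h1, hn, by simp, rfl⟩
  · exact ⟨q, n, a, B1, s, B, w0, 1, h1, hn, by simp, rfl⟩
  · exact ⟨q, n, a, B1, s, B, w0, 3, h1, hn, by simp, rfl⟩
  · exact ⟨q, n, a, B1, s, B, w0, 6, h1, hn, by simp, rfl⟩
  · exact ⟨q, n, a, B1, s, B, w0, 8, h1, hn, by simp, rfl⟩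
  · exact ⟨q, n, a, B1, s, B, w0, 9, h1, hn, by simp, rfl⟩

/-! ### The cores -/

namespace HM

variable {q q' : ℕ} {R B S R' B' S' : BinaryTree Unit} {w0 w0' : X k}

/-- right inner word = mirrored word -/
theorem core_RM (h : NodeM k q R B S) (h' : NodeM k q' R' B' S') {i j : ℕ} (hi : i ∈ [0, 1, 3, 6, 8, 9])
    (hj : j < 20) (e : TT (H1.wX R B S q w0 i) = mX R' B' S' q' w0' j) :
    i = 0 ∧ cyc (H1.wX R B S q w0 0) = cyc (mX R' B' S' q' w0' 0) := by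
  obtain ⟨rfl, hj0⟩ := h.rinner_M w0 hi h' w0' hj e
  refine ⟨rfl, cyc_eq.2 ?_⟩
  have s1 : (TT : Perm (X k)).SameCycle (H1.wX R B S q w0 0) (TT (H1.wX R B S q w0 0)) := ⟨1, by simp⟩
  rw [e] at s1
  rcases hj0 with rfl | rfl
  · exact s1
  · exact s1.trans (h'.same10 w0').symm

/-- mirrored inner word = right word -/
theorem core_MR (h : NodeM k q R B S) (h' : NodeM k q' R' B' S') {i i' j : ℕ}
    (hi : (i, i') ∈ [(0, 10), (1, 11), (3, 12), (6, 15), (8, 14), (9, 17)])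
    (hj : j < 20) (e : TT (mX R B S q w0 i') = H1.wX R' B' S' q' w0' j) :
    i = 0 ∧ cyc (mX R B S q w0 0) = cyc (H1.wX R' B' S' q' w0' 0) := by
  have hi' : i ∈ [0, 1, 3, 6, 8, 9] := by
    simp only [List.mem_cons, List.not_mem_nil, or_false, Prod.mk.injEq] at hi ⊢
    omega
  have e1 : TT (H1.wX R B S q w0 i) = mX R' B' S' q' w0' j := by
    rw [inner_mir h w0 hi] at e
    have := congrArg Tsq.mirX e
    rwa [mirX_mirX] at this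
  obtain ⟨rfl, hj0⟩ := h.rinner_M w0 hi' h' w0' hj e1
  have hi2 : i' = 10 := by simpa using hi
  subst hi2
  refine ⟨rfl, cyc_eq.2 ?_⟩
  have s1 : (TT : Perm (X k)).SameCycle (mX R B S q w0 10) (TT (mX R B S q w0 10)) := ⟨1, by simp⟩
  have s2 := (h.same10 w0).trans s1
  rw [e] at s2
  rcases hj0 with rfl | rfl
  · exact s2
  · exact s2.trans (h'.rsame10 w0').symm

/-- right inner word = right word -/
theorem core_RR (h : NodeM k q R B S) (h' : NodeM k q' R' B' S') {i j : ℕ} (hi : i ∈ [0, 1, 3, 6, 8, 9])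
    (hj : j < 20) (e : TT (H1.wX R B S q w0 i) = H1.wX R' B' S' q' w0' j) :
    i = 0 ∧ cyc (H1.wX R B S q w0 0) = cyc (H1.wX R' B' S' q' w0' 0) := by
  have e0 : H1.wX R' B' S' q' w0' j = H1.wX R' B' S' q' w0 j := by
    apply Subtype.ext
    rw [h'.rW w0' hj, h'.rW w0 hj]
  rw [e0] at e
  obtain ⟨rfl, hj0⟩ := h.inner_raw h' w0 hi hj e
  refine ⟨rfl, cyc_eq.2 ?_⟩
  have s1 : (TT : Perm (X k)).SameCycle (H1.wX R B S q w0 0) (TT (H1.wX R B S q w0 0)) := ⟨1, by simp⟩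
  rw [e, ← e0] at s1
  rcases hj0 with rfl | rfl
  · exact s1
  · exact s1.trans (h'.rsame10 w0').symm

end HM

/-! ### The rows -/

theorem TyR3.inner_Ap (h : TyR3 F g) (h' : TyAp F' g') : ∀ p ∈ g.arcs, ∀ w ∈ innA p, w ∉ g'.B := by
  intro p hp w hw hw'
  obtain ⟨R, B, S, w0, i, h1, -, -, hi, e1, -⟩ := h.inn p hp
  obtain ⟨q', n, a, B1, s, B', w0', j, h1', hn, hj, e2⟩ := h'.words60 w hw'
  have hw2 : w = TT p.1 := hw
  rw [e1] at hw2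
  exact h1.rinner_G w0 hi h1' w0' hn hj (hw2.symm.trans e2)

theorem TyS3.inner_Ap (h : TyS3 F g) (h' : TyAp F' g') : ∀ p ∈ g.arcs, ∀ w ∈ innA p, w ∉ g'.B := by
  intro p hp w hw hw'
  obtain ⟨R, B, S, w0, i, h1, -, hi, e1, -⟩ := h.inn p hp
  obtain ⟨q', n, a, B1, s, B', w0', j, h1', hn, hj, e2⟩ := h'.words60 w hw'
  have hw2 : w = TT p.1 := hw
  rw [e1] at hw2
  have hi' : i ∈ [0, 1, 3, 6, 8, 9] := by
    simp only [List.mem_cons, List.not_mem_nil, or_false] at hi ⊢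
    omega
  exact h1.rinner_G w0 hi' h1' w0' hn hj (hw2.symm.trans e2)

theorem TyAp.inner_R3 (h : TyAp F g) (h' : TyR3 F' g') : ∀ p ∈ g.arcs, ∀ w ∈ innA p, w ∉ g'.B := by
  intro p hp w hw hw'
  obtain ⟨q', n, a, B1, s, B', w0', i, h1', hn, hi, e1⟩ := h.inn60 p hp
  obtain ⟨R, B, S, w0, j, h1, -, -, hj, e2, -⟩ := h'.words w hw'
  have hw2 : w = TT p.1 := hw
  rw [e1] at hw2
  exact h1.rinner_G' w0 hj h1' w0' hn hi (hw2.symm.trans e2)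

theorem TyAp.inner_S3 (h : TyAp F g) (h' : TyS3 F' g') : ∀ p ∈ g.arcs, ∀ w ∈ innA p, w ∉ g'.B := by
  intro p hp w hw hw'
  obtain ⟨q', n, a, B1, s, B', w0', i, h1', hn, hi, e1⟩ := h.inn60 p hp
  obtain ⟨R, B, S, w0, j, h1, -, hj, -, e2, -⟩ := h'.words w hw'
  have hw2 : w = TT p.1 := hw
  rw [e1] at hw2
  exact h1.rinner_G' w0 hj h1' w0' hn hi (hw2.symm.trans e2)

theorem TyR3.inner_A0 (h : TyR3 F g) (h' : TyA0 F' g') (hd : ∀ c ∈ F, c ∉ F') :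
    ∀ p ∈ g.arcs, ∀ w ∈ innA p, w ∉ g'.B := by
  intro p hp w hw hw'
  obtain ⟨R, B, S, w0, i, h1, -, -, hi, e1, m1⟩ := h.inn p hp
  obtain ⟨q', R', B', S', w0', j, h1', hj, e2, m2⟩ := h'.words60 w hw'
  have hw2 : w = TT p.1 := hw
  rw [e1] at hw2
  obtain ⟨-, e3⟩ := core_RM h1 h1' hi hj (hw2.symm.trans e2)
  exact hd _ m1 (e3 ▸ m2)

theorem TyR3.inner_B0 (h : TyR3 F g) (h' : TyB0 F' g') (hd : ∀ c ∈ F, c ∉ F') :
    ∀ p ∈ g.arcs, ∀ w ∈ innA p, w ∉ g'.B := by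
  intro p hp w hw hw'
  obtain ⟨R, B, S, w0, i, h1, -, -, hi, e1, m1⟩ := h.inn p hp
  obtain ⟨q', R', B', S', w0', j, h1', hj, e2, m2⟩ := h'.words60 w hw'
  have hw2 : w = TT p.1 := hw
  rw [e1] at hw2
  obtain ⟨-, e3⟩ := core_RM h1 h1' hi hj (hw2.symm.trans e2)
  exact hd _ m1 (e3 ▸ m2)

theorem TyS3.inner_A0 (h : TyS3 F g) (h' : TyA0 F' g') :
    ∀ p ∈ g.arcs, ∀ w ∈ innA p, w ∉ g'.B := by
  intro p hp w hw hw'
  obtain ⟨R, B, S, w0, i, h1, -, hi, e1, m1⟩ := h.inn p hp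
  obtain ⟨q', R', B', S', w0', j, h1', hj, e2, m2⟩ := h'.words60 w hw'
  have hw2 : w = TT p.1 := hw
  rw [e1] at hw2
  simp only [List.mem_cons, List.not_mem_nil, or_false] at hi
  obtain ⟨e3, -⟩ := core_RM h1 h1' (i := i) (by simp only [List.mem_cons, List.not_mem_nil, or_false]; omega)
    hj (hw2.symm.trans e2)
  omega

theorem TyS3.inner_B0 (h : TyS3 F g) (h' : TyB0 F' g') :
    ∀ p ∈ g.arcs, ∀ w ∈ innA p, w ∉ g'.B := by
  intro p hp w hw hw'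
  obtain ⟨R, B, S, w0, i, h1, -, hi, e1, m1⟩ := h.inn p hp
  obtain ⟨q', R', B', S', w0', j, h1', hj, e2, m2⟩ := h'.words60 w hw'
  have hw2 : w = TT p.1 := hw
  rw [e1] at hw2
  simp only [List.mem_cons, List.not_mem_nil, or_false] at hi
  obtain ⟨e3, -⟩ := core_RM h1 h1' (i := i) (by simp only [List.mem_cons, List.not_mem_nil, or_false]; omega)
    hj (hw2.symm.trans e2)
  omega

theorem TyA0.inner_R3 (h : TyA0 F g) (h' : TyR3 F' g') (hd : ∀ c ∈ F, c ∉ F') :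
    ∀ p ∈ g.arcs, ∀ w ∈ innA p, w ∉ g'.B := by
  intro p hp w hw hw'
  obtain ⟨q, R, B, S, w0, i, i', h1, hi, e1, m1⟩ := h.inn60 p hp
  obtain ⟨R', B', S', w0', j, h1', -, -, hj, e2, m2⟩ := h'.words w hw'
  have hw2 : w = TT p.1 := hw
  rw [e1] at hw2
  obtain ⟨-, e3⟩ := core_MR h1 h1' hi hj (hw2.symm.trans e2)
  exact hd _ m1 (e3 ▸ m2)

theorem TyA0.inner_S3 (h : TyA0 F g) (h' : TyS3 F' g') (hd : ∀ c ∈ F, c ∉ F') :
    ∀ p ∈ g.arcs, ∀ w ∈ innA p, w ∉ g'.B := by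
  intro p hp w hw hw'
  obtain ⟨q, R, B, S, w0, i, i', h1, hi, e1, m1⟩ := h.inn60 p hp
  obtain ⟨R', B', S', w0', j, h1', -, hj, -, e2, m2⟩ := h'.words w hw'
  have hw2 : w = TT p.1 := hw
  rw [e1] at hw2
  obtain ⟨-, e3⟩ := core_MR h1 h1' hi hj (hw2.symm.trans e2)
  exact hd _ m1 (e3 ▸ m2)

theorem TyB0.inner_R3 (h : TyB0 F g) (h' : TyR3 F' g') :
    ∀ p ∈ g.arcs, ∀ w ∈ innA p, w ∉ g'.B := by
  intro p hp w hw hw'
  obtain ⟨q, R, B, S, w0, i, i', h1, hi, e1, m1⟩ := h.inn60 p hp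
  obtain ⟨R', B', S', w0', j, h1', -, -, hj, e2, m2⟩ := h'.words w hw'
  have hw2 : w = TT p.1 := hw
  rw [e1] at hw2
  simp only [List.mem_cons, List.not_mem_nil, or_false, Prod.mk.injEq] at hi
  obtain ⟨e3, -⟩ := core_MR h1 h1' (i := i) (i' := i')
    (by simp only [List.mem_cons, List.not_mem_nil, or_false, Prod.mk.injEq]; omega) hj (hw2.symm.trans e2)
  omega

theorem TyB0.inner_S3 (h : TyB0 F g) (h' : TyS3 F' g') :
    ∀ p ∈ g.arcs, ∀ w ∈ innA p, w ∉ g'.B := by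
  intro p hp w hw hw'
  obtain ⟨q, R, B, S, w0, i, i', h1, hi, e1, m1⟩ := h.inn60 p hp
  obtain ⟨R', B', S', w0', j, h1', -, hj, -, e2, m2⟩ := h'.words w hw'
  have hw2 : w = TT p.1 := hw
  rw [e1] at hw2
  simp only [List.mem_cons, List.not_mem_nil, or_false, Prod.mk.injEq] at hi
  obtain ⟨e3, -⟩ := core_MR h1 h1' (i := i) (i' := i')
    (by simp only [List.mem_cons, List.not_mem_nil, or_false, Prod.mk.injEq]; omega) hj (hw2.symm.trans e2)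
  omega

theorem TyR3.inner_R3 (h : TyR3 F g) (h' : TyR3 F' g') (hd : ∀ c ∈ F, c ∉ F') :
    ∀ p ∈ g.arcs, ∀ w ∈ innA p, w ∉ g'.B := by
  intro p hp w hw hw'
  obtain ⟨R, B, S, w0, i, h1, -, -, hi, e1, m1⟩ := h.inn p hp
  obtain ⟨R', B', S', w0', j, h1', -, -, hj, e2, m2⟩ := h'.words w hw'
  have hw2 : w = TT p.1 := hw
  rw [e1] at hw2
  obtain ⟨-, e3⟩ := core_RR h1 h1' hi hj (hw2.symm.trans e2)
  exact hd _ m1 (e3 ▸ m2)

theorem TyR3.inner_S3 (h : TyR3 F g) (h' : TyS3 F' g') (hd : ∀ c ∈ F, c ∉ F') :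
    ∀ p ∈ g.arcs, ∀ w ∈ innA p, w ∉ g'.B := by
  intro p hp w hw hw'
  obtain ⟨R, B, S, w0, i, h1, -, -, hi, e1, m1⟩ := h.inn p hp
  obtain ⟨R', B', S', w0', j, h1', -, hj, -, e2, m2⟩ := h'.words w hw'
  have hw2 : w = TT p.1 := hw
  rw [e1] at hw2
  obtain ⟨-, e3⟩ := core_RR h1 h1' hi hj (hw2.symm.trans e2)
  exact hd _ m1 (e3 ▸ m2)

theorem TyS3.inner_R3 (h : TyS3 F g) (h' : TyR3 F' g') :
    ∀ p ∈ g.arcs, ∀ w ∈ innA p, w ∉ g'.B := by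
  intro p hp w hw hw'
  obtain ⟨R, B, S, w0, i, h1, -, hi, e1, m1⟩ := h.inn p hp
  obtain ⟨R', B', S', w0', j, h1', -, -, hj, e2, m2⟩ := h'.words w hw'
  have hw2 : w = TT p.1 := hw
  rw [e1] at hw2
  simp only [List.mem_cons, List.not_mem_nil, or_false] at hi
  obtain ⟨e3, -⟩ := core_RR h1 h1' (i := i) (by simp only [List.mem_cons, List.not_mem_nil, or_false]; omega)
    hj (hw2.symm.trans e2)
  omega

theorem TyS3.inner_S3 (h : TyS3 F g) (h' : TyS3 F' g') :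
    ∀ p ∈ g.arcs, ∀ w ∈ innA p, w ∉ g'.B := by
  intro p hp w hw hw'
  obtain ⟨R, B, S, w0, i, h1, -, hi, e1, m1⟩ := h.inn p hp
  obtain ⟨R', B', S', w0', j, h1', -, hj, -, e2, m2⟩ := h'.words w hw'
  have hw2 : w = TT p.1 := hw
  rw [e1] at hw2
  simp only [List.mem_cons, List.not_mem_nil, or_false] at hi
  obtain ⟨e3, -⟩ := core_RR h1 h1' (i := i) (by simp only [List.mem_cons, List.not_mem_nil, or_false]; omega)
    hj (hw2.symm.trans e2)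
  omega

end Pool.OddHC
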