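import Pool.Agent.Work.MP_8f87b2_h60.InRT

/-!
# MP_8f87b2_co: windows of type A with `q = 0`, `H = (())^(a+1) ()` against the bare windows, all orientations

`TyAq`. Words: `TyA0.disAq`, `TyB0.disAq`. Inner words: `TyA0.inner_Aq`, .. and `TyAq.inner_A0`, .. (up to the word `T` of the word 0,
which lies on the new T-cycle).
-/

set_option autoImplicit false
set_option linter.unusedSimpArgs false

namespace Pool.OddHC

namespace HM

open BinaryTree H1 List

variable {k q : ℕ} {R B S : BinaryTree Unit} {B1 H s : BinaryTree Unit}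

/-- **the form of the words `j`** which are not ends of links, sharper -/
theorem NodeM.form5 (h : NodeM k q R B S) {j : ℕ} (hj : j ∈ [0, 1, 2, 3, 4, 5, 6, 7, 8, 9, 13, 16, 18, 19]) :
    (∃ r N : List ℕ, r ≠ [] ∧ Ge (q + 3) r ∧ N ∈ NS q ∧ wd (W R (pc (q + 1)) B S j) = ex true (r ++ N) ∧
      (N = [q + 3, q + 3] → j = 0) ∧ (N = [2, 1, q + 1, q + 2] → j = 13)) ∨
    (∃ r N : List ℕ, Ge (q + 3) r ∧ N ∈ NP q ∧ wd (W R (pc (q + 1)) B S j) = ex true (N ++ r)) ∨
    (∃ l : List ℕ, Ge 1 l ∧ wd (W R (pc (q + 1)) B S j) = ex true (1 :: l)) ∨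
    (∃ l : List ℕ, Ge 1 l ∧ wd (W R (pc (q + 1)) B S j) = ex true (l ++ [1])) := by
  have hc : 2 ≤ q + 3 := by omega
  have hR := h.ne
  have hSn : S ≠ .nil := by
    rintro rfl
    have h1 := h.dat.htS
    have h2 := h.top
    rw [ht] at h1
    omega
  have hB : ∀ x ∈ cont B, q + 3 ≤ x := by
    intro x hx
    apply h.part
    rw [← h.eq]
    exact Multiset.mem_add.2 (Or.inl hx)
  have hS : ∀ x ∈ cont S, q + 3 ≤ x := by
    intro x hx
    apply h.part
    rw [← h.eq]
    exact Multiset.mem_add.2 (Or.inr hx)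
  obtain ⟨⟨r0, a1, a2, a3, a4⟩, ⟨r1, b1, b2, b3, b4⟩, ⟨r2, c1, c2, c3, c4⟩, ⟨r3, d1, d2, d3, d4⟩, _,
    ⟨r5, f1, f2, f3, f4⟩⟩ := runs_of hc hR h.part
  obtain ⟨⟨s0, g1, g2, g3, g4⟩, ⟨s1, k1, k2, k3, k4⟩, _, _, _, _⟩ := runs_of hc hSn hS
  have one : ∀ {c : ℕ} {r : List ℕ}, Ge (c + 3) r → Ge 1 r := fun h x hx => by
    have := h x hx; omega
  simp only [List.mem_cons, List.not_mem_nil, or_false] at hj
  rcases hj with rfl | rfl | rfl | rfl | rfl | rfl | rfl | rfl | rfl | rfl | rfl | rfl | rfl | rfl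
  · -- 0
    left
    refine ⟨r0, [q + 3, q + 3], a1, a3, by simp [NS], ?_, fun _ => rfl, by intro e; simp at e⟩
    change wd (app R (pc (q + 3))) = _
    rw [wd_app, a4, wd_pc, ex_even a2]
    simp [ex]
  · -- 1
    right; right; right
    refine ⟨r0 ++ [1, 1, q + 1, q + 1, 1], ?_, ?_⟩
    · intro x hx
      rcases List.mem_append.1 hx with hx | hx
      · exact one a3 x hx
      · simp at hx; omega
    · change wd (app R (.nil △ app (pc (q + 1)) (.nil △ .nil))) = _
      rw [wd_app, wd_node, wd_app, wd_node, a4, wd_q, List.append_assoc, List.append_assoc, ex_even a2]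
      simp [ex, wd]
  · -- 2
    right; right; left
    refine ⟨1 :: (r0 ++ [1, 1, q + 1, q + 1]), ?_, ?_⟩
    · intro x hx
      rcases List.mem_cons.1 hx with rfl | hx
      · exact le_rfl
      · rcases List.mem_append.1 hx with hx | hx
        · exact one a3 x hx
        · simp at hx; omega
    · change wd (.nil △ app R (.nil △ pc (q + 1))) = _
      rw [wd_node, wd_app, wd_node, a4, wd_q, ex_cons, ex_cons, Bool.not_not, ex_even a2]
      simp [ex, wd]
  · -- 3
    left
    refine ⟨r1, [1, 1, q + 1, q + 2], b1, b3, by simp [NS], ?_, by intro e; simp at e, by intro e; simp at e⟩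
    change wd (app R (.nil △ pc (q + 1)) △ .nil) = _
    rw [wd_node, wd_app, wd_node, wd_q, List.append_assoc, b4, ex_even b2]
    simp [ex, wd, rep1, List.replicate_succ]
  · -- 4
    right; left
    refine ⟨r0, [q + 2, q + 1, 1, 2], a3, by simp [NP], ?_⟩
    change wd (app (pc (q + 1)) (.nil △ .nil) △ R) = _
    rw [wd_node, wd_app, wd_node, wd_q, a4]
    simp [ex, wd, rep1, List.replicate_succ]
  · -- 5
    right; left
    refine ⟨r0, [q + 2, q + 2, 1, 1], a3, by simp [NP], ?_⟩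
    change wd (pc (q + 1) △ (.nil △ R)) = _
    rw [wd_node, wd_node, wd_q, a4]
    simp [ex, wd, rep1, List.replicate_succ]
  · -- 6
    left
    refine ⟨r3, [q + 2, q + 2], d1, d3, by simp [NS], ?_, by intro e; simp at e, by intro e; simp at e⟩
    change wd (R △ (pc (q + 1) △ .nil)) = _
    rw [wd_node, wd_node, wd_q, d4, ex_even d2]
    simp [ex, wd, rep1, List.replicate_succ]
  · -- 7
    right; left
    refine ⟨r2, [q + 1, q + 1, 2, 1], c3, by simp [NP], ?_⟩
    change wd (app (pc (q + 1)) ((.nil △ R) △ .nil)) = _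
    rw [wd_app, wd_node, wd_node, wd_q]
    have := c4 []
    rw [List.append_nil] at this
    simp [ex, wd, ← this]
  · -- 8
    right; left
    refine ⟨r3, [q + 1, q + 1, 1, 1], d3, by simp [NP], ?_⟩
    change wd (app (pc (q + 1)) (.nil △ (R △ .nil))) = _
    rw [wd_app, wd_node, wd_node, wd_q]
    have := d4 []
    rw [List.append_nil] at this
    simp [ex, wd, ← this]
  · -- 9
    left
    refine ⟨r5, [q + 1, q + 1], f1, f3, by simp [NS], ?_, by intro e; simp at e, by intro e; simp at e⟩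
    change wd ((R △ .nil) △ pc (q + 1)) = _
    rw [wd_node, wd_node, wd_q, ex_even f2, ← f4]
    simp [ex, wd]
  · -- 13
    left
    by_cases hBn : B = .nil
    · subst hBn
      refine ⟨s0, [2, 1, q + 1, q + 2], g1, g3, by simp [NS], ?_, by intro e; simp at e, fun _ => rfl⟩
      change wd (app S (app .nil (.nil △ pc (q + 1)) △ .nil)) = _
      rw [wd_app, wd_node, app, wd_node, wd_q, g4, ex_even g2]
      simp [ex, wd, rep1, List.replicate_succ]
    · obtain ⟨_, ⟨t1, l1, l2, l3, l4⟩, _, _, _, _⟩ := runs_of hc hBn hB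
      refine ⟨s0 ++ t1, [1, 1, q + 1, q + 2], by simp [g1], ?_, by simp [NS], ?_, by intro e; simp at e, by intro e; simp at e⟩
      · intro x hx
        rcases List.mem_append.1 hx with hx | hx
        · exact g3 x hx
        · exact l3 x hx
      · change wd (app S (app B (.nil △ pc (q + 1)) △ .nil)) = _
        rw [wd_app, wd_node, wd_app, wd_node, wd_q, g4, List.append_assoc, l4, List.append_assoc,
          ex_even g2, ex_even l2]
        simp [ex, wd, rep1, List.replicate_succ]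
  · -- 16
    left
    by_cases hBn : B = .nil
    · subst hBn
      refine ⟨s0, [1, 1, q + 2, q + 2], g1, g3, by simp [NS], ?_, by intro e; simp at e, by intro e; simp at e⟩
      change wd (app S (.nil △ (pc (q + 1) △ .nil))) = _
      rw [wd_app, wd_node, wd_node, wd_q, g4, ex_even g2]
      simp [ex, wd, rep1, List.replicate_succ]
    · obtain ⟨_, _, _, ⟨t3, l1, l2, l3, l4⟩, _, _⟩ := runs_of hc hBn hB
      refine ⟨s0 ++ t3, [q + 2, q + 2], by simp [g1], ?_, by simp [NS], ?_, by intro e; simp at e, by intro e; simp at e⟩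
      · intro x hx
        rcases List.mem_append.1 hx with hx | hx
        · exact g3 x hx
        · exact l3 x hx
      · change wd (app S (B △ (pc (q + 1) △ .nil))) = _
        rw [wd_app, wd_node, wd_node, wd_q, g4, l4,
          show s0 ++ t3 ++ [q + 2, q + 2] = s0 ++ (t3 ++ [q + 2, q + 2]) from List.append_assoc _ _ _,
          ex_even g2, ex_even l2]
        simp [ex, wd, rep1, List.replicate_succ]
  · -- 18
    by_cases hBn : B = .nil
    · subst hBn
      right; right; right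
      refine ⟨[q + 1, q + 1, 1, 1] ++ (s0 ++ [1]), ?_, ?_⟩
      · intro x hx
        simp only [List.mem_append, List.mem_cons, List.not_mem_nil, or_false] at hx
        rcases hx with (rfl | rfl | rfl | rfl) | hx | rfl <;> first | omega | skip
        exact one g3 x hx
      · change wd (app (pc (q + 1)) (.nil △ app S (.nil △ .nil))) = _
        rw [wd_app, wd_node, wd_app, wd_node, wd_q, g4]
        have e1 := ex_even g2 true [1, 1]
        simp [ex, wd] at e1 ⊢
        rw [e1]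
    · right; left
      obtain ⟨_, _, _, ⟨t3, l1, l2, l3, l4⟩, _, _⟩ := runs_of hc hBn hB
      refine ⟨s0 ++ t3, [q + 1, q + 1, 1, 1], ?_, by simp [NP], ?_⟩
      · intro x hx
        rcases List.mem_append.1 hx with hx | hx
        · exact g3 x hx
        · exact l3 x hx
      · change wd (app (pc (q + 1)) (.nil △ app S (B △ .nil))) = _
        have l5 := l4 []
        rw [wd_app, wd_node, wd_app, wd_node, wd_q, g4]
        have e1 := ex_even g2 true t3
        simp [ex, wd] at l5 e1 ⊢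
        rw [e1, l5]
  · -- 19
    left
    by_cases hBn : B = .nil
    · subst hBn
      refine ⟨s1, [1, 2, q + 1, q + 1], k1, k3, by simp [NS], ?_, by intro e; simp at e, by intro e; simp at e⟩
      change wd (app S (.nil △ .nil) △ pc (q + 1)) = _
      rw [wd_node, wd_app, wd_node, wd_q, List.append_assoc, k4, ex_even k2]
      simp [ex, wd, rep1, List.replicate_succ]
    · obtain ⟨_, _, _, _, ⟨t4, l1, l2, l3, l4⟩, _⟩ := runs_of hc hBn hB
      refine ⟨s1 ++ t4, [q + 1, q + 1], by simp [k1], ?_, by simp [NS], ?_, by intro e; simp at e, by intro e; simp at e⟩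
      · intro x hx
        rcases List.mem_append.1 hx with hx | hx
        · exact k3 x hx
        · exact l3 x hx
      · change wd (app S (B △ .nil) △ pc (q + 1)) = _
        rw [wd_node, wd_app, wd_node, wd_q, List.append_assoc, k4, List.append_assoc, ex_even k2,
          ex_even l2]
        have l5 := l4 (ex true [q + 1, q + 1])
        simp [ex, wd] at l5 ⊢
        rw [l5]


/-- **the forms of the words `2, 4, 5, 7, 10 .. 19` of a bare window** -/
theorem NodeM.form6 (h : NodeM k q R B S) {j : ℕ}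
    (hj : j ∈ [2, 4, 5, 7, 10, 11, 12, 13, 14, 15, 16, 17, 18, 19]) :
    (∃ r N : List ℕ, Ge 3 r ∧ N.length ≤ 4 ∧ Ge 1 N ∧ wd (W R (pc (q + 1)) B S j) = ex true (r ++ N)) ∨
    (∃ N r : List ℕ, N ∈ NQ q ∧ Ge (q + 3) r ∧ wd (W R (pc (q + 1)) B S j) = ex true (N ++ r) ∧
      (N = [q + 2, q + 1, 1, 2] → j = 4)) ∨
    (∃ u, wd (W R (pc (q + 1)) B S j) = true :: false :: u) ∨
    (∃ u, wd (W R (pc (q + 1)) B S j) = u ++ [true, false]) ∨
    (∃ b r : List ℕ, Even b.length ∧ Ge 3 b ∧ Ge 1 r ∧ wd (W R (pc (q + 1)) B S j) = ex true (b ++ (1 :: r))) := by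
  have hc : 2 ≤ q + 3 := by omega
  have hR := h.ne
  have hSn : S ≠ .nil := by
    rintro rfl
    have h1 := h.dat.htS
    have h2 := h.top
    rw [ht] at h1
    omega
  have hB : ∀ x ∈ cont B, q + 3 ≤ x := by
    intro x hx
    apply h.part
    rw [← h.eq]
    exact Multiset.mem_add.2 (Or.inl hx)
  have hS : ∀ x ∈ cont S, q + 3 ≤ x := by
    intro x hx
    apply h.part
    rw [← h.eq]
    exact Multiset.mem_add.2 (Or.inr hx)
  obtain ⟨⟨r0, a1, a2, a3, a4⟩, _, ⟨r2, c1, c2, c3, c4⟩, _, _, _⟩ := runs_of hc hR h.part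
  obtain ⟨⟨s0, g1, g2, g3, g4⟩, ⟨s1, k1, k2, k3, k4⟩, ⟨s2, n1, n2, n3, n4⟩, ⟨s3, o1, o2, o3, o4⟩, _, _⟩ :=
    runs_of hc hSn hS
  obtain ⟨rB, b1, b2, b3, _⟩ := hv_runs hc B hB
  have to3 : ∀ {l : List ℕ}, Ge (q + 3) l → Ge 3 l := fun h x hx => by
    have := h x hx; omega
  have ap : ∀ {c : ℕ} {l l' : List ℕ}, Ge c l → Ge c l' → Ge c (l ++ l') := by
    intro c l l' h1 h2 x hx
    rcases List.mem_append.1 hx with hx | hx
    · exact h1 x hx
    · exact h2 x hx
  simp only [List.mem_cons, List.not_mem_nil, or_false] at hj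
  rcases hj with rfl | rfl | rfl | rfl | rfl | rfl | rfl | rfl | rfl | rfl | rfl | rfl | rfl | rfl
  · -- 2
    right; right; left
    exact ⟨_, rfl⟩
  · -- 4
    right; left
    refine ⟨[q + 2, q + 1, 1, 2], r0, by simp [NQ], a3, ?_, fun _ => rfl⟩
    change wd (app (pc (q + 1)) (.nil △ .nil) △ R) = _
    rw [wd_node, wd_app, wd_node, wd_q, a4]
    simp [ex, wd, rep1, List.replicate_succ]
  · -- 5
    right; left
    refine ⟨[q + 2, q + 2, 1, 1], r0, by simp [NQ], a3, ?_, by intro e; simp at e⟩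
    change wd (pc (q + 1) △ (.nil △ R)) = _
    rw [wd_node, wd_node, wd_q, a4]
    simp [ex, wd, rep1, List.replicate_succ]
  · -- 7
    right; left
    refine ⟨[q + 1, q + 1, 2, 1], r2, by simp [NQ], c3, ?_, by intro e; simp at e⟩
    change wd (app (pc (q + 1)) ((.nil △ R) △ .nil)) = _
    rw [wd_app, wd_node, wd_node, wd_q]
    have := c4 []
    rw [List.append_nil] at this
    simp [ex, wd, ← this]
  · -- 10
    left
    refine ⟨rB ++ ([q + 3, q + 3] ++ s0), [], ap (to3 b3) (ap (by intro x hx; simp at hx; omega) (to3 g3)),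
      by simp, fun _ h => absurd h List.not_mem_nil, ?_⟩
    change wd (app B ((pc (q + 1) △ .nil) △ S)) = _
    rw [wd_app, wd_node, wd_node, wd_q, b1, g4, List.append_nil, ex_even b2]
    simp [ex, wd, rep1, List.replicate_succ]
  · -- 11
    right; right; right; right
    refine ⟨rB, [1, q + 1, q + 1, 1, 1] ++ s0, b2, to3 b3, ?_, ?_⟩
    · intro x hx
      rcases List.mem_append.1 hx with hx | hx
      · simp at hx; omega
      · have := g3 x hx; omega
    · change wd (app B (.nil △ app (pc (q + 1)) (.nil △ S))) = _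
      rw [wd_app, wd_node, wd_app, wd_node, wd_q, b1, g4, ex_even b2]
      simp [ex, wd]
  · -- 12
    left
    refine ⟨s3 ++ rB, [1, 1, q + 1, q + 1], ap (to3 o3) (to3 b3), by simp, by intro x hx; simp at hx; omega, ?_⟩
    change wd (S △ app B (.nil △ pc (q + 1))) = _
    rw [wd_node, o4, wd_app, wd_node, wd_q, b1, List.append_assoc, ex_even o2, ex_even b2]
    simp [ex, wd]
  · -- 13
    left
    by_cases hBn : B = .nil
    · subst hBn
      refine ⟨s0, [2, 1, q + 1, q + 2], to3 g3, by simp, by intro x hx; simp at hx; omega, ?_⟩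
      change wd (app S (app .nil (.nil △ pc (q + 1)) △ .nil)) = _
      rw [wd_app, wd_node, app, wd_node, wd_q, g4, ex_even g2]
      simp [ex, wd, rep1, List.replicate_succ]
    · obtain ⟨_, ⟨t1, l1, l2, l3, l4⟩, _, _, _, _⟩ := runs_of hc hBn hB
      refine ⟨s0 ++ t1, [1, 1, q + 1, q + 2], ap (to3 g3) (to3 l3), by simp,
        by intro x hx; simp at hx; omega, ?_⟩
      change wd (app S (app B (.nil △ pc (q + 1)) △ .nil)) = _
      rw [wd_app, wd_node, wd_app, wd_node, wd_q, g4, List.append_assoc, l4, List.append_assoc,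
        ex_even g2, ex_even l2]
      simp [ex, wd, rep1, List.replicate_succ]
  · -- 14
    right; left
    refine ⟨[q + 2, q + 1, 1, 1], s2 ++ rB, by simp [NQ], ap n3 b3, ?_, by intro e; simp at e⟩
    change wd (app (pc (q + 1)) (.nil △ S) △ B) = _
    have e1 : ex true (s2 ++ rB) = wd S ++ false :: wd B := by
      rw [ex_even n2, b1, n4]
    rw [wd_node, wd_app, wd_node, wd_q, ex_even (by simp; decide), e1]
    simp [ex, wd, rep1, List.replicate_succ]
  · -- 15
    right; left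
    refine ⟨[q + 2, q + 2], s3 ++ rB, by simp [NQ], ap o3 b3, ?_, by intro e; simp at e⟩
    change wd (pc (q + 1) △ (S △ B)) = _
    have e1 : ex true (s3 ++ rB) = wd (S △ B) := by
      rw [ex_even o2, wd_node, b1, o4]
    rw [wd_node, wd_q, ex_even (by simp), e1]
    simp [ex, wd, rep1, List.replicate_succ]
  · -- 16
    left
    by_cases hBn : B = .nil
    · subst hBn
      refine ⟨s0, [1, 1, q + 2, q + 2], to3 g3, by simp, by intro x hx; simp at hx; omega, ?_⟩
      change wd (app S (.nil △ (pc (q + 1) △ .nil))) = _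
      rw [wd_app, wd_node, wd_node, wd_q, g4, ex_even g2]
      simp [ex, wd, rep1, List.replicate_succ]
    · obtain ⟨_, _, _, ⟨t3, l1, l2, l3, l4⟩, _, _⟩ := runs_of hc hBn hB
      refine ⟨s0 ++ t3, [q + 2, q + 2], ap (to3 g3) (to3 l3), by simp, by intro x hx; simp at hx; omega, ?_⟩
      change wd (app S (B △ (pc (q + 1) △ .nil))) = _
      rw [wd_app, wd_node, wd_node, wd_q, g4, l4,
        show s0 ++ t3 ++ [q + 2, q + 2] = s0 ++ (t3 ++ [q + 2, q + 2]) from List.append_assoc _ _ _,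
        ex_even g2, ex_even l2]
      simp [ex, wd, rep1, List.replicate_succ]
  · -- 17
    right; left
    have e1 : wd (S △ B) = ex true (s3 ++ rB) := by
      rw [ex_even o2, wd_node, b1, o4]
    obtain ⟨r', p1, p2, p3, p4⟩ := ex_par (c := q + 3) (r := s3 ++ rB) (by
      rw [List.length_append]; exact o2.add b2) (by simp [o1]) (ap o3 b3)
    refine ⟨[q + 1, q + 1], r', by simp [NQ], p3, ?_, by intro e; simp at e⟩
    change wd (app (pc (q + 1)) ((S △ B) △ .nil)) = _
    have e2 := p4 []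
    rw [List.append_nil] at e2
    rw [wd_app, wd_node, wd_q, ex_even (show Even [q + 1, q + 1].length by simp) true r', ← e2, ← e1]
    simp [ex, wd]
  · -- 18
    by_cases hBn : B = .nil
    · subst hBn
      right; right; right; left
      refine ⟨wd (pc (q + 1)) ++ (true :: false :: wd S), ?_⟩
      change wd (app (pc (q + 1)) (.nil △ app S (.nil △ .nil))) = _
      rw [wd_app, wd_node, wd_app, wd_node]
      simp [wd]
    · obtain ⟨_, _, _, ⟨t3, l1, l2, l3, l4⟩, _, _⟩ := runs_of hc hBn hB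
      right; left
      refine ⟨[q + 1, q + 1, 1, 1], s0 ++ t3, by simp [NQ], ap g3 l3, ?_, by intro e; simp at e⟩
      change wd (app (pc (q + 1)) (.nil △ app S (B △ .nil))) = _
      have l5 := l4 []
      rw [wd_app, wd_node, wd_app, wd_node, wd_q, g4]
      have e1 := ex_even g2 true t3
      simp [ex, wd] at l5 e1 ⊢
      rw [e1, l5]
  · -- 19
    left
    by_cases hBn : B = .nil
    · subst hBn
      refine ⟨s1, [1, 2, q + 1, q + 1], to3 k3, by simp, by intro x hx; simp at hx; omega, ?_⟩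
      change wd (app S (.nil △ .nil) △ pc (q + 1)) = _
      rw [wd_node, wd_app, wd_node, wd_q, List.append_assoc, k4, ex_even k2]
      simp [ex, wd, rep1, List.replicate_succ]
    · obtain ⟨_, _, _, _, ⟨t4, l1, l2, l3, l4⟩, _⟩ := runs_of hc hBn hB
      refine ⟨s1 ++ t4, [q + 1, q + 1], ap (to3 k3) (to3 l3), by simp, by intro x hx; simp at hx; omega, ?_⟩
      change wd (app S (B △ .nil) △ pc (q + 1)) = _
      rw [wd_node, wd_app, wd_node, wd_q, List.append_assoc, k4, List.append_assoc, ex_even k2,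
        ex_even l2]
      have l5 := l4 (ex true [q + 1, q + 1])
      simp [ex, wd] at l5 ⊢
      rw [l5]


/-! ### Cores -/

/-- **inner words of bare windows against the words with the block `(())^(a+1) ()`** -/
theorem core_A2 {q i a v : ℕ} {ζ η P rest : List ℕ} (hi : i ∈ [0, 1, 3, 6, 8, 9]) (hζ : Odd ζ.length)
    (gz : Ge 3 ζ) (gη : Ge 3 η) (hP : Odd P.length) (gP : Ge 3 P) (hv : 2 ≤ v)
    (e : ζ ++ (mr q i ++ η) = P ++ (List.replicate (2 * a + 1) 2 ++ (1 :: 1 :: v :: rest))) : False := by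
  have rep : List.replicate (2 * a + 1) 2 = 2 :: List.replicate (2 * a) 2 := List.replicate_succ
  have h1 : 1 ∈ mr q i := by
    have h2 : 1 ∈ ζ ++ (mr q i ++ η) := by rw [e]; simp
    rw [List.mem_append, List.mem_append] at h2
    rcases h2 with h2 | h2 | h2
    · have := gz 1 h2; omega
    · exact h2
    · have := gη 1 h2; omega
  rw [rep] at e
  simp only [List.mem_cons, List.not_mem_nil, or_false] at hi
  rcases hi with rfl | rfl | rfl | rfl | rfl | rfl
  · simp [mr] at h1
  · have := (first_small ζ P 1 2 _ _ gz gP (by omega) (by omega) e).2.1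
    omega
  · have := (first_small ζ P 1 2 _ _ gz gP (by omega) (by omega) e).2.1
    omega
  · simp [mr] at h1
  · rcases Nat.lt_or_ge q 2 with hq | hq
    · interval_cases q
      · have e' : ζ ++ (2 :: (1 :: 1 :: 1 :: η)) =
            P ++ (2 :: (List.replicate (2 * a) 2 ++ (1 :: 1 :: v :: rest))) := by
          refine Eq.trans ?_ e
          simp [mr]
        obtain ⟨_, _, h3⟩ := first_small ζ P 2 2 _ _ gz gP (by omega) (by omega) e'
        cases a with
        | zero =>
          rw [Nat.mul_zero, List.replicate_zero, List.nil_append, List.cons.injEq, List.cons.injEq,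
            List.cons.injEq] at h3
          omega
        | succ a =>
          rw [show 2 * (a + 1) = 2 * a + 1 + 1 by ring, List.replicate_succ, List.cons_append,
            List.cons.injEq] at h3
          omega
      · have e' : (ζ ++ [3]) ++ (2 :: (1 :: 1 :: η)) =
            P ++ (2 :: (List.replicate (2 * a) 2 ++ (1 :: 1 :: v :: rest))) := by
          refine Eq.trans ?_ e
          simp [mr]
        obtain ⟨h2, _, _⟩ := first_small (ζ ++ [3]) P 2 2 _ _ (by
          intro y hy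
          rcases List.mem_append.1 hy with hy | hy
          · exact gz y hy
          · simp at hy; omega) gP (by omega) (by omega) e'
        rw [← h2, List.length_append, List.length_singleton] at hP
        exact (Nat.not_even_iff_odd.2 hP) hζ.add_one
    · have e' : (ζ ++ [q + 2, q + 1]) ++ (1 :: (1 :: η)) =
            P ++ (2 :: (List.replicate (2 * a) 2 ++ (1 :: 1 :: v :: rest))) := by
          refine Eq.trans ?_ e
          simp [mr]
      have := (first_small (ζ ++ [q + 2, q + 1]) P 1 2 _ _ (by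
          intro y hy
          rcases List.mem_append.1 hy with hy | hy
          · exact gz y hy
          · simp at hy; omega) gP (by omega) (by omega) e').2.1
      omega
  · obtain rfl : q = 0 := by simp [mr] at h1; omega
    have := (first_small ζ P 1 2 _ _ gz gP (by omega) (by omega) e).2.1
    omega

/-- a word which begins with small entries -/
theorem core_H2 {q a x : ℕ} {A T r N : List ℕ} (hA : Odd A.length)
    (hA3 : Ge 3 A ∨ ∃ y, A = [y] ∧ 2 ≤ y) (hN : N ∈ NQ q) (hr : Ge (q + 3) r)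
    (e : A ++ (1 :: 1 :: (List.replicate (2 * a + 1) 2 ++ (x :: T))) = N ++ r) :
    N = [q + 2, q + 1, 1, 2] ∧ q = 0 ∧ Ge 3 T := by
  have g1 : 1 ∈ r → False := fun h => by have := hr 1 h; omega
  rw [List.replicate_succ] at e
  rcases odd_cases hA with ⟨y, rfl⟩ | ⟨y1, y2, y3, t, rfl⟩
  · have hy : 2 ≤ y := by
      rcases hA3 with h | ⟨y', h1, h2⟩
      · have := h y (by simp); omega
      · simp only [List.cons.injEq, and_true] at h1
        omega
    simp only [NQ, List.mem_cons, List.not_mem_nil, or_false] at hN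
    rcases hN with rfl | rfl | rfl | rfl | rfl | rfl | rfl
    · simp only [List.cons_append, List.nil_append, List.cons.injEq] at e
      obtain ⟨e1, e2, e3, e4, e5⟩ := e
      have hq : q = 0 := by omega
      subst hq
      refine ⟨rfl, rfl, ?_⟩
      intro z hz
      exact hr z (by rw [← e5]; simp [hz])
    · simp only [List.cons_append, List.nil_append, List.cons.injEq] at e; omega
    · simp only [List.cons_append, List.nil_append, List.cons.injEq] at e; omega
    · simp only [List.cons_append, List.nil_append, List.cons.injEq] at e; omega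
    · simp only [List.cons_append, List.nil_append, List.cons.injEq] at e; omega
    · simp only [List.cons_append, List.nil_append, List.cons.injEq] at e; omega
    · simp only [List.cons_append, List.nil_append, List.cons.injEq] at e; omega
  · have h3 : 3 ≤ y3 := by
      rcases hA3 with h | ⟨y', h1, _⟩
      · exact h y3 (by simp)
      · simp at h1
    exfalso
    simp only [NQ, List.mem_cons, List.not_mem_nil, or_false] at hN
    rcases hN with rfl | rfl | rfl | rfl | rfl | rfl | rfl <;>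
      simp only [List.cons_append, List.nil_append, List.cons.injEq] at e
    · omega
    · omega
    · omega
    · omega
    · omega
    · exact g1 (by rw [← e.2.2]; simp)
    · exact g1 (by rw [← e.2.2]; simp)

/-- (11) -/
theorem core_112 {A T b s : List ℕ} (hA : Odd A.length)
    (hA3 : Ge 3 A ∨ ∃ y, A = [y] ∧ 2 ≤ y) (hb : Even b.length) (gb : Ge 3 b)
    (e : A ++ (1 :: T) = b ++ (1 :: s)) : False := by
  have key : Ge 3 A → False := by
    intro h
    obtain ⟨h3, _, _⟩ := first_small A b 1 1 T s h gb (by omega) (by omega) e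
    rw [h3] at hA
    exact (Nat.not_even_iff_odd.2 hA) hb
  rcases hA3 with h | ⟨y, rfl, hy⟩
  · exact key h
  · by_cases h : 3 ≤ y
    · exact key (by intro z hz; simp at hz; omega)
    · cases b with
      | nil =>
        simp only [List.cons_append, List.nil_append, List.cons.injEq] at e
        omega
      | cons z b =>
        simp only [List.cons_append, List.nil_append, List.cons.injEq] at e
        have := gb z (by simp)
        omega

/-! ### The block -/

theorem wd_bl3 (a : ℕ) : wd (lv2 a (lv 1 .nil)) = ex true (List.replicate (2 * a) 2 ++ [1, 1]) := by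
  induction a with
  | zero => rfl
  | succ a ih =>
    rw [lv2, wd_node, ih, show 2 * (a + 1) = 2 * a + 1 + 1 by ring, List.replicate_succ,
      List.replicate_succ]
    rfl

/-- the block after a heavy beginning -/
theorem bead_gen2 {B1 : BinaryTree Unit} (hB1 : hv B1) (a j : ℕ) : ∃ (p : List ℕ) (x : ℕ),
    (∀ w : List ℕ, List.replicate j true ++ (wd B1 ++ true :: (wd (lv2 (a + 1) (lv 1 .nil)) ++ ex true w)) =
      ex true (p ++ (x :: (List.replicate (2 * a + 1) 2 ++ (1 :: 1 :: w))))) ∧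
    Even p.length ∧ Ge 3 p ∧ ((x = 3 ∧ p ≠ []) ∨ (p = [] ∧ x = j + 3)) := by
  obtain ⟨r1, e1, e2, e3, _⟩ := hv_runs (c := 3) (by norm_num) B1 (cont_of_hv hB1)
  have hH : ∀ w : List ℕ, true :: (wd (lv2 (a + 1) (lv 1 .nil)) ++ ex true w) =
      ex true (3 :: (List.replicate (2 * a + 1) 2 ++ (1 :: 1 :: w))) := by
    intro w
    have hl : Even (List.replicate (2 * (a + 1)) 2 ++ [1, 1] : List ℕ).length := by
      rw [List.length_append, List.length_replicate]
      exact (even_two_mul _).add (by simp)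
    rw [wd_bl3, ← ex_even hl, show 2 * (a + 1) = 2 * a + 1 + 1 by ring, List.replicate_succ,
      List.cons_append, List.cons_append, ex_succ, List.append_assoc]
    rfl
  cases r1 with
  | nil =>
    refine ⟨[], j + 3, ?_, by simp, fun _ h => absurd h List.not_mem_nil, Or.inr ⟨rfl, rfl⟩⟩
    intro w
    rw [e1, ex_nil, List.nil_append, List.nil_append, hH, ex_rep, Nat.add_comm 3 j]
  | cons y r1 =>
    refine ⟨(y + j) :: r1, 3, ?_, by simpa using e2, ?_, Or.inl ⟨rfl, by simp⟩⟩
    · intro w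
      have hl : Even ((y + j) :: r1).length := by simpa using e2
      rw [e1, hH, ex_even hl, ← ex_rep, List.append_assoc]
    · intro z hz
      rcases List.mem_cons.1 hz with rfl | hz
      · have := e3 y (by simp)
        omega
      · exact e3 z (by simp [hz])

/-- the word form with the block -/
def BF2 (a : ℕ) (w : List Bool) : Prop :=
  ∃ (P : List ℕ) (v : ℕ) (r : List ℕ), w = ex true (P ++ (List.replicate (2 * a + 1) 2 ++
      (1 :: 1 :: v :: r))) ∧ Odd P.length ∧ Ge 3 P ∧ 2 ≤ v ∧ Ge 1 r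

theorem BF2_of (hB1 : hv B1) (a j : ℕ) (w : List Bool) : BF2 a (List.replicate j true ++
    (wd B1 ++ true :: (wd (lv2 (a + 1) (lv 1 .nil)) ++ true :: true :: w))) := by
  obtain ⟨p, x, h1, h2, h3, h4⟩ := bead_gen2 hB1 a j
  obtain ⟨r, g1, g2, g3⟩ := exists_ex (true :: w) true
  obtain ⟨v, r', rfl, g4⟩ := g3 w rfl
  refine ⟨p ++ [x], v, r', ?_, ?_, ?_, g4, fun z hz => g1 z (by simp [hz])⟩
  · rw [g2, h1]
    simp only [List.append_assoc, List.singleton_append]
  · rw [List.length_append, List.length_singleton]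
    exact h2.add_one
  · intro y hy
    rcases List.mem_append.1 hy with hy | hy
    · exact h3 y hy
    · simp at hy; omega

/-- **the forms of the words `0 .. 9, 13, 16, 18, 19` of a window with the block `(())^(a+1) ()`** -/
theorem NodeG.formA2 {a : ℕ} (h : NodeG k q B1 (lv2 (a + 1) (lv 1 .nil)) s B) {j : ℕ}
    (hj : j ∈ [0, 1, 2, 3, 4, 5, 6, 7, 8, 9, 13, 16, 18, 19]) :
    BF2 a (wd (W (gR B1 (lv2 (a + 1) (lv 1 .nil)) s B) (pc (q + 1)) B
      (Tsq.sq (gR B1 (lv2 (a + 1) (lv 1 .nil)) s B)).1 j)) ∨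
    (∃ r N : List ℕ, Ge 1 r ∧ N ∈ NP q ∧ wd (W (gR B1 (lv2 (a + 1) (lv 1 .nil)) s B) (pc (q + 1)) B
      (Tsq.sq (gR B1 (lv2 (a + 1) (lv 1 .nil)) s B)).1 j) = ex true (N ++ r)) ∨
    (∃ u, wd (W (gR B1 (lv2 (a + 1) (lv 1 .nil)) s B) (pc (q + 1)) B
      (Tsq.sq (gR B1 (lv2 (a + 1) (lv 1 .nil)) s B)).1 j) = true :: false :: u) ∨
    (∃ u, wd (W (gR B1 (lv2 (a + 1) (lv 1 .nil)) s B) (pc (q + 1)) B
      (Tsq.sq (gR B1 (lv2 (a + 1) (lv 1 .nil)) s B)).1 j) = u ++ [true, false]) := by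
  have hR := NodeG.wR h
  have hS := NodeG.wS h
  have bf := fun j w => BF2_of h.h1 a j w
  have hR0 := NodeG.gR_ne h
  have hS0 : (Tsq.sq (gR B1 (lv2 (a + 1) (lv 1 .nil)) s B)).1 ≠ .nil := Tsq.sq_ne hR0
  generalize gR B1 (lv2 (a + 1) (lv 1 .nil)) s B = R at hR hS hR0 hS0 ⊢
  generalize (Tsq.sq R).1 = S at hS hS0 ⊢
  have tR : ∀ w, ∃ u, wd R ++ w = true :: u := by
    intro w
    cases R with
    | nil => exact absurd rfl hR0
    | node _ A C => exact ⟨_, rfl⟩
  have tS : ∀ w, ∃ u, wd S ++ w = true :: u := by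
    intro w
    cases S with
    | nil => exact absurd rfl hS0
    | node _ A C => exact ⟨_, rfl⟩
  have np : ∀ (N : List ℕ) (w : List Bool), N ∈ NP q → ∃ r : List ℕ, Ge 1 r ∧
      (ex true N ++ true :: w) = ex true (N ++ r) := by
    intro N w hN
    obtain ⟨r, g1, g2, _⟩ := exists_ex w true
    have hl : Even N.length := by
      simp only [NP, List.mem_cons, List.not_mem_nil, or_false] at hN
      rcases hN with rfl | rfl | rfl | rfl <;> simp <;> decide
    exact ⟨r, g1, by rw [g2, ex_even hl]⟩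
  simp only [List.mem_cons, List.not_mem_nil, or_false] at hj
  rcases hj with rfl | rfl | rfl | rfl | rfl | rfl | rfl | rfl | rfl | rfl | rfl | rfl | rfl | rfl
  · -- 0
    left
    obtain ⟨w', e⟩ := hR (wd (pc (q + 3)))
    change BF2 a (wd (app R (pc (q + 3))))
    rw [wd_app, e]
    exact bf 0 w'
  · -- 1
    right; right; right
    refine ⟨wd R ++ (true :: false :: wd (pc (q + 1))), ?_⟩
    change wd (app R (.nil △ app (pc (q + 1)) (.nil △ .nil))) = _
    rw [wd_app, wd_node, wd_app, wd_node]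
    simp [wd]
  · -- 2
    right; right; left
    exact ⟨_, rfl⟩
  · -- 3
    left
    obtain ⟨w', e⟩ := hR (wd (.nil △ pc (q + 1)) ++ (false :: []))
    change BF2 a (wd (app R (.nil △ pc (q + 1)) △ .nil))
    rw [wd_node, wd_app, List.append_assoc]
    change BF2 a (true :: (wd R ++ (wd (.nil △ pc (q + 1)) ++ (false :: []))))
    rw [e]
    exact bf 1 w'
  · -- 4
    right; left
    obtain ⟨u, hu⟩ := tR []
    rw [List.append_nil] at hu
    obtain ⟨r, g1, g2⟩ := np [q + 2, q + 1, 1, 2] u (by simp [NP])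
    refine ⟨r, [q + 2, q + 1, 1, 2], g1, by simp [NP], ?_⟩
    rw [← g2]
    change wd (app (pc (q + 1)) (.nil △ .nil) △ R) = _
    rw [wd_node, wd_app, wd_node, wd_q, hu]
    simp [ex, wd, rep1, List.replicate_succ]
  · -- 5
    right; left
    obtain ⟨u, hu⟩ := tR []
    rw [List.append_nil] at hu
    obtain ⟨r, g1, g2⟩ := np [q + 2, q + 2, 1, 1] u (by simp [NP])
    refine ⟨r, [q + 2, q + 2, 1, 1], g1, by simp [NP], ?_⟩
    rw [← g2]
    change wd (pc (q + 1) △ (.nil △ R)) = _
    rw [wd_node, wd_node, wd_q, hu]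
    simp [ex, wd, rep1, List.replicate_succ]
  · -- 6
    left
    obtain ⟨w', e⟩ := hR (false :: wd (pc (q + 1) △ .nil))
    change BF2 a (wd (R △ (pc (q + 1) △ .nil)))
    rw [wd_node]
    rw [e]
    exact bf 1 w'
  · -- 7
    right; left
    obtain ⟨u, hu⟩ := tR [false]
    obtain ⟨r, g1, g2⟩ := np [q + 1, q + 1, 2, 1] u (by simp [NP])
    refine ⟨r, [q + 1, q + 1, 2, 1], g1, by simp [NP], ?_⟩
    rw [← g2, ← hu]
    change wd (app (pc (q + 1)) ((.nil △ R) △ .nil)) = _
    rw [wd_app, wd_node, wd_node, wd_q]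
    simp [ex, wd]
  · -- 8
    right; left
    obtain ⟨u, hu⟩ : ∃ u, wd (R △ .nil) = true :: u := ⟨_, rfl⟩
    obtain ⟨r, g1, g2⟩ := np [q + 1, q + 1, 1, 1] u (by simp [NP])
    refine ⟨r, [q + 1, q + 1, 1, 1], g1, by simp [NP], ?_⟩
    rw [← g2]
    change wd (app (pc (q + 1)) (.nil △ (R △ .nil))) = _
    rw [wd_app, wd_node, hu, wd_q]
    simp [ex, wd]
  · -- 9
    left
    obtain ⟨w', e⟩ := hR (false :: (false :: wd (pc (q + 1))))
    change BF2 a (wd ((R △ .nil) △ pc (q + 1)))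
    rw [wd_node, wd_node]
    change BF2 a (true :: (true :: (wd R ++ false :: []) ++ false :: wd (pc (q + 1))))
    rw [List.cons_append, List.append_assoc]
    change BF2 a (true :: true :: (wd R ++ (false :: (false :: wd (pc (q + 1))))))
    rw [e]
    exact bf 2 w'
  · -- 13
    left
    obtain ⟨w', e⟩ := hS (wd (app B (.nil △ pc (q + 1)) △ .nil))
    change BF2 a (wd (app S (app B (.nil △ pc (q + 1)) △ .nil)))
    rw [wd_app, e]
    exact bf 1 w'
  · -- 16
    left
    obtain ⟨w', e⟩ := hS (wd (B △ (pc (q + 1) △ .nil)))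
    change BF2 a (wd (app S (B △ (pc (q + 1) △ .nil))))
    rw [wd_app, e]
    exact bf 1 w'
  · -- 18
    right; left
    obtain ⟨u, hu⟩ := tS (wd (B △ .nil))
    obtain ⟨r, g1, g2⟩ := np [q + 1, q + 1, 1, 1] u (by simp [NP])
    refine ⟨r, [q + 1, q + 1, 1, 1], g1, by simp [NP], ?_⟩
    rw [← g2, ← hu]
    change wd (app (pc (q + 1)) (.nil △ app S (B △ .nil))) = _
    rw [wd_app, wd_node, wd_app, wd_q]
    simp [ex, wd]
  · -- 19
    left
    obtain ⟨w', e⟩ := hS (wd (B △ .nil) ++ (false :: wd (pc (q + 1))))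
    change BF2 a (wd (app S (B △ .nil) △ pc (q + 1)))
    rw [wd_node, wd_app, List.append_assoc, e]
    exact bf 2 w'


/-- what is used of the mirrored inner word -/
structure Inn2 (q a i : ℕ) (A : List ℕ) (x : ℕ) (T : List ℕ) : Prop where
  odd : Odd A.length
  head : Ge 3 A ∨ ∃ y, A = [y] ∧ 2 ≤ y
  hx : 2 ≤ x
  len : 3 ≤ T.length
  pos : Ge 1 T
  last : ∃ T' z, T = T' ++ [z] ∧ 3 ≤ z
  even : Even (A ++ (1 :: 1 :: (List.replicate (2 * a + 1) 2 ++ (x :: T)))).length
  zero : q = 0 → Ge 3 T → i = 0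

/-- **the runs of the mirrored inner words of a window with beads** -/
theorem NodeG.runsM2 {a : ℕ} (h : NodeG k q B1 (lv2 (a + 1) (lv 1 .nil)) s B) (w0 : X k) {i : ℕ}
    (hi : i ∈ [0, 1, 3, 6, 8, 9]) : ∃ (A : List ℕ) (x : ℕ) (T : List ℕ), Inn2 q a i A x T ∧
      wd (Tsq.mirX (TT (gX q B1 (lv2 (a + 1) (lv 1 .nil)) s B w0 i))).1 =
        ex true (A ++ (1 :: 1 :: (List.replicate (2 * a + 1) 2 ++ (x :: T)))) := by
  have hi20 : i < 20 := by
    simp only [List.mem_cons, List.not_mem_nil, or_false] at hi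
    omega
  have hs3 : 3 ≤ Tsq.ht s := by rw [H1.ht_eq]; exact h.hs3
  have hRs : Tsq.ht (gR B1 (lv2 (a + 1) (lv 1 .nil)) s B) = Tsq.ht s + 1 := by
    rw [H1.ht_eq, H1.ht_eq]; exact h.ht
  have hbig : q + 3 ≤ Tsq.ht s + 1 := by rw [H1.ht_eq]; exact h.big
  have hw := inn_gen (NodeG.gR_ne h) h.sq.1 (by rw [hRs]; exact hbig) (gX q B1 (lv2 (a + 1) (lv 1 .nil)) s B w0 i)
    hi (by rw [NodeG.word h w0 hi20, ch_eq])
  obtain ⟨ha, hc⟩ := NodeG.acR h
  rw [ha, hc] at hw
  -- the part `Z`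
  obtain ⟨z, l, c1, c2, c3, c4, c5⟩ := cc_runs (c := 3) (by norm_num) s h.s0 (cont_of_hv h.hs)
  have hBs : ∀ x ∈ cont (Tsq.sq s).2, 3 ≤ x := by
    intro x hx
    apply cont_of_hv h.hs
    rw [← sq_cont h.s0]
    exact Multiset.mem_add.2 (Or.inl hx)
  obtain ⟨rs, d1, d2, d3, _⟩ := hv_runs (c := 3) (by norm_num) _ hBs
  obtain ⟨rB, b1, b2, b3, _⟩ := hv_runs (c := 3) (by norm_num) B (cont_of_hv h.hB)
  have hz : 3 ≤ z + 1 := by
    by_cases hl : l = []
    · have := c4 hl; omega
    · have := c5 hl; omega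
  have o1 : Odd (l ++ [z + 1]).length := by
    rw [List.length_append, List.length_singleton]
    exact c2.add_one
  have Z1 : co (H1.cc s ++ false :: wd (Tsq.sq s).2) = ex true ((l ++ [z + 1]) ++ rs) := by
    rw [co_app, co_cons, c1, d1, ex_co, ex_co, ex_odd o1]
    exact ex_last c2 true z _
  have o2 : Odd ((l ++ [z + 1]) ++ rs).length := by
    rw [List.length_append]
    exact o1.add_even d2
  have gU : Ge 3 ((l ++ [z + 1]) ++ rs) := by
    intro y hy
    rw [List.mem_append, List.mem_append, List.mem_singleton] at hy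
    rcases hy with (hy | rfl) | hy
    · exact c3 y hy
    · exact hz
    · exact d3 y hy
  obtain ⟨U, u, hU⟩ := exists_snoc (l := (l ++ [z + 1]) ++ rs) (by simp)
  rw [hU] at o2 gU Z1
  have eU : Even U.length := by
    rw [List.length_append, List.length_singleton] at o2
    by_contra h5
    rw [Nat.not_even_iff_odd] at h5
    exact (Nat.not_odd_iff_even.2 h5.add_one) o2
  have Z2 : co (H1.cc s ++ false :: wd (Tsq.sq s).2) ++ true :: co (wd B) =
      ex true ((U ++ [u + 1]) ++ rB) := by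
    have o3 : Odd (U ++ [u + 1]).length := by simpa using o2
    rw [Z1, b1, ex_co, ex_odd o3]
    exact ex_last eU true u _
  have o4 : Odd ((U ++ [u + 1]) ++ rB).length := by
    rw [List.length_append]
    exact (show Odd (U ++ [u + 1]).length by simpa using o2).add_even b2
  have gV : Ge 3 ((U ++ [u + 1]) ++ rB) := by
    intro y hy
    rw [List.mem_append] at hy
    rcases hy with hy | hy
    · exact ge_snoc gU 1 y hy
    · exact b3 y hy
  obtain ⟨V, v, hV⟩ := exists_snoc (l := (U ++ [u + 1]) ++ rB) (by simp)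
  rw [hV] at o4 gV Z2
  have eV : Even V.length := by
    rw [List.length_append, List.length_singleton] at o4
    by_contra h5
    rw [Nat.not_even_iff_odd] at h5
    exact (Nat.not_odd_iff_even.2 h5.add_one) o4
  -- the part `Y`
  obtain ⟨y, t, e1, e2, e3, e4, e5⟩ := aa_runs (c := 3) (by norm_num) s h.s0 (cont_of_hv h.hs)
  obtain ⟨p, x, g1, g2, g3, g4⟩ := bead_gen2 h.h1 a 1
  have Y1 : false :: co (wd B1 ++ true :: (wd (lv2 (a + 1) (lv 1 .nil)) ++ aa s)) =
      ex false (p ++ (x :: (List.replicate (2 * a + 1) 2 ++ (1 :: 1 :: (y :: t))))) := by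
    have := congrArg co (g1 (y :: t))
    rw [ex_co, ← e1] at this
    exact this
  rw [Z2, Y1] at hw
  have hA : Ge 3 (y :: t).reverse ∨ ∃ y', (y :: t).reverse = [y'] ∧ y' + 1 = Tsq.ht s := by
    by_cases ht : t = []
    · subst ht
      exact Or.inr ⟨y, rfl, e4 rfl⟩
    · left
      intro w hw
      rw [List.mem_reverse, List.mem_cons] at hw
      rcases hw with rfl | hw
      · exact e5 ht
      · exact e3 w hw
  have oA : Odd (y :: t).reverse.length := by
    rw [List.length_reverse, List.length_cons]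
    exact e2.add_one
  obtain ⟨m1, m2, m3⟩ := mr_rev (q := q) hi
  have m4 : 2 ≤ (mr q (sg i)).length := by
    simp only [List.mem_cons, List.not_mem_nil, or_false] at hi
    rcases hi with rfl | rfl | rfl | rfl | rfl | rfl <;> simp [mr, sg]
  have m5 : Ge 1 (mr q (sg i)) := by
    intro w hw
    have h1 : Ge (q + 3) ([] : List ℕ) := fun _ h => absurd h List.not_mem_nil
    exact ge_mid (q := q) m2 h1 h1 w (by simpa using hw)
  -- the increments
  obtain ⟨p', x', j1, j2, j3, j4⟩ : ∃ (p' : List ℕ) (x' : ℕ),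
      ex true (V ++ [v]) ++ (midM q i ++ ex false (p ++ (x :: (List.replicate (2 * a + 1) 2 ++
        (1 :: 1 :: (y :: t)))))) =
      ex true ((V ++ [v + ez i]) ++ (mr q i ++ (p' ++ (x' :: (List.replicate (2 * a + 1) 2 ++
        (1 :: 1 :: (y :: t))))))) ∧ Even p'.length ∧ Ge 3 p' ∧
      ((x' = 3) ∨ (p' = [] ∧ x' = 4 + ei i)) := by
    cases p with
    | nil =>
      rcases g4 with ⟨_, g4⟩ | ⟨_, g4⟩
      · exact absurd rfl g4
      · refine ⟨[], x + ei i, ?_, by simp, fun _ h => absurd h List.not_mem_nil, Or.inr ⟨rfl, by omega⟩⟩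
        rw [List.nil_append, runs_gen hi eV]
        rfl
    | cons w p =>
      rcases g4 with ⟨g4, _⟩ | ⟨g4, _⟩
      · refine ⟨(w + ei i) :: p, x, ?_, by simpa using g2, ge_cons g3 _, Or.inl g4⟩
        rw [List.cons_append, runs_gen hi eV]
        rfl
      · cases g4
  rw [j1] at hw
  have eL : Even ((V ++ [v + ez i]) ++ (mr q i ++ (p' ++ (x' :: (List.replicate (2 * a + 1) 2 ++
      (1 :: 1 :: (y :: t))))))).length := by
    have k1 : Odd (V ++ [v + ez i]).length := by simpa using o4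
    have k2 : Odd (x' :: (List.replicate (2 * a + 1) 2 ++
      (1 :: 1 :: (y :: t)))).length := by
      rw [List.length_cons, List.length_append, List.length_replicate, List.length_cons,
        List.length_cons, List.length_cons]
      obtain ⟨c, hc⟩ := e2
      exact ⟨a + c + 2, by omega⟩
    rw [List.length_append (as := V ++ [v + ez i]), List.length_append (as := mr q i),
      List.length_append (as := p')]
    exact k1.add_odd (m3.add_odd (j2.add_odd k2))
  have hm := mir_ex hw eL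
  have rv : ((V ++ [v + ez i]) ++ (mr q i ++ (p' ++ (x' :: (List.replicate (2 * a + 1) 2 ++
      (1 :: 1 :: (y :: t))))))).reverse =
      (y :: t).reverse ++ (1 :: 1 :: (List.replicate (2 * a + 1) 2 ++
        (x' :: (p'.reverse ++ (mr q (sg i) ++ (V ++ [v + ez i]).reverse))))) := by
    rw [List.reverse_append, List.reverse_append, m1, List.reverse_append, List.reverse_cons (as := _ ++ _),
      List.reverse_append, List.reverse_replicate, List.reverse_cons, List.reverse_cons]
    simp only [List.append_assoc, List.singleton_append, List.cons_append, List.nil_append]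
  rw [rv] at hm
  have gW : Ge 3 (V ++ [v + ez i]).reverse := ge_rev (ge_snoc gV _)
  have oW : Odd (V ++ [v + ez i]).reverse.length := by
    rw [List.length_reverse]; simpa using o4
  refine ⟨(y :: t).reverse, x', p'.reverse ++ (mr q (sg i) ++ (V ++ [v + ez i]).reverse),
    ⟨oA, ?_, ?_, ?_, ?_, ?_, ?_, ?_⟩, hm⟩
  · rcases hA with hA | ⟨y', hA, hy⟩
    · exact Or.inl hA
    · exact Or.inr ⟨y', hA, by omega⟩
  · rcases j4 with j4 | ⟨_, j4⟩ <;> omega
  · rw [List.length_append, List.length_append]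
    obtain ⟨c, hc⟩ := oW
    omega
  · intro w hw
    rw [List.mem_append, List.mem_append, List.mem_reverse] at hw
    rcases hw with hw | hw | hw
    · have := j3 w hw; omega
    · exact m5 w hw
    · have := gW w hw; omega
  · obtain ⟨W, w, hW⟩ := exists_snoc (l := (V ++ [v + ez i]).reverse) (by simp)
    refine ⟨p'.reverse ++ (mr q (sg i) ++ W), w, ?_, ?_⟩
    · rw [hW]; simp
    · exact gW w (by rw [hW]; simp)
  · rw [← rv, List.length_reverse]
    exact eL
  · intro hq hT
    subst hq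
    have hm4 : Ge 3 (mr 0 (sg i)) := fun w hw => hT w (by simp [hw])
    simp only [List.mem_cons, List.not_mem_nil, or_false] at hi
    rcases hi with rfl | rfl | rfl | rfl | rfl | rfl
    · rfl
    · have := hm4 1 (by simp [mr, sg]); omega
    · have := hm4 1 (by simp [mr, sg]); omega
    · have := hm4 2 (by simp [mr, sg]); omega
    · have := hm4 1 (by simp [mr, sg]); omega
    · have := hm4 1 (by simp [mr, sg]); omega

theorem BF2_core {i j a : ℕ} {ζ η : List ℕ} {q' : ℕ} (hi : i ∈ [0, 1, 3, 6, 8, 9])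
    (h' : NodeG k q' B1 (lv2 (a + 1) (lv 1 .nil)) s B)
    (hj : j ∈ [0, 1, 2, 3, 4, 5, 6, 7, 8, 9, 13, 16, 18, 19])
    (g1 : Odd ζ.length) (g2 : Odd η.length) (g3 : Ge (q + 3) ζ) (g4 : Ge (q + 3) η)
    (e1 : wd (W (gR B1 (lv2 (a + 1) (lv 1 .nil)) s B) (pc (q' + 1)) B
      (Tsq.sq (gR B1 (lv2 (a + 1) (lv 1 .nil)) s B)).1 j) = ex true (ζ ++ (mr q i ++ η))) : False := by
  have hl' := even3 (q := q) hi g1 g2
  have to3 : ∀ {l : List ℕ}, Ge (q + 3) l → Ge 3 l := fun h x hx => by
    have := h x hx; omega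
  have g6 := ge_mid hi g3 g4
  rcases NodeG.formA2 h' hj with ⟨P, v, r, k1, k2, k3, k5, k6⟩ | ⟨r, N, k1, k2, k3⟩ | ⟨u, k1⟩ |
    ⟨u, k1⟩
  · have gp : Ge 1 (P ++ (List.replicate (2 * a + 1) 2 ++ (1 :: 1 :: v :: r))) := by
      intro y hy
      simp only [List.mem_append, List.mem_cons, List.mem_replicate] at hy
      rcases hy with hy | hy | rfl | rfl | rfl | hy
      · have := k3 y hy; omega
      · omega
      · omega
      · omega
      · omega
      · exact k6 y hy
    have e2 := ex_inj _ _ true g6 gp (by rw [← k1, e1])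
    exact core_A2 hi g1 (to3 g3) (to3 g4) k2 k3 k5 e2
  · have gp : Ge 1 (N ++ r) := by
      intro x hx
      rcases List.mem_append.1 hx with hx | hx
      · exact (NP_len k2).2 x hx
      · exact k1 x hx
    have e2 := ex_inj _ _ true g6 gp (by rw [← k3, e1])
    exact core_P hi g1 g3 k2 e2
  · obtain ⟨y, l, rfl⟩ := odd_ne g1
    have := g3 y (by simp)
    rw [k1] at e1
    exact start_tt (List.cons_append) (by omega) e1.symm
  · obtain ⟨l, y, rfl⟩ := exists_snoc (l := η) (by rintro rfl; simp at g2)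
    have := g4 y (by simp)
    rw [k1] at e1
    exact end_ff hl' (L' := ζ ++ (mr q i ++ l)) (z := y) (by simp) (by omega) e1.symm

theorem NodeM.rinner_lowA2 (h : NodeM k q R B S) (w0 : X k) {i : ℕ} (hi' : i ∈ [0, 1, 3, 6, 8, 9])
    {q' a : ℕ} {B1 s B' : BinaryTree Unit} (h' : NodeG k q' B1 (lv2 (a + 1) (lv 1 .nil)) s B')
    (w0' : X k) {j : ℕ} (hj : j ∈ [0, 1, 2, 3, 4, 5, 6, 7, 8, 9, 13, 16, 18, 19])
    (e : TT (H1.wX R B S q w0 i) = gX q' B1 (lv2 (a + 1) (lv 1 .nil)) s B' w0' j) : False := by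
  have hj20 : j < 20 := by
    simp only [List.mem_cons, List.not_mem_nil, or_false] at hj
    omega
  obtain ⟨ζ, η, e1, f2, f3, f4, f5⟩ := h.runs w0 hi'
  rw [e, NodeG.word h' w0' hj20, ch_eq] at e1
  exact BF2_core hi' h' hj f2 f3 f4 f5 e1

theorem NodeM.inner_lowA2 (h : NodeM k q R B S) (w0 : X k) {i i' : ℕ}
    (hi : (i, i') ∈ [(0, 10), (1, 11), (3, 12), (6, 15), (8, 14), (9, 17)])
    {q' a : ℕ} {B1 s B' : BinaryTree Unit} (h' : NodeG k q' B1 (lv2 (a + 1) (lv 1 .nil)) s B')
    (w0' : X k) {j : ℕ} (hj : j ∈ [0, 1, 2, 3, 4, 5, 6, 7, 8, 9, 13, 16, 18, 19])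
    (e : TT (mX R B S q w0 i') = gX q' B1 (lv2 (a + 1) (lv 1 .nil)) s B' w0' j) : False := by
  have hi' : i ∈ [0, 1, 3, 6, 8, 9] := by
    simp only [List.mem_cons, List.not_mem_nil, or_false, Prod.mk.injEq] at hi ⊢
    omega
  have hj20 : j < 20 := by
    simp only [List.mem_cons, List.not_mem_nil, or_false] at hj
    omega
  obtain ⟨ζ, η, f1, f2, f3, f4, f5⟩ := h.runs w0 hi'
  obtain ⟨m1, m2, m3⟩ := mr_rev (q := q) hi'
  rw [inner_mir h w0 hi] at e
  have hl := even3 (q := q) hi' f2 f3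
  have e1 : wd (Tsq.mirX (TT (H1.wX R B S q w0 i))).1 =
      ex true (η.reverse ++ (mr q (sg i) ++ ζ.reverse)) := by
    have := mir_ex f1 hl
    rw [List.reverse_append, List.reverse_append, m1, List.append_assoc] at this
    exact this
  rw [e, NodeG.word h' w0' hj20, ch_eq] at e1
  exact BF2_core m2 h' hj (by rw [List.length_reverse]; exact f3)
    (by rw [List.length_reverse]; exact f2) (ge_rev f5) (ge_rev f4) e1

theorem Inn2.ge {q a i x : ℕ} {A T : List ℕ} (I : Inn2 q a i A x T) : Ge 1 (A ++ (1 :: 1 :: (List.replicate (2 * a + 1) 2 ++ (x :: T)))) := by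
  intro y hy
  simp only [List.mem_append, List.mem_cons, List.mem_replicate] at hy
  rcases hy with hy | rfl | rfl | hy | rfl | hy
  · rcases I.head with h1 | ⟨z, rfl, h1⟩
    · have := h1 y hy; omega
    · simp at hy; omega
  · omega
  · omega
  · omega
  · have := I.hx; omega
  · exact I.pos y hy

theorem NodeM.inner_highA2 (h : NodeM k q R B S) (w0 : X k) {j : ℕ}
    (hj : j ∈ [2, 4, 5, 7, 10, 11, 12, 13, 14, 15, 16, 17, 18, 19])
    {a : ℕ} {B1 s B' : BinaryTree Unit} (h' : NodeG k 0 B1 (lv2 (a + 1) (lv 1 .nil)) s B')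
    (w0' : X k) {i : ℕ} (hi : i ∈ [0, 1, 3, 6, 8, 9])
    (e : TT (gX 0 B1 (lv2 (a + 1) (lv 1 .nil)) s B' w0' i) = mX R B S q w0 j) : i = 0 ∧ j = 4 := by
  have hj20 : j < 20 := by
    simp only [List.mem_cons, List.not_mem_nil, or_false] at hj
    omega
  obtain ⟨A, x, T, I, f1⟩ := NodeG.runsM2 h' w0' hi
  have e1 : Tsq.mirX (TT (gX 0 B1 (lv2 (a + 1) (lv 1 .nil)) s B' w0' i)) = H1.wX R B S q w0 j := by
    rw [e]
    exact mirX_mirX _
  rw [e1, wX_eq h.dat h.size w0 hj20, ch_eq] at f1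
  have g6 := I.ge
  rcases h.form6 hj with ⟨r, N, k1, k2, k3, k4⟩ | ⟨N, r, k1, k2, k3, k4⟩ | ⟨u, k1⟩ | ⟨u, k1⟩ | ⟨b, r, k1, k2, k3, k4⟩
  · exfalso
    have gp : Ge 1 (r ++ N) := by
      intro y hy
      rcases List.mem_append.1 hy with hy | hy
      · have := k1 y hy; omega
      · exact k3 y hy
    have e2 := ex_inj _ _ true g6 gp (by rw [← k4, f1])
    refine core_T (n := 1) (A := A) (T := List.replicate (2 * a + 1) 2 ++ (x :: T)) ?_ k1 k2 e2
    rw [List.length_append, List.length_replicate, List.length_cons]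
    have := I.len
    omega
  · have gp : Ge 1 (N ++ r) := by
      intro y hy
      rcases List.mem_append.1 hy with hy | hy
      · simp only [NQ, List.mem_cons, List.not_mem_nil, or_false] at k1
        rcases k1 with rfl | rfl | rfl | rfl | rfl | rfl | rfl <;> simp at hy <;> omega
      · have := k2 y hy; omega
    have e2 := ex_inj _ _ true g6 gp (by rw [← k3, f1])
    obtain ⟨c1, c2, c3⟩ := core_H2 I.odd I.head k1 k2 e2
    exact ⟨I.zero rfl c3, k4 c1⟩
  · exfalso
    obtain ⟨y, l, rfl⟩ := odd_ne I.odd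
    have hy : 2 ≤ y := by
      rcases I.head with h1 | ⟨z, h0, h1⟩
      · have := h1 y (by simp); omega
      · simp at h0; omega
    rw [k1] at f1
    exact start_tt (List.cons_append) hy f1.symm
  · exfalso
    obtain ⟨T', z, h1, h2⟩ := I.last
    rw [k1] at f1
    exact end_ff I.even (L' := A ++ (1 :: 1 :: (List.replicate (2 * a + 1) 2 ++ (x :: T'))))
      (z := z) (by rw [h1]; simp) (by omega) f1.symm
  · exfalso
    have gp : Ge 1 (b ++ (1 :: r)) := by
      intro y hy
      rcases List.mem_append.1 hy with hy | hy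
      · have := k2 y hy; omega
      · rcases List.mem_cons.1 hy with rfl | hy
        · exact le_rfl
        · exact k3 y hy
    have e2 := ex_inj _ _ true g6 gp (by rw [← k4, f1])
    exact core_112 I.odd I.head k1 k2 e2

theorem NodeM.rinner_lowR2 (h : NodeM k q R B S) (w0 : X k) {j : ℕ}
    (hj : j ∈ [0, 1, 2, 3, 4, 5, 6, 7, 8, 9, 13, 16, 18, 19])
    {a : ℕ} {B1 s B' : BinaryTree Unit} (h' : NodeG k 0 B1 (lv2 (a + 1) (lv 1 .nil)) s B')
    (w0' : X k) {i : ℕ} (hi : i ∈ [0, 1, 3, 6, 8, 9])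
    (e : TT (gX 0 B1 (lv2 (a + 1) (lv 1 .nil)) s B' w0' i) = H1.wX R B S q w0 j) : i = 0 ∧ j = 13 := by
  have hj20 : j < 20 := by
    simp only [List.mem_cons, List.not_mem_nil, or_false] at hj
    omega
  obtain ⟨A, x, T, I, f1⟩ := NodeG.runsM2 h' w0' hi
  have g6 := I.ge
  have iev := I.even
  set M := A ++ (1 :: 1 :: (List.replicate (2 * a + 1) 2 ++ (x :: T))) with hM
  have f0 : wd (TT (gX 0 B1 (lv2 (a + 1) (lv 1 .nil)) s B' w0' i)).1 = ex true M.reverse := by
    have := mir_ex f1 iev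
    rw [← this]
    exact congrArg wd (Tsq.mir_mir _).symm
  rw [e, wX_eq h.dat h.size w0 hj20, ch_eq] at f0
  have g7 : Ge 1 M.reverse := ge_rev g6
  have m1 : 1 ∈ M := by
    rw [hM]; simp
  rcases h.form5 hj with ⟨r, N, _, k1, k2, k3, _, k5⟩ | ⟨r, N, k1, k2, k3⟩ | ⟨l, k1, k2⟩ | ⟨l, k1, k2⟩
  · have gN : Ge 1 N := by
      intro y hy
      simp only [NS, List.mem_cons, List.not_mem_nil, or_false] at k2
      rcases k2 with rfl | rfl | rfl | rfl | rfl | rfl | rfl <;> simp at hy <;> omega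
    have gp : Ge 1 (r ++ N) := by
      intro y hy
      rcases List.mem_append.1 hy with hy | hy
      · have := k1 y hy; omega
      · exact gN y hy
    have e2 := ex_inj _ _ true g7 gp (by rw [← k3, f0])
    have e3 : M = N.reverse ++ r.reverse := by
      rw [← List.reverse_append, ← e2, List.reverse_reverse]
    rcases NS_rev k2 with hN | hN
    · exfalso
      rw [hN] at e3
      rw [e3] at m1
      simp at m1
      have := k1 1 m1
      omega
    · obtain ⟨c1, c2, c3⟩ := core_H2 I.odd I.head hN (ge_rev k1) e3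
      refine ⟨I.zero rfl c3, k5 ?_⟩
      have := congrArg List.reverse c1
      rw [List.reverse_reverse] at this
      simpa using this
  · exfalso
    obtain ⟨n1, n2⟩ := NP_len k2
    have gp : Ge 1 (N ++ r) := by
      intro y hy
      rcases List.mem_append.1 hy with hy | hy
      · exact n2 y hy
      · have := k1 y hy; omega
    have e2 := ex_inj _ _ true g7 gp (by rw [← k3, f0])
    have e3 : M = r.reverse ++ N.reverse := by
      rw [← List.reverse_append, ← e2, List.reverse_reverse]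
    refine core_T (n := 1) (A := A) (T := List.replicate (2 * a + 1) 2 ++ (x :: T)) (r := r.reverse)
      (N := N.reverse) ?_ ?_ (by rw [List.length_reverse, n1]) e3
    · rw [List.length_append, List.length_replicate, List.length_cons]
      have := I.len
      omega
    · intro y hy
      have := k1 y (List.mem_reverse.1 hy)
      omega
  · exfalso
    have gp : Ge 1 (1 :: l) := by
      intro y hy
      rcases List.mem_cons.1 hy with rfl | hy
      · exact le_rfl
      · exact k1 y hy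
    have e2 := ex_inj _ _ true g7 gp (by rw [← k2, f0])
    obtain ⟨T', z, h1, h2⟩ := I.last
    have e3 : M.reverse = z :: (A ++ (1 :: 1 :: (List.replicate (2 * a + 1) 2 ++ (x :: T')))).reverse := by
      rw [hM, h1]; simp
    rw [e3, List.cons.injEq] at e2
    omega
  · exfalso
    have gp : Ge 1 (l ++ [1]) := by
      intro y hy
      rcases List.mem_append.1 hy with hy | hy
      · exact k1 y hy
      · simp at hy; omega
    have e2 := ex_inj _ _ true g7 gp (by rw [← k2, f0])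
    obtain ⟨y, l', rfl⟩ := odd_ne I.odd
    have hy : 2 ≤ y := by
      rcases I.head with h1 | ⟨z, h0, h1⟩
      · have := h1 y (by simp); omega
      · simp at h0; omega
    have e3 := congrArg List.reverse e2
    rw [List.reverse_reverse, List.reverse_append, hM] at e3
    simp only [List.cons_append, List.reverse_cons, List.reverse_nil, List.nil_append,
      List.cons.injEq] at e3
    omega

/-! ### All words -/

variable {R' B' S' : BinaryTree Unit} {q' : ℕ}

/-- the decomposition of the words of a window, if the inside of the first marked component has no marker -/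
theorem split_W2 (h : Adm (q + 1) R B S) {i : ℕ} (hi : i < 20)
    (h0 : am (split (W R (ch (q + 1)) B S i)).2.1 = false) :
    ∃ B1 P p s, hv B1 ∧ PB P = true ∧ R = app B1 (P △ B) ∧
      split (W R (ch (q + 1)) B S i) = (p, P, s) ∧
      ((p = B1 ∧ s = app B ((ch (q + 1) △ .nil) △ .nil)) ∨ (p = B1 ∧ s ≠ .nil ∧ lastB s = true) ∨ (p ≠ .nil ∧ s ≠ .nil) ∨
      p = (app (ch (q + 1)) (.nil △ .nil)) △ B1 ∨ p = ch (q + 1) △ (.nil △ B1)) := by
  have hidx : idx (W R (ch (q + 1)) B S i) = i := by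
    rcases lt_or_ge i 10 with h1 | h1
    · exact idx_lo h i h1
    · exact idx_hi h i h1 hi
  rw [idx, if_neg (by rw [h0]; simp)] at hidx
  obtain ⟨B1, P, h1, h2, h3, rfl⟩ := h.hR
  have mP := mk_of_PB h2
  have aB1 := hv_am h1
  have hi5 : i = 0 ∨ i = 1 ∨ i = 2 ∨ i = 4 ∨ i = 5 := by
    unfold idx0 at hidx
    split_ifs at hidx <;> omega
  rcases hi5 with rfl | rfl | rfl | rfl | rfl
  · have e : W (app B1 (P △ B)) (ch (q + 1)) B S 0 = app B1 (P △ app B ((ch (q + 1) △ .nil) △ .nil)) := by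
      change app (app B1 (P △ B)) _ = _
      rw [H1.app_assoc]; rfl
    refine ⟨B1, P, _, _, h1, h2, rfl, by rw [e, split_app aB1 mP], Or.inl ⟨rfl, rfl⟩⟩
  · have e : W (app B1 (P △ B)) (ch (q + 1)) B S 1 =
        app B1 (P △ app B (.nil △ app (ch (q + 1)) (.nil △ .nil))) := by
      change app (app B1 (P △ B)) _ = _
      rw [H1.app_assoc]; rfl
    refine ⟨B1, P, _, _, h1, h2, rfl, by rw [e, split_app aB1 mP],
      Or.inr (Or.inl ⟨rfl, app_ne (by simp), ?_⟩)⟩
    rw [lastB_app (by simp), lastB_cons (app_ne (by simp)), lastB_app (by simp), lastB_one]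
    rfl
  · have e : W (app B1 (P △ B)) (ch (q + 1)) B S 2 =
        app (.nil △ B1) (P △ app B (.nil △ ch (q + 1))) := by
      change .nil △ app (app B1 (P △ B)) _ = _
      rw [H1.app_assoc]; rfl
    exact ⟨B1, P, _, _, h1, h2, rfl, by rw [e, split_app (by rw [am_node, aB1]; rfl) mP],
      Or.inr (Or.inr (Or.inl ⟨by simp, app_ne (by simp)⟩))⟩
  · have e : W (app B1 (P △ B)) (ch (q + 1)) B S 4 =
        app ((ch q △ (.nil △ .nil)) △ B1) (P △ B) := rfl
    exact ⟨B1, P, _, _, h1, h2, rfl, by rw [e, split_app (by rw [am_node, aB1, mk_chb]; rfl) mP],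
      Or.inr (Or.inr (Or.inr (Or.inl (by rfl))))⟩
  · have e : W (app B1 (P △ B)) (ch (q + 1)) B S 5 = app (ch (q + 1) △ (.nil △ B1)) (P △ B) := rfl
    exact ⟨B1, P, _, _, h1, h2, rfl,
      by rw [e, split_app (by rw [am_node, am_node, aB1, mk_ch]; rfl) mP],
      Or.inr (Or.inr (Or.inr (Or.inr rfl)))⟩

/-- **no common word** of a window and a bead free absorber -/
theorem W_aw2 (h : Adm (q + 1) R B S) (h' : Bare R' B' S')
    (hx : q + 3 ∉ cont S')
    {i j : ℕ} (hi : i < 20) (hj : j < 20) :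
    W R (ch (q + 1)) B S i ≠ aw R' (ch (q' + 1)) B' S' j := by
  intro e
  obtain ⟨a0, a1⟩ := split_aw (q := q') h' hj
  rw [← e] at a0
  obtain ⟨B1, P, p, s, b1, b2, b3, b4, b5⟩ := split_W2 h hi a0
  rw [← e, b4] at a1
  have x1 : x4 (ch (q' + 1)) = false := by
    cases q' <;> simp [ch, x4, lastB, len]
  have x2 : x4 ((app (ch (q + 1)) (.nil △ .nil)) △ B1) = true := by
    simp [ch, x4, lastB, len, app, isNil]
  rcases a1 with a1 | ⟨a1, a2⟩ | ⟨a1, a2⟩ | ⟨a1, a2, a3⟩ | ⟨a1, a2⟩
  · change P = .nil at a1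
    rw [a1] at b2
    exact absurd b2 (by simp [PB_nil])
  · change p = .nil at a1
    change s = .nil at a2
    subst a1 a2
    rcases b5 with b5 | b5 | b5 | b5 | b5
    · exact app_ne (P := B) (by simp) b5.2.symm
    · exact b5.2.1 rfl
    · exact b5.2 rfl
    · simp at b5
    · simp at b5
  · change p = R' at a1
    change s = .nil at a2
    subst a1 a2
    rcases b5 with b5 | b5 | b5 | b5 | b5
    · exact app_ne (P := B) (by simp) b5.2.symm
    · exact b5.2.1 rfl
    · exact b5.2 rfl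
    · have := hv_x4 h'.hR
      rw [b5, x2] at this
      exact absurd this (by simp)
    · have := hv_sb h'.hR
      rw [b5] at this
      exact absurd this (by simp [sb, fb, isNil])
  · simp only [Prod.mk.injEq] at a3
    obtain ⟨c1, c2, c3⟩ := a3
    subst c1 c3
    rcases b5 with ⟨_, c5⟩ | ⟨_, _, c5⟩ | b5 | b5 | b5
    · apply hx
      have e7 : ((ch (q + 1) △ .nil) △ .nil : BinaryTree Unit) = pc (q + 3) := by
        rw [ch_eq]; rfl
      rw [c5, e7, cont_app]
      exact Multiset.mem_add.2 (Or.inr (by rw [cont_pc (q + 2)]; simp))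
    · rw [hv_last h'.hS] at c5
      exact absurd c5 (by simp)
    · exact b5.1 rfl
    · simp at b5
    · simp at b5
  · change p = ch (q' + 1) at a1
    change s = .nil at a2
    subst a1 a2
    rcases b5 with b5 | b5 | b5 | b5 | b5
    · exact app_ne (P := B) (by simp) b5.2.symm
    · exact b5.2.1 rfl
    · exact b5.2 rfl
    · rw [b5, x2] at x1
      exact absurd x1 (by simp)
    · rw [ch_succ] at b5
      simp at b5

/-- **A0 against A**, the smallest part of the window is smaller -/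
theorem NodeM.disjG2 {B1 H s : BinaryTree Unit} (h' : NodeM k q' R' B' S')
    (h : NodeG k q B1 H s B) (hq : q < q') (w0 : X k) {i j : ℕ} (hi : i < 20) (hj : j < 20) :
    gX q B1 H s B w0 i ≠ mX R' B' S' q' w0 j := by
  intro e
  have e1 := congrArg Subtype.val e
  rw [h.word w0 hi, h'.word' w0 hj, ← ch_eq] at e1
  refine W_aw2 h.adm h'.bareM ?_ hi hj e1
  intro hx
  have := h'.a0d.hvS _ hx
  omega

theorem Hok_zero {a : ℕ} {H s : BinaryTree Unit} : Hok 0 (lv2 (a + 1) H) s := by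
  intro _ X _ _ e
  change _ = .nil △ (.nil △ X) at e
  simp [lv2, app] at e

/-- mirrored inner words, words of the window -/
theorem NodeM.inner_G2 (h : NodeM k q R B S) (w0 : X k) {i i' : ℕ}
    (hi : (i, i') ∈ [(0, 10), (1, 11), (3, 12), (6, 15), (8, 14), (9, 17)])
    {a : ℕ} {B1 s B' : BinaryTree Unit} (h' : NodeG k 0 B1 (lv2 (a + 1) (lv 1 .nil)) s B')
    (w0' : X k) {j : ℕ} (hj : j < 20) :
    TT (mX R B S q w0 i') ≠ gX 0 B1 (lv2 (a + 1) (lv 1 .nil)) s B' w0' j := by
  intro e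
  by_cases hl : j ∈ [0, 1, 2, 3, 4, 5, 6, 7, 8, 9, 13, 16, 18, 19]
  · exact h.inner_lowA2 w0 hi h' w0' hl e
  · have h3 : ∃ j' ∈ [0, 1, 3, 6, 8, 9],
        (j', j) ∈ [(0, 10), (1, 11), (3, 12), (6, 15), (8, 14), (9, 17)] := by
      simp only [List.mem_cons, List.not_mem_nil, or_false, not_or] at hl
      have : j = 10 ∨ j = 11 ∨ j = 12 ∨ j = 14 ∨ j = 15 ∨ j = 17 := by omega
      rcases this with rfl | rfl | rfl | rfl | rfl | rfl
      · exact ⟨0, by simp, by simp⟩
      · exact ⟨1, by simp, by simp⟩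
      · exact ⟨3, by simp, by simp⟩
      · exact ⟨8, by simp, by simp⟩
      · exact ⟨6, by simp, by simp⟩
      · exact ⟨9, by simp, by simp⟩
    obtain ⟨j', h4, h5⟩ := h3
    rw [← h'.link w0' h5] at e
    have h6 := h.inner_highA2 w0 (j := i') (by
      simp only [List.mem_cons, List.not_mem_nil, or_false, Prod.mk.injEq] at hi ⊢
      omega) h' w0' h4 (TT.injective e).symm
    simp only [List.mem_cons, List.not_mem_nil, or_false, Prod.mk.injEq] at hi
    omega

/-- inner words of the window, mirrored words -/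
theorem NodeM.inner_G2' (h : NodeM k q R B S) (w0 : X k) {j : ℕ} (hj : j < 20)
    {a : ℕ} {B1 s B' : BinaryTree Unit} (h' : NodeG k 0 B1 (lv2 (a + 1) (lv 1 .nil)) s B')
    (w0' : X k) {i : ℕ} (hi : i ∈ [0, 1, 3, 6, 8, 9])
    (e : TT (gX 0 B1 (lv2 (a + 1) (lv 1 .nil)) s B' w0' i) = mX R B S q w0 j) : i = 0 ∧ j = 4 := by
  by_cases hl : j ∈ [2, 4, 5, 7, 10, 11, 12, 13, 14, 15, 16, 17, 18, 19]
  · exact h.inner_highA2 w0 hl h' w0' hi e
  · exfalso
    have h3 : ∃ j', (j, j') ∈ [(0, 10), (1, 11), (3, 12), (6, 15), (8, 14), (9, 17)] := by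
      simp only [List.mem_cons, List.not_mem_nil, or_false, not_or] at hl
      have : j = 0 ∨ j = 1 ∨ j = 3 ∨ j = 6 ∨ j = 8 ∨ j = 9 := by omega
      rcases this with rfl | rfl | rfl | rfl | rfl | rfl
      · exact ⟨10, by simp⟩
      · exact ⟨11, by simp⟩
      · exact ⟨12, by simp⟩
      · exact ⟨15, by simp⟩
      · exact ⟨14, by simp⟩
      · exact ⟨17, by simp⟩
    obtain ⟨j', h5⟩ := h3
    rw [← h.link w0 h5] at e
    refine h.inner_lowA2 w0 h5 h' w0' (j := i) ?_ (TT.injective e).symm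
    simp only [List.mem_cons, List.not_mem_nil, or_false] at hi ⊢
    omega

/-- right inner words, words of the window -/
theorem NodeM.rinner_G2 (h : NodeM k q R B S) (w0 : X k) {i : ℕ} (hi : i ∈ [0, 1, 3, 6, 8, 9])
    {a : ℕ} {B1 s B' : BinaryTree Unit} (h' : NodeG k 0 B1 (lv2 (a + 1) (lv 1 .nil)) s B')
    (w0' : X k) {j : ℕ} (hj : j < 20) :
    TT (H1.wX R B S q w0 i) ≠ gX 0 B1 (lv2 (a + 1) (lv 1 .nil)) s B' w0' j := by
  intro e
  by_cases hl : j ∈ [0, 1, 2, 3, 4, 5, 6, 7, 8, 9, 13, 16, 18, 19]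
  · exact h.rinner_lowA2 w0 hi h' w0' hl e
  · have h3 : ∃ j' ∈ [0, 1, 3, 6, 8, 9],
        (j', j) ∈ [(0, 10), (1, 11), (3, 12), (6, 15), (8, 14), (9, 17)] := by
      simp only [List.mem_cons, List.not_mem_nil, or_false, not_or] at hl
      have : j = 10 ∨ j = 11 ∨ j = 12 ∨ j = 14 ∨ j = 15 ∨ j = 17 := by omega
      rcases this with rfl | rfl | rfl | rfl | rfl | rfl
      · exact ⟨0, by simp, by simp⟩
      · exact ⟨1, by simp, by simp⟩
      · exact ⟨3, by simp, by simp⟩
      · exact ⟨8, by simp, by simp⟩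
      · exact ⟨6, by simp, by simp⟩
      · exact ⟨9, by simp, by simp⟩
    obtain ⟨j', h4, h5⟩ := h3
    rw [← h'.link w0' h5] at e
    have h6 := h.rinner_lowR2 w0 (j := i) (by
      simp only [List.mem_cons, List.not_mem_nil, or_false] at hi ⊢
      omega) h' w0' h4 (TT.injective e).symm
    simp only [List.mem_cons, List.not_mem_nil, or_false] at hi
    omega

/-- inner words of the window, right words -/
theorem NodeM.rinner_G2' (h : NodeM k q R B S) (w0 : X k) {j : ℕ} (hj : j < 20)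
    {a : ℕ} {B1 s B' : BinaryTree Unit} (h' : NodeG k 0 B1 (lv2 (a + 1) (lv 1 .nil)) s B')
    (w0' : X k) {i : ℕ} (hi : i ∈ [0, 1, 3, 6, 8, 9])
    (e : TT (gX 0 B1 (lv2 (a + 1) (lv 1 .nil)) s B' w0' i) = H1.wX R B S q w0 j) : i = 0 ∧ j = 13 := by
  by_cases hl : j ∈ [0, 1, 2, 3, 4, 5, 6, 7, 8, 9, 13, 16, 18, 19]
  · exact h.rinner_lowR2 w0 hl h' w0' hi e
  · exfalso
    have h3 : ∃ j' ∈ [0, 1, 3, 6, 8, 9],
        (j', j) ∈ [(0, 10), (1, 11), (3, 12), (6, 15), (8, 14), (9, 17)] := by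
      simp only [List.mem_cons, List.not_mem_nil, or_false, not_or] at hl
      have : j = 10 ∨ j = 11 ∨ j = 12 ∨ j = 14 ∨ j = 15 ∨ j = 17 := by omega
      rcases this with rfl | rfl | rfl | rfl | rfl | rfl
      · exact ⟨0, by simp, by simp⟩
      · exact ⟨1, by simp, by simp⟩
      · exact ⟨3, by simp, by simp⟩
      · exact ⟨8, by simp, by simp⟩
      · exact ⟨6, by simp, by simp⟩
      · exact ⟨9, by simp, by simp⟩
    obtain ⟨j', h4, h5⟩ := h3
    rw [← wX_link h.dat h.size w0 h5] at e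
    refine h.rinner_lowA2 w0 h4 h' w0' (j := i) ?_ (TT.injective e).symm
    simp only [List.mem_cons, List.not_mem_nil, or_false] at hi ⊢
    omega

end HM

open HM Equiv Pool.Agent.Work.MP_8f87b2_co

variable {k : ℕ} {F F' : Set (Cyc k)} {g g' : DG k}

/-- TYPE A with `q = 0` and `H = (())^(a+1) ()` -/
def TyAq (F : Set (Cyc k)) (g : DG k) : Prop :=
  ∃ (a : ℕ) (B1 s B : BinaryTree Unit) (w0 : X k), H1.NodeG k 0 B1 (lv2 (a + 1) (lv 1 .nil)) s B ∧
    F = {cyc (H1.gX 0 B1 (lv2 (a + 1) (lv 1 .nil)) s B w0 0)} ∧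
    g = gad20 (H1.gX 0 B1 (lv2 (a + 1) (lv 1 .nil)) s B w0)

theorem TyAq.toA (h : TyAq F g) : TyA F g := by
  obtain ⟨a, B1, s, B, w0, h1, h2, h3⟩ := h
  exact ⟨0, B1, _, s, B, w0, h1, h2, h3⟩

theorem TyAq.words (h : TyAq F g) : ∀ w ∈ g.B, ∃ (a : ℕ) (B1 s B : BinaryTree Unit) (w0 : X k) (j : ℕ),
    H1.NodeG k 0 B1 (lv2 (a + 1) (lv 1 .nil)) s B ∧ j < 20 ∧
      w = H1.gX 0 B1 (lv2 (a + 1) (lv 1 .nil)) s B w0 j := by
  obtain ⟨a, B1, s, B, w0, h1, rfl, rfl⟩ := h
  intro w hw
  obtain ⟨j, hj, e⟩ := mem_gad20.1 hw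
  exact ⟨a, B1, s, B, w0, j, h1, hj, e.symm⟩

theorem TyAq.inn (h : TyAq F g) : ∀ p ∈ g.arcs, ∃ (a : ℕ) (B1 s B : BinaryTree Unit) (w0 : X k) (i : ℕ),
    H1.NodeG k 0 B1 (lv2 (a + 1) (lv 1 .nil)) s B ∧ i ∈ [0, 1, 3, 6, 8, 9] ∧
      p.1 = H1.gX 0 B1 (lv2 (a + 1) (lv 1 .nil)) s B w0 i ∧
      cyc (H1.gX 0 B1 (lv2 (a + 1) (lv 1 .nil)) s B w0 0) ∈ F := by
  obtain ⟨a, B1, s, B, w0, h1, rfl, rfl⟩ := h
  intro p hp
  have hp' : p = (H1.gX 0 B1 (lv2 (a + 1) (lv 1 .nil)) s B w0 0, _) ∨
      p = (H1.gX 0 B1 (lv2 (a + 1) (lv 1 .nil)) s B w0 1, _) ∨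
      p = (H1.gX 0 B1 (lv2 (a + 1) (lv 1 .nil)) s B w0 3, _) ∨
      p = (H1.gX 0 B1 (lv2 (a + 1) (lv 1 .nil)) s B w0 6, _) ∨
      p = (H1.gX 0 B1 (lv2 (a + 1) (lv 1 .nil)) s B w0 8, _) ∨
      p = (H1.gX 0 B1 (lv2 (a + 1) (lv 1 .nil)) s B w0 9, _) := hp
  rcases hp' with rfl | rfl | rfl | rfl | rfl | rfl
  · exact ⟨a, B1, s, B, w0, 0, h1, by simp, rfl, rfl⟩
  · exact ⟨a, B1, s, B, w0, 1, h1, by simp, rfl, rfl⟩
  · exact ⟨a, B1, s, B, w0, 3, h1, by simp, rfl, rfl⟩
  · exact ⟨a, B1, s, B, w0, 6, h1, by simp, rfl, rfl⟩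
  · exact ⟨a, B1, s, B, w0, 8, h1, by simp, rfl, rfl⟩
  · exact ⟨a, B1, s, B, w0, 9, h1, by simp, rfl, rfl⟩

/-- words -/
theorem HM.dis_Aq {q a j i : ℕ} {R B S B1 s B' : BinaryTree Unit} {w0 w0' : X k} (h1 : NodeM k q R B S)
    (h1' : H1.NodeG k 0 B1 (lv2 (a + 1) (lv 1 .nil)) s B') (hj : j < 20) (hi : i < 20)
    (e : mX R B S q w0 j = H1.gX 0 B1 (lv2 (a + 1) (lv 1 .nil)) s B' w0' i) : False := by
  have e0 : H1.gX 0 B1 (lv2 (a + 1) (lv 1 .nil)) s B' w0' i =
      H1.gX 0 B1 (lv2 (a + 1) (lv 1 .nil)) s B' w0 i := by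
    apply Subtype.ext
    rw [h1'.word w0' hi, h1'.word w0 hi]
  rw [e0] at e
  rcases Nat.eq_zero_or_pos q with hq | hq
  · subst hq
    exact h1.disjG h1' Hok_zero w0 hi hj e.symm
  · exact h1.disjG2 h1' hq w0 hi hj e.symm

/-- **disjointness A0 - Aq** -/
theorem TyA0.disAq (h : TyA0 F g) (h' : TyAq F' g') : ∀ w ∈ g.B, w ∉ g'.B := by
  intro w hw hw'
  obtain ⟨q, R, B, S, w0, j, h1, hj, e1, -⟩ := h.words60 w hw
  obtain ⟨a, B1, s, B', w0', i, h1', hi, e2⟩ := h'.words w hw'
  exact dis_Aq h1 h1' hj hi (e1.symm.trans e2)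

/-- **disjointness B0 - Aq** -/
theorem TyB0.disAq (h : TyB0 F g) (h' : TyAq F' g') : ∀ w ∈ g.B, w ∉ g'.B := by
  intro w hw hw'
  obtain ⟨q, R, B, S, w0, j, h1, hj, e1, -⟩ := h.words60 w hw
  obtain ⟨a, B1, s, B', w0', i, h1', hi, e2⟩ := h'.words w hw'
  exact dis_Aq h1 h1' hj hi (e1.symm.trans e2)

theorem TyA0.inner_Aq (h : TyA0 F g) (h' : TyAq F' g') : ∀ p ∈ g.arcs, ∀ w ∈ innA p, w ∉ g'.B := by
  intro p hp w hw hw'
  obtain ⟨q, R, B, S, w0, i, i', h1, hi, e1, -⟩ := h.inn60 p hp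
  obtain ⟨a, B1, s, B', w0', j, h1', hj, e2⟩ := h'.words w hw'
  have hw2 : w = TT p.1 := hw
  rw [e1] at hw2
  exact h1.inner_G2 w0 hi h1' w0' hj (hw2.symm.trans e2)

theorem TyB0.inner_Aq (h : TyB0 F g) (h' : TyAq F' g') : ∀ p ∈ g.arcs, ∀ w ∈ innA p, w ∉ g'.B := by
  intro p hp w hw hw'
  obtain ⟨q, R, B, S, w0, i, i', h1, hi, e1, -⟩ := h.inn60 p hp
  obtain ⟨a, B1, s, B', w0', j, h1', hj, e2⟩ := h'.words w hw'
  have hw2 : w = TT p.1 := hw
  rw [e1] at hw2
  refine h1.inner_G2 w0 (i := i) (i' := i') ?_ h1' w0' hj (hw2.symm.trans e2)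
  simp only [List.mem_cons, List.not_mem_nil, or_false, Prod.mk.injEq] at hi ⊢
  omega

theorem TyR3.inner_Aq (h : TyR3 F g) (h' : TyAq F' g') : ∀ p ∈ g.arcs, ∀ w ∈ innA p, w ∉ g'.B := by
  intro p hp w hw hw'
  obtain ⟨R, B, S, w0, i, h1, -, -, hi, e1, -⟩ := h.inn p hp
  obtain ⟨a, B1, s, B', w0', j, h1', hj, e2⟩ := h'.words w hw'
  have hw2 : w = TT p.1 := hw
  rw [e1] at hw2
  exact h1.rinner_G2 w0 hi h1' w0' hj (hw2.symm.trans e2)

theorem TyS3.inner_Aq (h : TyS3 F g) (h' : TyAq F' g') : ∀ p ∈ g.arcs, ∀ w ∈ innA p, w ∉ g'.B := by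
  intro p hp w hw hw'
  obtain ⟨R, B, S, w0, i, h1, -, hi, e1, -⟩ := h.inn p hp
  obtain ⟨a, B1, s, B', w0', j, h1', hj, e2⟩ := h'.words w hw'
  have hw2 : w = TT p.1 := hw
  rw [e1] at hw2
  refine h1.rinner_G2 w0 (i := i) ?_ h1' w0' hj (hw2.symm.trans e2)
  simp only [List.mem_cons, List.not_mem_nil, or_false] at hi ⊢
  omega

theorem HM.cyc_T0 {w v z : X k} (h : w = TT v) (hv : v = z) : cyc w = cyc z := by
  subst hv
  rw [h]
  have h1 : (TT : Perm (X k)).SameCycle v (TT v) := ⟨1, by simp⟩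
  exact cyc_eq.2 h1.symm

/-- inner words of Aq: only `T` of the word 0, which lies on the new T-cycle -/
theorem TyAq.inner_A0 (h : TyAq F g) (h' : TyA0 F' g') :
    ∀ p ∈ g.arcs, ∀ w ∈ innA p, w ∈ g'.B → cyc w ∈ F := by
  intro p hp w hw hw'
  obtain ⟨a, B1, s, B', w0', i, h1', hi, e2, hm⟩ := h.inn p hp
  obtain ⟨q, R, B, S, w0, j, h1, hj, e1, -⟩ := h'.words60 w hw'
  have hw2 : w = TT p.1 := hw
  have hw3 := hw2
  rw [e2] at hw3
  obtain ⟨rfl, -⟩ := h1.inner_G2' w0 hj h1' w0' hi (hw3.symm.trans e1)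
  rw [cyc_T0 hw2 e2]
  exact hm

theorem TyAq.inner_B0 (h : TyAq F g) (h' : TyB0 F' g') :
    ∀ p ∈ g.arcs, ∀ w ∈ innA p, w ∈ g'.B → cyc w ∈ F := by
  intro p hp w hw hw'
  obtain ⟨a, B1, s, B', w0', i, h1', hi, e2, hm⟩ := h.inn p hp
  obtain ⟨q, R, B, S, w0, j, h1, hj, e1, -⟩ := h'.words60 w hw'
  have hw2 : w = TT p.1 := hw
  have hw3 := hw2
  rw [e2] at hw3
  obtain ⟨rfl, -⟩ := h1.inner_G2' w0 hj h1' w0' hi (hw3.symm.trans e1)
  rw [cyc_T0 hw2 e2]
  exact hm

theorem TyAq.inner_R3 (h : TyAq F g) (h' : TyR3 F' g') :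
    ∀ p ∈ g.arcs, ∀ w ∈ innA p, w ∈ g'.B → cyc w ∈ F := by
  intro p hp w hw hw'
  obtain ⟨a, B1, s, B', w0', i, h1', hi, e2, hm⟩ := h.inn p hp
  obtain ⟨R, B, S, w0, j, h1, -, -, hj, e1, -⟩ := h'.words w hw'
  have hw2 : w = TT p.1 := hw
  have hw3 := hw2
  rw [e2] at hw3
  obtain ⟨rfl, -⟩ := h1.rinner_G2' w0 hj h1' w0' hi (hw3.symm.trans e1)
  rw [cyc_T0 hw2 e2]
  exact hm

theorem TyAq.inner_S3 (h : TyAq F g) (h' : TyS3 F' g') :
    ∀ p ∈ g.arcs, ∀ w ∈ innA p, w ∈ g'.B → cyc w ∈ F := by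
  intro p hp w hw hw'
  obtain ⟨a, B1, s, B', w0', i, h1', hi, e2, hm⟩ := h.inn p hp
  obtain ⟨R, B, S, w0, j, h1, -, hj, -, e1, -⟩ := h'.words w hw'
  have hw2 : w = TT p.1 := hw
  have hw3 := hw2
  rw [e2] at hw3
  obtain ⟨rfl, -⟩ := h1.rinner_G2' w0 hj h1' w0' hi (hw3.symm.trans e1)
  rw [cyc_T0 hw2 e2]
  exact hm

end Pool.OddHC
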