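import Pool.Agent.Work.MP_8f87b2_h60.InAp

/-!
# MP_8f87b2_co: rows I-A-A0, I-A-B0, I-A0-A, I-B0-A

`TyAp`: TYPE A with `H = lv m (lv2 a .nil)`, `1 ≤ m`, `1 ≤ a ∨ m = 1`.
-/

set_option autoImplicit false
set_option linter.unusedSimpArgs false

namespace Pool.OddHC

namespace HM

open BinaryTree H1 List

variable {k q : ℕ} {R B S : BinaryTree Unit} {B1 H s : BinaryTree Unit}

/-- what is used of the mirrored inner word of a window with beads -/
structure Inn (a n : ℕ) (A : List ℕ) (x : ℕ) (T : List ℕ) : Prop where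
  odd : Odd A.length
  head : Ge 3 A ∨ ∃ y, A = [y] ∧ 2 ≤ y ∧ (y = 2 → 4 ≤ x → ¬ Ge 4 T)
  hx : 2 ≤ x
  len : 3 ≤ T.length
  pos : Ge 1 T
  last : ∃ T' z, T = T' ++ [z] ∧ 3 ≤ z
  even : Even (A ++ (List.replicate (2 * a) 2 ++ (List.replicate (2 * n + 1) 1 ++ (x :: T)))).length

/-- **the runs of the mirrored inner words of a window with beads** -/
theorem NodeG.runsM {n a : ℕ} (h : NodeG k q B1 (lv (n + 1) (lv2 a .nil)) s B) (w0 : X k) {i : ℕ}
    (hi : i ∈ [0, 1, 3, 6, 8, 9]) : ∃ (A : List ℕ) (x : ℕ) (T : List ℕ), Inn a n A x T ∧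
      wd (Tsq.mirX (TT (gX q B1 (lv (n + 1) (lv2 a .nil)) s B w0 i))).1 =
        ex true (A ++ (List.replicate (2 * a) 2 ++ (List.replicate (2 * n + 1) 1 ++ (x :: T)))) := by
  have hi20 : i < 20 := by
    simp only [List.mem_cons, List.not_mem_nil, or_false] at hi
    omega
  have hs3 : 3 ≤ Tsq.ht s := by rw [H1.ht_eq]; exact h.hs3
  have hRs : Tsq.ht (gR B1 (lv (n + 1) (lv2 a .nil)) s B) = Tsq.ht s + 1 := by
    rw [H1.ht_eq, H1.ht_eq]; exact h.ht
  have hbig : q + 3 ≤ Tsq.ht s + 1 := by rw [H1.ht_eq]; exact h.big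
  have hw := inn_gen (NodeG.gR_ne h) h.sq.1 (by rw [hRs]; exact hbig) (gX q B1 (lv (n + 1) (lv2 a .nil)) s B w0 i)
    hi (by rw [NodeG.word h w0 hi20, ch_eq])
  obtain ⟨ha, hc⟩ := NodeG.acR h
  rw [ha, hc] at hw
  -- the part `Z`
  obtain ⟨z, l, c1, c2, c3, c4, c5⟩ := cc_runs (c := 3) (by norm_num) s h.s0 (cont_of_hv h.hs)
  have hBs : ∀ x ∈ cont (Tsq.sq s).2, 3 ≤ x := by
    intro x hx
    apply cont_of_hv h.hs
    rw [← sq_cont h.s0]
    exact Multiset.mem_add.2 (Or.inl hx)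
  obtain ⟨rs, d1, d2, d3, _⟩ := hv_runs (c := 3) (by norm_num) _ hBs
  obtain ⟨rB, b1, b2, b3, _⟩ := hv_runs (c := 3) (by norm_num) B (cont_of_hv h.hB)
  have hz : 3 ≤ z + 1 := by
    by_cases hl : l = []
    · have := c4 hl; omega
    · have := c5 hl; omega
  have o1 : Odd (l ++ [z + 1]).length := by
    rw [List.length_append, List.length_singleton]
    exact c2.add_one
  have Z1 : co (H1.cc s ++ false :: wd (Tsq.sq s).2) = ex true ((l ++ [z + 1]) ++ rs) := by
    rw [co_app, co_cons, c1, d1, ex_co, ex_co, ex_odd o1]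
    exact ex_last c2 true z _
  have o2 : Odd ((l ++ [z + 1]) ++ rs).length := by
    rw [List.length_append]
    exact o1.add_even d2
  have gU : Ge 3 ((l ++ [z + 1]) ++ rs) := by
    intro y hy
    rw [List.mem_append, List.mem_append, List.mem_singleton] at hy
    rcases hy with (hy | rfl) | hy
    · exact c3 y hy
    · exact hz
    · exact d3 y hy
  obtain ⟨U, u, hU⟩ := exists_snoc (l := (l ++ [z + 1]) ++ rs) (by simp)
  rw [hU] at o2 gU Z1
  have eU : Even U.length := by
    rw [List.length_append, List.length_singleton] at o2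
    by_contra h5
    rw [Nat.not_even_iff_odd] at h5
    exact (Nat.not_odd_iff_even.2 h5.add_one) o2
  have Z2 : co (H1.cc s ++ false :: wd (Tsq.sq s).2) ++ true :: co (wd B) =
      ex true ((U ++ [u + 1]) ++ rB) := by
    have o3 : Odd (U ++ [u + 1]).length := by simpa using o2
    rw [Z1, b1, ex_co, ex_odd o3]
    exact ex_last eU true u _
  have o4 : Odd ((U ++ [u + 1]) ++ rB).length := by
    rw [List.length_append]
    exact (show Odd (U ++ [u + 1]).length by simpa using o2).add_even b2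
  have gV : Ge 3 ((U ++ [u + 1]) ++ rB) := by
    intro y hy
    rw [List.mem_append] at hy
    rcases hy with hy | hy
    · exact ge_snoc gU 1 y hy
    · exact b3 y hy
  obtain ⟨V, v, hV⟩ := exists_snoc (l := (U ++ [u + 1]) ++ rB) (by simp)
  rw [hV] at o4 gV Z2
  have eV : Even V.length := by
    rw [List.length_append, List.length_singleton] at o4
    by_contra h5
    rw [Nat.not_even_iff_odd] at h5
    exact (Nat.not_odd_iff_even.2 h5.add_one) o4
  -- the part `Y`
  obtain ⟨y, t, e1, e2, e3, e4, e5⟩ := aa_runs (c := 3) (by norm_num) s h.s0 (cont_of_hv h.hs)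
  obtain ⟨p, x, g1, g2, g3, g4⟩ := bead_gen h.h1 n a 1
  have Y1 : false :: co (wd B1 ++ true :: (wd (lv (n + 1) (lv2 a .nil)) ++ aa s)) =
      ex false (p ++ (x :: (List.replicate (2 * n + 1) 1 ++ (List.replicate (2 * a) 2 ++ (y :: t))))) := by
    have := congrArg co (g1 (y :: t))
    rw [ex_co, ← e1] at this
    exact this
  rw [Z2, Y1] at hw
  have hA : Ge 3 (y :: t).reverse ∨ ∃ y', (y :: t).reverse = [y'] ∧ y' + 1 = Tsq.ht s := by
    by_cases ht : t = []
    · subst ht
      exact Or.inr ⟨y, rfl, e4 rfl⟩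
    · left
      intro w hw
      rw [List.mem_reverse, List.mem_cons] at hw
      rcases hw with rfl | hw
      · exact e5 ht
      · exact e3 w hw
  have oA : Odd (y :: t).reverse.length := by
    rw [List.length_reverse, List.length_cons]
    exact e2.add_one
  obtain ⟨m1, m2, m3⟩ := mr_rev (q := q) hi
  have m4 : 2 ≤ (mr q (sg i)).length := by
    simp only [List.mem_cons, List.not_mem_nil, or_false] at hi
    rcases hi with rfl | rfl | rfl | rfl | rfl | rfl <;> simp [mr, sg]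
  have m5 : Ge 1 (mr q (sg i)) := by
    intro w hw
    have h1 : Ge (q + 3) ([] : List ℕ) := fun _ h => absurd h List.not_mem_nil
    exact ge_mid (q := q) m2 h1 h1 w (by simpa using hw)
  -- the increments
  obtain ⟨p', x', j1, j2, j3, j4⟩ : ∃ (p' : List ℕ) (x' : ℕ),
      ex true (V ++ [v]) ++ (midM q i ++ ex false (p ++ (x :: (List.replicate (2 * n + 1) 1 ++
        (List.replicate (2 * a) 2 ++ (y :: t)))))) =
      ex true ((V ++ [v + ez i]) ++ (mr q i ++ (p' ++ (x' :: (List.replicate (2 * n + 1) 1 ++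
        (List.replicate (2 * a) 2 ++ (y :: t))))))) ∧ Even p'.length ∧ Ge 3 p' ∧
      ((x' = 2) ∨ (p' = [] ∧ x' = 3 + ei i)) := by
    cases p with
    | nil =>
      rcases g4 with ⟨_, g4⟩ | ⟨_, g4⟩
      · exact absurd rfl g4
      · refine ⟨[], x + ei i, ?_, by simp, fun _ h => absurd h List.not_mem_nil, Or.inr ⟨rfl, by omega⟩⟩
        rw [List.nil_append, runs_gen hi eV]
        rfl
    | cons w p =>
      rcases g4 with ⟨g4, _⟩ | ⟨g4, _⟩
      · refine ⟨(w + ei i) :: p, x, ?_, by simpa using g2, ge_cons g3 _, Or.inl g4⟩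
        rw [List.cons_append, runs_gen hi eV]
        rfl
      · cases g4
  rw [j1] at hw
  have eL : Even ((V ++ [v + ez i]) ++ (mr q i ++ (p' ++ (x' :: (List.replicate (2 * n + 1) 1 ++
      (List.replicate (2 * a) 2 ++ (y :: t))))))).length := by
    have k1 : Odd (V ++ [v + ez i]).length := by simpa using o4
    have k2 : Odd (x' :: (List.replicate (2 * n + 1) 1 ++
      (List.replicate (2 * a) 2 ++ (y :: t)))).length := by
      rw [List.length_cons, List.length_append, List.length_append, List.length_replicate,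
        List.length_replicate, List.length_cons]
      obtain ⟨c, hc⟩ := e2
      exact ⟨n + a + c + 1, by omega⟩
    rw [List.length_append (as := V ++ [v + ez i]), List.length_append (as := mr q i),
      List.length_append (as := p')]
    exact k1.add_odd (m3.add_odd (j2.add_odd k2))
  have hm := mir_ex hw eL
  have rv : ((V ++ [v + ez i]) ++ (mr q i ++ (p' ++ (x' :: (List.replicate (2 * n + 1) 1 ++
      (List.replicate (2 * a) 2 ++ (y :: t))))))).reverse =
      (y :: t).reverse ++ (List.replicate (2 * a) 2 ++ (List.replicate (2 * n + 1) 1 ++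
        (x' :: (p'.reverse ++ (mr q (sg i) ++ (V ++ [v + ez i]).reverse))))) := by
    rw [List.reverse_append, List.reverse_append, m1, List.reverse_append, List.reverse_cons,
      List.reverse_append, List.reverse_append, List.reverse_replicate, List.reverse_replicate]
    simp only [List.append_assoc, List.singleton_append, List.cons_append, List.nil_append]
  rw [rv] at hm
  have gW : Ge 3 (V ++ [v + ez i]).reverse := ge_rev (ge_snoc gV _)
  have oW : Odd (V ++ [v + ez i]).reverse.length := by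
    rw [List.length_reverse]; simpa using o4
  refine ⟨(y :: t).reverse, x', p'.reverse ++ (mr q (sg i) ++ (V ++ [v + ez i]).reverse),
    ⟨oA, ?_, ?_, ?_, ?_, ?_, ?_⟩, hm⟩
  · rcases hA with hA | ⟨y', hA, hy⟩
    · exact Or.inl hA
    · refine Or.inr ⟨y', hA, by omega, ?_⟩
      intro hy2 hx4 hT
      have hq : q ≤ 1 := by omega
      rcases j4 with j4 | ⟨_, j4⟩
      · omega
      · have hm4 : Ge 4 (mr q (sg i)) := fun w hw => hT w (by simp [hw])
        simp only [List.mem_cons, List.not_mem_nil, or_false] at hi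
        rcases hi with rfl | rfl | rfl | rfl | rfl | rfl
        · simp [ei] at j4; omega
        · simp [ei] at j4; omega
        · have := hm4 1 (by simp [mr, sg]); omega
        · have := hm4 (q + 2) (by simp [mr, sg]); omega
        · simp [ei] at j4; omega
        · have := hm4 (q + 1) (by simp [mr, sg]); omega
  · rcases j4 with j4 | ⟨_, j4⟩ <;> omega
  · rw [List.length_append, List.length_append]
    obtain ⟨c, hc⟩ := oW
    omega
  · intro w hw
    rw [List.mem_append, List.mem_append, List.mem_reverse] at hw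
    rcases hw with hw | hw | hw
    · have := j3 w hw; omega
    · exact m5 w hw
    · have := gW w hw; omega
  · obtain ⟨W, w, hW⟩ := exists_snoc (l := (V ++ [v + ez i]).reverse) (by simp)
    refine ⟨p'.reverse ++ (mr q (sg i) ++ W), w, ?_, ?_⟩
    · rw [hW]; simp
    · exact gW w (by rw [hW]; simp)
  · rw [← rv, List.length_reverse]
    exact eL

/-- **the forms of the words `2, 4, 5, 7, 10 .. 19` of a bare window** -/
theorem NodeM.form2 (h : NodeM k q R B S) {j : ℕ}
    (hj : j ∈ [2, 4, 5, 7, 10, 11, 12, 13, 14, 15, 16, 17, 18, 19]) :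
    (∃ r N : List ℕ, Ge 3 r ∧ N.length ≤ 4 ∧ Ge 1 N ∧ wd (W R (pc (q + 1)) B S j) = ex true (r ++ N)) ∨
    (∃ N r : List ℕ, N ∈ NQ q ∧ Ge (q + 3) r ∧ wd (W R (pc (q + 1)) B S j) = ex true (N ++ r)) ∨
    (∃ u, wd (W R (pc (q + 1)) B S j) = true :: false :: u) ∨
    (∃ u, wd (W R (pc (q + 1)) B S j) = u ++ [true, false]) ∨
    (∃ b r : List ℕ, Even b.length ∧ Ge 3 b ∧ Ge 1 r ∧ wd (W R (pc (q + 1)) B S j) = ex true (b ++ (1 :: r))) := by
  have hc : 2 ≤ q + 3 := by omega
  have hR := h.ne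
  have hSn : S ≠ .nil := by
    rintro rfl
    have h1 := h.dat.htS
    have h2 := h.top
    rw [ht] at h1
    omega
  have hB : ∀ x ∈ cont B, q + 3 ≤ x := by
    intro x hx
    apply h.part
    rw [← h.eq]
    exact Multiset.mem_add.2 (Or.inl hx)
  have hS : ∀ x ∈ cont S, q + 3 ≤ x := by
    intro x hx
    apply h.part
    rw [← h.eq]
    exact Multiset.mem_add.2 (Or.inr hx)
  obtain ⟨⟨r0, a1, a2, a3, a4⟩, _, ⟨r2, c1, c2, c3, c4⟩, _, _, _⟩ := runs_of hc hR h.part
  obtain ⟨⟨s0, g1, g2, g3, g4⟩, ⟨s1, k1, k2, k3, k4⟩, ⟨s2, n1, n2, n3, n4⟩, ⟨s3, o1, o2, o3, o4⟩, _, _⟩ :=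
    runs_of hc hSn hS
  obtain ⟨rB, b1, b2, b3, _⟩ := hv_runs hc B hB
  have to3 : ∀ {l : List ℕ}, Ge (q + 3) l → Ge 3 l := fun h x hx => by
    have := h x hx; omega
  have ap : ∀ {c : ℕ} {l l' : List ℕ}, Ge c l → Ge c l' → Ge c (l ++ l') := by
    intro c l l' h1 h2 x hx
    rcases List.mem_append.1 hx with hx | hx
    · exact h1 x hx
    · exact h2 x hx
  simp only [List.mem_cons, List.not_mem_nil, or_false] at hj
  rcases hj with rfl | rfl | rfl | rfl | rfl | rfl | rfl | rfl | rfl | rfl | rfl | rfl | rfl | rfl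
  · -- 2
    right; right; left
    exact ⟨_, rfl⟩
  · -- 4
    right; left
    refine ⟨[q + 2, q + 1, 1, 2], r0, by simp [NQ], a3, ?_⟩
    change wd (app (pc (q + 1)) (.nil △ .nil) △ R) = _
    rw [wd_node, wd_app, wd_node, wd_q, a4]
    simp [ex, wd, rep1, List.replicate_succ]
  · -- 5
    right; left
    refine ⟨[q + 2, q + 2, 1, 1], r0, by simp [NQ], a3, ?_⟩
    change wd (pc (q + 1) △ (.nil △ R)) = _
    rw [wd_node, wd_node, wd_q, a4]
    simp [ex, wd, rep1, List.replicate_succ]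
  · -- 7
    right; left
    refine ⟨[q + 1, q + 1, 2, 1], r2, by simp [NQ], c3, ?_⟩
    change wd (app (pc (q + 1)) ((.nil △ R) △ .nil)) = _
    rw [wd_app, wd_node, wd_node, wd_q]
    have := c4 []
    rw [List.append_nil] at this
    simp [ex, wd, ← this]
  · -- 10
    left
    refine ⟨rB ++ ([q + 3, q + 3] ++ s0), [], ap (to3 b3) (ap (by intro x hx; simp at hx; omega) (to3 g3)),
      by simp, fun _ h => absurd h List.not_mem_nil, ?_⟩
    change wd (app B ((pc (q + 1) △ .nil) △ S)) = _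
    rw [wd_app, wd_node, wd_node, wd_q, b1, g4, List.append_nil, ex_even b2]
    simp [ex, wd, rep1, List.replicate_succ]
  · -- 11
    right; right; right; right
    refine ⟨rB, [1, q + 1, q + 1, 1, 1] ++ s0, b2, to3 b3, ?_, ?_⟩
    · intro x hx
      rcases List.mem_append.1 hx with hx | hx
      · simp at hx; omega
      · have := g3 x hx; omega
    · change wd (app B (.nil △ app (pc (q + 1)) (.nil △ S))) = _
      rw [wd_app, wd_node, wd_app, wd_node, wd_q, b1, g4, ex_even b2]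
      simp [ex, wd]
  · -- 12
    left
    refine ⟨s3 ++ rB, [1, 1, q + 1, q + 1], ap (to3 o3) (to3 b3), by simp, by intro x hx; simp at hx; omega, ?_⟩
    change wd (S △ app B (.nil △ pc (q + 1))) = _
    rw [wd_node, o4, wd_app, wd_node, wd_q, b1, List.append_assoc, ex_even o2, ex_even b2]
    simp [ex, wd]
  · -- 13
    left
    by_cases hBn : B = .nil
    · subst hBn
      refine ⟨s0, [2, 1, q + 1, q + 2], to3 g3, by simp, by intro x hx; simp at hx; omega, ?_⟩
      change wd (app S (app .nil (.nil △ pc (q + 1)) △ .nil)) = _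
      rw [wd_app, wd_node, app, wd_node, wd_q, g4, ex_even g2]
      simp [ex, wd, rep1, List.replicate_succ]
    · obtain ⟨_, ⟨t1, l1, l2, l3, l4⟩, _, _, _, _⟩ := runs_of hc hBn hB
      refine ⟨s0 ++ t1, [1, 1, q + 1, q + 2], ap (to3 g3) (to3 l3), by simp,
        by intro x hx; simp at hx; omega, ?_⟩
      change wd (app S (app B (.nil △ pc (q + 1)) △ .nil)) = _
      rw [wd_app, wd_node, wd_app, wd_node, wd_q, g4, List.append_assoc, l4, List.append_assoc,
        ex_even g2, ex_even l2]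
      simp [ex, wd, rep1, List.replicate_succ]
  · -- 14
    right; left
    refine ⟨[q + 2, q + 1, 1, 1], s2 ++ rB, by simp [NQ], ap n3 b3, ?_⟩
    change wd (app (pc (q + 1)) (.nil △ S) △ B) = _
    have e1 : ex true (s2 ++ rB) = wd S ++ false :: wd B := by
      rw [ex_even n2, b1, n4]
    rw [wd_node, wd_app, wd_node, wd_q, ex_even (by simp; decide), e1]
    simp [ex, wd, rep1, List.replicate_succ]
  · -- 15
    right; left
    refine ⟨[q + 2, q + 2], s3 ++ rB, by simp [NQ], ap o3 b3, ?_⟩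
    change wd (pc (q + 1) △ (S △ B)) = _
    have e1 : ex true (s3 ++ rB) = wd (S △ B) := by
      rw [ex_even o2, wd_node, b1, o4]
    rw [wd_node, wd_q, ex_even (by simp), e1]
    simp [ex, wd, rep1, List.replicate_succ]
  · -- 16
    left
    by_cases hBn : B = .nil
    · subst hBn
      refine ⟨s0, [1, 1, q + 2, q + 2], to3 g3, by simp, by intro x hx; simp at hx; omega, ?_⟩
      change wd (app S (.nil △ (pc (q + 1) △ .nil))) = _
      rw [wd_app, wd_node, wd_node, wd_q, g4, ex_even g2]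
      simp [ex, wd, rep1, List.replicate_succ]
    · obtain ⟨_, _, _, ⟨t3, l1, l2, l3, l4⟩, _, _⟩ := runs_of hc hBn hB
      refine ⟨s0 ++ t3, [q + 2, q + 2], ap (to3 g3) (to3 l3), by simp, by intro x hx; simp at hx; omega, ?_⟩
      change wd (app S (B △ (pc (q + 1) △ .nil))) = _
      rw [wd_app, wd_node, wd_node, wd_q, g4, l4,
        show s0 ++ t3 ++ [q + 2, q + 2] = s0 ++ (t3 ++ [q + 2, q + 2]) from List.append_assoc _ _ _,
        ex_even g2, ex_even l2]
      simp [ex, wd, rep1, List.replicate_succ]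
  · -- 17
    right; left
    have e1 : wd (S △ B) = ex true (s3 ++ rB) := by
      rw [ex_even o2, wd_node, b1, o4]
    obtain ⟨r', p1, p2, p3, p4⟩ := ex_par (c := q + 3) (r := s3 ++ rB) (by
      rw [List.length_append]; exact o2.add b2) (by simp [o1]) (ap o3 b3)
    refine ⟨[q + 1, q + 1], r', by simp [NQ], p3, ?_⟩
    change wd (app (pc (q + 1)) ((S △ B) △ .nil)) = _
    have e2 := p4 []
    rw [List.append_nil] at e2
    rw [wd_app, wd_node, wd_q, ex_even (show Even [q + 1, q + 1].length by simp) true r', ← e2, ← e1]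
    simp [ex, wd]
  · -- 18
    by_cases hBn : B = .nil
    · subst hBn
      right; right; right; left
      refine ⟨wd (pc (q + 1)) ++ (true :: false :: wd S), ?_⟩
      change wd (app (pc (q + 1)) (.nil △ app S (.nil △ .nil))) = _
      rw [wd_app, wd_node, wd_app, wd_node]
      simp [wd]
    · obtain ⟨_, _, _, ⟨t3, l1, l2, l3, l4⟩, _, _⟩ := runs_of hc hBn hB
      right; left
      refine ⟨[q + 1, q + 1, 1, 1], s0 ++ t3, by simp [NQ], ap g3 l3, ?_⟩
      change wd (app (pc (q + 1)) (.nil △ app S (B △ .nil))) = _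
      have l5 := l4 []
      rw [wd_app, wd_node, wd_app, wd_node, wd_q, g4]
      have e1 := ex_even g2 true t3
      simp [ex, wd] at l5 e1 ⊢
      rw [e1, l5]
  · -- 19
    left
    by_cases hBn : B = .nil
    · subst hBn
      refine ⟨s1, [1, 2, q + 1, q + 1], to3 k3, by simp, by intro x hx; simp at hx; omega, ?_⟩
      change wd (app S (.nil △ .nil) △ pc (q + 1)) = _
      rw [wd_node, wd_app, wd_node, wd_q, List.append_assoc, k4, ex_even k2]
      simp [ex, wd, rep1, List.replicate_succ]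
    · obtain ⟨_, _, _, _, ⟨t4, l1, l2, l3, l4⟩, _⟩ := runs_of hc hBn hB
      refine ⟨s1 ++ t4, [q + 1, q + 1], ap (to3 k3) (to3 l3), by simp, by intro x hx; simp at hx; omega, ?_⟩
      change wd (app S (B △ .nil) △ pc (q + 1)) = _
      rw [wd_node, wd_app, wd_node, wd_q, List.append_assoc, k4, List.append_assoc, ex_even k2,
        ex_even l2]
      have l5 := l4 (ex true [q + 1, q + 1])
      simp [ex, wd] at l5 ⊢
      rw [l5]

/-- **an inner word of a window with beads is not a word of a mirrored bare window** (words `2, 4, 5, 7, 10 .. 19`) -/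
theorem NodeM.inner_highA (h : NodeM k q R B S) (w0 : X k) {j : ℕ}
    (hj : j ∈ [2, 4, 5, 7, 10, 11, 12, 13, 14, 15, 16, 17, 18, 19])
    {q' n a : ℕ} {B1 s B' : BinaryTree Unit} (h' : NodeG k q' B1 (lv (n + 1) (lv2 a .nil)) s B')
    (w0' : X k) (hn : n = 0 ∨ 1 ≤ a) {i : ℕ} (hi : i ∈ [0, 1, 3, 6, 8, 9])
    (e : TT (gX q' B1 (lv (n + 1) (lv2 a .nil)) s B' w0' i) = mX R B S q w0 j) : False := by
  have hj20 : j < 20 := by
    simp only [List.mem_cons, List.not_mem_nil, or_false] at hj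
    omega
  obtain ⟨A, x, T, I, f1⟩ := NodeG.runsM h' w0' hi
  have e1 : Tsq.mirX (TT (gX q' B1 (lv (n + 1) (lv2 a .nil)) s B' w0' i)) = H1.wX R B S q w0 j := by
    rw [e]
    exact mirX_mirX _
  rw [e1, wX_eq h.dat h.size w0 hj20, ch_eq] at f1
  have g0 : Ge 1 A := by
    intro y hy
    rcases I.head with h1 | ⟨z, rfl, h1, _⟩
    · have := h1 y hy; omega
    · simp at hy; omega
  have g6 : Ge 1 (A ++ (List.replicate (2 * a) 2 ++ (List.replicate (2 * n + 1) 1 ++ (x :: T)))) := by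
    intro y hy
    simp only [List.mem_append, List.mem_cons, List.mem_replicate] at hy
    rcases hy with hy | hy | hy | rfl | hy
    · exact g0 y hy
    · omega
    · omega
    · have := I.hx; omega
    · exact I.pos y hy
  rcases h.form2 hj with ⟨r, N, k1, k2, k3, k4⟩ | ⟨N, r, k1, k2, k3⟩ | ⟨u, k1⟩ | ⟨u, k1⟩ | ⟨b, r, k1, k2, k3, k4⟩
  · have gp : Ge 1 (r ++ N) := by
      intro y hy
      rcases List.mem_append.1 hy with hy | hy
      · have := k1 y hy; omega
      · exact k3 y hy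
    have e2 := ex_inj _ _ true g6 gp (by rw [← k4, f1])
    rw [← List.append_assoc] at e2
    exact core_T (T := x :: T) (by rw [List.length_cons]; have := I.len; omega) k1 k2 e2
  · have gp : Ge 1 (N ++ r) := by
      intro y hy
      rcases List.mem_append.1 hy with hy | hy
      · simp only [NQ, List.mem_cons, List.not_mem_nil, or_false] at k1
        rcases k1 with rfl | rfl | rfl | rfl | rfl | rfl | rfl <;> simp at hy <;> omega
      · have := k2 y hy; omega
    have e2 := ex_inj _ _ true g6 gp (by rw [← k3, f1])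
    exact core_H (n := 2 * n) I.odd I.head (by omega) I.hx k1 k2 e2
  · obtain ⟨y, l, rfl⟩ := odd_ne I.odd
    have hy : 2 ≤ y := by
      rcases I.head with h1 | ⟨z, h0, h1, _⟩
      · have := h1 y (by simp); omega
      · simp at h0; omega
    rw [k1] at f1
    exact start_tt (List.cons_append) hy f1.symm
  · obtain ⟨T', z, h1, h2⟩ := I.last
    rw [k1] at f1
    exact end_ff I.even (L' := A ++ (List.replicate (2 * a) 2 ++ (List.replicate (2 * n + 1) 1 ++
      (x :: T')))) (z := z) (by rw [h1]; simp) (by omega) f1.symm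
  · have gp : Ge 1 (b ++ (1 :: r)) := by
      intro y hy
      rcases List.mem_append.1 hy with hy | hy
      · have := k2 y hy; omega
      · rcases List.mem_cons.1 hy with rfl | hy
        · exact le_rfl
        · exact k3 y hy
    have e2 := ex_inj _ _ true g6 gp (by rw [← k4, f1])
    refine core_11 (n := 2 * n) I.odd ?_ k1 k2 e2
    rcases I.head with h1 | ⟨y, h1, h2, _⟩
    · exact Or.inl h1
    · exact Or.inr ⟨y, h1, h2⟩

/-- **an inner word of a bare window is not a word of a window with beads** -/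
theorem NodeM.inner_G (h : NodeM k q R B S) (w0 : X k) {i i' : ℕ}
    (hi : (i, i') ∈ [(0, 10), (1, 11), (3, 12), (6, 15), (8, 14), (9, 17)])
    {q' n a : ℕ} {B1 s B' : BinaryTree Unit} (h' : NodeG k q' B1 (lv (n + 1) (lv2 a .nil)) s B')
    (w0' : X k) (hn : n = 0 ∨ 1 ≤ a) {j : ℕ} (hj : j < 20) :
    TT (mX R B S q w0 i') ≠ gX q' B1 (lv (n + 1) (lv2 a .nil)) s B' w0' j := by
  intro e
  by_cases hl : j ∈ [0, 1, 2, 3, 4, 5, 6, 7, 8, 9, 13, 16, 18, 19]
  · exact h.inner_lowA w0 hi h' w0' hn hl e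
  · have h3 : ∃ j' ∈ [0, 1, 3, 6, 8, 9],
        (j', j) ∈ [(0, 10), (1, 11), (3, 12), (6, 15), (8, 14), (9, 17)] := by
      simp only [List.mem_cons, List.not_mem_nil, or_false, not_or] at hl
      have : j = 10 ∨ j = 11 ∨ j = 12 ∨ j = 14 ∨ j = 15 ∨ j = 17 := by omega
      rcases this with rfl | rfl | rfl | rfl | rfl | rfl
      · exact ⟨0, by simp, by simp⟩
      · exact ⟨1, by simp, by simp⟩
      · exact ⟨3, by simp, by simp⟩
      · exact ⟨8, by simp, by simp⟩
      · exact ⟨6, by simp, by simp⟩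
      · exact ⟨9, by simp, by simp⟩
    obtain ⟨j', h4, h5⟩ := h3
    rw [← h'.link w0' h5] at e
    refine h.inner_highA w0 (j := i') ?_ h' w0' hn h4 (TT.injective e).symm
    simp only [List.mem_cons, List.not_mem_nil, or_false, Prod.mk.injEq] at hi ⊢
    omega

/-- **an inner word of a window with beads is not a word of a bare window** -/
theorem NodeM.inner_G' (h : NodeM k q R B S) (w0 : X k) {j : ℕ} (hj : j < 20)
    {q' n a : ℕ} {B1 s B' : BinaryTree Unit} (h' : NodeG k q' B1 (lv (n + 1) (lv2 a .nil)) s B')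
    (w0' : X k) (hn : n = 0 ∨ 1 ≤ a) {i : ℕ} (hi : i ∈ [0, 1, 3, 6, 8, 9]) :
    TT (gX q' B1 (lv (n + 1) (lv2 a .nil)) s B' w0' i) ≠ mX R B S q w0 j := by
  intro e
  by_cases hl : j ∈ [2, 4, 5, 7, 10, 11, 12, 13, 14, 15, 16, 17, 18, 19]
  · exact h.inner_highA w0 hl h' w0' hn hi e
  · have h3 : ∃ j', (j, j') ∈ [(0, 10), (1, 11), (3, 12), (6, 15), (8, 14), (9, 17)] := by
      simp only [List.mem_cons, List.not_mem_nil, or_false, not_or] at hl
      have : j = 0 ∨ j = 1 ∨ j = 3 ∨ j = 6 ∨ j = 8 ∨ j = 9 := by omega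
      rcases this with rfl | rfl | rfl | rfl | rfl | rfl
      · exact ⟨10, by simp⟩
      · exact ⟨11, by simp⟩
      · exact ⟨12, by simp⟩
      · exact ⟨15, by simp⟩
      · exact ⟨14, by simp⟩
      · exact ⟨17, by simp⟩
    obtain ⟨j', h5⟩ := h3
    rw [← h.link w0 h5] at e
    refine h.inner_lowA w0 h5 h' w0' hn (j := i) ?_ (TT.injective e).symm
    simp only [List.mem_cons, List.not_mem_nil, or_false] at hi ⊢
    omega

end HM

open HM Equiv Pool.Agent.Work.MP_8f87b2_co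

variable {k : ℕ} {F F' : Set (Cyc k)} {g g' : DG k}

/-- TYPE A with beads: `H = ()^(n+1) (())^a`, `n = 0` or `1 ≤ a` -/
def TyAp (F : Set (Cyc k)) (g : DG k) : Prop :=
  ∃ (q n a : ℕ) (B1 s B : BinaryTree Unit) (w0 : X k), H1.NodeG k q B1 (lv (n + 1) (lv2 a .nil)) s B ∧
    (n = 0 ∨ 1 ≤ a) ∧ F = {cyc (H1.gX q B1 (lv (n + 1) (lv2 a .nil)) s B w0 0)} ∧
    g = gad20 (H1.gX q B1 (lv (n + 1) (lv2 a .nil)) s B w0)

theorem TyAp.toA (h : TyAp F g) : TyA F g := by
  obtain ⟨q, n, a, B1, s, B, w0, h1, _, h2, h3⟩ := h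
  exact ⟨q, B1, _, s, B, w0, h1, h2, h3⟩

theorem TyAp.toAo (h : TyAp F g) : TyAo F g := by
  obtain ⟨q, n, a, B1, s, B, w0, h1, hn, h2, h3⟩ := h
  refine ⟨q, B1, _, s, B, w0, h1, fun q' => ?_, h2, h3⟩
  rcases Nat.eq_zero_or_pos a with ha | ha
  · subst ha
    exact Hok_one (by omega) h1.hs (Or.inl (by omega))
  · exact Hok_two ha h1.hs

/-- **row I-A-A0** -/
theorem TyAp.inner_A0 (h : TyAp F g) (h' : TyA0 F' g') :
    ∀ p ∈ g.arcs, ∀ w ∈ innA p, w ∉ g'.B := by
  obtain ⟨q', n, a, B1, s, B', w0', h1', hn, rfl, rfl⟩ := h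
  obtain ⟨q, R, B, S, w0, h1, hne, rfl, rfl⟩ := h'
  intro p hp w hw hw'
  obtain ⟨j, hj, e⟩ := mem_gad20M.1 hw'
  have hw2 : w = TT p.1 := hw
  have hp' : ∃ i ∈ [0, 1, 3, 6, 8, 9], p.1 = H1.gX q' B1 (lv (n + 1) (lv2 a .nil)) s B' w0' i := by
    have hp' : p = (H1.gX q' B1 (lv (n + 1) (lv2 a .nil)) s B' w0' 0, _) ∨
        p = (H1.gX q' B1 (lv (n + 1) (lv2 a .nil)) s B' w0' 1, _) ∨
        p = (H1.gX q' B1 (lv (n + 1) (lv2 a .nil)) s B' w0' 3, _) ∨
        p = (H1.gX q' B1 (lv (n + 1) (lv2 a .nil)) s B' w0' 6, _) ∨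
        p = (H1.gX q' B1 (lv (n + 1) (lv2 a .nil)) s B' w0' 8, _) ∨
        p = (H1.gX q' B1 (lv (n + 1) (lv2 a .nil)) s B' w0' 9, _) := hp
    rcases hp' with rfl | rfl | rfl | rfl | rfl | rfl
    · exact ⟨0, by simp, rfl⟩
    · exact ⟨1, by simp, rfl⟩
    · exact ⟨3, by simp, rfl⟩
    · exact ⟨6, by simp, rfl⟩
    · exact ⟨8, by simp, rfl⟩
    · exact ⟨9, by simp, rfl⟩
  obtain ⟨i, hi, e2⟩ := hp'
  rw [e2] at hw2
  exact h1.inner_G' w0 hj h1' w0' hn hi (hw2.symm.trans e.symm)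

/-- **row I-A-B0** -/
theorem TyAp.inner_B0 (h : TyAp F g) (h' : TyB0 F' g') :
    ∀ p ∈ g.arcs, ∀ w ∈ innA p, w ∉ g'.B := by
  obtain ⟨q', n, a, B1, s, B', w0', h1', hn, rfl, rfl⟩ := h
  obtain ⟨q, R, B, S, w0, h1, hne, h12, h18, rfl, rfl⟩ := h'
  intro p hp w hw hw'
  obtain ⟨j, hj, _, e⟩ := mem_gadSM.1 hw'
  have hw2 : w = TT p.1 := hw
  have hp' : ∃ i ∈ [0, 1, 3, 6, 8, 9], p.1 = H1.gX q' B1 (lv (n + 1) (lv2 a .nil)) s B' w0' i := by
    have hp' : p = (H1.gX q' B1 (lv (n + 1) (lv2 a .nil)) s B' w0' 0, _) ∨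
        p = (H1.gX q' B1 (lv (n + 1) (lv2 a .nil)) s B' w0' 1, _) ∨
        p = (H1.gX q' B1 (lv (n + 1) (lv2 a .nil)) s B' w0' 3, _) ∨
        p = (H1.gX q' B1 (lv (n + 1) (lv2 a .nil)) s B' w0' 6, _) ∨
        p = (H1.gX q' B1 (lv (n + 1) (lv2 a .nil)) s B' w0' 8, _) ∨
        p = (H1.gX q' B1 (lv (n + 1) (lv2 a .nil)) s B' w0' 9, _) := hp
    rcases hp' with rfl | rfl | rfl | rfl | rfl | rfl
    · exact ⟨0, by simp, rfl⟩
    · exact ⟨1, by simp, rfl⟩
    · exact ⟨3, by simp, rfl⟩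
    · exact ⟨6, by simp, rfl⟩
    · exact ⟨8, by simp, rfl⟩
    · exact ⟨9, by simp, rfl⟩
  obtain ⟨i, hi, e2⟩ := hp'
  rw [e2] at hw2
  exact h1.inner_G' w0 hj h1' w0' hn hi (hw2.symm.trans e.symm)

/-- **row I-A0-A** -/
theorem TyA0.inner_Ap (h : TyA0 F g) (h' : TyAp F' g') :
    ∀ p ∈ g.arcs, ∀ w ∈ innA p, w ∉ g'.B := by
  obtain ⟨q, R, B, S, w0, h1, hne, rfl, rfl⟩ := h
  obtain ⟨q', n, a, B1, s, B', w0', h1', hn, rfl, rfl⟩ := h'
  intro p hp w hw hw'
  obtain ⟨j, hj, e⟩ := mem_gad20.1 hw'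
  have hw2 : w = TT p.1 := hw
  have hp' : p = (mX R B S q w0 10, mX R B S q w0 0) ∨ p = (mX R B S q w0 11, mX R B S q w0 1) ∨
      p = (mX R B S q w0 12, mX R B S q w0 3) ∨ p = (mX R B S q w0 15, mX R B S q w0 6) ∨
      p = (mX R B S q w0 14, mX R B S q w0 8) ∨ p = (mX R B S q w0 17, mX R B S q w0 9) := hp
  rcases hp' with rfl | rfl | rfl | rfl | rfl | rfl
  · exact h1.inner_G w0 (i := 0) (i' := 10) (by simp) h1' w0' hn hj (hw2.symm.trans e.symm)
  · exact h1.inner_G w0 (i := 1) (i' := 11) (by simp) h1' w0' hn hj (hw2.symm.trans e.symm)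
  · exact h1.inner_G w0 (i := 3) (i' := 12) (by simp) h1' w0' hn hj (hw2.symm.trans e.symm)
  · exact h1.inner_G w0 (i := 6) (i' := 15) (by simp) h1' w0' hn hj (hw2.symm.trans e.symm)
  · exact h1.inner_G w0 (i := 8) (i' := 14) (by simp) h1' w0' hn hj (hw2.symm.trans e.symm)
  · exact h1.inner_G w0 (i := 9) (i' := 17) (by simp) h1' w0' hn hj (hw2.symm.trans e.symm)

/-- **row I-B0-A** -/
theorem TyB0.inner_Ap (h : TyB0 F g) (h' : TyAp F' g') :
    ∀ p ∈ g.arcs, ∀ w ∈ innA p, w ∉ g'.B := by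
  obtain ⟨q, R, B, S, w0, h1, hne, h12, h18, rfl, rfl⟩ := h
  obtain ⟨q', n, a, B1, s, B', w0', h1', hn, rfl, rfl⟩ := h'
  intro p hp w hw hw'
  obtain ⟨j, hj, e⟩ := mem_gad20.1 hw'
  have hw2 : w = TT p.1 := hw
  have hp' : p = (mX R B S q w0 12, mX R B S q w0 3) ∨ p = (mX R B S q w0 15, mX R B S q w0 6) ∨
      p = (mX R B S q w0 14, mX R B S q w0 8) := hp
  rcases hp' with rfl | rfl | rfl
  · exact h1.inner_G w0 (i := 3) (i' := 12) (by simp) h1' w0' hn hj (hw2.symm.trans e.symm)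
  · exact h1.inner_G w0 (i := 6) (i' := 15) (by simp) h1' w0' hn hj (hw2.symm.trans e.symm)
  · exact h1.inner_G w0 (i := 8) (i' := 14) (by simp) h1' w0' hn hj (hw2.symm.trans e.symm)

end Pool.OddHC
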