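import Pool.Agent.Work.MP_8f87b2_h60.InA0

/-!
# MP_8f87b2_co: inner words, windows with beads (H = ()^m (())^a) against the mirrored bare windows: rows I-A-A0, I-A0-A

`TyAp`: TYPE A with `H = lv m (lv2 a .nil)`, `1 ≤ m`, `1 ≤ a ∨ m = 1`.
-/

set_option autoImplicit false
set_option linter.unusedSimpArgs false

namespace Pool.OddHC

namespace HM

open BinaryTree H1 List

variable {k q : ℕ} {R B S : BinaryTree Unit}

/-! ### General facts -/

/-- reversal of a list of runs -/
theorem ex_rev : ∀ (l : List ℕ) (b : Bool), (ex b l).reverse = ex (if Even l.length then !b else b) l.reverse := by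
  intro l
  induction l with
  | nil => intro b; simp [ex]
  | cons x l ih =>
    intro b
    rw [ex_cons, List.reverse_append, ih, List.reverse_replicate, List.reverse_cons]
    by_cases h : Even l.length
    · have h1 : ¬ Even (x :: l).length := by
        rw [List.length_cons, Nat.even_add_one]; simpa using h
      have h2 : Even l.reverse.length := by rw [List.length_reverse]; exact h
      rw [if_pos h, if_neg h1, ex_even h2, Bool.not_not, ex_cons, ex_nil, List.append_nil]
    · have h1 : Even (x :: l).length := by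
        rw [List.length_cons, Nat.even_add_one]; exact h
      have h2 : Odd l.reverse.length := by rw [List.length_reverse]; exact Nat.not_even_iff_odd.1 h
      rw [if_neg h, if_pos h1, ex_odd h2, Bool.not_not, ex_cons, ex_nil, List.append_nil]

/-- the mirror of a word in run form -/
theorem mir_ex {t : BinaryTree Unit} {l : List ℕ} (h : wd t = ex true l) (hl : Even l.length) :
    wd (Tsq.mir t) = ex true l.reverse := by
  rw [Tsq.wd_mir, h]
  change (co (ex true l)).reverse = _
  rw [ex_co, ex_rev, if_pos hl]
  rfl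

/-- `3` and `8` are exchanged by reversal -/
def sg : ℕ → ℕ
  | 3 => 8
  | 8 => 3
  | n => n

theorem mr_rev {q i : ℕ} (hi : i ∈ [0, 1, 3, 6, 8, 9]) : (mr q i).reverse = mr q (sg i) ∧
    sg i ∈ [0, 1, 3, 6, 8, 9] ∧ Even (mr q i).length := by
  simp only [List.mem_cons, List.not_mem_nil, or_false] at hi
  rcases hi with rfl | rfl | rfl | rfl | rfl | rfl <;> refine ⟨by simp [mr, sg], by simp [sg], ?_⟩ <;>
    simp [mr] <;> decide

/-- every list which begins with `b` is a list of runs -/
theorem exists_ex : ∀ (l : List Bool) (b : Bool), ∃ r : List ℕ, Ge 1 r ∧ b :: l = ex b r ∧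
    (∀ l', l = b :: l' → ∃ x r', r = x :: r' ∧ 2 ≤ x) := by
  intro l
  induction l with
  | nil =>
    intro b
    refine ⟨[1], by simp [Ge], rfl, fun l' h => by cases h⟩
  | cons a l ih =>
    intro b
    obtain ⟨r, h1, h2, _⟩ := ih a
    by_cases hab : a = b
    · subst hab
      cases r with
      | nil => cases h2
      | cons x r =>
        refine ⟨(x + 1) :: r, ?_, ?_, ?_⟩
        · intro y hy
          rcases List.mem_cons.1 hy with rfl | hy
          · omega
          · exact h1 y (by simp [hy])
        · rw [h2, ex_succ]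
        · intro l' _
          have := h1 x (by simp)
          exact ⟨x + 1, r, rfl, by omega⟩
    · have hb : a = !b := by cases a <;> cases b <;> simp at hab ⊢
      refine ⟨1 :: r, ?_, ?_, ?_⟩
      · intro y hy
        rcases List.mem_cons.1 hy with rfl | hy
        · exact le_rfl
        · exact h1 y hy
      · rw [ex_cons, ← hb, h2]
        rfl
      · intro l' h
        rw [List.cons.injEq] at h
        exact absurd h.1 hab

/-- `hv` means: all parts at least 3 -/
theorem cont_of_hv : ∀ {t : BinaryTree Unit}, hv t → ∀ x ∈ cont t, 3 ≤ x := by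
  intro t
  induction t with
  | nil => intro _ x hx; rw [cont_nil] at hx; exact absurd hx (Multiset.notMem_zero x)
  | node u A C ihA ihC =>
    intro h x hx
    change x ∈ raise (cont A) + cont C at hx
    rcases Multiset.mem_add.1 hx with hx | hx
    · rcases h.1 with h1 | ⟨h1, h2⟩
      · subst h1
        have e : cont (((.nil : BinaryTree Unit) △ .nil) △ .nil) = {2} := by
          rw [cont_node, cont_node, cont_nil, raise_zero, add_zero, add_zero, raise_single]
        rw [e, raise_single, Multiset.mem_singleton] at hx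
        omega
      · exact raise_hv (ihA h2) (fun e => h1 (cont_eq_zero.1 e)) x hx
    · exact ihC h.2 x hx

/-- the first part of `T²` -/
theorem sq1_ac : ∀ t : BinaryTree Unit, t ≠ .nil →
    wd (Tsq.sq t).1 = true :: (aa t ++ false :: H1.cc t) := by
  intro t
  induction t with
  | nil => intro h; exact absurd rfl h
  | node u A C ihA ihC =>
    intro _
    change wd (Tsq.sq (A △ C)).1 = true :: (aa (A △ C) ++ false :: H1.cc (A △ C))
    by_cases h : Tsq.ht A + 1 < Tsq.ht C
    · have hC : C ≠ .nil := by
        rintro rfl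
        simp [Tsq.ht] at h
      have h2 := ihC hC
      cases hS : (Tsq.sq C).1 with
      | nil => rw [hS] at h2; cases h2
      | node _ Xx Y =>
        rw [hS] at h2
        change true :: (wd Xx ++ false :: wd Y) = _ at h2
        rw [List.cons.injEq] at h2
        rw [Tsq.sq_lt h hS, aa_lt h, cc_lt h]
        change true :: (true :: (wd A ++ false :: wd Xx) ++ false :: wd Y) = _
        simp only [List.cons_append, List.append_assoc]
        rw [h2.2]
    · push Not at h
      by_cases hA : A = .nil
      · subst hA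
        have h0 : Tsq.ht C ≤ 1 := by simpa [Tsq.ht] using h
        rw [Tsq.sq_nil h0, aa_nil h0, H1.cc_nil h0]
        rfl
      · rw [Tsq.sq_ge hA h, aa_ge hA h, cc_ge hA h]
        change true :: (wd (Tsq.sq A).1 ++ false :: wd (Tsq.sq A).2) = _
        rw [ihA hA]
        simp

/-- the inner words, general form -/
theorem inn_gen (hR : R ≠ .nil) (hB : (Tsq.sq R).2 = B) (htop : q + 3 ≤ Tsq.ht R) (x : X k) {i : ℕ}
    (hi : i ∈ [0, 1, 3, 6, 8, 9]) (e0 : x.1 = W R (pc (q + 1)) B S i) :
    wd (TT x).1 = (co (H1.cc R) ++ true :: co (wd B)) ++ (midM q i ++ (false :: co (aa R))) := by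
  have hQ : Tsq.ht (pc (q + 1)) = q + 1 := by rw [H1.ht_eq, ht_pc]
  have hn : Tsq.ht (BinaryTree.nil : BinaryTree Unit) = 0 := rfl
  have hQ0 : co (wd (pc (q + 1))) = List.replicate (q + 1) false ++ List.replicate (q + 1) true :=
    co_pc _
  have hQ3 : co (wd (pc (q + 3))) = List.replicate (q + 3) false ++ List.replicate (q + 3) true :=
    co_pc _
  have g1 : aa (R △ .nil) = true :: aa R := aa_ge hR (by rw [hn]; omega)
  have g2 : H1.cc (R △ .nil) = H1.cc R ++ false :: wd B := by
    rw [cc_ge hR (by rw [hn]; omega), hB]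
  have g3 : (Tsq.sq (R △ .nil)).2 = .nil := by rw [Tsq.sq_ge hR (by rw [hn]; omega)]
  have hne : x.1 ≠ .nil := by
    rw [e0]
    simp only [List.mem_cons, List.not_mem_nil, or_false] at hi
    rcases hi with rfl | rfl | rfl | rfl | rfl | rfl
    · exact Tsq.app_ne_nil hR
    · exact Tsq.app_ne_nil hR
    · simp [W]
    · simp [W]
    · rw [W]
      exact Tsq.app_ne_nil (by rw [pc]; simp)
    · simp [W]
  rw [TT_ac _ hne, e0]
  change co (H1.cc _) ++ true :: (co (wd _) ++ false :: co (aa _)) = _
  simp only [List.mem_cons, List.not_mem_nil, or_false] at hi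
  rcases hi with rfl | rfl | rfl | rfl | rfl | rfl
  · -- 0
    have hz : Tsq.ht (pc (q + 3)) ≤ Tsq.ht R := by
      rw [H1.ht_eq, ht_pc]; omega
    change co (H1.cc (app R (pc (q + 3)))) ++
      true :: (co (wd (Tsq.sq (app R (pc (q + 3)))).2) ++ false :: co (aa (app R (pc (q + 3))))) = _
    rw [(ac_app R _ hR hz).1, (ac_app R _ hR hz).2, Tsq.sq_app R _ hR hz]
    change co (H1.cc R) ++ true :: (co (wd (app (Tsq.sq R).2 _)) ++ false :: co (aa R)) = _
    rw [hB, wd_app, co_app, hQ3]
    simp only [midM, List.append_assoc, List.cons_append]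
  · -- 1
    have hz : Tsq.ht (.nil △ app (pc (q + 1)) (.nil △ .nil)) ≤ Tsq.ht R := by
      rw [Tsq.ht_node, Tsq.ht_app, Tsq.ht_node, hQ, hn]; omega
    change co (H1.cc (app R _)) ++ true :: (co (wd (Tsq.sq (app R _)).2) ++ false :: co (aa (app R _))) = _
    rw [(ac_app R _ hR hz).1, (ac_app R _ hR hz).2, Tsq.sq_app R _ hR hz]
    change co (H1.cc R) ++ true :: (co (wd (app (Tsq.sq R).2 _)) ++ false :: co (aa R)) = _
    rw [hB, wd_app, co_app, wd_node, wd_app, wd_node]
    simp only [co_cons, co_app, hQ0, midM, wd, co_nil, List.append_assoc, List.cons_append,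
      List.nil_append, Bool.not_true, Bool.not_false, List.append_nil]
  · -- 3
    have hz : Tsq.ht (.nil △ pc (q + 1)) ≤ Tsq.ht R := by
      rw [Tsq.ht_node, hQ, hn]; omega
    have hA : app R (.nil △ pc (q + 1)) ≠ .nil := Tsq.app_ne_nil hR
    have f1 : aa (app R (.nil △ pc (q + 1)) △ .nil) = true :: aa R := by
      rw [aa_ge hA (by rw [hn]; omega), (ac_app R _ hR hz).1]
    have f2 : H1.cc (app R (.nil △ pc (q + 1)) △ .nil) =
        H1.cc R ++ false :: wd (app B (.nil △ pc (q + 1))) := by
      rw [cc_ge hA (by rw [hn]; omega), (ac_app R _ hR hz).2, Tsq.sq_app R _ hR hz, hB]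
    have f3 : (Tsq.sq (app R (.nil △ pc (q + 1)) △ .nil)).2 = .nil := by
      rw [Tsq.sq_ge hA (by rw [hn]; omega)]
    change co (H1.cc (app R (.nil △ pc (q + 1)) △ .nil)) ++
      true :: (co (wd (Tsq.sq (app R (.nil △ pc (q + 1)) △ .nil)).2) ++
        false :: co (aa (app R (.nil △ pc (q + 1)) △ .nil))) = _
    rw [f1, f2, f3, wd_app, wd_node]
    simp only [co_cons, co_app, hQ0, midM, wd, co_nil, List.append_assoc, List.cons_append,
      List.nil_append, Bool.not_true, Bool.not_false, List.append_nil]
  · -- 6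
    have f1 : aa (R △ (pc (q + 1) △ .nil)) = true :: aa R :=
      aa_ge hR (by rw [Tsq.ht_node, hQ, hn]; omega)
    have f2 : H1.cc (R △ (pc (q + 1) △ .nil)) = H1.cc R ++ false :: wd B := by
      rw [cc_ge hR (by rw [Tsq.ht_node, hQ, hn]; omega), hB]
    have f3 : (Tsq.sq (R △ (pc (q + 1) △ .nil))).2 = pc (q + 1) △ .nil := by
      rw [Tsq.sq_ge hR (by rw [Tsq.ht_node, hQ, hn]; omega)]
    change co (H1.cc (R △ (pc (q + 1) △ .nil))) ++
      true :: (co (wd (Tsq.sq (R △ (pc (q + 1) △ .nil))).2) ++
        false :: co (aa (R △ (pc (q + 1) △ .nil)))) = _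
    rw [f1, f2, f3, wd_node]
    simp only [co_cons, co_app, hQ0, midM, wd, co_nil, List.append_assoc, List.cons_append,
      List.nil_append, Bool.not_true, Bool.not_false, List.append_nil]
  · -- 8
    have hr : Tsq.ht (R △ .nil) = Tsq.ht R + 1 := by
      rw [Tsq.ht_node, hn]; omega
    have hlt : Tsq.ht (.nil : BinaryTree Unit) + 1 < Tsq.ht (R △ .nil) := by rw [hn, hr]; omega
    have hy : Tsq.ht (.nil △ (R △ .nil)) = Tsq.ht R + 1 := by
      rw [Tsq.ht_node, hn, hr]; omega
    have hp : Tsq.ht (pc (q + 1)) < Tsq.ht (.nil △ (R △ .nil)) := by rw [hQ, hy]; omega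
    have f1 : aa (app (pc (q + 1)) (.nil △ (R △ .nil))) =
        wd (pc (q + 1)) ++ true :: false :: true :: aa R := by
      rw [(ac_pre _ _ hp).1, aa_lt hlt, g1]
      rfl
    have f2 : H1.cc (app (pc (q + 1)) (.nil △ (R △ .nil))) = H1.cc R ++ false :: wd B := by
      rw [(ac_pre _ _ hp).2, cc_lt hlt, g2]
    have f3 : (Tsq.sq (app (pc (q + 1)) (.nil △ (R △ .nil)))).2 = .nil := by
      rw [Tsq.sq_pre _ _ hp]
      change (Tsq.sq (.nil △ (R △ .nil))).2 = _
      cases hS : (Tsq.sq (R △ .nil)).1 with
      | nil => exact absurd hS (Tsq.sq_ne (by simp))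
      | node _ Xx Y => rw [Tsq.sq_lt hlt hS]; exact g3
    change co (H1.cc (app (pc (q + 1)) (.nil △ (R △ .nil)))) ++
      true :: (co (wd (Tsq.sq (app (pc (q + 1)) (.nil △ (R △ .nil)))).2) ++
        false :: co (aa (app (pc (q + 1)) (.nil △ (R △ .nil))))) = _
    rw [f1, f2, f3]
    simp only [co_cons, co_app, hQ0, midM, wd, co_nil, List.append_assoc, List.cons_append,
      List.nil_append, Bool.not_true, Bool.not_false, List.append_nil]
  · -- 9
    have hr : Tsq.ht (R △ .nil) = Tsq.ht R + 1 := by
      rw [Tsq.ht_node, hn]; omega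
    have f0 : (R △ .nil : BinaryTree Unit) ≠ .nil := by simp
    have f1 : aa ((R △ .nil) △ pc (q + 1)) = true :: true :: aa R := by
      rw [aa_ge f0 (by rw [hQ, hr]; omega), g1]
    have f2 : H1.cc ((R △ .nil) △ pc (q + 1)) = (H1.cc R ++ false :: wd B) ++ false :: [] := by
      rw [cc_ge f0 (by rw [hQ, hr]; omega), g2, g3]
      rfl
    have f3 : (Tsq.sq ((R △ .nil) △ pc (q + 1))).2 = pc (q + 1) := by
      rw [Tsq.sq_ge f0 (by rw [hQ, hr]; omega)]
    change co (H1.cc ((R △ .nil) △ pc (q + 1))) ++
      true :: (co (wd (Tsq.sq ((R △ .nil) △ pc (q + 1))).2) ++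
        false :: co (aa ((R △ .nil) △ pc (q + 1)))) = _
    rw [f1, f2, f3]
    simp only [co_cons, co_app, hQ0, midM, wd, co_nil, List.append_assoc, List.cons_append,
      List.nil_append, Bool.not_true, Bool.not_false, List.append_nil]

/-- increments of the first run of the last part -/
def ei : ℕ → ℕ
  | 3 => 1
  | 6 => 1
  | 9 => 2
  | _ => 0

/-- increments of the last run of the first part -/
def ez : ℕ → ℕ
  | 6 => 1
  | 8 => 1
  | 9 => 2
  | _ => 0

/-- **from the middle part to runs** -/
theorem runs_gen {i z e : ℕ} {ζ' η' : List ℕ} (hi : i ∈ [0, 1, 3, 6, 8, 9]) (hz : Even ζ'.length) :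
    ex true (ζ' ++ [z]) ++ (midM q i ++ ex false (e :: η')) =
      ex true ((ζ' ++ [z + ez i]) ++ (mr q i ++ ((e + ei i) :: η'))) := by
  have h1 : ∀ n, Odd (ζ' ++ [z + n]).length := by
    intro n
    rw [List.length_append, List.length_singleton]
    exact hz.add_one
  have k1 : ∀ n, List.replicate n true ++ [true] = List.replicate (n + 1) true := fun n =>
    (List.replicate_succ').symm
  have nt : (!true) = false := rfl
  simp only [List.mem_cons, List.not_mem_nil, or_false] at hi
  rcases hi with rfl | rfl | rfl | rfl | rfl | rfl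
  · have em : ∀ l, ex false (mr q 0 ++ l) = ex false (mr q 0) ++ ex false l := fun l =>
      ex_even (by simp [mr]) false l
    rw [ex_odd (h1 _), nt, em]
    simp [mr, midM, ex, ez, ei]
  · have em : ∀ l, ex false (mr q 1 ++ l) = ex false (mr q 1) ++ ex false l := fun l =>
      ex_even (by simp [mr]; decide) false l
    rw [ex_odd (h1 _), nt, em]
    simp [mr, midM, ex, ez, ei]
  · have em : ∀ l, ex false (mr q 3 ++ l) = ex false (mr q 3) ++ ex false l := fun l =>
      ex_even (by simp [mr]; decide) false l
    rw [ex_odd (h1 _), nt, em, ei, ← ex_succ]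
    simp only [mr, midM, ex, Bool.not_true, Bool.not_false, ← k1 (q + 1), ez]
    simp [List.replicate_succ]
  · have em : ∀ l, ex false (mr q 6 ++ l) = ex false (mr q 6) ++ ex false l := fun l =>
      ex_even (by simp [mr]) false l
    rw [ex_odd (h1 _), nt, em, ei, ← ex_succ, ez]
    have k3 := ex_last hz true z (false :: (List.replicate (q + 1) false ++
      (List.replicate (q + 1) true ++ [true, false])) ++ ex false (e :: η'))
    simp only [midM, List.cons_append, List.nil_append, List.append_assoc] at k3 ⊢
    rw [k3]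
    simp only [mr, ex, Bool.not_true, Bool.not_false, ← k1 (q + 1)]
    simp [List.replicate_succ]
  · have em : ∀ l, ex false (mr q 8 ++ l) = ex false (mr q 8) ++ ex false l := fun l =>
      ex_even (by simp [mr]; decide) false l
    rw [ex_odd (h1 _), nt, em, show ez 8 = 1 from rfl, show ei 8 = 0 from rfl]
    have k3 := ex_last hz true z (false :: (List.replicate (q + 1) false ++
      (List.replicate (q + 1) true ++ [false, true])) ++ ex false (e :: η'))
    simp only [midM, List.cons_append, List.nil_append, List.append_assoc] at k3 ⊢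
    rw [k3]
    simp only [mr, ex, Bool.not_true, Bool.not_false]
    simp [List.replicate_succ]
  · have em : ∀ l, ex false (mr q 9 ++ l) = ex false (mr q 9) ++ ex false l := fun l =>
      ex_even (by simp [mr]) false l
    rw [ex_odd (h1 _), nt, em, ei, ez, show e + 2 = e + 1 + 1 from rfl, ← ex_succ, ← ex_succ]
    have k3 := ex_last hz true z (true :: (List.replicate (q + 1) false ++
      (List.replicate (q + 1) true ++ [false, false])) ++ ex false (e :: η'))
    have k4 := ex_last hz true (z + 1) ((List.replicate (q + 1) false ++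
      (List.replicate (q + 1) true ++ [false, false])) ++ ex false (e :: η'))
    simp only [midM, List.cons_append, List.nil_append, List.append_assoc] at k3 k4 ⊢
    rw [k3, k4]
    simp only [mr, ex, Bool.not_true, Bool.not_false]
    simp [List.replicate_succ]

end HM

end Pool.OddHC
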