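import Pool.Agent.Work.MP_8f87b2_h60.Runs
import Pool.Agent.Work.MP_8f87b2_h60.TyB0

/-!
# MP_8f87b2_co: inner words of the bare windows against the words of bare windows (rows I-A0-A0, I-A0-B0, I-B0-A0, I-B0-B0)

The runs of `T(u_i)`: `ζ ++ M_i ++ η`, `ζ`, `η` odd lists with entries `≥ c`, `M_i` explicit.
-/

set_option autoImplicit false
set_option linter.unusedSimpArgs false

namespace Pool.OddHC

namespace HM

open BinaryTree H1 List

variable {k q : ℕ} {R B S : BinaryTree Unit}

/-- the data of a window with `c`, in run form -/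
theorem NodeM.ZY (h : NodeM k q R B S) : ∃ ζ η : List ℕ,
    co (H1.cc R) ++ true :: co (wd B) = ex true ζ ∧ false :: co (aa R) = ex false η ∧
    Odd ζ.length ∧ Odd η.length ∧ Ge (q + 3) ζ ∧ Ge (q + 3) η := by
  have hR := h.ne
  have hc : 2 ≤ q + 3 := by omega
  have ht := h.top
  have hth : Tsq.ht R = OddHC.ht R := H1.ht_eq R
  obtain ⟨y, l, f1, f2, f3, f4, f5⟩ := aa_runs hc R hR h.part
  obtain ⟨z, m, g1, g2, g3, g4, g5⟩ := cc_runs hc R hR h.part
  have hB : ∀ x ∈ cont B, q + 3 ≤ x := by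
    intro x hx
    apply h.part
    rw [← h.eq]
    exact Multiset.mem_add.2 (Or.inl hx)
  obtain ⟨rB, k1, k2, k3, _⟩ := hv_runs hc B hB
  have hy : q + 3 ≤ y := by
    by_cases hl : l = []
    · have := f4 hl
      omega
    · exact f5 hl
  have hz : q + 3 ≤ z := by
    by_cases hl : m = []
    · have := g4 hl
      omega
    · exact g5 hl
  have hodd : Odd (m ++ [z + 1]).length := by
    rw [List.length_append, List.length_singleton]
    exact g2.add_one
  refine ⟨(m ++ [z + 1]) ++ rB, (y + 1) :: l, ?_, ?_, ?_, ?_, ?_, ?_⟩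
  · rw [g1, ex_co, k1, ex_co, ex_odd hodd]
    exact ex_last g2 true z _
  · rw [f1, ex_co]
    exact ex_succ false y l
  · rw [List.length_append]
    exact hodd.add_even k2
  · rw [List.length_cons]
    exact f2.add_one
  · intro w hw
    rw [List.mem_append, List.mem_append, List.mem_singleton] at hw
    rcases hw with (hw | rfl) | hw
    · exact g3 w hw
    · omega
    · exact k3 w hw
  · intro w hw
    rw [List.mem_cons] at hw
    rcases hw with rfl | hw
    · omega
    · exact f3 w hw

/-- the middle part of the inner word -/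
def midM (q : ℕ) : ℕ → List Bool
  | 0 => List.replicate (q + 3) false ++ List.replicate (q + 3) true
  | 1 => [false, true] ++ (List.replicate (q + 1) false ++ (List.replicate (q + 1) true ++ [false, true]))
  | 3 => [false, true] ++ (List.replicate (q + 1) false ++ (List.replicate (q + 1) true ++ [true, false]))
  | 6 => [true, false] ++ (List.replicate (q + 1) false ++ (List.replicate (q + 1) true ++ [true, false]))
  | 8 => [true, false] ++ (List.replicate (q + 1) false ++ (List.replicate (q + 1) true ++ [false, true]))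
  | _ => [true, true] ++ (List.replicate (q + 1) false ++ (List.replicate (q + 1) true ++ [false, false]))

theorem co_rep (n : ℕ) (b : Bool) : co (List.replicate n b) = List.replicate n (!b) := by
  unfold co
  rw [List.map_replicate]

theorem co_pc (n : ℕ) : co (wd (pc n)) = List.replicate n false ++ List.replicate n true := by
  rw [wd_pc, co_app, co_rep, co_rep]
  rfl

/-- the inner words -/
theorem NodeM.inn60 (h : NodeM k q R B S) (w0 : X k) {i : ℕ} (hi : i ∈ [0, 1, 3, 6, 8, 9]) :
    wd (TT (wX R B S q w0 i)).1 =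
      (co (H1.cc R) ++ true :: co (wd B)) ++ (midM q i ++ (false :: co (aa R))) := by
  have hR := h.ne
  have hth : Tsq.ht R = OddHC.ht R := H1.ht_eq R
  have htop := h.top
  have hQ : Tsq.ht (pc (q + 1)) = q + 1 := by rw [H1.ht_eq, ht_pc]
  have hn : Tsq.ht (BinaryTree.nil : BinaryTree Unit) = 0 := rfl
  have hsq := h.sq
  have hB : (Tsq.sq R).2 = B := by rw [hsq]
  have hi20 : i < 20 := by
    simp only [List.mem_cons, List.not_mem_nil, or_false] at hi
    omega
  have e0 : (wX R B S q w0 i).1 = W R (pc (q + 1)) B S i := by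
    rw [wX_eq h.dat h.size w0 hi20, ch_eq]
  have hne : (wX R B S q w0 i).1 ≠ .nil := by
    intro e
    have h1 := X_num (wX R B S q w0 i)
    rw [e] at h1
    have h2 := h.size
    simp [BinaryTree.numNodes] at h1
    omega
  rw [TT_ac _ hne, e0]
  change co (H1.cc _) ++ true :: (co (wd _) ++ false :: co (aa _)) = _
  have hQ0 : co (wd (pc (q + 1))) = List.replicate (q + 1) false ++ List.replicate (q + 1) true :=
    co_pc _
  have hQ3 : co (wd (pc (q + 3))) = List.replicate (q + 3) false ++ List.replicate (q + 3) true :=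
    co_pc _
  have g1 : aa (R △ .nil) = true :: aa R := aa_ge hR (by rw [hn]; omega)
  have g2 : H1.cc (R △ .nil) = H1.cc R ++ false :: wd B := by
    rw [cc_ge hR (by rw [hn]; omega), hB]
  have g3 : (Tsq.sq (R △ .nil)).2 = .nil := by rw [Tsq.sq_ge hR (by rw [hn]; omega)]
  simp only [List.mem_cons, List.not_mem_nil, or_false] at hi
  rcases hi with rfl | rfl | rfl | rfl | rfl | rfl
  · -- 0
    have hz : Tsq.ht (pc (q + 3)) ≤ Tsq.ht R := by
      rw [H1.ht_eq, ht_pc]; omega
    change co (H1.cc (app R (pc (q + 3)))) ++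
      true :: (co (wd (Tsq.sq (app R (pc (q + 3)))).2) ++ false :: co (aa (app R (pc (q + 3))))) = _
    rw [(ac_app R _ hR hz).1, (ac_app R _ hR hz).2, Tsq.sq_app R _ hR hz]
    change co (H1.cc R) ++ true :: (co (wd (app (Tsq.sq R).2 _)) ++ false :: co (aa R)) = _
    rw [hB, wd_app, co_app, hQ3]
    simp only [midM, List.append_assoc, List.cons_append]
  · -- 1
    have hz : Tsq.ht (.nil △ app (pc (q + 1)) (.nil △ .nil)) ≤ Tsq.ht R := by
      rw [Tsq.ht_node, Tsq.ht_app, Tsq.ht_node, hQ, hn]; omega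
    change co (H1.cc (app R _)) ++ true :: (co (wd (Tsq.sq (app R _)).2) ++ false :: co (aa (app R _))) = _
    rw [(ac_app R _ hR hz).1, (ac_app R _ hR hz).2, Tsq.sq_app R _ hR hz]
    change co (H1.cc R) ++ true :: (co (wd (app (Tsq.sq R).2 _)) ++ false :: co (aa R)) = _
    rw [hB, wd_app, co_app, wd_node, wd_app, wd_node]
    simp only [co_cons, co_app, hQ0, midM, wd, co_nil, List.append_assoc, List.cons_append,
      List.nil_append, Bool.not_true, Bool.not_false, List.append_nil]
  · -- 3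
    have hz : Tsq.ht (.nil △ pc (q + 1)) ≤ Tsq.ht R := by
      rw [Tsq.ht_node, hQ, hn]; omega
    have hA : app R (.nil △ pc (q + 1)) ≠ .nil := Tsq.app_ne_nil hR
    have f1 : aa (app R (.nil △ pc (q + 1)) △ .nil) = true :: aa R := by
      rw [aa_ge hA (by rw [hn]; omega), (ac_app R _ hR hz).1]
    have f2 : H1.cc (app R (.nil △ pc (q + 1)) △ .nil) =
        H1.cc R ++ false :: wd (app B (.nil △ pc (q + 1))) := by
      rw [cc_ge hA (by rw [hn]; omega), (ac_app R _ hR hz).2, Tsq.sq_app R _ hR hz, hB]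
    have f3 : (Tsq.sq (app R (.nil △ pc (q + 1)) △ .nil)).2 = .nil := by
      rw [Tsq.sq_ge hA (by rw [hn]; omega)]
    change co (H1.cc (app R (.nil △ pc (q + 1)) △ .nil)) ++
      true :: (co (wd (Tsq.sq (app R (.nil △ pc (q + 1)) △ .nil)).2) ++
        false :: co (aa (app R (.nil △ pc (q + 1)) △ .nil))) = _
    rw [f1, f2, f3, wd_app, wd_node]
    simp only [co_cons, co_app, hQ0, midM, wd, co_nil, List.append_assoc, List.cons_append,
      List.nil_append, Bool.not_true, Bool.not_false, List.append_nil]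
  · -- 6
    have f1 : aa (R △ (pc (q + 1) △ .nil)) = true :: aa R :=
      aa_ge hR (by rw [Tsq.ht_node, hQ, hn]; omega)
    have f2 : H1.cc (R △ (pc (q + 1) △ .nil)) = H1.cc R ++ false :: wd B := by
      rw [cc_ge hR (by rw [Tsq.ht_node, hQ, hn]; omega), hB]
    have f3 : (Tsq.sq (R △ (pc (q + 1) △ .nil))).2 = pc (q + 1) △ .nil := by
      rw [Tsq.sq_ge hR (by rw [Tsq.ht_node, hQ, hn]; omega)]
    change co (H1.cc (R △ (pc (q + 1) △ .nil))) ++
      true :: (co (wd (Tsq.sq (R △ (pc (q + 1) △ .nil))).2) ++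
        false :: co (aa (R △ (pc (q + 1) △ .nil)))) = _
    rw [f1, f2, f3, wd_node]
    simp only [co_cons, co_app, hQ0, midM, wd, co_nil, List.append_assoc, List.cons_append,
      List.nil_append, Bool.not_true, Bool.not_false, List.append_nil]
  · -- 8
    have hr : Tsq.ht (R △ .nil) = Tsq.ht R + 1 := by
      rw [Tsq.ht_node, hn]; omega
    have hlt : Tsq.ht (.nil : BinaryTree Unit) + 1 < Tsq.ht (R △ .nil) := by rw [hn, hr]; omega
    have hy : Tsq.ht (.nil △ (R △ .nil)) = Tsq.ht R + 1 := by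
      rw [Tsq.ht_node, hn, hr]; omega
    have hp : Tsq.ht (pc (q + 1)) < Tsq.ht (.nil △ (R △ .nil)) := by rw [hQ, hy]; omega
    have f1 : aa (app (pc (q + 1)) (.nil △ (R △ .nil))) =
        wd (pc (q + 1)) ++ true :: false :: true :: aa R := by
      rw [(ac_pre _ _ hp).1, aa_lt hlt, g1]
      rfl
    have f2 : H1.cc (app (pc (q + 1)) (.nil △ (R △ .nil))) = H1.cc R ++ false :: wd B := by
      rw [(ac_pre _ _ hp).2, cc_lt hlt, g2]
    have f3 : (Tsq.sq (app (pc (q + 1)) (.nil △ (R △ .nil)))).2 = .nil := by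
      rw [Tsq.sq_pre _ _ hp]
      change (Tsq.sq (.nil △ (R △ .nil))).2 = _
      cases hS : (Tsq.sq (R △ .nil)).1 with
      | nil => exact absurd hS (Tsq.sq_ne (by simp))
      | node _ Xx Y => rw [Tsq.sq_lt hlt hS]; exact g3
    change co (H1.cc (app (pc (q + 1)) (.nil △ (R △ .nil)))) ++
      true :: (co (wd (Tsq.sq (app (pc (q + 1)) (.nil △ (R △ .nil)))).2) ++
        false :: co (aa (app (pc (q + 1)) (.nil △ (R △ .nil))))) = _
    rw [f1, f2, f3]
    simp only [co_cons, co_app, hQ0, midM, wd, co_nil, List.append_assoc, List.cons_append,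
      List.nil_append, Bool.not_true, Bool.not_false, List.append_nil]
  · -- 9
    have hr : Tsq.ht (R △ .nil) = Tsq.ht R + 1 := by
      rw [Tsq.ht_node, hn]; omega
    have f0 : (R △ .nil : BinaryTree Unit) ≠ .nil := by simp
    have f1 : aa ((R △ .nil) △ pc (q + 1)) = true :: true :: aa R := by
      rw [aa_ge f0 (by rw [hQ, hr]; omega), g1]
    have f2 : H1.cc ((R △ .nil) △ pc (q + 1)) = (H1.cc R ++ false :: wd B) ++ false :: [] := by
      rw [cc_ge f0 (by rw [hQ, hr]; omega), g2, g3]
      rfl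
    have f3 : (Tsq.sq ((R △ .nil) △ pc (q + 1))).2 = pc (q + 1) := by
      rw [Tsq.sq_ge f0 (by rw [hQ, hr]; omega)]
    change co (H1.cc ((R △ .nil) △ pc (q + 1))) ++
      true :: (co (wd (Tsq.sq ((R △ .nil) △ pc (q + 1))).2) ++
        false :: co (aa ((R △ .nil) △ pc (q + 1)))) = _
    rw [f1, f2, f3]
    simp only [co_cons, co_app, hQ0, midM, wd, co_nil, List.append_assoc, List.cons_append,
      List.nil_append, Bool.not_true, Bool.not_false, List.append_nil]

/-- the runs of the middle part -/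
def mr (q : ℕ) : ℕ → List ℕ
  | 0 => [q + 3, q + 3]
  | 1 => [1, 1, q + 1, q + 1, 1, 1]
  | 3 => [1, 1, q + 1, q + 2]
  | 6 => [q + 2, q + 2]
  | 8 => [q + 2, q + 1, 1, 1]
  | _ => [q + 1, q + 1]

theorem ge_snoc {c : ℕ} {l : List ℕ} {z : ℕ} (h : Ge c (l ++ [z])) (n : ℕ) : Ge c (l ++ [z + n]) := by
  intro w hw
  rw [List.mem_append, List.mem_singleton] at hw
  rcases hw with hw | rfl
  · exact h w (by simp [hw])
  · have := h z (by simp)
    omega

theorem ge_cons {c : ℕ} {l : List ℕ} {z : ℕ} (h : Ge c (z :: l)) (n : ℕ) : Ge c ((z + n) :: l) := by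
  intro w hw
  rw [List.mem_cons] at hw
  rcases hw with rfl | hw
  · have := h z (by simp)
    omega
  · exact h w (by simp [hw])

/-- **the runs of the inner words** -/
theorem NodeM.runs (h : NodeM k q R B S) (w0 : X k) {i : ℕ} (hi : i ∈ [0, 1, 3, 6, 8, 9]) :
    ∃ ζ η : List ℕ, wd (TT (wX R B S q w0 i)).1 = ex true (ζ ++ (mr q i ++ η)) ∧
      Odd ζ.length ∧ Odd η.length ∧ Ge (q + 3) ζ ∧ Ge (q + 3) η := by
  obtain ⟨ζ, η, e1, e2, h1, h2, h3, h4⟩ := h.ZY
  have hz0 : ζ ≠ [] := by rintro rfl; simp at h1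
  obtain ⟨ζ', z, rfl⟩ := exists_snoc hz0
  have hz1 : Even ζ'.length := by
    rw [List.length_append, List.length_singleton] at h1
    by_contra h5
    rw [Nat.not_even_iff_odd] at h5
    exact (Nat.not_odd_iff_even.2 h5.add_one) h1
  cases η with
  | nil => simp at h2
  | cons e η' =>
    have hw := h.inn60 w0 hi
    rw [e1, e2] at hw
    have hl : ∀ n : ℕ, Odd (ζ' ++ [z + n]).length := by
      intro n
      simpa using h1
    have hl' : ∀ n : ℕ, Odd ((e + n) :: η').length := by
      intro n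
      simpa using h2
    have hl0 := hl 0
    have k1 : ∀ n, List.replicate n true ++ [true] = List.replicate (n + 1) true := fun n =>
      (List.replicate_succ').symm
    have k2 : ∀ n, List.replicate n false ++ [false] = List.replicate (n + 1) false := fun n =>
      (List.replicate_succ').symm
    have nt : (!true) = false := rfl
    simp only [List.mem_cons, List.not_mem_nil, or_false] at hi
    rcases hi with rfl | rfl | rfl | rfl | rfl | rfl
    · refine ⟨ζ' ++ [z], e :: η', ?_, h1, h2, h3, h4⟩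
      have em : ∀ l, ex false (mr q 0 ++ l) = ex false (mr q 0) ++ ex false l := fun l =>
        ex_even (by simp [mr]) false l
      rw [hw, ex_odd h1, nt, em]
      simp [mr, midM, ex]
    · refine ⟨ζ' ++ [z], e :: η', ?_, h1, h2, h3, h4⟩
      have em : ∀ l, ex false (mr q 1 ++ l) = ex false (mr q 1) ++ ex false l := fun l =>
        ex_even (by simp [mr]; decide) false l
      rw [hw, ex_odd h1, nt, em]
      simp [mr, midM, ex]
    · refine ⟨ζ' ++ [z], (e + 1) :: η', ?_, h1, hl' 1, h3, ge_cons h4 1⟩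
      have em : ∀ l, ex false (mr q 3 ++ l) = ex false (mr q 3) ++ ex false l := fun l =>
        ex_even (by simp [mr]; decide) false l
      rw [hw, ex_odd h1, nt, em, ← ex_succ]
      simp only [mr, midM, ex, Bool.not_true, Bool.not_false, ← k1 (q + 1)]
      simp [List.replicate_succ]
    · refine ⟨ζ' ++ [z + 1], (e + 1) :: η', ?_, hl 1, hl' 1, ge_snoc h3 1, ge_cons h4 1⟩
      have em : ∀ l, ex false (mr q 6 ++ l) = ex false (mr q 6) ++ ex false l := fun l =>
        ex_even (by simp [mr]) false l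
      rw [hw, ex_odd (hl 1), nt, em, ← ex_succ]
      have k3 := ex_last hz1 true z (false :: (List.replicate (q + 1) false ++
        (List.replicate (q + 1) true ++ [true, false])) ++ ex false (e :: η'))
      simp only [midM, List.cons_append, List.nil_append, List.append_assoc] at k3 ⊢
      rw [k3]
      simp only [mr, ex, Bool.not_true, Bool.not_false, ← k1 (q + 1)]
      simp [List.replicate_succ]
    · refine ⟨ζ' ++ [z + 1], e :: η', ?_, hl 1, h2, ge_snoc h3 1, h4⟩
      have em : ∀ l, ex false (mr q 8 ++ l) = ex false (mr q 8) ++ ex false l := fun l =>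
        ex_even (by simp [mr]; decide) false l
      rw [hw, ex_odd (hl 1), nt, em]
      have k3 := ex_last hz1 true z (false :: (List.replicate (q + 1) false ++
        (List.replicate (q + 1) true ++ [false, true])) ++ ex false (e :: η'))
      simp only [midM, List.cons_append, List.nil_append, List.append_assoc] at k3 ⊢
      rw [k3]
      simp only [mr, ex, Bool.not_true, Bool.not_false]
      simp [List.replicate_succ]
    · refine ⟨ζ' ++ [z + 1 + 1], (e + 1 + 1) :: η', ?_, hl 2, hl' 2, ge_snoc h3 2, ge_cons h4 2⟩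
      have em : ∀ l, ex false (mr q 9 ++ l) = ex false (mr q 9) ++ ex false l := fun l =>
        ex_even (by simp [mr]) false l
      rw [hw, ex_odd (hl 2), nt, em, ← ex_succ, ← ex_succ]
      have k3 := ex_last hz1 true z (true :: (List.replicate (q + 1) false ++
        (List.replicate (q + 1) true ++ [false, false])) ++ ex false (e :: η'))
      have k4 := ex_last hz1 true (z + 1) ((List.replicate (q + 1) false ++
        (List.replicate (q + 1) true ++ [false, false])) ++ ex false (e :: η'))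
      simp only [midM, List.cons_append, List.nil_append, List.append_assoc] at k3 k4 ⊢
      rw [k3, k4]
      simp only [mr, ex, Bool.not_true, Bool.not_false]
      simp [List.replicate_succ]

theorem odd_cases {l : List ℕ} (h : Odd l.length) : (∃ y, l = [y]) ∨ ∃ y1 y2 y3 t, l = y1 :: y2 :: y3 :: t := by
  match l with
  | [] => simp at h
  | [y] => exact Or.inl ⟨y, rfl⟩
  | [_, _] => exact absurd (show Odd 2 from h) (by decide)
  | y1 :: y2 :: y3 :: t => exact Or.inr ⟨y1, y2, y3, t, rfl⟩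

theorem ge_rev {c : ℕ} {l : List ℕ} (h : Ge c l) : Ge c l.reverse := fun x hx => h x (List.mem_reverse.1 hx)

/-- the possible ends of the words -/
def NS (q : ℕ) : List (List ℕ) :=
  [[q + 3, q + 3], [1, 1, q + 1, q + 2], [2, 1, q + 1, q + 2], [q + 2, q + 2], [1, 1, q + 2, q + 2],
    [q + 1, q + 1], [1, 2, q + 1, q + 1]]

/-- the possible beginnings of the words -/
def NP (q : ℕ) : List (List ℕ) :=
  [[q + 2, q + 1, 1, 2], [q + 2, q + 2, 1, 1], [q + 1, q + 1, 2, 1], [q + 1, q + 1, 1, 1]]

theorem core_S {q q' i : ℕ} {ζ η r N : List ℕ} (hi : i ∈ [0, 1, 3, 6, 8, 9]) (hz : ζ ≠ [])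
    (hη : Odd η.length) (gz : Ge (q + 3) ζ) (gη : Ge (q + 3) η) (hr : r ≠ []) (gr : Ge (q' + 3) r)
    (hN : N ∈ NS q') (e : ζ ++ (mr q i ++ η) = r ++ N) : i = 0 ∧ N = [q' + 3, q' + 3] := by
  have e1 := congrArg List.reverse e
  rw [List.reverse_append, List.reverse_append, List.reverse_append, List.append_assoc] at e1
  have hη1 : Odd η.reverse.length := by rw [List.length_reverse]; exact hη
  have gη1 := ge_rev gη
  have gz1 := ge_rev gz
  have gr1 := ge_rev gr
  obtain ⟨z, zs, hz1⟩ : ∃ z zs, ζ.reverse = z :: zs := by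
    cases h : ζ.reverse with
    | nil => exact absurd (List.reverse_eq_nil_iff.1 h) hz
    | cons z zs => exact ⟨z, zs, rfl⟩
  obtain ⟨x, xs, hx1⟩ : ∃ x xs, r.reverse = x :: xs := by
    cases h : r.reverse with
    | nil => exact absurd (List.reverse_eq_nil_iff.1 h) hr
    | cons z zs => exact ⟨z, zs, rfl⟩
  have z3 : q + 3 ≤ z := gz1 z (by rw [hz1]; simp)
  have x3 : q' + 3 ≤ x := gr1 x (by rw [hx1]; simp)
  generalize η.reverse = η1 at e1 hη1 gη1
  rcases odd_cases hη1 with ⟨y, rfl⟩ | ⟨y1, y2, y3, t, rfl⟩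
  · have y3 : q + 3 ≤ y := gη1 y (by simp)
    rw [hz1, hx1] at e1
    simp only [List.mem_cons, List.not_mem_nil, or_false] at hi
    simp only [NS, List.mem_cons, List.not_mem_nil, or_false] at hN
    rcases hi with rfl | rfl | rfl | rfl | rfl | rfl <;>
      rcases hN with rfl | rfl | rfl | rfl | rfl | rfl | rfl <;>
      simp [mr] at e1 ⊢ <;> omega
  · have g1 : q + 3 ≤ y1 := gη1 y1 (by simp)
    have g2 : q + 3 ≤ y2 := gη1 y2 (by simp)
    have g3 : q + 3 ≤ y3 := gη1 y3 (by simp)
    simp only [List.mem_cons, List.not_mem_nil, or_false] at hi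
    simp only [NS, List.mem_cons, List.not_mem_nil, or_false] at hN
    have key : ∀ n : ℕ, y1 = n → y2 = n → y3 :: (t ++ ((mr q i).reverse ++ ζ.reverse)) = r.reverse →
        n ≤ q' + 3 → i = 0 ∧ n = q' + 3 := by
      intro n h1 h2 h3 h4
      have hm : ∀ w ∈ mr q i, q' + 3 ≤ w := by
        intro w hw
        apply gr1
        rw [← h3]
        simp [hw]
      rcases hi with rfl | rfl | rfl | rfl | rfl | rfl
      · have := hm (q + 3) (by simp [mr])
        exact ⟨rfl, by omega⟩
      · have := hm 1 (by simp [mr]); omega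
      · have := hm 1 (by simp [mr]); omega
      · have := hm (q + 2) (by simp [mr]); omega
      · have := hm 1 (by simp [mr]); omega
      · have := hm (q + 1) (by simp [mr]); omega
    rcases hN with rfl | rfl | rfl | rfl | rfl | rfl | rfl
    · simp only [List.reverse_cons, List.reverse_nil, List.nil_append, List.cons_append,
        List.cons.injEq] at e1
      have := key _ e1.1 e1.2.1 e1.2.2 le_rfl
      exact ⟨this.1, rfl⟩
    · simp at e1; omega
    · simp at e1; omega
    · simp only [List.reverse_cons, List.reverse_nil, List.nil_append, List.cons_append,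
        List.cons.injEq] at e1
      have := key _ e1.1 e1.2.1 e1.2.2 (by omega)
      omega
    · simp at e1; omega
    · simp only [List.reverse_cons, List.reverse_nil, List.nil_append, List.cons_append,
        List.cons.injEq] at e1
      have := key _ e1.1 e1.2.1 e1.2.2 (by omega)
      omega
    · simp at e1; omega

theorem core_P {q q' i : ℕ} {ζ η r N : List ℕ} (hi : i ∈ [0, 1, 3, 6, 8, 9]) (hζ : Odd ζ.length)
    (gz : Ge (q + 3) ζ) (hN : N ∈ NP q') (e : ζ ++ (mr q i ++ η) = N ++ r) : False := by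
  rcases odd_cases hζ with ⟨y, rfl⟩ | ⟨y1, y2, y3, t, rfl⟩
  · have y3 : q + 3 ≤ y := gz y (by simp)
    simp only [List.mem_cons, List.not_mem_nil, or_false] at hi
    simp only [NP, List.mem_cons, List.not_mem_nil, or_false] at hN
    rcases hi with rfl | rfl | rfl | rfl | rfl | rfl <;>
      rcases hN with rfl | rfl | rfl | rfl <;>
      simp [mr] at e <;> omega
  · have g3 : q + 3 ≤ y3 := gz y3 (by simp)
    simp only [NP, List.mem_cons, List.not_mem_nil, or_false] at hN
    rcases hN with rfl | rfl | rfl | rfl <;> simp at e <;> omega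

/-! ### The runs of the words -/

/-- a word with parts at least `c`, its parenthesised forms -/
theorem runs_of {c : ℕ} (hc : 2 ≤ c) {t : BinaryTree Unit} (ht : t ≠ .nil) (h : ∀ x ∈ cont t, c ≤ x) :
    (∃ r : List ℕ, r ≠ [] ∧ Even r.length ∧ Ge c r ∧ wd t = ex true r) ∧
    (∃ r : List ℕ, r ≠ [] ∧ Even r.length ∧ Ge c r ∧ ∀ w, true :: (wd t ++ w) = ex true r ++ w) ∧
    (∃ r : List ℕ, r ≠ [] ∧ Even r.length ∧ Ge c r ∧ ∀ w, wd t ++ false :: w = ex true r ++ w) ∧
    (∃ r : List ℕ, r ≠ [] ∧ Even r.length ∧ Ge c r ∧ ∀ w, true :: (wd t ++ false :: w) = ex true r ++ w) ∧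
    (∃ r : List ℕ, r ≠ [] ∧ Even r.length ∧ Ge c r ∧ ∀ w, true :: (wd t ++ false :: false :: w) = ex true r ++ w) ∧
    (∃ r : List ℕ, r ≠ [] ∧ Even r.length ∧ Ge c r ∧
      ∀ w, true :: true :: (wd t ++ false :: false :: w) = ex true r ++ w) := by
  obtain ⟨r, e1, e2, e3, e4⟩ := hv_runs hc t h
  have e5 := e4 ht
  obtain ⟨l, y, rfl⟩ := exists_snoc e5
  have hl : Odd l.length := by
    rw [List.length_append, List.length_singleton] at e2
    by_contra h2
    rw [Nat.not_odd_iff_even] at h2
    exact (Nat.not_even_iff_odd.2 h2.add_one) e2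
  have hy := e3 y (by simp)
  have last : ∀ (n : ℕ) (l : List ℕ), Odd l.length → ∀ w : List Bool,
      ex true (l ++ [n]) ++ false :: w = ex true (l ++ [n + 1]) ++ w := fun n l hl w =>
    ex_last' hl true n w
  cases l with
  | nil => simp at hl
  | cons x l =>
    have hx := e3 x (by simp)
    have hg : ∀ n m : ℕ, Ge c ((x + n) :: l ++ [y + m]) := by
      intro n m w hw
      rw [List.cons_append, List.mem_cons, List.mem_append, List.mem_singleton] at hw
      rcases hw with rfl | hw | rfl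
      · omega
      · exact e3 w (by simp [hw])
      · omega
    have hlen : ∀ n m : ℕ, Even ((x + n) :: l ++ [y + m]).length := by
      intro n m
      simpa using e2
    have hodd : ∀ n : ℕ, Odd ((x + n) :: l).length := by
      intro n
      simpa using hl
    refine ⟨⟨_, by simp, hlen 0 0, hg 0 0, e1⟩, ⟨_, by simp, hlen 1 0, hg 1 0, ?_⟩,
      ⟨_, by simp, hlen 0 1, hg 0 1, ?_⟩, ⟨_, by simp, hlen 1 1, hg 1 1, ?_⟩,
      ⟨_, by simp, hlen 1 2, hg 1 2, ?_⟩, ⟨_, by simp, hlen 2 2, hg 2 2, ?_⟩⟩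
    · intro w
      rw [e1]
      change (true :: ex true (x :: (l ++ [y]))) ++ w = _
      rw [ex_succ]
      rfl
    · intro w
      rw [e1, last _ _ hl]
      rfl
    · intro w
      rw [e1, last _ _ hl]
      change (true :: ex true (x :: (l ++ [y + 1]))) ++ w = _
      rw [ex_succ]
      rfl
    · intro w
      rw [e1, last _ _ hl, last _ _ hl]
      change (true :: ex true (x :: (l ++ [y + 1 + 1]))) ++ w = _
      rw [ex_succ]
      rfl
    · intro w
      rw [e1, last _ _ hl, last _ _ hl]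
      change (true :: true :: ex true (x :: (l ++ [y + 1 + 1]))) ++ w = _
      rw [ex_succ, ex_succ]
      rfl

theorem wd_q (q : ℕ) : wd (pc (q + 1)) = List.replicate (q + 1) true ++ List.replicate (q + 1) false :=
  wd_pc _

theorem rep1 (n : ℕ) (b : Bool) (w : List Bool) :
    List.replicate n b ++ b :: w = List.replicate (n + 1) b ++ w := by
  rw [List.replicate_succ', List.append_assoc]
  rfl

/-- **the form of the words `j`** which are not ends of links -/
theorem NodeM.form (h : NodeM k q R B S) {j : ℕ} (hj : j ∈ [0, 1, 2, 3, 4, 5, 6, 7, 8, 9, 13, 16, 18, 19]) :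
    (∃ r N : List ℕ, r ≠ [] ∧ Ge (q + 3) r ∧ N ∈ NS q ∧ wd (W R (pc (q + 1)) B S j) = ex true (r ++ N) ∧
      (N = [q + 3, q + 3] → j = 0)) ∨
    (∃ r N : List ℕ, Ge 1 r ∧ N ∈ NP q ∧ wd (W R (pc (q + 1)) B S j) = ex true (N ++ r)) ∨
    (∃ l : List ℕ, Ge 1 l ∧ wd (W R (pc (q + 1)) B S j) = ex true (1 :: l)) ∨
    (∃ l : List ℕ, Ge 1 l ∧ wd (W R (pc (q + 1)) B S j) = ex true (l ++ [1])) := by
  have hc : 2 ≤ q + 3 := by omega
  have hR := h.ne
  have hSn : S ≠ .nil := by
    rintro rfl
    have h1 := h.dat.htS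
    have h2 := h.top
    rw [ht] at h1
    omega
  have hB : ∀ x ∈ cont B, q + 3 ≤ x := by
    intro x hx
    apply h.part
    rw [← h.eq]
    exact Multiset.mem_add.2 (Or.inl hx)
  have hS : ∀ x ∈ cont S, q + 3 ≤ x := by
    intro x hx
    apply h.part
    rw [← h.eq]
    exact Multiset.mem_add.2 (Or.inr hx)
  obtain ⟨⟨r0, a1, a2, a3, a4⟩, ⟨r1, b1, b2, b3, b4⟩, ⟨r2, c1, c2, c3, c4⟩, ⟨r3, d1, d2, d3, d4⟩, _,
    ⟨r5, f1, f2, f3, f4⟩⟩ := runs_of hc hR h.part
  obtain ⟨⟨s0, g1, g2, g3, g4⟩, ⟨s1, k1, k2, k3, k4⟩, _, _, _, _⟩ := runs_of hc hSn hS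
  have one : ∀ {c : ℕ} {r : List ℕ}, Ge (c + 3) r → Ge 1 r := fun h x hx => by
    have := h x hx; omega
  simp only [List.mem_cons, List.not_mem_nil, or_false] at hj
  rcases hj with rfl | rfl | rfl | rfl | rfl | rfl | rfl | rfl | rfl | rfl | rfl | rfl | rfl | rfl
  · -- 0
    left
    refine ⟨r0, [q + 3, q + 3], a1, a3, by simp [NS], ?_, fun _ => rfl⟩
    change wd (app R (pc (q + 3))) = _
    rw [wd_app, a4, wd_pc, ex_even a2]
    simp [ex]
  · -- 1
    right; right; right
    refine ⟨r0 ++ [1, 1, q + 1, q + 1, 1], ?_, ?_⟩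
    · intro x hx
      rcases List.mem_append.1 hx with hx | hx
      · exact one a3 x hx
      · simp at hx; omega
    · change wd (app R (.nil △ app (pc (q + 1)) (.nil △ .nil))) = _
      rw [wd_app, wd_node, wd_app, wd_node, a4, wd_q, List.append_assoc, List.append_assoc, ex_even a2]
      simp [ex, wd]
  · -- 2
    right; right; left
    refine ⟨1 :: (r0 ++ [1, 1, q + 1, q + 1]), ?_, ?_⟩
    · intro x hx
      rcases List.mem_cons.1 hx with rfl | hx
      · exact le_rfl
      · rcases List.mem_append.1 hx with hx | hx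
        · exact one a3 x hx
        · simp at hx; omega
    · change wd (.nil △ app R (.nil △ pc (q + 1))) = _
      rw [wd_node, wd_app, wd_node, a4, wd_q, ex_cons, ex_cons, Bool.not_not, ex_even a2]
      simp [ex, wd]
  · -- 3
    left
    refine ⟨r1, [1, 1, q + 1, q + 2], b1, b3, by simp [NS], ?_, by intro e; simp at e⟩
    change wd (app R (.nil △ pc (q + 1)) △ .nil) = _
    rw [wd_node, wd_app, wd_node, wd_q, List.append_assoc, b4, ex_even b2]
    simp [ex, wd, rep1, List.replicate_succ]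
  · -- 4
    right; left
    refine ⟨r0, [q + 2, q + 1, 1, 2], one a3, by simp [NP], ?_⟩
    change wd (app (pc (q + 1)) (.nil △ .nil) △ R) = _
    rw [wd_node, wd_app, wd_node, wd_q, a4]
    simp [ex, wd, rep1, List.replicate_succ]
  · -- 5
    right; left
    refine ⟨r0, [q + 2, q + 2, 1, 1], one a3, by simp [NP], ?_⟩
    change wd (pc (q + 1) △ (.nil △ R)) = _
    rw [wd_node, wd_node, wd_q, a4]
    simp [ex, wd, rep1, List.replicate_succ]
  · -- 6
    left
    refine ⟨r3, [q + 2, q + 2], d1, d3, by simp [NS], ?_, by intro e; simp at e⟩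
    change wd (R △ (pc (q + 1) △ .nil)) = _
    rw [wd_node, wd_node, wd_q, d4, ex_even d2]
    simp [ex, wd, rep1, List.replicate_succ]
  · -- 7
    right; left
    refine ⟨r2, [q + 1, q + 1, 2, 1], one c3, by simp [NP], ?_⟩
    change wd (app (pc (q + 1)) ((.nil △ R) △ .nil)) = _
    rw [wd_app, wd_node, wd_node, wd_q]
    have := c4 []
    rw [List.append_nil] at this
    simp [ex, wd, ← this]
  · -- 8
    right; left
    refine ⟨r3, [q + 1, q + 1, 1, 1], one d3, by simp [NP], ?_⟩
    change wd (app (pc (q + 1)) (.nil △ (R △ .nil))) = _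
    rw [wd_app, wd_node, wd_node, wd_q]
    have := d4 []
    rw [List.append_nil] at this
    simp [ex, wd, ← this]
  · -- 9
    left
    refine ⟨r5, [q + 1, q + 1], f1, f3, by simp [NS], ?_, by intro e; simp at e⟩
    change wd ((R △ .nil) △ pc (q + 1)) = _
    rw [wd_node, wd_node, wd_q, ex_even f2, ← f4]
    simp [ex, wd]
  · -- 13
    left
    by_cases hBn : B = .nil
    · subst hBn
      refine ⟨s0, [2, 1, q + 1, q + 2], g1, g3, by simp [NS], ?_, by intro e; simp at e⟩
      change wd (app S (app .nil (.nil △ pc (q + 1)) △ .nil)) = _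
      rw [wd_app, wd_node, app, wd_node, wd_q, g4, ex_even g2]
      simp [ex, wd, rep1, List.replicate_succ]
    · obtain ⟨_, ⟨t1, l1, l2, l3, l4⟩, _, _, _, _⟩ := runs_of hc hBn hB
      refine ⟨s0 ++ t1, [1, 1, q + 1, q + 2], by simp [g1], ?_, by simp [NS], ?_, by intro e; simp at e⟩
      · intro x hx
        rcases List.mem_append.1 hx with hx | hx
        · exact g3 x hx
        · exact l3 x hx
      · change wd (app S (app B (.nil △ pc (q + 1)) △ .nil)) = _
        rw [wd_app, wd_node, wd_app, wd_node, wd_q, g4, List.append_assoc, l4, List.append_assoc,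
          ex_even g2, ex_even l2]
        simp [ex, wd, rep1, List.replicate_succ]
  · -- 16
    left
    by_cases hBn : B = .nil
    · subst hBn
      refine ⟨s0, [1, 1, q + 2, q + 2], g1, g3, by simp [NS], ?_, by intro e; simp at e⟩
      change wd (app S (.nil △ (pc (q + 1) △ .nil))) = _
      rw [wd_app, wd_node, wd_node, wd_q, g4, ex_even g2]
      simp [ex, wd, rep1, List.replicate_succ]
    · obtain ⟨_, _, _, ⟨t3, l1, l2, l3, l4⟩, _, _⟩ := runs_of hc hBn hB
      refine ⟨s0 ++ t3, [q + 2, q + 2], by simp [g1], ?_, by simp [NS], ?_, by intro e; simp at e⟩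
      · intro x hx
        rcases List.mem_append.1 hx with hx | hx
        · exact g3 x hx
        · exact l3 x hx
      · change wd (app S (B △ (pc (q + 1) △ .nil))) = _
        rw [wd_app, wd_node, wd_node, wd_q, g4, l4,
          show s0 ++ t3 ++ [q + 2, q + 2] = s0 ++ (t3 ++ [q + 2, q + 2]) from List.append_assoc _ _ _,
          ex_even g2, ex_even l2]
        simp [ex, wd, rep1, List.replicate_succ]
  · -- 18
    right; left
    by_cases hBn : B = .nil
    · subst hBn
      refine ⟨s0 ++ [1, 1], [q + 1, q + 1, 1, 1], ?_, by simp [NP], ?_⟩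
      · intro x hx
        rcases List.mem_append.1 hx with hx | hx
        · exact one g3 x hx
        · simp at hx; omega
      · change wd (app (pc (q + 1)) (.nil △ app S (.nil △ .nil))) = _
        rw [wd_app, wd_node, wd_app, wd_node, wd_q, g4]
        have e1 := ex_even g2 true [1, 1]
        simp [ex, wd] at e1 ⊢
        rw [e1]
    · obtain ⟨_, _, _, ⟨t3, l1, l2, l3, l4⟩, _, _⟩ := runs_of hc hBn hB
      refine ⟨s0 ++ t3, [q + 1, q + 1, 1, 1], ?_, by simp [NP], ?_⟩
      · intro x hx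
        rcases List.mem_append.1 hx with hx | hx
        · exact one g3 x hx
        · exact one l3 x hx
      · change wd (app (pc (q + 1)) (.nil △ app S (B △ .nil))) = _
        have l5 := l4 []
        rw [wd_app, wd_node, wd_app, wd_node, wd_q, g4]
        have e1 := ex_even g2 true t3
        simp [ex, wd] at l5 e1 ⊢
        rw [e1, l5]
  · -- 19
    left
    by_cases hBn : B = .nil
    · subst hBn
      refine ⟨s1, [1, 2, q + 1, q + 1], k1, k3, by simp [NS], ?_, by intro e; simp at e⟩
      change wd (app S (.nil △ .nil) △ pc (q + 1)) = _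
      rw [wd_node, wd_app, wd_node, wd_q, List.append_assoc, k4, ex_even k2]
      simp [ex, wd, rep1, List.replicate_succ]
    · obtain ⟨_, _, _, _, ⟨t4, l1, l2, l3, l4⟩, _⟩ := runs_of hc hBn hB
      refine ⟨s1 ++ t4, [q + 1, q + 1], by simp [k1], ?_, by simp [NS], ?_, by intro e; simp at e⟩
      · intro x hx
        rcases List.mem_append.1 hx with hx | hx
        · exact k3 x hx
        · exact l3 x hx
      · change wd (app S (B △ .nil) △ pc (q + 1)) = _
        rw [wd_node, wd_app, wd_node, wd_q, List.append_assoc, k4, List.append_assoc, ex_even k2,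
          ex_even l2]
        have l5 := l4 (ex true [q + 1, q + 1])
        simp [ex, wd] at l5 ⊢
        rw [l5]

/-- all runs of an inner word are positive -/
theorem ge_mid {q i : ℕ} {ζ η : List ℕ} (hi : i ∈ [0, 1, 3, 6, 8, 9]) (h1 : Ge (q + 3) ζ)
    (h2 : Ge (q + 3) η) : Ge 1 (ζ ++ (mr q i ++ η)) := by
  intro x hx
  rcases List.mem_append.1 hx with hx | hx
  · have := h1 x hx; omega
  · rcases List.mem_append.1 hx with hx | hx
    · simp only [List.mem_cons, List.not_mem_nil, or_false] at hi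
      rcases hi with rfl | rfl | rfl | rfl | rfl | rfl <;> simp [mr] at hx <;> omega
    · have := h2 x hx; omega

/-- **inner words of bare windows against the words of bare windows** -/
theorem NodeM.inner_lo (h : NodeM k q R B S) {q' : ℕ} {R' B' S' : BinaryTree Unit}
    (h' : NodeM k q' R' B' S') (w0 : X k) {i j : ℕ} (hi : i ∈ [0, 1, 3, 6, 8, 9])
    (hj : j ∈ [0, 1, 2, 3, 4, 5, 6, 7, 8, 9, 13, 16, 18, 19])
    (e : TT (wX R B S q w0 i) = wX R' B' S' q' w0 j) : i = 0 ∧ j = 0 := by
  have hj20 : j < 20 := by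
    simp only [List.mem_cons, List.not_mem_nil, or_false] at hj
    omega
  have e0 : wd (TT (wX R B S q w0 i)).1 = wd (W R' (pc (q' + 1)) B' S' j) := by
    rw [e, wX_eq h'.dat h'.size w0 hj20, ch_eq]
  obtain ⟨ζ, η, f1, f2, f3, f4, f5⟩ := h.runs w0 hi
  have f6 := ge_mid hi f4 f5
  have hζ : ζ ≠ [] := by rintro rfl; simp at f2
  have hη : η ≠ [] := by rintro rfl; simp at f3
  rcases h'.form hj with ⟨r, N, g1, g2, g3, g4, g5⟩ | ⟨r, N, g1, g3, g4⟩ | ⟨l, g1, g2⟩ | ⟨l, g1, g2⟩
  · have gp : Ge 1 (r ++ N) := by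
      intro x hx
      rcases List.mem_append.1 hx with hx | hx
      · have := g2 x hx; omega
      · simp only [NS, List.mem_cons, List.not_mem_nil, or_false] at g3
        rcases g3 with rfl | rfl | rfl | rfl | rfl | rfl | rfl <;> simp at hx <;> omega
    have e2 : ζ ++ (mr q i ++ η) = r ++ N := ex_inj _ _ true f6 gp (by rw [← f1, e0, g4])
    obtain ⟨k1, k2⟩ := core_S hi hζ f3 f4 f5 g1 g2 g3 e2
    exact ⟨k1, g5 k2⟩
  · exfalso
    have gp : Ge 1 (N ++ r) := by
      intro x hx
      rcases List.mem_append.1 hx with hx | hx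
      · simp only [NP, List.mem_cons, List.not_mem_nil, or_false] at g3
        rcases g3 with rfl | rfl | rfl | rfl <;> simp at hx <;> omega
      · exact g1 x hx
    have e2 : ζ ++ (mr q i ++ η) = N ++ r := ex_inj _ _ true f6 gp (by rw [← f1, e0, g4])
    exact core_P hi f2 f4 g3 e2
  · exfalso
    have gp : Ge 1 (1 :: l) := by
      intro x hx
      rcases List.mem_cons.1 hx with rfl | hx
      · exact le_rfl
      · exact g1 x hx
    have e2 : ζ ++ (mr q i ++ η) = 1 :: l := ex_inj _ _ true f6 gp (by rw [← f1, e0, g2])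
    cases ζ with
    | nil => exact hζ rfl
    | cons z ζ =>
      rw [List.cons_append, List.cons.injEq] at e2
      have := f4 z (by simp)
      omega
  · exfalso
    have gp : Ge 1 (l ++ [1]) := by
      intro x hx
      rcases List.mem_append.1 hx with hx | hx
      · exact g1 x hx
      · simp at hx; omega
    have e2 : ζ ++ (mr q i ++ η) = l ++ [1] := ex_inj _ _ true f6 gp (by rw [← f1, e0, g2])
    obtain ⟨η', y, rfl⟩ := exists_snoc hη
    rw [← List.append_assoc, ← List.append_assoc] at e2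
    have e3 := (List.append_inj' e2 rfl).2
    have := f5 y (by simp)
    simp at e3
    omega

/-- **inner words of bare windows against the words of bare windows** -/
theorem NodeM.inner_raw (h : NodeM k q R B S) {q' : ℕ} {R' B' S' : BinaryTree Unit}
    (h' : NodeM k q' R' B' S') (w0 : X k) {i j : ℕ} (hi : i ∈ [0, 1, 3, 6, 8, 9])
    (hj : j < 20) (e : TT (wX R B S q w0 i) = wX R' B' S' q' w0 j) : i = 0 ∧ (j = 0 ∨ j = 10) := by
  by_cases hl : j ∈ [0, 1, 2, 3, 4, 5, 6, 7, 8, 9, 13, 16, 18, 19]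
  · obtain ⟨h1, h2⟩ := h.inner_lo h' w0 hi hl e
    exact ⟨h1, Or.inl h2⟩
  · have h3 : ∃ i' ∈ [0, 1, 3, 6, 8, 9],
        (i', j) ∈ [(0, 10), (1, 11), (3, 12), (6, 15), (8, 14), (9, 17)] := by
      simp only [List.mem_cons, List.not_mem_nil, or_false, not_or] at hl
      have : j = 10 ∨ j = 11 ∨ j = 12 ∨ j = 14 ∨ j = 15 ∨ j = 17 := by omega
      rcases this with rfl | rfl | rfl | rfl | rfl | rfl
      · exact ⟨0, by simp, by simp⟩
      · exact ⟨1, by simp, by simp⟩
      · exact ⟨3, by simp, by simp⟩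
      · exact ⟨8, by simp, by simp⟩
      · exact ⟨6, by simp, by simp⟩
      · exact ⟨9, by simp, by simp⟩
    obtain ⟨i', h4, h5⟩ := h3
    rw [← wX_link h'.dat h'.size w0 h5] at e
    have h6 := TT.injective e
    have h7 : i ∈ [0, 1, 2, 3, 4, 5, 6, 7, 8, 9, 13, 16, 18, 19] := by
      simp only [List.mem_cons, List.not_mem_nil, or_false] at hi ⊢
      omega
    obtain ⟨h8, h9⟩ := h'.inner_lo h w0 h4 h7 h6.symm
    refine ⟨h9, Or.inr ?_⟩
    subst h8
    simp at h5
    exact h5

/-- the same for the mirrored windows -/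
theorem NodeM.innerM (h : NodeM k q R B S) {q' : ℕ} {R' B' S' : BinaryTree Unit}
    (h' : NodeM k q' R' B' S') (w0 : X k) {i i' j : ℕ}
    (hi : (i, i') ∈ [(0, 10), (1, 11), (3, 12), (6, 15), (8, 14), (9, 17)])
    (hj : j < 20) (e : TT (mX R B S q w0 i') = mX R' B' S' q' w0 j) : i = 0 ∧ (j = 0 ∨ j = 10) := by
  rw [inner_mir h w0 hi] at e
  have e1 : TT (wX R B S q w0 i) = wX R' B' S' q' w0 j := by
    have e2 := congrArg Tsq.mirX e
    rw [mirX_mirX] at e2
    rw [e2]
    exact mirX_mirX _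
  refine h.inner_raw h' w0 ?_ hj e1
  simp only [List.mem_cons, List.not_mem_nil, or_false, Prod.mk.injEq] at hi ⊢
  omega

end HM

open HM Equiv Pool.Agent.Work.MP_8f87b2_co

variable {k : ℕ} {F F' : Set (Cyc k)} {g g' : DG k}

theorem mX_w0 {k q : ℕ} {R B S : BinaryTree Unit} (h : NodeM k q R B S) (w0 w0' : X k) {j : ℕ}
    (hj : j < 20) : mX R B S q w0' j = mX R B S q w0 j := by
  apply Subtype.ext
  rw [h.word w0' hj, h.word w0 hj]

/-- a word which is an inner word of the T-cycle `z` only -/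
theorem inner_core {q q' : ℕ} {R B S R' B' S' : BinaryTree Unit} {w0 w0' : X k}
    (h1 : NodeM k q R B S) (h1' : NodeM k q' R' B' S')
    (hd : cyc (mX R B S q w0 0) ≠ cyc (mX R' B' S' q' w0' 0)) {i i' j : ℕ}
    (hi : (i, i') ∈ [(0, 10), (1, 11), (3, 12), (6, 15), (8, 14), (9, 17)]) (hj : j < 20)
    (e : TT (mX R B S q w0 i') = mX R' B' S' q' w0' j) : False := by
  rw [mX_w0 h1' w0 w0' hj] at e
  rw [mX_w0 h1' w0 w0' (show 0 < 20 by norm_num)] at hd
  obtain ⟨rfl, hj0⟩ := h1.innerM h1' w0 hi hj e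
  have hi' : i' = 10 := by simpa using hi
  subst hi'
  apply hd
  have s1 : (TT : Perm (X k)).SameCycle (mX R B S q w0 10) (TT (mX R B S q w0 10)) := ⟨1, by simp⟩
  have s2 := (h1.same10 w0).trans s1
  rw [e] at s2
  rcases hj0 with rfl | rfl
  · exact cyc_eq.2 s2
  · exact cyc_eq.2 (s2.trans (h1'.same10 w0).symm)

/-- **row I-A0-A0** -/
theorem TyA0.inner_A0r (h : TyA0 F g) (h' : TyA0 F' g') (hd : ∀ c ∈ F, c ∉ F') :
    ∀ p ∈ g.arcs, ∀ w ∈ innA p, w ∉ g'.B := by
  obtain ⟨q, R, B, S, w0, h1, hne, rfl, rfl⟩ := h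
  obtain ⟨q', R', B', S', w0', h1', hne', rfl, rfl⟩ := h'
  intro p hp w hw hw'
  obtain ⟨j, hj, e⟩ := mem_gad20M.1 hw'
  have hc : cyc (mX R B S q w0 0) ≠ cyc (mX R' B' S' q' w0' 0) := fun e => hd _ rfl e
  have hw2 : w = TT p.1 := hw
  have hp' : p = (mX R B S q w0 10, mX R B S q w0 0) ∨ p = (mX R B S q w0 11, mX R B S q w0 1) ∨
      p = (mX R B S q w0 12, mX R B S q w0 3) ∨ p = (mX R B S q w0 15, mX R B S q w0 6) ∨
      p = (mX R B S q w0 14, mX R B S q w0 8) ∨ p = (mX R B S q w0 17, mX R B S q w0 9) := hp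
  rcases hp' with rfl | rfl | rfl | rfl | rfl | rfl
  · exact inner_core h1 h1' hc (i := 0) (i' := 10) (by simp) hj (hw2.symm.trans e.symm)
  · exact inner_core h1 h1' hc (i := 1) (i' := 11) (by simp) hj (hw2.symm.trans e.symm)
  · exact inner_core h1 h1' hc (i := 3) (i' := 12) (by simp) hj (hw2.symm.trans e.symm)
  · exact inner_core h1 h1' hc (i := 6) (i' := 15) (by simp) hj (hw2.symm.trans e.symm)
  · exact inner_core h1 h1' hc (i := 8) (i' := 14) (by simp) hj (hw2.symm.trans e.symm)
  · exact inner_core h1 h1' hc (i := 9) (i' := 17) (by simp) hj (hw2.symm.trans e.symm)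

/-- **row I-A0-B0** -/
theorem TyA0.inner_B0 (h : TyA0 F g) (h' : TyB0 F' g') (hd : ∀ c ∈ F, c ∉ F') :
    ∀ p ∈ g.arcs, ∀ w ∈ innA p, w ∉ g'.B := by
  obtain ⟨q, R, B, S, w0, h1, hne, rfl, rfl⟩ := h
  obtain ⟨q', R', B', S', w0', h1', hne', h12', h18', rfl, rfl⟩ := h'
  intro p hp w hw hw'
  obtain ⟨j, hj, _, e⟩ := mem_gadSM.1 hw'
  have hc : cyc (mX R B S q w0 0) ≠ cyc (mX R' B' S' q' w0' 0) := fun e => hd _ rfl (Or.inl e)
  have hw2 : w = TT p.1 := hw
  have hp' : p = (mX R B S q w0 10, mX R B S q w0 0) ∨ p = (mX R B S q w0 11, mX R B S q w0 1) ∨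
      p = (mX R B S q w0 12, mX R B S q w0 3) ∨ p = (mX R B S q w0 15, mX R B S q w0 6) ∨
      p = (mX R B S q w0 14, mX R B S q w0 8) ∨ p = (mX R B S q w0 17, mX R B S q w0 9) := hp
  rcases hp' with rfl | rfl | rfl | rfl | rfl | rfl
  · exact inner_core h1 h1' hc (i := 0) (i' := 10) (by simp) hj (hw2.symm.trans e.symm)
  · exact inner_core h1 h1' hc (i := 1) (i' := 11) (by simp) hj (hw2.symm.trans e.symm)
  · exact inner_core h1 h1' hc (i := 3) (i' := 12) (by simp) hj (hw2.symm.trans e.symm)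
  · exact inner_core h1 h1' hc (i := 6) (i' := 15) (by simp) hj (hw2.symm.trans e.symm)
  · exact inner_core h1 h1' hc (i := 8) (i' := 14) (by simp) hj (hw2.symm.trans e.symm)
  · exact inner_core h1 h1' hc (i := 9) (i' := 17) (by simp) hj (hw2.symm.trans e.symm)

/-- the three links of a B0 gadget are never on its new T-cycles: no hypothesis on `F`, `F'` is needed -/
theorem inner_core' {q q' : ℕ} {R B S R' B' S' : BinaryTree Unit} {w0 w0' : X k}
    (h1 : NodeM k q R B S) (h1' : NodeM k q' R' B' S') {i i' j : ℕ}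
    (hi : (i, i') ∈ [(3, 12), (6, 15), (8, 14)]) (hj : j < 20)
    (e : TT (mX R B S q w0 i') = mX R' B' S' q' w0' j) : False := by
  rw [mX_w0 h1' w0 w0' hj] at e
  have hi2 : (i, i') ∈ [(0, 10), (1, 11), (3, 12), (6, 15), (8, 14), (9, 17)] := by
    simp only [List.mem_cons, List.not_mem_nil, or_false, Prod.mk.injEq] at hi ⊢
    omega
  obtain ⟨h2, _⟩ := h1.innerM h1' w0 hi2 hj e
  simp only [List.mem_cons, List.not_mem_nil, or_false, Prod.mk.injEq] at hi
  omega

/-- **row I-B0-A0** -/
theorem TyB0.inner_A0 (h : TyB0 F g) (h' : TyA0 F' g') :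
    ∀ p ∈ g.arcs, ∀ w ∈ innA p, w ∉ g'.B := by
  obtain ⟨q, R, B, S, w0, h1, hne, h12, h18, rfl, rfl⟩ := h
  obtain ⟨q', R', B', S', w0', h1', hne', rfl, rfl⟩ := h'
  intro p hp w hw hw'
  obtain ⟨j, hj, e⟩ := mem_gad20M.1 hw'
  have hw2 : w = TT p.1 := hw
  have hp' : p = (mX R B S q w0 12, mX R B S q w0 3) ∨ p = (mX R B S q w0 15, mX R B S q w0 6) ∨
      p = (mX R B S q w0 14, mX R B S q w0 8) := hp
  rcases hp' with rfl | rfl | rfl
  · exact inner_core' h1 h1' (i := 3) (i' := 12) (by simp) hj (hw2.symm.trans e.symm)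
  · exact inner_core' h1 h1' (i := 6) (i' := 15) (by simp) hj (hw2.symm.trans e.symm)
  · exact inner_core' h1 h1' (i := 8) (i' := 14) (by simp) hj (hw2.symm.trans e.symm)

/-- **row I-B0-B0** -/
theorem TyB0.inner_B0 (h : TyB0 F g) (h' : TyB0 F' g') :
    ∀ p ∈ g.arcs, ∀ w ∈ innA p, w ∉ g'.B := by
  obtain ⟨q, R, B, S, w0, h1, hne, h12, h18, rfl, rfl⟩ := h
  obtain ⟨q', R', B', S', w0', h1', hne', h12', h18', rfl, rfl⟩ := h'
  intro p hp w hw hw'
  obtain ⟨j, hj, _, e⟩ := mem_gadSM.1 hw'
  have hw2 : w = TT p.1 := hw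
  have hp' : p = (mX R B S q w0 12, mX R B S q w0 3) ∨ p = (mX R B S q w0 15, mX R B S q w0 6) ∨
      p = (mX R B S q w0 14, mX R B S q w0 8) := hp
  rcases hp' with rfl | rfl | rfl
  · exact inner_core' h1 h1' (i := 3) (i' := 12) (by simp) hj (hw2.symm.trans e.symm)
  · exact inner_core' h1 h1' (i := 6) (i' := 15) (by simp) hj (hw2.symm.trans e.symm)
  · exact inner_core' h1 h1' (i := 8) (i' := 14) (by simp) hj (hw2.symm.trans e.symm)

end Pool.OddHC
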