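import Pool.Agent.Work.MP_8f87b2_h60.InAA

/-!
# MP_8f87b2_co: inner words, windows with `H = ()^m (())^a` against the mirrored bare windows: rows I-A-A0, I-A0-A (and B0)

`TyAp`: TYPE A with `H = lv m (lv2 a .nil)`, `1 ≤ m`, `1 ≤ a ∨ m = 1`.
-/

set_option autoImplicit false
set_option linter.unusedSimpArgs false

namespace Pool.OddHC

namespace HM

open BinaryTree H1 List

variable {k q : ℕ} {R B S : BinaryTree Unit}

/-! ### Lists of runs -/

/-- the first small entry is determined -/
theorem first_small : ∀ (A b : List ℕ) (u v : ℕ) (A' b' : List ℕ), Ge 3 A → Ge 3 b → u < 3 → v < 3 →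
    A ++ (u :: A') = b ++ (v :: b') → A = b ∧ u = v ∧ A' = b' := by
  intro A
  induction A with
  | nil =>
    intro b u v A' b' _ hb hu hv e
    cases b with
    | nil =>
      rw [List.nil_append, List.nil_append, List.cons.injEq] at e
      exact ⟨rfl, e.1, e.2⟩
    | cons y b =>
      rw [List.nil_append, List.cons_append, List.cons.injEq] at e
      have := hb y (by simp)
      omega
  | cons x A ih =>
    intro b u v A' b' hA hb hu hv e
    cases b with
    | nil =>
      rw [List.nil_append, List.cons_append, List.cons.injEq] at e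
      have := hA x (by simp)
      omega
    | cons y b =>
      rw [List.cons_append, List.cons_append, List.cons.injEq] at e
      obtain ⟨h1, h2, h3⟩ := ih b u v A' b' (fun z hz => hA z (by simp [hz]))
        (fun z hz => hb z (by simp [hz])) hu hv e.2
      exact ⟨by rw [e.1, h1], h2, h3⟩

theorem odd_ne {l : List ℕ} (h : Odd l.length) : ∃ x l', l = x :: l' := by
  cases l with
  | nil => simp at h
  | cons x l => exact ⟨x, l, rfl⟩

theorem rep_inj : ∀ (j n u w : ℕ) (l r : List ℕ), u ≠ 1 → w ≠ 1 →
    List.replicate j 1 ++ (u :: l) = List.replicate n 1 ++ (w :: r) → j = n ∧ u = w ∧ l = r := by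
  intro j
  induction j with
  | zero =>
    intro n u w l r hu hw e
    cases n with
    | zero =>
      simp only [List.replicate_zero, List.nil_append, List.cons.injEq] at e
      exact ⟨rfl, e.1, e.2⟩
    | succ n =>
      rw [List.replicate_succ] at e
      simp only [List.replicate_zero, List.nil_append, List.cons_append, List.cons.injEq] at e
      exact absurd e.1 hu
  | succ j ih =>
    intro n u w l r hu hw e
    cases n with
    | zero =>
      rw [List.replicate_succ] at e
      simp only [List.replicate_zero, List.nil_append, List.cons_append, List.cons.injEq] at e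
      exact absurd e.1.symm hw
    | succ n =>
      rw [List.replicate_succ, List.replicate_succ] at e
      simp only [List.cons_append, List.cons.injEq, true_and] at e
      obtain ⟨h1, h2, h3⟩ := ih n u w l r hu hw e
      exact ⟨by omega, h2, h3⟩

/-- **inner words of bare windows against the words with a bead block** -/
theorem core_A {q i x n w : ℕ} {ζ η p rest : List ℕ} (hi : i ∈ [0, 1, 3, 6, 8, 9]) (hζ : Odd ζ.length)
    (hη : Odd η.length) (gz : Ge 3 ζ) (gη : Ge 3 η) (hp : Even p.length) (gp : Ge 3 p)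
    (hx : x = 2 ∨ (p = [] ∧ 3 ≤ x)) (hw : 2 ≤ w) (ht : n = 0 ∨ (w = 2 ∧ ∃ r', rest = 2 :: r'))
    (e : ζ ++ (mr q i ++ η) = p ++ (x :: (List.replicate (2 * n + 1) 1 ++ (w :: rest)))) : False := by
  obtain ⟨h0, η', rfl⟩ := odd_ne hη
  have hh : 3 ≤ h0 := gη h0 (by simp)
  have rep : List.replicate (2 * n + 1) 1 = 1 :: List.replicate (2 * n) 1 := List.replicate_succ
  have h1 : 1 ∈ mr q i := by
    have h2 : 1 ∈ ζ ++ (mr q i ++ (h0 :: η')) := by rw [e, rep]; simp
    rw [List.mem_append, List.mem_append] at h2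
    rcases h2 with h2 | h2 | h2
    · have := gz 1 h2; omega
    · exact h2
    · have := gη 1 h2; omega
  have ones : ∀ (j u : ℕ) (l : List ℕ), u ≠ 1 → ¬ Odd j →
      List.replicate j 1 ++ (u :: l) = List.replicate (2 * n + 1) 1 ++ (w :: rest) → False := by
    intro j u l hu hj e
    obtain ⟨h2, -, -⟩ := rep_inj j (2 * n + 1) u w l rest hu (by omega) e
    exact hj ⟨n, h2⟩
  have o2 : ∀ (u : ℕ) (l : List ℕ), u ≠ 1 →
      1 :: 1 :: u :: l = List.replicate (2 * n + 1) 1 ++ (w :: rest) → False := by
    intro u l hu e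
    exact ones 2 u l hu (by decide) e
  have o6 : ∀ (u : ℕ) (l : List ℕ), u ≠ 1 →
      1 :: 1 :: 1 :: 1 :: 1 :: 1 :: u :: l = List.replicate (2 * n + 1) 1 ++ (w :: rest) → False := by
    intro u l hu e
    exact ones 6 u l hu (by decide) e
  rcases hx with rfl | ⟨rfl, hx⟩
  · -- `x = 2`
    simp only [List.mem_cons, List.not_mem_nil, or_false] at hi
    rcases hi with rfl | rfl | rfl | rfl | rfl | rfl
    · simp [mr] at h1
    · obtain ⟨_, h3, _⟩ := first_small ζ p 1 2 _ _ gz gp (by omega) (by omega) e
      omega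
    · obtain ⟨_, h3, _⟩ := first_small ζ p 1 2 _ _ gz gp (by omega) (by omega) e
      omega
    · simp [mr] at h1
    · rcases Nat.lt_or_ge q 2 with hq | hq
      · interval_cases q
        · obtain ⟨h2, _, _⟩ := first_small ζ p 2 2 _ _ gz gp (by omega) (by omega) e
          rw [h2] at hζ
          exact (Nat.not_even_iff_odd.2 hζ) hp
        · have e' : (ζ ++ [3]) ++ (2 :: (1 :: 1 :: h0 :: η')) =
              p ++ (2 :: (List.replicate (2 * n + 1) 1 ++ (w :: rest))) := by
            rw [← e]; simp [mr]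
          obtain ⟨_, _, h3⟩ := first_small (ζ ++ [3]) p 2 2 _ _ (by
            intro y hy
            rcases List.mem_append.1 hy with hy | hy
            · exact gz y hy
            · simp at hy; omega) gp (by omega) (by omega) e'
          exact o2 h0 η' (by omega) h3
      · have e' : (ζ ++ [q + 2, q + 1]) ++ (1 :: (1 :: h0 :: η')) =
              p ++ (2 :: (List.replicate (2 * n + 1) 1 ++ (w :: rest))) := by
            rw [← e]; simp [mr]
        obtain ⟨_, h3, _⟩ := first_small (ζ ++ [q + 2, q + 1]) p 1 2 _ _ (by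
            intro y hy
            rcases List.mem_append.1 hy with hy | hy
            · exact gz y hy
            · simp at hy; omega) gp (by omega) (by omega) e'
        omega
    · obtain rfl : q = 0 := by simp [mr] at h1; omega
      obtain ⟨_, h3, _⟩ := first_small ζ p 1 2 _ _ gz gp (by omega) (by omega) e
      omega
  · -- `p = []`
    rw [rep] at e
    have gx : Ge 3 [x] := by intro y hy; simp at hy; omega
    have rep' : ∀ l : List ℕ, (List.replicate (2 * n) 1 ++ (w :: rest)) = l →
        1 :: l = List.replicate (2 * n + 1) 1 ++ (w :: rest) := by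
      rintro l rfl
      rw [rep]; rfl
    simp only [List.mem_cons, List.not_mem_nil, or_false] at hi
    rcases hi with rfl | rfl | rfl | rfl | rfl | rfl
    · simp [mr] at h1
    · obtain ⟨_, _, h3⟩ := first_small ζ [x] 1 1 _ _ gz gx (by omega) (by omega) e
      have h4 := rep' _ h3.symm
      by_cases hq : q = 0
      · subst hq
        exact o6 h0 η' (by omega) h4
      · exact o2 (q + 1) _ (by omega) h4
    · obtain ⟨_, _, h3⟩ := first_small ζ [x] 1 1 _ _ gz gx (by omega) (by omega) e
      have h4 := rep' _ h3.symm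
      by_cases hq : q = 0
      · subst hq
        obtain ⟨h5, h6, h7⟩ := rep_inj 3 (2 * n + 1) 2 w (h0 :: η') rest (by omega) (by omega) h4
        rcases ht with ht | ⟨_, r', ht⟩
        · omega
        · rw [ht, List.cons.injEq] at h7
          omega
      · exact o2 (q + 1) _ (by omega) h4
    · simp [mr] at h1
    · rcases Nat.lt_or_ge q 2 with hq | hq
      · interval_cases q
        · obtain ⟨_, h2, _⟩ := first_small ζ [x] 2 1 _ _ gz gx (by omega) (by omega) e
          omega
        · have e' : (ζ ++ [3]) ++ (2 :: (1 :: 1 :: h0 :: η')) =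
              [x] ++ (1 :: (List.replicate (2 * n) 1 ++ (w :: rest))) := by
            refine Eq.trans ?_ e
            simp [mr]
          obtain ⟨_, h3, _⟩ := first_small (ζ ++ [3]) [x] 2 1 _ _ (by
            intro y hy
            rcases List.mem_append.1 hy with hy | hy
            · exact gz y hy
            · simp at hy; omega) gx (by omega) (by omega) e'
          omega
      · have e' : (ζ ++ [q + 2, q + 1]) ++ (1 :: (1 :: h0 :: η')) =
              [x] ++ (1 :: (List.replicate (2 * n) 1 ++ (w :: rest))) := by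
            refine Eq.trans ?_ e
            simp [mr]
        obtain ⟨h3, _, _⟩ := first_small (ζ ++ [q + 2, q + 1]) [x] 1 1 _ _ (by
            intro y hy
            rcases List.mem_append.1 hy with hy | hy
            · exact gz y hy
            · simp at hy; omega) gx (by omega) (by omega) e'
        have h4 := congrArg List.length h3
        simp at h4
    · obtain rfl : q = 0 := by simp [mr] at h1; omega
      obtain ⟨_, _, h3⟩ := first_small ζ [x] 1 1 _ _ gz gx (by omega) (by omega) e
      exact o2 h0 η' (by omega) (rep' _ h3.symm)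

/-- (a) a word which ends with at most four small entries -/
theorem core_T {A T r N : List ℕ} {n : ℕ} (hT : 4 ≤ T.length) (hr : Ge 3 r) (hN : N.length ≤ 4)
    (e : A ++ (List.replicate (n + 1) 1 ++ T) = r ++ N) : False := by
  rw [List.replicate_succ', List.append_assoc, ← List.append_assoc] at e
  rcases List.append_eq_append_iff.1 e with ⟨l, h1, h2⟩ | ⟨l, h1, h2⟩
  · cases l with
    | nil =>
      have := congrArg List.length h2
      simp at this
      omega
    | cons y l =>
      simp only [List.cons_append, List.nil_append, List.cons.injEq] at h2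
      have := hr y (by rw [h1]; simp)
      omega
  · have := congrArg List.length h2
    simp at this
    omega

/-- the possible beginnings of the words, and those of the link ends -/
def NQ (q : ℕ) : List (List ℕ) :=
  [[q + 2, q + 1, 1, 2], [q + 2, q + 2, 1, 1], [q + 1, q + 1, 2, 1], [q + 1, q + 1, 1, 1],
    [q + 2, q + 1, 1, 1], [q + 2, q + 2], [q + 1, q + 1]]

/-- (b) a word which begins with small entries -/
theorem core_H {q a n x : ℕ} {A T r N : List ℕ} (hA : Odd A.length)
    (hA3 : Ge 3 A ∨ ∃ y, A = [y] ∧ 2 ≤ y ∧ (y = 2 → 4 ≤ x → ¬ Ge 4 T)) (ha : 1 ≤ a ∨ n = 0)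
    (hx : 2 ≤ x) (hN : N ∈ NQ q) (hr : Ge (q + 3) r)
    (e : A ++ (List.replicate (2 * a) 2 ++ (List.replicate (n + 1) 1 ++ (x :: T))) = N ++ r) : False := by
  have g1 : 1 ∈ r → False := fun h => by have := hr 1 h; omega
  rcases odd_cases hA with ⟨y, rfl⟩ | ⟨y1, y2, y3, t, rfl⟩
  · have hy : 2 ≤ y ∧ (y = 2 → 4 ≤ x → ¬ Ge 4 T) := by
      rcases hA3 with h | ⟨y', h1, h2, h3⟩
      · have := h y (by simp)
        exact ⟨by omega, fun h => by omega⟩
      · simp only [List.cons.injEq, and_true] at h1
        subst h1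
        exact ⟨h2, h3⟩
    obtain ⟨hy2, hy⟩ := hy
    by_cases ha0 : a = 0
    · subst ha0
      obtain rfl : n = 0 := by omega
      simp only [NQ, List.mem_cons, List.not_mem_nil, or_false] at hN
      simp only [Nat.mul_zero, List.replicate_zero, List.nil_append, Nat.zero_add,
        List.replicate_one, List.cons_append] at e
      rcases hN with rfl | rfl | rfl | rfl | rfl | rfl | rfl <;>
        simp only [List.cons_append, List.nil_append, List.cons.injEq] at e <;> omega
    · obtain ⟨b, rfl⟩ : ∃ b, a = b + 1 := ⟨a - 1, by omega⟩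
      rw [show 2 * (b + 1) = 2 * b + 1 + 1 by ring, List.replicate_succ, List.replicate_succ] at e
      simp only [NQ, List.mem_cons, List.not_mem_nil, or_false] at hN
      simp only [List.cons_append, List.nil_append] at e
      rcases hN with rfl | rfl | rfl | rfl | rfl | rfl | rfl
      · simp only [List.cons_append, List.nil_append, List.cons.injEq] at e; omega
      · simp only [List.cons_append, List.nil_append, List.cons.injEq] at e; omega
      · -- the delicate case
        simp only [List.cons_append, List.nil_append, List.cons.injEq] at e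
        obtain ⟨e1, e2, e3, e4⟩ := e
        obtain rfl : q = 1 := by omega
        cases b with
        | succ b =>
          rw [show 2 * (b + 1) = 2 * b + 1 + 1 by ring, List.replicate_succ] at e4
          simp only [List.cons_append, List.cons.injEq] at e4
          omega
        | zero =>
          rw [Nat.mul_zero, List.replicate_zero, List.nil_append, List.replicate_succ] at e4
          simp only [List.cons_append, List.cons.injEq, true_and] at e4
          cases n with
          | succ n =>
            apply g1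
            rw [← e4, List.replicate_succ]
            simp
          | zero =>
            rw [List.replicate_zero, List.nil_append] at e4
            subst e4
            exact hy (by omega) (hr x (by simp)) (fun z hz => hr z (by simp [hz]))
      · simp only [List.cons_append, List.nil_append, List.cons.injEq] at e; omega
      · simp only [List.cons_append, List.nil_append, List.cons.injEq] at e; omega
      · simp only [List.cons_append, List.nil_append, List.cons.injEq] at e
        have := hr 2 (by rw [← e.2.2]; simp)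
        omega
      · simp only [List.cons_append, List.nil_append, List.cons.injEq] at e
        have := hr 2 (by rw [← e.2.2]; simp)
        omega
  · have h3 : 3 ≤ y3 := by
      rcases hA3 with h | ⟨y', h1, _, _⟩
      · exact h y3 (by simp)
      · simp at h1
    simp only [NQ, List.mem_cons, List.not_mem_nil, or_false] at hN
    rw [List.replicate_succ] at e
    rcases hN with rfl | rfl | rfl | rfl | rfl | rfl | rfl <;>
      simp only [List.cons_append, List.nil_append, List.cons.injEq] at e
    · omega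
    · omega
    · omega
    · omega
    · omega
    · exact g1 (by rw [← e.2.2]; simp)
    · exact g1 (by rw [← e.2.2]; simp)

/-- (11) -/
theorem core_11 {a n x : ℕ} {A T b s : List ℕ} (hA : Odd A.length)
    (hA3 : Ge 3 A ∨ ∃ y, A = [y] ∧ 2 ≤ y) (hb : Even b.length) (gb : Ge 3 b)
    (e : A ++ (List.replicate (2 * a) 2 ++ (List.replicate (n + 1) 1 ++ (x :: T))) =
      b ++ (1 :: s)) : False := by
  have key : Ge 3 A → False := by
    intro h
    have : ∃ u l, (List.replicate (2 * a) 2 ++ (List.replicate (n + 1) 1 ++ (x :: T))) = u :: l ∧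
        u < 3 := by
      cases a with
      | zero => exact ⟨1, _, by rw [List.replicate_succ]; rfl, by omega⟩
      | succ a =>
        exact ⟨2, _, by rw [show 2 * (a + 1) = 2 * a + 1 + 1 by ring, List.replicate_succ]; rfl,
          by omega⟩
    obtain ⟨u, l, h1, h2⟩ := this
    rw [h1] at e
    obtain ⟨h3, _, _⟩ := first_small A b u 1 l s h gb h2 (by omega) e
    rw [h3] at hA
    exact (Nat.not_even_iff_odd.2 hA) hb
  rcases hA3 with h | ⟨y, rfl, hy⟩
  · exact key h
  · by_cases h : 3 ≤ y
    · exact key (by intro z hz; simp at hz; omega)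
    · cases b with
      | nil =>
        simp only [List.cons_append, List.nil_append, List.cons.injEq] at e
        omega
      | cons z b =>
        simp only [List.cons_append, List.nil_append, List.cons.injEq] at e
        have := gb z (by simp)
        omega

/-! ### The bead block -/

theorem ex_rep (j x : ℕ) (b : Bool) (l : List ℕ) :
    List.replicate j b ++ ex b (x :: l) = ex b ((x + j) :: l) := by
  rw [ex_cons, ex_cons, ← List.append_assoc, ← List.replicate_add, Nat.add_comm]

theorem wd_bl2 (a : ℕ) : wd (lv2 a .nil) = ex true (List.replicate (2 * a) 2) := by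
  induction a with
  | zero => rfl
  | succ a ih =>
    rw [lv2, wd_node, ih, show 2 * (a + 1) = 2 * a + 1 + 1 by ring, List.replicate_succ,
      List.replicate_succ]
    rfl

theorem wd_bl (m a : ℕ) : wd (lv m (lv2 a .nil)) =
    ex true (List.replicate (2 * m) 1 ++ List.replicate (2 * a) 2) := by
  induction m with
  | zero => exact wd_bl2 a
  | succ m ih =>
    rw [lv, wd_node, ih, show 2 * (m + 1) = 2 * m + 1 + 1 by ring, List.replicate_succ,
      List.replicate_succ]
    rfl

/-- the bead block after a heavy beginning -/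
theorem bead_gen {B1 : BinaryTree Unit} (hB1 : hv B1) (n a j : ℕ) : ∃ (p : List ℕ) (x : ℕ),
    (∀ w : List ℕ, List.replicate j true ++ (wd B1 ++ true :: (wd (lv (n + 1) (lv2 a .nil)) ++ ex true w)) =
      ex true (p ++ (x :: (List.replicate (2 * n + 1) 1 ++ (List.replicate (2 * a) 2 ++ w))))) ∧
    Even p.length ∧ Ge 3 p ∧ ((x = 2 ∧ p ≠ []) ∨ (p = [] ∧ x = j + 2)) := by
  obtain ⟨r1, e1, e2, e3, _⟩ := hv_runs (c := 3) (by norm_num) B1 (cont_of_hv hB1)
  have hH : ∀ w : List ℕ, true :: (wd (lv (n + 1) (lv2 a .nil)) ++ ex true w) =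
      ex true (2 :: (List.replicate (2 * n + 1) 1 ++ (List.replicate (2 * a) 2 ++ w))) := by
    intro w
    have hl : Even (List.replicate (2 * (n + 1)) 1 ++ List.replicate (2 * a) 2 : List ℕ).length := by
      rw [List.length_append, List.length_replicate, List.length_replicate]
      exact (even_two_mul _).add (even_two_mul _)
    rw [wd_bl, ← ex_even hl, show 2 * (n + 1) = 2 * n + 1 + 1 by ring, List.replicate_succ,
      List.cons_append, List.cons_append, ex_succ, List.append_assoc]
  cases r1 with
  | nil =>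
    refine ⟨[], j + 2, ?_, by simp, fun _ h => absurd h List.not_mem_nil, Or.inr ⟨rfl, rfl⟩⟩
    intro w
    rw [e1, ex_nil, List.nil_append, List.nil_append, hH, ex_rep, Nat.add_comm 2 j]
  | cons y r1 =>
    refine ⟨(y + j) :: r1, 2, ?_, by simpa using e2, ?_, Or.inl ⟨rfl, by simp⟩⟩
    · intro w
      have hl : Even ((y + j) :: r1).length := by simpa using e2
      rw [e1, hH, ex_even hl, ← ex_rep, List.append_assoc]
    · intro z hz
      rcases List.mem_cons.1 hz with rfl | hz
      · have := e3 y (by simp)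
        omega
      · exact e3 z (by simp [hz])

/-- a heavy word begins with two opening letters -/
theorem hv_tt {s : BinaryTree Unit} (h : hv s) (h0 : s ≠ .nil) : ∃ u, wd s = true :: true :: u := by
  obtain ⟨r, e1, _, e3, e4⟩ := hv_runs (c := 3) (by norm_num) s (cont_of_hv h)
  have e5 := e4 h0
  cases r with
  | nil => exact absurd rfl e5
  | cons x r =>
    have := e3 x (by simp)
    obtain ⟨x, rfl⟩ : ∃ x', x = x' + 1 + 1 := ⟨x - 2, by omega⟩
    refine ⟨ex true (x :: r), ?_⟩
    rw [e1, ex_succ, ex_succ]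

theorem aa_tt {s : BinaryTree Unit} (h : hv s) (h0 : s ≠ .nil) (h3 : 3 ≤ Tsq.ht s) :
    ∃ u, aa s = true :: true :: u := by
  obtain ⟨y, l, e1, _, _, e4, e5⟩ := aa_runs (c := 3) (by norm_num) s h0 (cont_of_hv h)
  have hy : 2 ≤ y := by
    by_cases hl : l = []
    · have := e4 hl; omega
    · have := e5 hl; omega
  obtain ⟨y, rfl⟩ : ∃ x', y = x' + 1 + 1 := ⟨y - 2, by omega⟩
  refine ⟨ex true (y :: l), ?_⟩
  rw [e1, ex_succ, ex_succ]

variable {B1 H s : BinaryTree Unit}

/-- before and after the first maximum of `R` -/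
theorem NodeG.acR (h : NodeG k q B1 H s B) : aa (gR B1 H s B) = wd B1 ++ true :: (wd H ++ aa s) ∧
    H1.cc (gR B1 H s B) = H1.cc s ++ false :: wd (Tsq.sq s).2 := by
  have a1 : Tsq.ht H ≤ 2 := bl_ht h.light
  have a2 : 3 ≤ Tsq.ht s := by rw [H1.ht_eq]; exact h.hs3
  have a3 : Tsq.ht B1 < Tsq.ht s + 1 := by rw [H1.ht_eq, H1.ht_eq]; exact h.low
  have a4 : Tsq.ht B ≤ Tsq.ht s + 1 := by rw [H1.ht_eq, H1.ht_eq]; exact h.top
  have a5 : Tsq.ht (app H s) = Tsq.ht s := by rw [Tsq.ht_app]; omega
  have a6 : app H s ≠ .nil := by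
    intro e
    rw [e] at a5
    have : Tsq.ht (BinaryTree.nil : BinaryTree Unit) = 0 := rfl
    omega
  have a7 : Tsq.ht B1 < Tsq.ht (app H s △ B) := by rw [Tsq.ht_node, a5]; omega
  have a8 : Tsq.ht B ≤ Tsq.ht (app H s) + 1 := by rw [a5]; exact a4
  have a9 : Tsq.ht H < Tsq.ht s := by omega
  unfold gR
  rw [(ac_pre _ _ a7).1, (ac_pre _ _ a7).2, aa_ge a6 a8, cc_ge a6 a8, (ac_pre _ _ a9).1,
    (ac_pre _ _ a9).2, Tsq.sq_pre _ _ a9]
  exact ⟨rfl, rfl⟩

theorem NodeG.wR (h : NodeG k q B1 H s B) (w : List Bool) : ∃ w', wd (gR B1 H s B) ++ w =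
    wd B1 ++ true :: (wd H ++ true :: true :: w') := by
  obtain ⟨u, e⟩ := hv_tt h.hs h.s0
  refine ⟨u ++ (false :: (wd B ++ w)), ?_⟩
  unfold gR
  rw [wd_app, wd_node, wd_app, e]
  simp

theorem NodeG.gR_ne (h : NodeG k q B1 H s B) : gR B1 H s B ≠ .nil := by
  intro e
  have h1 := h.ht
  rw [e] at h1
  have : OddHC.ht (BinaryTree.nil : BinaryTree Unit) = 0 := rfl
  omega

theorem NodeG.wS (h : NodeG k q B1 H s B) (w : List Bool) : ∃ w', wd (Tsq.sq (gR B1 H s B)).1 ++ w =
    true :: (wd B1 ++ true :: (wd H ++ true :: true :: w')) := by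
  obtain ⟨u, e⟩ := aa_tt h.hs h.s0 (by rw [H1.ht_eq]; exact h.hs3)
  refine ⟨u ++ (false :: (H1.cc (gR B1 H s B) ++ w)), ?_⟩
  rw [sq1_ac _ (NodeG.gR_ne h), (NodeG.acR h).1, e]
  simp

/-- the word form with a bead block -/
def BF (a n : ℕ) (w : List Bool) : Prop :=
  ∃ (p : List ℕ) (x v : ℕ) (r : List ℕ), w = ex true (p ++ (x :: (List.replicate (2 * n + 1) 1 ++
      (List.replicate (2 * a) 2 ++ (v :: r))))) ∧ Even p.length ∧ Ge 3 p ∧
    (x = 2 ∨ (p = [] ∧ 3 ≤ x)) ∧ 2 ≤ v ∧ Ge 1 r

theorem BF_of (hB1 : hv B1) (n a j : ℕ) (w : List Bool) : BF a n (List.replicate j true ++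
    (wd B1 ++ true :: (wd (lv (n + 1) (lv2 a .nil)) ++ true :: true :: w))) := by
  obtain ⟨p, x, h1, h2, h3, h4⟩ := bead_gen hB1 n a j
  obtain ⟨r, g1, g2, g3⟩ := exists_ex (true :: w) true
  obtain ⟨v, r', rfl, g4⟩ := g3 w rfl
  refine ⟨p, x, v, r', ?_, h2, h3, ?_, g4, fun z hz => g1 z (by simp [hz])⟩
  · rw [g2, h1]
  · rcases h4 with ⟨h4, _⟩ | ⟨h4, h5⟩
    · exact Or.inl h4
    · rcases Nat.eq_zero_or_pos j with hj | hj
      · left; omega
      · right; exact ⟨h4, by omega⟩

/-- **the forms of the words `0 .. 9, 13, 16, 18, 19` of a window with beads** -/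
theorem NodeG.formA {n a : ℕ} (h : NodeG k q B1 (lv (n + 1) (lv2 a .nil)) s B) {j : ℕ}
    (hj : j ∈ [0, 1, 2, 3, 4, 5, 6, 7, 8, 9, 13, 16, 18, 19]) :
    BF a n (wd (W (gR B1 (lv (n + 1) (lv2 a .nil)) s B) (pc (q + 1)) B
      (Tsq.sq (gR B1 (lv (n + 1) (lv2 a .nil)) s B)).1 j)) ∨
    (∃ r N : List ℕ, Ge 1 r ∧ N ∈ NP q ∧ wd (W (gR B1 (lv (n + 1) (lv2 a .nil)) s B) (pc (q + 1)) B
      (Tsq.sq (gR B1 (lv (n + 1) (lv2 a .nil)) s B)).1 j) = ex true (N ++ r)) ∨
    (∃ u, wd (W (gR B1 (lv (n + 1) (lv2 a .nil)) s B) (pc (q + 1)) B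
      (Tsq.sq (gR B1 (lv (n + 1) (lv2 a .nil)) s B)).1 j) = true :: false :: u) ∨
    (∃ u, wd (W (gR B1 (lv (n + 1) (lv2 a .nil)) s B) (pc (q + 1)) B
      (Tsq.sq (gR B1 (lv (n + 1) (lv2 a .nil)) s B)).1 j) = u ++ [true, false]) := by
  have hR := NodeG.wR h
  have hS := NodeG.wS h
  have bf := fun j w => BF_of h.h1 n a j w
  have hR0 := NodeG.gR_ne h
  have hS0 : (Tsq.sq (gR B1 (lv (n + 1) (lv2 a .nil)) s B)).1 ≠ .nil := Tsq.sq_ne hR0
  generalize gR B1 (lv (n + 1) (lv2 a .nil)) s B = R at hR hS hR0 hS0 ⊢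
  generalize (Tsq.sq R).1 = S at hS hS0 ⊢
  have tR : ∀ w, ∃ u, wd R ++ w = true :: u := by
    intro w
    cases R with
    | nil => exact absurd rfl hR0
    | node _ A C => exact ⟨_, rfl⟩
  have tS : ∀ w, ∃ u, wd S ++ w = true :: u := by
    intro w
    cases S with
    | nil => exact absurd rfl hS0
    | node _ A C => exact ⟨_, rfl⟩
  have np : ∀ (N : List ℕ) (w : List Bool), N ∈ NP q → ∃ r : List ℕ, Ge 1 r ∧
      (ex true N ++ true :: w) = ex true (N ++ r) := by
    intro N w hN
    obtain ⟨r, g1, g2, _⟩ := exists_ex w true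
    have hl : Even N.length := by
      simp only [NP, List.mem_cons, List.not_mem_nil, or_false] at hN
      rcases hN with rfl | rfl | rfl | rfl <;> simp <;> decide
    exact ⟨r, g1, by rw [g2, ex_even hl]⟩
  simp only [List.mem_cons, List.not_mem_nil, or_false] at hj
  rcases hj with rfl | rfl | rfl | rfl | rfl | rfl | rfl | rfl | rfl | rfl | rfl | rfl | rfl | rfl
  · -- 0
    left
    obtain ⟨w', e⟩ := hR (wd (pc (q + 3)))
    change BF a n (wd (app R (pc (q + 3))))
    rw [wd_app, e]
    exact bf 0 w'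
  · -- 1
    right; right; right
    refine ⟨wd R ++ (true :: false :: wd (pc (q + 1))), ?_⟩
    change wd (app R (.nil △ app (pc (q + 1)) (.nil △ .nil))) = _
    rw [wd_app, wd_node, wd_app, wd_node]
    simp [wd]
  · -- 2
    right; right; left
    exact ⟨_, rfl⟩
  · -- 3
    left
    obtain ⟨w', e⟩ := hR (wd (.nil △ pc (q + 1)) ++ (false :: []))
    change BF a n (wd (app R (.nil △ pc (q + 1)) △ .nil))
    rw [wd_node, wd_app, List.append_assoc]
    change BF a n (true :: (wd R ++ (wd (.nil △ pc (q + 1)) ++ (false :: []))))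
    rw [e]
    exact bf 1 w'
  · -- 4
    right; left
    obtain ⟨u, hu⟩ := tR []
    rw [List.append_nil] at hu
    obtain ⟨r, g1, g2⟩ := np [q + 2, q + 1, 1, 2] u (by simp [NP])
    refine ⟨r, [q + 2, q + 1, 1, 2], g1, by simp [NP], ?_⟩
    rw [← g2]
    change wd (app (pc (q + 1)) (.nil △ .nil) △ R) = _
    rw [wd_node, wd_app, wd_node, wd_q, hu]
    simp [ex, wd, rep1, List.replicate_succ]
  · -- 5
    right; left
    obtain ⟨u, hu⟩ := tR []
    rw [List.append_nil] at hu
    obtain ⟨r, g1, g2⟩ := np [q + 2, q + 2, 1, 1] u (by simp [NP])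
    refine ⟨r, [q + 2, q + 2, 1, 1], g1, by simp [NP], ?_⟩
    rw [← g2]
    change wd (pc (q + 1) △ (.nil △ R)) = _
    rw [wd_node, wd_node, wd_q, hu]
    simp [ex, wd, rep1, List.replicate_succ]
  · -- 6
    left
    obtain ⟨w', e⟩ := hR (false :: wd (pc (q + 1) △ .nil))
    change BF a n (wd (R △ (pc (q + 1) △ .nil)))
    rw [wd_node]
    rw [e]
    exact bf 1 w'
  · -- 7
    right; left
    obtain ⟨u, hu⟩ := tR [false]
    obtain ⟨r, g1, g2⟩ := np [q + 1, q + 1, 2, 1] u (by simp [NP])
    refine ⟨r, [q + 1, q + 1, 2, 1], g1, by simp [NP], ?_⟩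
    rw [← g2, ← hu]
    change wd (app (pc (q + 1)) ((.nil △ R) △ .nil)) = _
    rw [wd_app, wd_node, wd_node, wd_q]
    simp [ex, wd]
  · -- 8
    right; left
    obtain ⟨u, hu⟩ : ∃ u, wd (R △ .nil) = true :: u := ⟨_, rfl⟩
    obtain ⟨r, g1, g2⟩ := np [q + 1, q + 1, 1, 1] u (by simp [NP])
    refine ⟨r, [q + 1, q + 1, 1, 1], g1, by simp [NP], ?_⟩
    rw [← g2]
    change wd (app (pc (q + 1)) (.nil △ (R △ .nil))) = _
    rw [wd_app, wd_node, hu, wd_q]
    simp [ex, wd]
  · -- 9
    left
    obtain ⟨w', e⟩ := hR (false :: (false :: wd (pc (q + 1))))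
    change BF a n (wd ((R △ .nil) △ pc (q + 1)))
    rw [wd_node, wd_node]
    change BF a n (true :: (true :: (wd R ++ false :: []) ++ false :: wd (pc (q + 1))))
    rw [List.cons_append, List.append_assoc]
    change BF a n (true :: true :: (wd R ++ (false :: (false :: wd (pc (q + 1))))))
    rw [e]
    exact bf 2 w'
  · -- 13
    left
    obtain ⟨w', e⟩ := hS (wd (app B (.nil △ pc (q + 1)) △ .nil))
    change BF a n (wd (app S (app B (.nil △ pc (q + 1)) △ .nil)))
    rw [wd_app, e]
    exact bf 1 w'
  · -- 16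
    left
    obtain ⟨w', e⟩ := hS (wd (B △ (pc (q + 1) △ .nil)))
    change BF a n (wd (app S (B △ (pc (q + 1) △ .nil))))
    rw [wd_app, e]
    exact bf 1 w'
  · -- 18
    right; left
    obtain ⟨u, hu⟩ := tS (wd (B △ .nil))
    obtain ⟨r, g1, g2⟩ := np [q + 1, q + 1, 1, 1] u (by simp [NP])
    refine ⟨r, [q + 1, q + 1, 1, 1], g1, by simp [NP], ?_⟩
    rw [← g2, ← hu]
    change wd (app (pc (q + 1)) (.nil △ app S (B △ .nil))) = _
    rw [wd_app, wd_node, wd_app, wd_q]
    simp [ex, wd]
  · -- 19
    left
    obtain ⟨w', e⟩ := hS (wd (B △ .nil) ++ (false :: wd (pc (q + 1))))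
    change BF a n (wd (app S (B △ .nil) △ pc (q + 1)))
    rw [wd_node, wd_app, List.append_assoc, e]
    exact bf 2 w'

/-- the ends of a list of runs -/
theorem end_ff {L : List ℕ} (hL : Even L.length) {L' : List ℕ} {z : ℕ} (e : L = L' ++ [z])
    (hz : 2 ≤ z) {u : List Bool} (h : ex true L = u ++ [true, false]) : False := by
  subst e
  have hL' : Odd L'.length := by
    rw [List.length_append, List.length_singleton] at hL
    by_contra h2
    rw [Nat.not_odd_iff_even] at h2
    exact (Nat.not_even_iff_odd.2 h2.add_one) hL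
  obtain ⟨z, rfl⟩ : ∃ z', z = z' + 1 + 1 := ⟨z - 2, by omega⟩
  rw [ex_odd hL', ex_cons, ex_nil, List.append_nil, List.replicate_succ', List.replicate_succ',
    List.append_assoc, ← List.append_assoc] at h
  have := (List.append_inj' h rfl).2
  simp at this

theorem start_tt {L : List ℕ} {L' : List ℕ} {z : ℕ} (e : L = z :: L') (hz : 2 ≤ z) {u : List Bool}
    (h : ex true L = true :: false :: u) : False := by
  subst e
  obtain ⟨z, rfl⟩ : ∃ z', z = z' + 1 + 1 := ⟨z - 2, by omega⟩
  rw [← ex_succ, ← ex_succ] at h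
  simp at h

/-- **an inner word of a bare window is not a word of a window with beads** (words `0 .. 9, 13, 16, 18, 19`) -/
theorem NodeM.inner_lowA (h : NodeM k q R B S) (w0 : X k) {i i' : ℕ}
    (hi : (i, i') ∈ [(0, 10), (1, 11), (3, 12), (6, 15), (8, 14), (9, 17)])
    {q' n a : ℕ} {B1 s B' : BinaryTree Unit} (h' : NodeG k q' B1 (lv (n + 1) (lv2 a .nil)) s B')
    (w0' : X k) (hn : n = 0 ∨ 1 ≤ a) {j : ℕ}
    (hj : j ∈ [0, 1, 2, 3, 4, 5, 6, 7, 8, 9, 13, 16, 18, 19])
    (e : TT (mX R B S q w0 i') = gX q' B1 (lv (n + 1) (lv2 a .nil)) s B' w0' j) : False := by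
  have hi' : i ∈ [0, 1, 3, 6, 8, 9] := by
    simp only [List.mem_cons, List.not_mem_nil, or_false, Prod.mk.injEq] at hi ⊢
    omega
  have hj20 : j < 20 := by
    simp only [List.mem_cons, List.not_mem_nil, or_false] at hj
    omega
  obtain ⟨ζ, η, f1, f2, f3, f4, f5⟩ := h.runs w0 hi'
  obtain ⟨m1, m2, m3⟩ := mr_rev (q := q) hi'
  rw [inner_mir h w0 hi] at e
  have hl : Even (ζ ++ (mr q i ++ η)).length := by
    rw [List.length_append, List.length_append]
    exact f2.add_odd (m3.add_odd f3)
  have e1 : wd (Tsq.mirX (TT (H1.wX R B S q w0 i))).1 =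
      ex true (η.reverse ++ (mr q (sg i) ++ ζ.reverse)) := by
    have := mir_ex f1 hl
    rw [List.reverse_append, List.reverse_append, m1, List.append_assoc] at this
    exact this
  rw [e, NodeG.word h' w0' hj20, ch_eq] at e1
  have hl' : Even (η.reverse ++ (mr q (sg i) ++ ζ.reverse)).length := by
    rw [← m1, ← List.reverse_append, List.length_append, List.length_reverse, List.length_reverse,
      Nat.add_comm]
    rw [List.length_append, List.length_append] at hl
    rw [List.length_append]
    convert hl using 1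
    ring
  have g1 : Odd η.reverse.length := by rw [List.length_reverse]; exact f3
  have g2 : Odd ζ.reverse.length := by rw [List.length_reverse]; exact f2
  have g3 : Ge (q + 3) η.reverse := ge_rev f5
  have g4 : Ge (q + 3) ζ.reverse := ge_rev f4
  have to3 : ∀ {l : List ℕ}, Ge (q + 3) l → Ge 3 l := fun h x hx => by
    have := h x hx; omega
  generalize η.reverse = η' at e1 hl' g1 g3
  generalize ζ.reverse = ζ' at e1 hl' g2 g4
  have g6 := ge_mid m2 g3 g4
  rcases NodeG.formA h' hj with ⟨p, x, v, r, k1, k2, k3, k4, k5, k6⟩ | ⟨r, N, k1, k2, k3⟩ | ⟨u, k1⟩ |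
    ⟨u, k1⟩
  · have gp : Ge 1 (p ++ (x :: (List.replicate (2 * n + 1) 1 ++ (List.replicate (2 * a) 2 ++ (v :: r))))) := by
      intro y hy
      simp only [List.mem_append, List.mem_cons, List.mem_replicate] at hy
      rcases hy with hy | rfl | hy | hy | rfl | hy
      · have := k3 y hy; omega
      · rcases k4 with k4 | k4 <;> omega
      · omega
      · omega
      · omega
      · exact k6 y hy
    have e2 := ex_inj _ _ true g6 gp (by rw [← k1, e1])
    cases a with
    | zero =>
      have hn0 : n = 0 := by omega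
      exact core_A m2 g1 g2 (to3 g3) (to3 g4) k2 k3 k4 k5 (Or.inl hn0) (by simpa using e2)
    | succ a =>
      rw [show 2 * (a + 1) = 2 * a + 1 + 1 by ring, List.replicate_succ, List.replicate_succ] at e2
      exact core_A m2 g1 g2 (to3 g3) (to3 g4) k2 k3 k4 le_rfl (Or.inr ⟨rfl, _, rfl⟩) e2
  · have gp : Ge 1 (N ++ r) := by
      intro x hx
      rcases List.mem_append.1 hx with hx | hx
      · simp only [NP, List.mem_cons, List.not_mem_nil, or_false] at k2
        rcases k2 with rfl | rfl | rfl | rfl <;> simp at hx <;> omega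
      · exact k1 x hx
    have e2 := ex_inj _ _ true g6 gp (by rw [← k3, e1])
    exact core_P m2 g1 g3 k2 e2
  · obtain ⟨y, l, rfl⟩ := odd_ne g1
    have := g3 y (by simp)
    rw [k1] at e1
    exact start_tt (List.cons_append) (by omega) e1.symm
  · obtain ⟨l, y, rfl⟩ := exists_snoc (l := ζ') (by rintro rfl; simp at g2)
    have := g4 y (by simp)
    rw [k1] at e1
    exact end_ff hl' (L' := η' ++ (mr q (sg i) ++ l)) (z := y) (by simp) (by omega) e1.symm

end HM

end Pool.OddHC
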