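import Pool.Agent.Work.MP_8f87b2_h60.InAq

/-!
# MP_8f87b2_co: inner words of the RIGHT bare windows against A, mirrored bare windows, right bare windows; all directions

`NodeM.rinner_G`, `NodeM.rinner_G'`, `NodeM.rinner_M`: all `q`, `q'`.
-/

set_option autoImplicit false
set_option linter.unusedSimpArgs false

namespace Pool.OddHC

namespace HM

open BinaryTree H1 List

variable {k q : ℕ} {R B S : BinaryTree Unit} {B1 H s : BinaryTree Unit}

/-- **the form of the words `j`** which are not ends of links, sharper -/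
theorem NodeM.form3 (h : NodeM k q R B S) {j : ℕ} (hj : j ∈ [0, 1, 2, 3, 4, 5, 6, 7, 8, 9, 13, 16, 18, 19]) :
    (∃ r N : List ℕ, r ≠ [] ∧ Ge (q + 3) r ∧ N ∈ NS q ∧ wd (W R (pc (q + 1)) B S j) = ex true (r ++ N) ∧
      (N = [q + 3, q + 3] → j = 0)) ∨
    (∃ r N : List ℕ, Ge (q + 3) r ∧ N ∈ NP q ∧ wd (W R (pc (q + 1)) B S j) = ex true (N ++ r)) ∨
    (∃ l : List ℕ, Ge 1 l ∧ wd (W R (pc (q + 1)) B S j) = ex true (1 :: l)) ∨
    (∃ l : List ℕ, Ge 1 l ∧ wd (W R (pc (q + 1)) B S j) = ex true (l ++ [1])) := by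
  have hc : 2 ≤ q + 3 := by omega
  have hR := h.ne
  have hSn : S ≠ .nil := by
    rintro rfl
    have h1 := h.dat.htS
    have h2 := h.top
    rw [ht] at h1
    omega
  have hB : ∀ x ∈ cont B, q + 3 ≤ x := by
    intro x hx
    apply h.part
    rw [← h.eq]
    exact Multiset.mem_add.2 (Or.inl hx)
  have hS : ∀ x ∈ cont S, q + 3 ≤ x := by
    intro x hx
    apply h.part
    rw [← h.eq]
    exact Multiset.mem_add.2 (Or.inr hx)
  obtain ⟨⟨r0, a1, a2, a3, a4⟩, ⟨r1, b1, b2, b3, b4⟩, ⟨r2, c1, c2, c3, c4⟩, ⟨r3, d1, d2, d3, d4⟩, _,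
    ⟨r5, f1, f2, f3, f4⟩⟩ := runs_of hc hR h.part
  obtain ⟨⟨s0, g1, g2, g3, g4⟩, ⟨s1, k1, k2, k3, k4⟩, _, _, _, _⟩ := runs_of hc hSn hS
  have one : ∀ {c : ℕ} {r : List ℕ}, Ge (c + 3) r → Ge 1 r := fun h x hx => by
    have := h x hx; omega
  simp only [List.mem_cons, List.not_mem_nil, or_false] at hj
  rcases hj with rfl | rfl | rfl | rfl | rfl | rfl | rfl | rfl | rfl | rfl | rfl | rfl | rfl | rfl
  · -- 0
    left
    refine ⟨r0, [q + 3, q + 3], a1, a3, by simp [NS], ?_, fun _ => rfl⟩
    change wd (app R (pc (q + 3))) = _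
    rw [wd_app, a4, wd_pc, ex_even a2]
    simp [ex]
  · -- 1
    right; right; right
    refine ⟨r0 ++ [1, 1, q + 1, q + 1, 1], ?_, ?_⟩
    · intro x hx
      rcases List.mem_append.1 hx with hx | hx
      · exact one a3 x hx
      · simp at hx; omega
    · change wd (app R (.nil △ app (pc (q + 1)) (.nil △ .nil))) = _
      rw [wd_app, wd_node, wd_app, wd_node, a4, wd_q, List.append_assoc, List.append_assoc, ex_even a2]
      simp [ex, wd]
  · -- 2
    right; right; left
    refine ⟨1 :: (r0 ++ [1, 1, q + 1, q + 1]), ?_, ?_⟩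
    · intro x hx
      rcases List.mem_cons.1 hx with rfl | hx
      · exact le_rfl
      · rcases List.mem_append.1 hx with hx | hx
        · exact one a3 x hx
        · simp at hx; omega
    · change wd (.nil △ app R (.nil △ pc (q + 1))) = _
      rw [wd_node, wd_app, wd_node, a4, wd_q, ex_cons, ex_cons, Bool.not_not, ex_even a2]
      simp [ex, wd]
  · -- 3
    left
    refine ⟨r1, [1, 1, q + 1, q + 2], b1, b3, by simp [NS], ?_, by intro e; simp at e⟩
    change wd (app R (.nil △ pc (q + 1)) △ .nil) = _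
    rw [wd_node, wd_app, wd_node, wd_q, List.append_assoc, b4, ex_even b2]
    simp [ex, wd, rep1, List.replicate_succ]
  · -- 4
    right; left
    refine ⟨r0, [q + 2, q + 1, 1, 2], a3, by simp [NP], ?_⟩
    change wd (app (pc (q + 1)) (.nil △ .nil) △ R) = _
    rw [wd_node, wd_app, wd_node, wd_q, a4]
    simp [ex, wd, rep1, List.replicate_succ]
  · -- 5
    right; left
    refine ⟨r0, [q + 2, q + 2, 1, 1], a3, by simp [NP], ?_⟩
    change wd (pc (q + 1) △ (.nil △ R)) = _
    rw [wd_node, wd_node, wd_q, a4]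
    simp [ex, wd, rep1, List.replicate_succ]
  · -- 6
    left
    refine ⟨r3, [q + 2, q + 2], d1, d3, by simp [NS], ?_, by intro e; simp at e⟩
    change wd (R △ (pc (q + 1) △ .nil)) = _
    rw [wd_node, wd_node, wd_q, d4, ex_even d2]
    simp [ex, wd, rep1, List.replicate_succ]
  · -- 7
    right; left
    refine ⟨r2, [q + 1, q + 1, 2, 1], c3, by simp [NP], ?_⟩
    change wd (app (pc (q + 1)) ((.nil △ R) △ .nil)) = _
    rw [wd_app, wd_node, wd_node, wd_q]
    have := c4 []
    rw [List.append_nil] at this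
    simp [ex, wd, ← this]
  · -- 8
    right; left
    refine ⟨r3, [q + 1, q + 1, 1, 1], d3, by simp [NP], ?_⟩
    change wd (app (pc (q + 1)) (.nil △ (R △ .nil))) = _
    rw [wd_app, wd_node, wd_node, wd_q]
    have := d4 []
    rw [List.append_nil] at this
    simp [ex, wd, ← this]
  · -- 9
    left
    refine ⟨r5, [q + 1, q + 1], f1, f3, by simp [NS], ?_, by intro e; simp at e⟩
    change wd ((R △ .nil) △ pc (q + 1)) = _
    rw [wd_node, wd_node, wd_q, ex_even f2, ← f4]
    simp [ex, wd]
  · -- 13
    left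
    by_cases hBn : B = .nil
    · subst hBn
      refine ⟨s0, [2, 1, q + 1, q + 2], g1, g3, by simp [NS], ?_, by intro e; simp at e⟩
      change wd (app S (app .nil (.nil △ pc (q + 1)) △ .nil)) = _
      rw [wd_app, wd_node, app, wd_node, wd_q, g4, ex_even g2]
      simp [ex, wd, rep1, List.replicate_succ]
    · obtain ⟨_, ⟨t1, l1, l2, l3, l4⟩, _, _, _, _⟩ := runs_of hc hBn hB
      refine ⟨s0 ++ t1, [1, 1, q + 1, q + 2], by simp [g1], ?_, by simp [NS], ?_, by intro e; simp at e⟩
      · intro x hx
        rcases List.mem_append.1 hx with hx | hx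
        · exact g3 x hx
        · exact l3 x hx
      · change wd (app S (app B (.nil △ pc (q + 1)) △ .nil)) = _
        rw [wd_app, wd_node, wd_app, wd_node, wd_q, g4, List.append_assoc, l4, List.append_assoc,
          ex_even g2, ex_even l2]
        simp [ex, wd, rep1, List.replicate_succ]
  · -- 16
    left
    by_cases hBn : B = .nil
    · subst hBn
      refine ⟨s0, [1, 1, q + 2, q + 2], g1, g3, by simp [NS], ?_, by intro e; simp at e⟩
      change wd (app S (.nil △ (pc (q + 1) △ .nil))) = _
      rw [wd_app, wd_node, wd_node, wd_q, g4, ex_even g2]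
      simp [ex, wd, rep1, List.replicate_succ]
    · obtain ⟨_, _, _, ⟨t3, l1, l2, l3, l4⟩, _, _⟩ := runs_of hc hBn hB
      refine ⟨s0 ++ t3, [q + 2, q + 2], by simp [g1], ?_, by simp [NS], ?_, by intro e; simp at e⟩
      · intro x hx
        rcases List.mem_append.1 hx with hx | hx
        · exact g3 x hx
        · exact l3 x hx
      · change wd (app S (B △ (pc (q + 1) △ .nil))) = _
        rw [wd_app, wd_node, wd_node, wd_q, g4, l4,
          show s0 ++ t3 ++ [q + 2, q + 2] = s0 ++ (t3 ++ [q + 2, q + 2]) from List.append_assoc _ _ _,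
          ex_even g2, ex_even l2]
        simp [ex, wd, rep1, List.replicate_succ]
  · -- 18
    by_cases hBn : B = .nil
    · subst hBn
      right; right; right
      refine ⟨[q + 1, q + 1, 1, 1] ++ (s0 ++ [1]), ?_, ?_⟩
      · intro x hx
        simp only [List.mem_append, List.mem_cons, List.not_mem_nil, or_false] at hx
        rcases hx with (rfl | rfl | rfl | rfl) | hx | rfl <;> first | omega | skip
        exact one g3 x hx
      · change wd (app (pc (q + 1)) (.nil △ app S (.nil △ .nil))) = _
        rw [wd_app, wd_node, wd_app, wd_node, wd_q, g4]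
        have e1 := ex_even g2 true [1, 1]
        simp [ex, wd] at e1 ⊢
        rw [e1]
    · right; left
      obtain ⟨_, _, _, ⟨t3, l1, l2, l3, l4⟩, _, _⟩ := runs_of hc hBn hB
      refine ⟨s0 ++ t3, [q + 1, q + 1, 1, 1], ?_, by simp [NP], ?_⟩
      · intro x hx
        rcases List.mem_append.1 hx with hx | hx
        · exact g3 x hx
        · exact l3 x hx
      · change wd (app (pc (q + 1)) (.nil △ app S (B △ .nil))) = _
        have l5 := l4 []
        rw [wd_app, wd_node, wd_app, wd_node, wd_q, g4]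
        have e1 := ex_even g2 true t3
        simp [ex, wd] at l5 e1 ⊢
        rw [e1, l5]
  · -- 19
    left
    by_cases hBn : B = .nil
    · subst hBn
      refine ⟨s1, [1, 2, q + 1, q + 1], k1, k3, by simp [NS], ?_, by intro e; simp at e⟩
      change wd (app S (.nil △ .nil) △ pc (q + 1)) = _
      rw [wd_node, wd_app, wd_node, wd_q, List.append_assoc, k4, ex_even k2]
      simp [ex, wd, rep1, List.replicate_succ]
    · obtain ⟨_, _, _, _, ⟨t4, l1, l2, l3, l4⟩, _⟩ := runs_of hc hBn hB
      refine ⟨s1 ++ t4, [q + 1, q + 1], by simp [k1], ?_, by simp [NS], ?_, by intro e; simp at e⟩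
      · intro x hx
        rcases List.mem_append.1 hx with hx | hx
        · exact k3 x hx
        · exact l3 x hx
      · change wd (app S (B △ .nil) △ pc (q + 1)) = _
        rw [wd_node, wd_app, wd_node, wd_q, List.append_assoc, k4, List.append_assoc, ex_even k2,
          ex_even l2]
        have l5 := l4 (ex true [q + 1, q + 1])
        simp [ex, wd] at l5 ⊢
        rw [l5]


theorem even3 {ζ η : List ℕ} {i : ℕ} (hi : i ∈ [0, 1, 3, 6, 8, 9]) (h1 : Odd ζ.length) (h2 : Odd η.length) :
    Even (ζ ++ (mr q i ++ η)).length := by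
  rw [List.length_append, List.length_append]
  exact h1.add_odd ((mr_rev hi).2.2.add_odd h2)

/-- **an inner word of a right bare window is not a word of a window with beads** (words `0 .. 9, 13, 16, 18, 19`) -/
theorem NodeM.rinner_lowA (h : NodeM k q R B S) (w0 : X k) {i : ℕ} (hi' : i ∈ [0, 1, 3, 6, 8, 9])
    {q' n a : ℕ} {B1 s B' : BinaryTree Unit} (h' : NodeG k q' B1 (lv (n + 1) (lv2 a .nil)) s B')
    (w0' : X k) (hn : n = 0 ∨ 1 ≤ a) {j : ℕ}
    (hj : j ∈ [0, 1, 2, 3, 4, 5, 6, 7, 8, 9, 13, 16, 18, 19])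
    (e : TT (H1.wX R B S q w0 i) = gX q' B1 (lv (n + 1) (lv2 a .nil)) s B' w0' j) : False := by
  have hj20 : j < 20 := by
    simp only [List.mem_cons, List.not_mem_nil, or_false] at hj
    omega
  obtain ⟨ζ, η, e1, f2, f3, f4, f5⟩ := h.runs w0 hi'
  rw [e, NodeG.word h' w0' hj20, ch_eq] at e1
  have hl' := even3 (q := q) hi' f2 f3
  have to3 : ∀ {l : List ℕ}, Ge (q + 3) l → Ge 3 l := fun h x hx => by
    have := h x hx; omega
  have g6 := ge_mid hi' f4 f5
  rcases NodeG.formA h' hj with ⟨p, x, v, r, k1, k2, k3, k4, k5, k6⟩ | ⟨r, N, k1, k2, k3⟩ | ⟨u, k1⟩ |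
    ⟨u, k1⟩
  · have gp : Ge 1 (p ++ (x :: (List.replicate (2 * n + 1) 1 ++ (List.replicate (2 * a) 2 ++ (v :: r))))) := by
      intro y hy
      simp only [List.mem_append, List.mem_cons, List.mem_replicate] at hy
      rcases hy with hy | rfl | hy | hy | rfl | hy
      · have := k3 y hy; omega
      · rcases k4 with k4 | k4 <;> omega
      · omega
      · omega
      · omega
      · exact k6 y hy
    have e2 := ex_inj _ _ true g6 gp (by rw [← k1, e1])
    cases a with
    | zero =>
      have hn0 : n = 0 := by omega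
      exact core_A hi' f2 f3 (to3 f4) (to3 f5) k2 k3 k4 k5 (Or.inl hn0) (by simpa using e2)
    | succ a =>
      rw [show 2 * (a + 1) = 2 * a + 1 + 1 by ring, List.replicate_succ, List.replicate_succ] at e2
      exact core_A hi' f2 f3 (to3 f4) (to3 f5) k2 k3 k4 le_rfl (Or.inr ⟨rfl, _, rfl⟩) e2
  · have gp : Ge 1 (N ++ r) := by
      intro x hx
      rcases List.mem_append.1 hx with hx | hx
      · simp only [NP, List.mem_cons, List.not_mem_nil, or_false] at k2
        rcases k2 with rfl | rfl | rfl | rfl <;> simp at hx <;> omega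
      · exact k1 x hx
    have e2 := ex_inj _ _ true g6 gp (by rw [← k3, e1])
    exact core_P hi' f2 f4 k2 e2
  · obtain ⟨y, l, rfl⟩ := odd_ne f2
    have := f4 y (by simp)
    rw [k1] at e1
    exact start_tt (List.cons_append) (by omega) e1.symm
  · obtain ⟨l, y, rfl⟩ := exists_snoc (l := η) (by rintro rfl; simp at f3)
    have := f5 y (by simp)
    rw [k1] at e1
    exact end_ff hl' (L' := ζ ++ (mr q i ++ l)) (z := y) (by simp) (by omega) e1.symm

/-- the reversed ends of the words are beginnings of link words -/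
theorem NS_rev {q : ℕ} {N : List ℕ} (h : N ∈ NS q) : N = [q + 3, q + 3] ∨ N.reverse ∈ NQ q := by
  simp only [NS, List.mem_cons, List.not_mem_nil, or_false] at h
  rcases h with rfl | rfl | rfl | rfl | rfl | rfl | rfl <;> simp [NQ]

theorem NP_len {q : ℕ} {N : List ℕ} (h : N ∈ NP q) : N.length = 4 ∧ Ge 1 N := by
  simp only [NP, List.mem_cons, List.not_mem_nil, or_false] at h
  rcases h with rfl | rfl | rfl | rfl <;> refine ⟨rfl, ?_⟩ <;> intro x hx <;> simp at hx <;> omega

/-- **an inner word of a window with beads is not a word of a right bare window** (words `0 .. 9, 13, 16, 18, 19`) -/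
theorem NodeM.rinner_lowR (h : NodeM k q R B S) (w0 : X k) {j : ℕ}
    (hj : j ∈ [0, 1, 2, 3, 4, 5, 6, 7, 8, 9, 13, 16, 18, 19])
    {q' n a : ℕ} {B1 s B' : BinaryTree Unit} (h' : NodeG k q' B1 (lv (n + 1) (lv2 a .nil)) s B')
    (w0' : X k) (hn : n = 0 ∨ 1 ≤ a) {i : ℕ} (hi : i ∈ [0, 1, 3, 6, 8, 9])
    (e : TT (gX q' B1 (lv (n + 1) (lv2 a .nil)) s B' w0' i) = H1.wX R B S q w0 j) : False := by
  have hj20 : j < 20 := by
    simp only [List.mem_cons, List.not_mem_nil, or_false] at hj
    omega
  obtain ⟨A, x, T, I, f1⟩ := NodeG.runsM h' w0' hi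
  set M := A ++ (List.replicate (2 * a) 2 ++ (List.replicate (2 * n + 1) 1 ++ (x :: T))) with hM
  have f0 : wd (TT (gX q' B1 (lv (n + 1) (lv2 a .nil)) s B' w0' i)).1 = ex true M.reverse := by
    have := mir_ex f1 I.even
    rw [← this]
    exact congrArg wd (Tsq.mir_mir _).symm
  rw [e, wX_eq h.dat h.size w0 hj20, ch_eq] at f0
  have g0 : Ge 1 A := by
    intro y hy
    rcases I.head with h1 | ⟨z, rfl, h1, _⟩
    · have := h1 y hy; omega
    · simp at hy; omega
  have g6 : Ge 1 M := by
    intro y hy
    simp only [hM, List.mem_append, List.mem_cons, List.mem_replicate] at hy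
    rcases hy with hy | hy | hy | rfl | hy
    · exact g0 y hy
    · omega
    · omega
    · have := I.hx; omega
    · exact I.pos y hy
  have g7 : Ge 1 M.reverse := ge_rev g6
  have m1 : 1 ∈ M := by
    rw [hM, List.replicate_succ]; simp
  rcases h.form3 hj with ⟨r, N, _, k1, k2, k3, _⟩ | ⟨r, N, k1, k2, k3⟩ | ⟨l, k1, k2⟩ | ⟨l, k1, k2⟩
  · have gN : Ge 1 N := by
      intro y hy
      simp only [NS, List.mem_cons, List.not_mem_nil, or_false] at k2
      rcases k2 with rfl | rfl | rfl | rfl | rfl | rfl | rfl <;> simp at hy <;> omega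
    have gp : Ge 1 (r ++ N) := by
      intro y hy
      rcases List.mem_append.1 hy with hy | hy
      · have := k1 y hy; omega
      · exact gN y hy
    have e2 := ex_inj _ _ true g7 gp (by rw [← k3, f0])
    have e3 : M = N.reverse ++ r.reverse := by
      rw [← List.reverse_append, ← e2, List.reverse_reverse]
    rcases NS_rev k2 with hN | hN
    · rw [hN] at e3
      rw [e3] at m1
      simp at m1
      have := k1 1 m1
      omega
    · exact core_H (n := 2 * n) I.odd I.head (by omega) I.hx hN (ge_rev k1) e3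
  · obtain ⟨n1, n2⟩ := NP_len k2
    have gp : Ge 1 (N ++ r) := by
      intro y hy
      rcases List.mem_append.1 hy with hy | hy
      · exact n2 y hy
      · have := k1 y hy; omega
    have e2 := ex_inj _ _ true g7 gp (by rw [← k3, f0])
    have e3 : M = r.reverse ++ N.reverse := by
      rw [← List.reverse_append, ← e2, List.reverse_reverse]
    rw [hM, ← List.append_assoc] at e3
    refine core_T (T := x :: T) (r := r.reverse) (N := N.reverse)
      (by rw [List.length_cons]; have := I.len; omega) ?_ (by rw [List.length_reverse, n1]) e3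
    intro y hy
    have := k1 y (List.mem_reverse.1 hy)
    omega
  · have gp : Ge 1 (1 :: l) := by
      intro y hy
      rcases List.mem_cons.1 hy with rfl | hy
      · exact le_rfl
      · exact k1 y hy
    have e2 := ex_inj _ _ true g7 gp (by rw [← k2, f0])
    obtain ⟨T', z, h1, h2⟩ := I.last
    have e3 : M.reverse = z :: (A ++ (List.replicate (2 * a) 2 ++ (List.replicate (2 * n + 1) 1 ++
      (x :: T')))).reverse := by
      rw [hM, h1]; simp
    rw [e3, List.cons.injEq] at e2
    omega
  · have gp : Ge 1 (l ++ [1]) := by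
      intro y hy
      rcases List.mem_append.1 hy with hy | hy
      · exact k1 y hy
      · simp at hy; omega
    have e2 := ex_inj _ _ true g7 gp (by rw [← k2, f0])
    obtain ⟨y, l', rfl⟩ := odd_ne I.odd
    have hy : 2 ≤ y := by
      rcases I.head with h1 | ⟨z, h0, h1, _⟩
      · have := h1 y (by simp); omega
      · simp at h0; omega
    have e3 := congrArg List.reverse e2
    rw [List.reverse_reverse, List.reverse_append, hM] at e3
    simp only [List.cons_append, List.reverse_cons, List.reverse_nil, List.nil_append,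
      List.cons.injEq] at e3
    omega

/-- **inner words of a right bare window, words of a window with beads** -/
theorem NodeM.rinner_G (h : NodeM k q R B S) (w0 : X k) {i : ℕ} (hi : i ∈ [0, 1, 3, 6, 8, 9])
    {q' n a : ℕ} {B1 s B' : BinaryTree Unit} (h' : NodeG k q' B1 (lv (n + 1) (lv2 a .nil)) s B')
    (w0' : X k) (hn : n = 0 ∨ 1 ≤ a) {j : ℕ} (hj : j < 20) :
    TT (H1.wX R B S q w0 i) ≠ gX q' B1 (lv (n + 1) (lv2 a .nil)) s B' w0' j := by
  intro e
  by_cases hl : j ∈ [0, 1, 2, 3, 4, 5, 6, 7, 8, 9, 13, 16, 18, 19]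
  · exact h.rinner_lowA w0 hi h' w0' hn hl e
  · have h3 : ∃ j' ∈ [0, 1, 3, 6, 8, 9],
        (j', j) ∈ [(0, 10), (1, 11), (3, 12), (6, 15), (8, 14), (9, 17)] := by
      simp only [List.mem_cons, List.not_mem_nil, or_false, not_or] at hl
      have : j = 10 ∨ j = 11 ∨ j = 12 ∨ j = 14 ∨ j = 15 ∨ j = 17 := by omega
      rcases this with rfl | rfl | rfl | rfl | rfl | rfl
      · exact ⟨0, by simp, by simp⟩
      · exact ⟨1, by simp, by simp⟩
      · exact ⟨3, by simp, by simp⟩
      · exact ⟨8, by simp, by simp⟩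
      · exact ⟨6, by simp, by simp⟩
      · exact ⟨9, by simp, by simp⟩
    obtain ⟨j', h4, h5⟩ := h3
    rw [← h'.link w0' h5] at e
    refine h.rinner_lowR w0 (j := i) ?_ h' w0' hn h4 (TT.injective e).symm
    simp only [List.mem_cons, List.not_mem_nil, or_false] at hi ⊢
    omega

/-- **inner words of a window with beads, words of a right bare window** -/
theorem NodeM.rinner_G' (h : NodeM k q R B S) (w0 : X k) {j : ℕ} (hj : j < 20)
    {q' n a : ℕ} {B1 s B' : BinaryTree Unit} (h' : NodeG k q' B1 (lv (n + 1) (lv2 a .nil)) s B')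
    (w0' : X k) (hn : n = 0 ∨ 1 ≤ a) {i : ℕ} (hi : i ∈ [0, 1, 3, 6, 8, 9]) :
    TT (gX q' B1 (lv (n + 1) (lv2 a .nil)) s B' w0' i) ≠ H1.wX R B S q w0 j := by
  intro e
  by_cases hl : j ∈ [0, 1, 2, 3, 4, 5, 6, 7, 8, 9, 13, 16, 18, 19]
  · exact h.rinner_lowR w0 hl h' w0' hn hi e
  · have h3 : ∃ j' ∈ [0, 1, 3, 6, 8, 9],
        (j', j) ∈ [(0, 10), (1, 11), (3, 12), (6, 15), (8, 14), (9, 17)] := by
      simp only [List.mem_cons, List.not_mem_nil, or_false, not_or] at hl
      have : j = 10 ∨ j = 11 ∨ j = 12 ∨ j = 14 ∨ j = 15 ∨ j = 17 := by omega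
      rcases this with rfl | rfl | rfl | rfl | rfl | rfl
      · exact ⟨0, by simp, by simp⟩
      · exact ⟨1, by simp, by simp⟩
      · exact ⟨3, by simp, by simp⟩
      · exact ⟨8, by simp, by simp⟩
      · exact ⟨6, by simp, by simp⟩
      · exact ⟨9, by simp, by simp⟩
    obtain ⟨j', h4, h5⟩ := h3
    rw [← wX_link h.dat h.size w0 h5] at e
    refine h.rinner_lowA w0 h4 h' w0' hn (j := i) ?_ (TT.injective e).symm
    simp only [List.mem_cons, List.not_mem_nil, or_false] at hi ⊢
    omega

/-! ### Right inner words, mirrored words -/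

/-- the first entry below `c` is determined -/
theorem first_lt {c : ℕ} : ∀ (A b : List ℕ) (u v : ℕ) (A' b' : List ℕ), Ge c A → Ge c b → u < c → v < c →
    A ++ (u :: A') = b ++ (v :: b') → A = b ∧ u = v ∧ A' = b' := by
  intro A
  induction A with
  | nil =>
    intro b u v A' b' _ hb hu hv e
    cases b with
    | nil =>
      rw [List.nil_append, List.nil_append, List.cons.injEq] at e
      exact ⟨rfl, e.1, e.2⟩
    | cons y b =>
      rw [List.nil_append, List.cons_append, List.cons.injEq] at e
      have := hb y (by simp)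
      omega
  | cons x A ih =>
    intro b u v A' b' hA hb hu hv e
    cases b with
    | nil =>
      rw [List.nil_append, List.cons_append, List.cons.injEq] at e
      have := hA x (by simp)
      omega
    | cons y b =>
      rw [List.cons_append, List.cons_append, List.cons.injEq] at e
      obtain ⟨h1, h2, h3⟩ := ih b u v A' b' (fun z hz => hA z (by simp [hz]))
        (fun z hz => hb z (by simp [hz])) hu hv e.2
      exact ⟨by rw [e.1, h1], h2, h3⟩

/-- two equal entries below `c` at different parities -/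
theorem two_lt {c d : ℕ} {ζ η b r : List ℕ} (hζ : Odd ζ.length) (hb : Even b.length) (gz : Ge c ζ)
    (gη : Ge c η) (hd : d < c) (e : ζ ++ ([d, d] ++ η) = b ++ ([d, d] ++ r)) : False := by
  have h1 := congrArg (List.count d) e
  have nz : ∀ l : List ℕ, Ge c l → List.count d l = 0 := by
    intro l hl
    rw [List.count_eq_zero]
    intro h
    have := hl d h
    omega
  rw [List.count_append, List.count_append, List.count_append, List.count_append, nz ζ gz, nz η gη] at h1
  have h2 : List.count d b = 0 := by omega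
  have gb' : Ge c b := by
    intro x hx
    have h3 : x ∈ ζ ++ ([d, d] ++ η) := by rw [e]; simp [hx]
    simp only [List.mem_append, List.mem_cons, List.not_mem_nil, or_false] at h3
    rcases h3 with h3 | (h3 | h3) | h3
    · exact gz x h3
    · exact absurd (h3 ▸ hx) (List.count_eq_zero.1 h2)
    · exact absurd (h3 ▸ hx) (List.count_eq_zero.1 h2)
    · exact gη x h3
  obtain ⟨h4, _, _⟩ := first_lt ζ b d d (d :: η) (d :: r) gz gb' hd hd e
  rw [h4] at hζ
  exact (Nat.not_even_iff_odd.2 hζ) hb

theorem core_L10 {q q' i : ℕ} {ζ η b r : List ℕ} (hi : i ∈ [0, 1, 3, 6, 8, 9]) (hζ : Odd ζ.length)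
    (gz : Ge (q + 3) ζ) (gη : Ge (q + 3) η) (hb : Even b.length) (gb : Ge (q' + 3) b) (gr : Ge (q' + 3) r)
    (e : ζ ++ (mr q i ++ η) = b ++ ([q' + 3, q' + 3] ++ r)) : i = 0 := by
  have g1 : ∀ x ∈ mr q i, q' + 3 ≤ x := by
    intro x hx
    have h3 : x ∈ b ++ ([q' + 3, q' + 3] ++ r) := by rw [← e]; simp [hx]
    simp only [List.mem_append, List.mem_cons, List.not_mem_nil, or_false] at h3
    rcases h3 with h3 | (h3 | h3) | h3
    · exact gb x h3
    · omega
    · omega
    · exact gr x h3
  have g2 : q' + 3 ∈ mr q i ∨ q + 3 ≤ q' + 3 := by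
    have h3 : q' + 3 ∈ ζ ++ (mr q i ++ η) := by rw [e]; simp
    rw [List.mem_append, List.mem_append] at h3
    rcases h3 with h3 | h3 | h3
    · exact Or.inr (gz _ h3)
    · exact Or.inl h3
    · exact Or.inr (gη _ h3)
  simp only [List.mem_cons, List.not_mem_nil, or_false] at hi
  rcases hi with rfl | rfl | rfl | rfl | rfl | rfl
  · rfl
  · have := g1 1 (by simp [mr]); omega
  · have := g1 1 (by simp [mr]); omega
  · exfalso
    have h1 := g1 (q + 2) (by simp [mr])
    have h2 : q' + 3 = q + 2 := by
      rcases g2 with g2 | g2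
      · simpa [mr] using g2
      · omega
    rw [h2] at e
    exact two_lt hζ hb gz gη (by omega) e
  · have := g1 1 (by simp [mr]); omega
  · exfalso
    have h1 := g1 (q + 1) (by simp [mr])
    have h2 : q' + 3 = q + 1 := by
      rcases g2 with g2 | g2
      · simpa [mr] using g2
      · omega
    rw [h2] at e
    exact two_lt hζ hb gz gη (by omega) e

theorem core_L11 {q i : ℕ} {ζ η b r : List ℕ} (hi : i ∈ [0, 1, 3, 6, 8, 9]) (hζ : Odd ζ.length)
    (gz : Ge 3 ζ) (gη : Ge 3 η) (hb : Even b.length) (gb : Ge 3 b)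
    (e : ζ ++ (mr q i ++ η) = b ++ (1 :: r)) : False := by
  have h1 : 1 ∈ mr q i := by
    have h2 : 1 ∈ ζ ++ (mr q i ++ η) := by rw [e]; simp
    rw [List.mem_append, List.mem_append] at h2
    rcases h2 with h2 | h2 | h2
    · have := gz 1 h2; omega
    · exact h2
    · have := gη 1 h2; omega
  have par : ∀ l : List ℕ, Odd l.length → l = b → False := by
    intro l hl h
    rw [h] at hl
    exact (Nat.not_even_iff_odd.2 hl) hb
  simp only [List.mem_cons, List.not_mem_nil, or_false] at hi
  rcases hi with rfl | rfl | rfl | rfl | rfl | rfl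
  · simp [mr] at h1
  · exact par ζ hζ (first_small ζ b 1 1 _ _ gz gb (by omega) (by omega) e).1
  · exact par ζ hζ (first_small ζ b 1 1 _ _ gz gb (by omega) (by omega) e).1
  · simp [mr] at h1
  · rcases Nat.lt_or_ge q 2 with hq | hq
    · interval_cases q
      · have := (first_small ζ b 2 1 _ _ gz gb (by omega) (by omega) e).2.1
        omega
      · have e' : (ζ ++ [3]) ++ (2 :: (1 :: 1 :: η)) = b ++ (1 :: r) := by
          rw [← e]; simp [mr]
        have := (first_small (ζ ++ [3]) b 2 1 _ _ (by
          intro y hy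
          rcases List.mem_append.1 hy with hy | hy
          · exact gz y hy
          · simp at hy; omega) gb (by omega) (by omega) e').2.1
        omega
    · have e' : (ζ ++ [q + 2, q + 1]) ++ (1 :: (1 :: η)) = b ++ (1 :: r) := by
          rw [← e]; simp [mr]
      have h2 := (first_small (ζ ++ [q + 2, q + 1]) b 1 1 _ _ (by
          intro y hy
          rcases List.mem_append.1 hy with hy | hy
          · exact gz y hy
          · simp at hy; omega) gb (by omega) (by omega) e').1
      refine par _ ?_ h2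
      rw [List.length_append]
      exact hζ.add_even (by simp)
  · obtain rfl : q = 0 := by simp [mr] at h1; omega
    exact par ζ hζ (first_small ζ b 1 1 _ _ gz gb (by omega) (by omega) e).1

theorem core_L14 {q q' i : ℕ} {ζ η N r : List ℕ} (hi : i ∈ [0, 1, 3, 6, 8, 9]) (hζ : Odd ζ.length)
    (gz : Ge (q + 3) ζ)
    (hN : N ∈ [[q' + 2, q' + 1, 1, 1], [q' + 2, q' + 2], [q' + 1, q' + 1]]) (gr : Ge (q' + 3) r)
    (e : ζ ++ (mr q i ++ η) = N ++ r) : False := by
  rcases odd_cases hζ with ⟨y, rfl⟩ | ⟨y1, y2, y3, t, rfl⟩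
  · have y3 : q + 3 ≤ y := gz y (by simp)
    simp only [List.mem_cons, List.not_mem_nil, or_false] at hi hN
    rcases hi with rfl | rfl | rfl | rfl | rfl | rfl <;> rcases hN with rfl | rfl | rfl <;>
      simp only [mr, List.cons_append, List.nil_append, List.cons.injEq] at e <;>
      first
      | omega
      | (obtain ⟨e1, e2, e3⟩ := e
         have h1 := gr _ (e3 ▸ List.mem_cons_self)
         omega)
      | (obtain ⟨e1, e2, e3, e4, e5⟩ := e
         have h1 := gr _ (e5 ▸ List.mem_cons_self)
         omega)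
  · have g1 : q + 3 ≤ y1 := gz y1 (by simp)
    have g3 : q + 3 ≤ y3 := gz y3 (by simp)
    have g4 : ∃ x ∈ mr q i, x ≤ q + 3 := by
      simp only [List.mem_cons, List.not_mem_nil, or_false] at hi
      rcases hi with rfl | rfl | rfl | rfl | rfl | rfl
      · exact ⟨q + 3, by simp [mr], le_rfl⟩
      · exact ⟨1, by simp [mr], by omega⟩
      · exact ⟨1, by simp [mr], by omega⟩
      · exact ⟨q + 2, by simp [mr], by omega⟩
      · exact ⟨1, by simp [mr], by omega⟩
      · exact ⟨q + 1, by simp [mr], by omega⟩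
    obtain ⟨x, hx, hx2⟩ := g4
    simp only [List.mem_cons, List.not_mem_nil, or_false] at hN
    rcases hN with rfl | rfl | rfl
    · simp only [List.cons_append, List.nil_append, List.cons.injEq] at e
      omega
    · simp only [List.cons_append, List.nil_append, List.cons.injEq] at e
      have := gr x (by rw [← e.2.2]; simp [hx])
      omega
    · simp only [List.cons_append, List.nil_append, List.cons.injEq] at e
      have := gr x (by rw [← e.2.2]; simp [hx])
      omega

/-- **the forms of the link ends** -/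
theorem NodeM.form4 (h : NodeM k q R B S) {j : ℕ} (hj : j ∈ [10, 11, 12, 14, 15, 17]) :
    (j = 10 ∧ ∃ b r : List ℕ, Even b.length ∧ Ge (q + 3) b ∧ Ge (q + 3) r ∧
      wd (W R (pc (q + 1)) B S j) = ex true (b ++ ([q + 3, q + 3] ++ r))) ∨
    (∃ b r : List ℕ, Even b.length ∧ Ge 3 b ∧ Ge 1 r ∧ wd (W R (pc (q + 1)) B S j) = ex true (b ++ (1 :: r))) ∨
    (∃ r : List ℕ, Ge 1 r ∧ wd (W R (pc (q + 1)) B S j) = ex true (r ++ [1, 1, q + 1, q + 1])) ∨
    (∃ N r : List ℕ, N ∈ [[q + 2, q + 1, 1, 1], [q + 2, q + 2], [q + 1, q + 1]] ∧ Ge (q + 3) r ∧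
      wd (W R (pc (q + 1)) B S j) = ex true (N ++ r)) := by
  have hc : 2 ≤ q + 3 := by omega
  have hSn : S ≠ .nil := by
    rintro rfl
    have h1 := h.dat.htS
    have h2 := h.top
    rw [ht] at h1
    omega
  have hB : ∀ x ∈ cont B, q + 3 ≤ x := by
    intro x hx
    apply h.part
    rw [← h.eq]
    exact Multiset.mem_add.2 (Or.inl hx)
  have hS : ∀ x ∈ cont S, q + 3 ≤ x := by
    intro x hx
    apply h.part
    rw [← h.eq]
    exact Multiset.mem_add.2 (Or.inr hx)
  obtain ⟨⟨s0, g1, g2, g3, g4⟩, ⟨s1, k1, k2, k3, k4⟩, ⟨s2, n1, n2, n3, n4⟩, ⟨s3, o1, o2, o3, o4⟩, _, _⟩ :=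
    runs_of hc hSn hS
  obtain ⟨rB, b1, b2, b3, _⟩ := hv_runs hc B hB
  have to3 : ∀ {l : List ℕ}, Ge (q + 3) l → Ge 3 l := fun h x hx => by
    have := h x hx; omega
  have ap : ∀ {c : ℕ} {l l' : List ℕ}, Ge c l → Ge c l' → Ge c (l ++ l') := by
    intro c l l' h1 h2 x hx
    rcases List.mem_append.1 hx with hx | hx
    · exact h1 x hx
    · exact h2 x hx
  simp only [List.mem_cons, List.not_mem_nil, or_false] at hj
  rcases hj with rfl | rfl | rfl | rfl | rfl | rfl
  · -- 10
    left
    refine ⟨rfl, rB, s0, b2, b3, g3, ?_⟩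
    change wd (app B ((pc (q + 1) △ .nil) △ S)) = _
    rw [wd_app, wd_node, wd_node, wd_q, b1, g4, ex_even b2]
    simp [ex, wd, rep1, List.replicate_succ]
  · -- 11
    right; left
    refine ⟨rB, [1, q + 1, q + 1, 1, 1] ++ s0, b2, to3 b3, ?_, ?_⟩
    · intro x hx
      rcases List.mem_append.1 hx with hx | hx
      · simp at hx; omega
      · have := g3 x hx; omega
    · change wd (app B (.nil △ app (pc (q + 1)) (.nil △ S))) = _
      rw [wd_app, wd_node, wd_app, wd_node, wd_q, b1, g4, ex_even b2]
      simp [ex, wd]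
  · -- 12
    right; right; left
    refine ⟨s3 ++ rB, ?_, ?_⟩
    · intro x hx
      have := (ap o3 b3) x hx
      omega
    · change wd (S △ app B (.nil △ pc (q + 1))) = _
      rw [wd_node, o4, wd_app, wd_node, wd_q, b1, List.append_assoc, ex_even o2, ex_even b2]
      simp [ex, wd]
  · -- 14
    right; right; right
    refine ⟨[q + 2, q + 1, 1, 1], s2 ++ rB, by simp, ap n3 b3, ?_⟩
    change wd (app (pc (q + 1)) (.nil △ S) △ B) = _
    have e1 : ex true (s2 ++ rB) = wd S ++ false :: wd B := by
      rw [ex_even n2, b1, n4]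
    rw [wd_node, wd_app, wd_node, wd_q, ex_even (by simp; decide), e1]
    simp [ex, wd, rep1, List.replicate_succ]
  · -- 15
    right; right; right
    refine ⟨[q + 2, q + 2], s3 ++ rB, by simp, ap o3 b3, ?_⟩
    change wd (pc (q + 1) △ (S △ B)) = _
    have e1 : ex true (s3 ++ rB) = wd (S △ B) := by
      rw [ex_even o2, wd_node, b1, o4]
    rw [wd_node, wd_q, ex_even (by simp), e1]
    simp [ex, wd, rep1, List.replicate_succ]
  · -- 17
    right; right; right
    have e1 : wd (S △ B) = ex true (s3 ++ rB) := by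
      rw [ex_even o2, wd_node, b1, o4]
    obtain ⟨r', p1, p2, p3, p4⟩ := ex_par (c := q + 3) (r := s3 ++ rB) (by
      rw [List.length_append]; exact o2.add b2) (by simp [o1]) (ap o3 b3)
    refine ⟨[q + 1, q + 1], r', by simp, p3, ?_⟩
    change wd (app (pc (q + 1)) ((S △ B) △ .nil)) = _
    have e2 := p4 []
    rw [List.append_nil] at e2
    rw [wd_app, wd_node, wd_q, ex_even (show Even [q + 1, q + 1].length by simp) true r', ← e2, ← e1]
    simp [ex, wd]

/-- **an inner word of a right bare window is a word of a mirrored bare window only if both are on the new T-cycle** -/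
theorem NodeM.rinner_M (h : NodeM k q R B S) (w0 : X k) {i : ℕ} (hi : i ∈ [0, 1, 3, 6, 8, 9])
    {q' : ℕ} {R' B' S' : BinaryTree Unit} (h' : NodeM k q' R' B' S') (w0' : X k) {j : ℕ} (hj : j < 20)
    (e : TT (H1.wX R B S q w0 i) = mX R' B' S' q' w0' j) : i = 0 ∧ (j = 0 ∨ j = 10) := by
  obtain ⟨ζ, η, f1, f2, f3, f4, f5⟩ := h.runs w0 hi
  obtain ⟨m1, m2, m3⟩ := mr_rev (q := q) hi
  have hs0 : sg i = 0 → i = 0 := by
    simp only [List.mem_cons, List.not_mem_nil, or_false] at hi
    rcases hi with rfl | rfl | rfl | rfl | rfl | rfl <;> simp [sg]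
  have hl := even3 (q := q) hi f2 f3
  have e1 : wd (Tsq.mirX (TT (H1.wX R B S q w0 i))).1 =
      ex true (η.reverse ++ (mr q (sg i) ++ ζ.reverse)) := by
    have := mir_ex f1 hl
    rw [List.reverse_append, List.reverse_append, m1, List.append_assoc] at this
    exact this
  have e2 : Tsq.mirX (TT (H1.wX R B S q w0 i)) = H1.wX R' B' S' q' w0' j := by
    rw [e]
    exact mirX_mirX _
  rw [e2, wX_eq h'.dat h'.size w0' hj, ch_eq] at e1
  have g1 : Odd η.reverse.length := by rw [List.length_reverse]; exact f3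
  have g2 : Odd ζ.reverse.length := by rw [List.length_reverse]; exact f2
  have g3 : Ge (q + 3) η.reverse := ge_rev f5
  have g4 : Ge (q + 3) ζ.reverse := ge_rev f4
  have to3 : ∀ {l : List ℕ}, Ge (q + 3) l → Ge 3 l := fun h x hx => by
    have := h x hx; omega
  generalize η.reverse = η' at e1 g1 g3
  generalize ζ.reverse = ζ' at e1 g2 g4
  have g6 := ge_mid m2 g3 g4
  have hl' := even3 (q := q) m2 g1 g2
  have hη0 : η' ≠ [] := by rintro rfl; simp at g1
  have hζ0 : ζ' ≠ [] := by rintro rfl; simp at g2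
  by_cases hl2 : j ∈ [0, 1, 2, 3, 4, 5, 6, 7, 8, 9, 13, 16, 18, 19]
  · rcases h'.form hl2 with ⟨r, N, k1, k2, k3, k4, k5⟩ | ⟨r, N, k1, k3, k4⟩ | ⟨l, k1, k2⟩ | ⟨l, k1, k2⟩
    · have gp : Ge 1 (r ++ N) := by
        intro x hx
        rcases List.mem_append.1 hx with hx | hx
        · have := k2 x hx; omega
        · simp only [NS, List.mem_cons, List.not_mem_nil, or_false] at k3
          rcases k3 with rfl | rfl | rfl | rfl | rfl | rfl | rfl <;> simp at hx <;> omega
      have e3 := ex_inj _ _ true g6 gp (by rw [← k4, e1])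
      obtain ⟨j1, j2⟩ := core_S m2 hη0 g2 g3 g4 k1 k2 k3 e3
      exact ⟨hs0 j1, Or.inl (k5 j2)⟩
    · exfalso
      have gp : Ge 1 (N ++ r) := by
        intro x hx
        rcases List.mem_append.1 hx with hx | hx
        · exact (NP_len k3).2 x hx
        · exact k1 x hx
      have e3 := ex_inj _ _ true g6 gp (by rw [← k4, e1])
      exact core_P m2 g1 g3 k3 e3
    · exfalso
      have gp : Ge 1 (1 :: l) := by
        intro x hx
        rcases List.mem_cons.1 hx with rfl | hx
        · exact le_rfl
        · exact k1 x hx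
      have e3 := ex_inj _ _ true g6 gp (by rw [← k2, e1])
      obtain ⟨y, l', rfl⟩ := odd_ne g1
      rw [List.cons_append, List.cons.injEq] at e3
      have := g3 y (by simp)
      omega
    · exfalso
      have gp : Ge 1 (l ++ [1]) := by
        intro x hx
        rcases List.mem_append.1 hx with hx | hx
        · exact k1 x hx
        · simp at hx; omega
      have e3 := ex_inj _ _ true g6 gp (by rw [← k2, e1])
      obtain ⟨l', y, rfl⟩ := exists_snoc hζ0
      rw [← List.append_assoc, ← List.append_assoc] at e3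
      have e4 := (List.append_inj' e3 rfl).2
      have := g4 y (by simp)
      simp at e4
      omega
  · have hl3 : j ∈ [10, 11, 12, 14, 15, 17] := by
      simp only [List.mem_cons, List.not_mem_nil, or_false, not_or] at hl2 ⊢
      omega
    rcases h'.form4 hl3 with ⟨j10, b, r, k1, k2, k3, k4⟩ | ⟨b, r, k1, k2, k3, k4⟩ | ⟨r, k1, k2⟩ |
      ⟨N, r, k1, k2, k3⟩
    · have gp : Ge 1 (b ++ ([q' + 3, q' + 3] ++ r)) := by
        intro x hx
        simp only [List.mem_append, List.mem_cons, List.not_mem_nil, or_false] at hx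
        rcases hx with hx | (hx | hx) | hx
        · have := k2 x hx; omega
        · omega
        · omega
        · have := k3 x hx; omega
      have e3 := ex_inj _ _ true g6 gp (by rw [← k4, e1])
      exact ⟨hs0 (core_L10 m2 g1 g3 g4 k1 k2 k3 e3), Or.inr j10⟩
    · exfalso
      have gp : Ge 1 (b ++ (1 :: r)) := by
        intro x hx
        simp only [List.mem_append, List.mem_cons] at hx
        rcases hx with hx | hx | hx
        · have := k2 x hx; omega
        · omega
        · exact k3 x hx
      have e3 := ex_inj _ _ true g6 gp (by rw [← k4, e1])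
      exact core_L11 m2 g1 (to3 g3) (to3 g4) k1 k2 e3
    · exfalso
      have gp : Ge 1 (r ++ [1, 1, q' + 1, q' + 1]) := by
        intro x hx
        rcases List.mem_append.1 hx with hx | hx
        · exact k1 x hx
        · simp at hx; omega
      have e3 := ex_inj _ _ true g6 gp (by rw [← k2, e1])
      obtain ⟨n1, n2, _⟩ := mr_rev (q := q) m2
      have e4 : ζ'.reverse ++ (mr q (sg (sg i)) ++ η'.reverse) = [q' + 1, q' + 1, 1, 1] ++ r.reverse := by
        have := congrArg List.reverse e3
        rw [List.reverse_append, List.reverse_append, n1, List.reverse_append, List.append_assoc] at this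
        simpa using this
      exact core_P (q' := q') n2 (by rw [List.length_reverse]; exact g2) (ge_rev g4) (by simp [NP]) e4
    · exfalso
      have gp : Ge 1 (N ++ r) := by
        intro x hx
        rcases List.mem_append.1 hx with hx | hx
        · simp only [List.mem_cons, List.not_mem_nil, or_false] at k1
          rcases k1 with rfl | rfl | rfl <;> simp at hx <;> omega
        · have := k2 x hx; omega
      have e3 := ex_inj _ _ true g6 gp (by rw [← k3, e1])
      exact core_L14 m2 g1 g3 k1 k2 e3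

end HM

end Pool.OddHC
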