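import Pool.Agent.Work.MP_8f87b2_h60.TyA0

/-!
# MP_8f87b2_co: the mirrored bead free window merged with the E pair of its words 1, 11 and 2

`X = Q()R'`: word 3 is the host `(X)`, word 1 is `()X`, word 2 is `X()`. The content of words 1, 2, 11 has
`card = card (cont R) + 3`, all other words (but word 18 for `B = e`) have smaller cardinalities.
-/

set_option autoImplicit false

namespace Pool.OddHC

namespace HM

open Finset BinaryTree Multiset Equiv H1

variable {k : ℕ}

theorem card_raise (M : Multiset ℕ) : Multiset.card (raise M) = max 1 (Multiset.card M) := by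
  by_cases h : M = 0
  · subst h
    rfl
  · have h1 : 0 < Multiset.card M := Multiset.card_pos.2 h
    have h2 := Multiset.card_erase_add_one (sup_mem h)
    unfold raise
    rw [Multiset.card_cons]
    omega

/-- number of solitons -/
def cc (t : BinaryTree Unit) : ℕ := Multiset.card (cont t)

theorem cc_nil : cc .nil = 0 := rfl

theorem cc_node (A B : BinaryTree Unit) : cc (A △ B) = max 1 (cc A) + cc B := by
  unfold cc
  rw [cont_node, Multiset.card_add, card_raise]

theorem cc_app (A B : BinaryTree Unit) : cc (app A B) = cc A + cc B := by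
  unfold cc
  rw [cont_app, Multiset.card_add]

theorem cc_mir (A : BinaryTree Unit) : cc (Tsq.mir A) = cc A := by
  unfold cc
  rw [cont_mir]

theorem cc_pc (n : ℕ) : cc (pc (n + 1)) = 1 := by
  unfold cc
  rw [cont_pc, Multiset.card_singleton]

theorem cc_pos {t : BinaryTree Unit} (h : t ≠ .nil) : 0 < cc t :=
  Multiset.card_pos.2 (fun e => h (cont_eq_zero.1 e))

theorem cc_eq_zero {t : BinaryTree Unit} (h : cc t = 0) : t = .nil := by
  by_contra h1
  have := cc_pos h1
  omega

variable {q : ℕ} {R B S : BinaryTree Unit}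

theorem NodeM.cc_eq (h : NodeM k q R B S) : cc B + cc S = cc R := by
  unfold cc
  rw [← h.eq, Multiset.card_add]

theorem NodeM.cc_S (h : NodeM k q R B S) : 0 < cc S := by
  apply cc_pos
  rintro rfl
  have h1 := h.dat.htS
  have h2 := h.top
  rw [ht] at h1
  omega

theorem NodeM.cc_R (h : NodeM k q R B S) : 2 ≤ cc R := h.cardR

/-- the number of solitons of the words -/
theorem NodeM.cc_word (h : NodeM k q R B S) (w0 : X k) : ∀ i < 20,
    (i = 1 ∨ i = 2 ∨ i = 11 → cc (mX R B S q w0 i).1 = cc R + 3) ∧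
    (i ≠ 1 → i ≠ 2 → i ≠ 11 → (i = 18 → B ≠ .nil) → cc (mX R B S q w0 i).1 < cc R + 3) ∧
    (i = 0 ∨ i = 10 → cc (mX R B S q w0 i).1 = cc R + 1) := by
  have e := h.cc_eq
  have eS := h.cc_S
  have eR := h.cc_R
  intro i hi
  rw [h.word' w0 hi]
  interval_cases i <;> refine ⟨?_, ?_, ?_⟩ <;> intro h1 <;> try (simp at h1; done)
  all_goals
    try intro h2
    try intro h3
    try intro h4
    simp only [aw, cc_node, cc_nil, cc_app, cc_mir, cc_pc]
    try (simp at h1 h2 h3; done)
    try (have h5 := cc_pos (h4 rfl); omega)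
    try omega

/-- the T-cycles of words 0, 1 are different -/
theorem NodeM.h01 (h : NodeM k q R B S) (w0 : X k) :
    ¬ TT.SameCycle (mX R B S q w0 0) (mX R B S q w0 1) := by
  intro hs
  have h1 := (h.cc_word w0 0 (by norm_num)).2.2 (Or.inl rfl)
  have h2 := (h.cc_word w0 1 (by norm_num)).1 (Or.inl rfl)
  have h3 : cc (mX R B S q w0 0).1 = cc (mX R B S q w0 1).1 := congrArg Multiset.card (cont_same hs)
  omega

theorem NodeM.h02 (h : NodeM k q R B S) (w0 : X k) :
    ¬ TT.SameCycle (mX R B S q w0 0) (mX R B S q w0 2) := by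
  intro hs
  have h1 := (h.cc_word w0 0 (by norm_num)).2.2 (Or.inl rfl)
  have h2 := (h.cc_word w0 2 (by norm_num)).1 (Or.inr (Or.inl rfl))
  have h3 : cc (mX R B S q w0 0).1 = cc (mX R B S q w0 2).1 := congrArg Multiset.card (cont_same hs)
  omega

theorem NodeM.same11 (h : NodeM k q R B S) (w0 : X k) :
    TT.SameCycle (mX R B S q w0 1) (mX R B S q w0 11) := by
  have h1 := h.link w0 (i := 1) (j := 11) (by simp)
  refine Perm.SameCycle.symm ⟨2, ?_⟩
  rw [show (2 : ℤ) = ((2 : ℕ) : ℤ) from rfl, zpow_natCast, pow_two, Perm.mul_apply, h1]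

/-- the other words are not on the T-cycles of the pair -/
theorem NodeM.holdY (h : NodeM k q R B S) (w0 : X k) {j : ℕ} (hj : j = 1 ∨ j = 2) : ∀ i < 20,
    i ≠ 1 → i ≠ 2 → i ≠ 11 → (i = 18 → B ≠ .nil) →
    ¬ TT.SameCycle (mX R B S q w0 j) (mX R B S q w0 i) := by
  intro i hi h1 h2 h11 h18 hs
  have h3 : cc (mX R B S q w0 j).1 = cc (mX R B S q w0 i).1 := congrArg Multiset.card (cont_same hs)
  have h4 := (h.cc_word w0 i hi).2.1 h1 h2 h11 h18
  have h5 := (h.cc_word w0 j (by omega)).1 (by omega)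
  omega

theorem NodeM.cont1 (h : NodeM k q R B S) (w0 : X k) :
    cont (mX R B S q w0 1).1 = cont R + {q + 1} + {1} + {1} := by
  rw [h.word' w0 (by norm_num), aw]
  simp only [cont_node, cont_app, cont_nil, cont_mir, cont_pc]
  have h1 : raise 0 = {1} := rfl
  rw [h1]
  abel

theorem NodeM.cont2 (h : NodeM k q R B S) (w0 : X k) :
    cont (mX R B S q w0 2).1 = cont R + {q + 1} + {1} + {1} := by
  rw [h.word' w0 (by norm_num), aw]
  simp only [cont_node, cont_app, cont_nil, cont_mir, cont_pc]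
  have h1 : raise 0 = {1} := rfl
  rw [h1]
  abel

theorem NodeM.cont0' (h : NodeM k q R B S) (w0 : X k) :
    cont (mX R B S q w0 0).1 = cont R + {q + 3} := h.cont0 w0

/-- all T-cycles of the merged window have the height of `R` -/
theorem NodeM.ht012 (h : NodeM k q R B S) (w0 : X k) {j : ℕ} (hj : j = 0 ∨ j = 1 ∨ j = 2) :
    ht (mX R B S q w0 j).1 = ht R := by
  have h1 := h.top
  rcases hj with rfl | rfl | rfl
  · rw [ht_eq, h.cont0 w0, sup_add', Multiset.sup_singleton, ← ht_eq]
    omega
  · rw [ht_eq, h.cont1 w0, sup_add', sup_add', sup_add', Multiset.sup_singleton,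
      Multiset.sup_singleton, ← ht_eq]
    omega
  · rw [ht_eq, h.cont2 w0, sup_add', sup_add', sup_add', Multiset.sup_singleton,
      Multiset.sup_singleton, ← ht_eq]
    omega

/-- the old words of the merged window are strictly higher, but 4, 5 and, if `B` is lower than `R`, 13, 16, 18 -/
theorem NodeM.htB (h : NodeM k q R B S) (w0 : X k) : ∀ i < 20,
    i = 3 ∨ i = 6 ∨ i = 7 ∨ i = 8 ∨ i = 9 ∨ i = 12 ∨ i = 14 ∨ i = 15 ∨ i = 17 ∨ i = 19 →
    ht R < ht (mX R B S q w0 i).1 := by
  have h1 := h.top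
  have h2 := h.dat.htS
  have h3 := h.dat.htB
  intro i hi hh
  rw [h.word' w0 hi]
  rcases hh with rfl | rfl | rfl | rfl | rfl | rfl | rfl | rfl | rfl | rfl <;>
    simp only [aw, ht_node, ht_app, ht_mir, ht_pc] <;>
    (try rw [show ht BinaryTree.nil = 0 from rfl]) <;>
    (try rw [h2]) <;> omega

end HM

end Pool.OddHC
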